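import Mathlib
import Pool.Agent.Work.MP_33c50c_an.Defs
import Pool.Agent.Work.MP_33c50c_an.PK.Defs

/-!
# MP_33c50c_an, block SK: packings in parallelograms, definitions
-/

set_option autoImplicit false

open MeasureTheory Set
open scoped ENNReal ContDiff

namespace Pool.Agent.Work.MP_33c50c_an.SK

open Pool.Agent.Work.MP_33c50c_an

/-- A packing in parallelograms: `p` copies of `Ω` are cut along vertical segments (the `q`-th copy
over the points `t q 0 < t q 1 < ... < t q (n q) = t q 0 + 2π` of the circle), and the pieces are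
placed without overlap in the parallelograms `{0 < x < L ρ, σ ρ x < y < σ ρ x + H ρ}`, the piece
`(q, i)` in the parallelogram `r q i`, whose width is the width of the piece. The parallelograms
have slopes `σ ρ` at most `1/2` and are at least `400` times as wide as they are high, or they are
rectangles (`σ ρ = 0`) at least four times as wide as they are high. -/
structure SkewPacking (Ω : Set Cyl) where
  /-- number of copies -/
  p : ℕ
  /-- number of parallelograms -/
  nR : ℕ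
  /-- widths -/
  L : Fin nR → ℝ
  /-- heights -/
  H : Fin nR → ℝ
  /-- slopes -/
  σ : Fin nR → ℝ
  /-- number of pieces of a copy -/
  n : Fin p → ℕ
  /-- the cuts -/
  t : Fin p → ℕ → ℝ
  /-- the parallelogram of a piece -/
  r : Fin p → ℕ → Fin nR
  /-- left-right reflection -/
  sx : Fin p → ℕ → Bool
  /-- upside down reflection -/
  sy : Fin p → ℕ → Bool
  /-- vertical shift -/
  c : Fin p → ℕ → ℝ
  p_pos : 0 < p
  L_pos : ∀ ρ, 0 < L ρ
  H_nonneg : ∀ ρ, 0 ≤ H ρ
  thin : ∀ ρ, (σ ρ = 0 ∧ 4 * H ρ ≤ L ρ) ∨ (|σ ρ| ≤ 1 / 2 ∧ 400 * H ρ ≤ L ρ)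
  around : ∀ q, t q (n q) = t q 0 + 2 * Real.pi
  width : ∀ q i, i < n q → t q (i + 1) = t q i + L (r q i)
  inside : ∀ q i, i < n q → ∀ x ∈ Ioo 0 (L (r q i)), ∀ y : ℝ,
    PK.place (t q i) (L (r q i)) (sx q i) (sy q i) (c q i) x y ∈ Ω →
      σ (r q i) * x < y ∧ y < σ (r q i) * x + H (r q i)
  disj : ∀ q i q' i', i < n q → i' < n q' → (q, i) ≠ (q', i') → r q i = r q' i' →
    ∀ x ∈ Ioo 0 (L (r q i)), ∀ y : ℝ,
    ¬ (PK.place (t q i) (L (r q i)) (sx q i) (sy q i) (c q i) x y ∈ Ω ∧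
      PK.place (t q' i') (L (r q' i')) (sx q' i') (sy q' i') (c q' i') x y ∈ Ω)

/-- the second term: `1/4` for rectangles, `1/32` for other parallelograms. -/
noncomputable def gap (s : ℝ) : ℝ := if s = 0 then 1 / 4 else 1 / 32

/-- The bound for the number of eigenvalues `≤ lam`. -/
noncomputable def SkewPacking.bound {Ω : Set Cyl} (P : SkewPacking Ω) (lam : ℝ) : ℝ :=
  (∑ ρ, P.L ρ * Real.sqrt lam * max 0 (P.H ρ * Real.sqrt lam - gap (P.σ ρ))) /
    (4 * Real.pi * P.p)

/-- (1) the counting function is at most the bound of any packing. -/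
def SBound : Prop :=
  ∀ Ω : Set Cyl, IsOpen Ω → ∀ P : SkewPacking Ω, ∀ k : ℕ, 1 ≤ k → ∀ lam : ℝ, 0 ≤ lam →
    eigenvalue Ω k ≤ ENNReal.ofReal lam → (k : ℝ) ≤ P.bound lam

/-- (2) a packing without waste gives Polya's inequality for all eigenvalues. -/
def SPerfect : Prop :=
  ∀ Ω : Set Cyl, IsOpen Ω → ∀ P : SkewPacking Ω,
    ENNReal.ofReal (∑ ρ, P.L ρ * P.H ρ) = P.p * volume Ω → SatisfiesPolya Ω

/-- (3) domains between the graphs of a piecewise affine function `f` (slopes `s i`) and `f + h`,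
where `h` is centrally symmetric (for example affine) on each interval of the partition, the
intervals being long compared with the height. -/
def SSym : Prop :=
  ∀ f h : AddCircle (2 * Real.pi) → ℝ, Continuous f → Continuous h → (∀ θ, 0 ≤ h θ) →
    ∀ (n : ℕ) (t s : ℕ → ℝ), t n = t 0 + 2 * Real.pi →
    (∀ i < n, t i < t (i + 1) ∧
      ((s i = 0 ∧
        4 * (h (t i : AddCircle (2 * Real.pi)) + h (t (i + 1) : AddCircle (2 * Real.pi))) ≤
          t (i + 1) - t i) ∨
        (|s i| ≤ 1 / 2 ∧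
        400 * (h (t i : AddCircle (2 * Real.pi)) + h (t (i + 1) : AddCircle (2 * Real.pi))) ≤
          t (i + 1) - t i)) ∧
      ∀ x ∈ Icc (t i) (t (i + 1)),
        f (x : AddCircle (2 * Real.pi)) = f (t i : AddCircle (2 * Real.pi)) + s i * (x - t i) ∧
        h (x : AddCircle (2 * Real.pi)) + h ((t i + t (i + 1) - x : ℝ) : AddCircle (2 * Real.pi)) =
        h (t i : AddCircle (2 * Real.pi)) + h (t (i + 1) : AddCircle (2 * Real.pi))) →
    SatisfiesPolya (PK.graphDomain f h)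

/-- (5) thin graph domains of class `C^{1,1}`: the inequality for all eigenvalues up to
`(1.4 * 10^8 κ η²)^(-2)`, and for all eigenvalues with a slightly larger area. -/
def SSmooth : Prop :=
  ∀ (f h : AddCircle (2 * Real.pi) → ℝ) (f' h' : ℝ → ℝ) (κ η : ℝ), 0 < κ → 0 < η →
    η ≤ 1 / 400 → κ * η ≤ 1 / 10 ^ 7 →
    (∀ x : ℝ, HasDerivAt (fun τ : ℝ => f (τ : AddCircle (2 * Real.pi))) (f' x) x) →
    (∀ x : ℝ, HasDerivAt (fun τ : ℝ => h (τ : AddCircle (2 * Real.pi))) (h' x) x) →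
    (∀ x y : ℝ, |f' x - f' y| ≤ κ * |x - y|) → (∀ x y : ℝ, |h' x - h' y| ≤ κ * |x - y|) →
    (∀ x : ℝ, |f' x| ≤ 1 / 2) → (∀ θ, 0 ≤ h θ ∧ h θ ≤ η) → ∀ k : ℕ, 1 ≤ k →
    (eigenvalue (PK.graphDomain f h) k ≤
        ENNReal.ofReal (1 / (14 * 10 ^ 7 * κ * η ^ 2) ^ 2) →
      ENNReal.ofReal (4 * Real.pi * k) / volume (PK.graphDomain f h) ≤
        eigenvalue (PK.graphDomain f h) k) ∧
    ENNReal.ofReal (4 * Real.pi * k) / (volume (PK.graphDomain f h) +
        ENNReal.ofReal (2 * 10 ^ 7 * κ * η ^ 2)) ≤ eigenvalue (PK.graphDomain f h) k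

/-- The statement. -/
def Statement : Prop := SBound ∧ SPerfect ∧ SSym ∧ PK.SLip ∧ SSmooth

end Pool.Agent.Work.MP_33c50c_an.SK
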