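import Pool.Agent.Work.MP_33c50c_an.SK.Stmts
import Pool.Agent.Work.MP_33c50c_an.Main

/-!
# Item Bound: the counting function is at most the bound of any packing
-/

set_option autoImplicit false

open MeasureTheory Set
open scoped ENNReal ContDiff

namespace Pool.Agent.Work.MP_33c50c_an.SK

open Pool.Agent.Work.MP_33c50c_an

theorem Bound_eps (h1 : SCount) {Ω : Set Cyl} (hΩ : IsOpen Ω) (P : SkewPacking Ω) {k : ℕ}
    (hk : 1 ≤ k) {lam : ℝ} (hlam : 0 ≤ lam) (hev : eigenvalue Ω k ≤ ENNReal.ofReal lam) {ε : ℝ}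
    (hε : 0 < ε) : (k : ℝ) ≤ P.bound (lam + ε) := by
  have hlt : eigenvalue Ω k < ENNReal.ofReal (lam + ε) :=
    lt_of_le_of_lt hev ((ENNReal.ofReal_lt_ofReal_iff (by linarith)).2 (by linarith))
  unfold eigenvalue at hlt
  rw [iInf_lt_iff] at hlt
  obtain ⟨V, hcon⟩ := hlt
  rw [iInf_lt_iff] at hcon
  obtain ⟨⟨hV, hVk⟩, hcon⟩ := hcon
  set s := ⨆ (u : Cyl → ℝ) (_ : u ∈ V ∧ u ≠ 0), ENNReal.ofReal (energy u / mass u) with hs
  have hstop : s ≠ ⊤ := ne_top_of_lt hcon
  have hlam' : s.toReal < lam + ε := by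
    rw [← ENNReal.ofReal_toReal hstop] at hcon
    exact (ENNReal.ofReal_lt_ofReal_iff (by linarith)).mp hcon
  have hR : ∀ u ∈ V, energy u ≤ s.toReal * mass u := by
    intro u hu
    by_cases h0 : u = 0
    · rw [h0, energy_zero, mass_zero, mul_zero]
    · have hm := mass_pos (hV u hu) h0
      have h1 : ENNReal.ofReal (energy u / mass u) ≤ s :=
        le_iSup₂ (f := fun (u : Cyl → ℝ) (_ : u ∈ V ∧ u ≠ 0) => ENNReal.ofReal (energy u / mass u))
          u ⟨hu, h0⟩
      have h2 : energy u / mass u ≤ s.toReal := (ENNReal.ofReal_le_iff_le_toReal hstop).mp h1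
      rwa [div_le_iff₀ hm] at h2
  exact h1 Ω hΩ P V hV k hVk hk s.toReal (lam + ε) hlam' (by linarith) hR

theorem Bound_cont {Ω : Set Cyl} (P : SkewPacking Ω) (lam : ℝ) :
    Continuous fun ε : ℝ => P.bound (lam + ε) := by
  unfold SkewPacking.bound
  refine Continuous.div_const ?_ _
  refine continuous_finsetSum _ fun ρ _ => ?_
  have h : Continuous fun ε : ℝ => Real.sqrt (lam + ε) :=
    Real.continuous_sqrt.comp (continuous_const.add continuous_id)
  exact (continuous_const.mul h).mul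
    (continuous_const.max ((continuous_const.mul h).sub continuous_const))

/-- Item Bound. -/
theorem Bound_proof (h1 : SCount) : SBound := by
  intro Ω hΩ P k hk lam hlam hev
  have h := (Bound_cont P lam).tendsto 0
  rw [add_zero] at h
  have h' : Filter.Tendsto (fun ε : ℝ => P.bound (lam + ε)) (nhdsWithin 0 (Ioi 0))
      (nhds (P.bound lam)) := h.mono_left nhdsWithin_le_nhds
  refine ge_of_tendsto h' ?_
  filter_upwards [self_mem_nhdsWithin] with ε hε
  exact Bound_eps h1 hΩ P hk hlam hev hε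

end Pool.Agent.Work.MP_33c50c_an.SK
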