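import Pool.Agent.Work.MP_33c50c_an.SK.Stmts

/-!
# MP_33c50c_an, block SK, item Cell: the counting function of a parallelogram
-/

set_option autoImplicit false

open MeasureTheory Set
open scoped ENNReal ContDiff

namespace Pool.Agent.Work.MP_33c50c_an.SK

/-- the reflected function -/
def Cell_T (s L : ℝ) (W : ℝ → ℝ → ℝ) (x y : ℝ) : ℝ := W (L - x) (y + s * L)

theorem Cell_C1 (s L : ℝ) {W : ℝ → ℝ → ℝ} (hW : C1 W) : C1 (Cell_T s L W) := by
  unfold C1 Cell_T at *
  have h : ContDiff ℝ 1 (fun q : ℝ × ℝ => (L - q.1, q.2 + s * L)) :=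
    (contDiff_const.sub contDiff_fst).prodMk (contDiff_snd.add contDiff_const)
  exact hW.comp h

theorem Cell_gr (s L : ℝ) (W : ℝ → ℝ → ℝ) (x y : ℝ) :
    gr (Cell_T s L W) x y = gr W (L - x) (y + s * L) := by
  have h1 : px (Cell_T s L W) x y = -px W (L - x) (y + s * L) := by
    unfold px Cell_T
    exact deriv_comp_const_sub (fun τ => W τ (y + s * L)) L x
  have h2 : py (Cell_T s L W) x y = py W (L - x) (y + s * L) := by
    unfold py Cell_T
    exact deriv_comp_add_const (fun τ => W (L - x) τ) (s * L) y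
  unfold gr
  rw [h1, h2, neg_sq]

theorem Cell_int (s L H : ℝ) (Z : ℝ → ℝ → ℝ) :
    ∫ x in (0:ℝ)..L, ∫ y in (-s * x)..(-s * x + H), Z (L - x) (y + s * L) =
      ∫ x in (0:ℝ)..L, ∫ y in (s * x)..(s * x + H), Z x y := by
  have h1 : ∀ x : ℝ, ∫ y in (-s * x)..(-s * x + H), Z (L - x) (y + s * L) =
      (fun x => ∫ y in (s * x)..(s * x + H), Z x y) (L - x) := by
    intro x
    rw [intervalIntegral.integral_comp_add_right (fun y => Z (L - x) y)]
    have e1 : -s * x + s * L = s * (L - x) := by ring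
    have e2 : -s * x + H + s * L = s * (L - x) + H := by ring
    rw [e1, e2]
  rw [intervalIntegral.integral_congr (fun x _ => h1 x),
    intervalIntegral.integral_comp_sub_left (fun x => ∫ y in (s * x)..(s * x + H), Z x y),
    sub_self, sub_zero]

theorem Cell_proof (h0 : SReg) (h1 : SFlat) (h2 : SCellP) : SCell := by
  clear h0
  intro s L H lam hL hH hs hlam
  have hsq : 0 < Real.sqrt lam := Real.sqrt_pos.2 hlam
  rcases hH.eq_or_lt with hH0 | hH0
  · subst hH0
    refine ⟨0, fun _ _ => 0, ?_, fun j => j.elim0, fun W _ _ _ => ?_⟩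
    · rw [Nat.cast_zero]
      positivity
    · simp
  rcases lt_trichotomy s 0 with hs0 | hs0 | hs0
  · have hs' : |s| ≤ 1 / 2 ∧ 400 * H ≤ L := by
      rcases hs with h | h
      · exact absurd h.1 hs0.ne
      · exact h
    have h3 : -s ≤ 1 / 2 := by
      rw [← abs_of_neg hs0]
      exact hs'.1
    obtain ⟨K, ℓ, hK, hℓ, hW⟩ := h2 (-s) L H lam hL hH0 (by linarith) h3 hs'.2 hlam
    have hg : gap s = 1 / 32 := by
      unfold gap
      rw [if_neg hs0.ne]
    refine ⟨K, fun j W => ℓ j (Cell_T s L W), by rw [hg]; exact hK, fun j => ⟨?_, ?_⟩, ?_⟩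
    · intro U V hU hV
      exact (hℓ j).1 (Cell_T s L U) (Cell_T s L V) (Cell_C1 s L hU) (Cell_C1 s L hV)
    · intro a U hU
      exact (hℓ j).2 a (Cell_T s L U) (Cell_C1 s L hU)
    · intro W hC hb hj
      have h4 := hW (Cell_T s L W) (Cell_C1 s L hC) (fun x hx => ?_) hj
      · have e1 := Cell_int s L H (fun x y => W x y ^ 2)
        have e2 := Cell_int s L H (fun x y => gr W x y)
        simp only [Cell_gr] at h4
        unfold Cell_T at h4
        rw [e1, e2] at h4
        exact h4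
      · have h5 : L - x ∈ Icc 0 L := ⟨by linarith [hx.2], by linarith [hx.1]⟩
        have e1 : -s * x + s * L = s * (L - x) := by ring
        have e2 : -s * x + H + s * L = s * (L - x) + H := by ring
        unfold Cell_T
        rw [e1, e2]
        exact hb _ h5
  · subst hs0
    have h4 : 4 * H ≤ L := by
      rcases hs with h | h
      · exact h.2
      · linarith [h.2]
    obtain ⟨K, ℓ, hK, hℓ, hW⟩ := h1 L H (Real.sqrt lam) hL hH0 h4 hsq
    have hg : gap 0 = 1 / 4 := by
      unfold gap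
      rw [if_pos rfl]
    refine ⟨K, ℓ, by rw [hg]; exact hK, hℓ, fun W hC hb hj => ?_⟩
    simp only [zero_mul, zero_add] at hb ⊢
    have h5 := hW W hC hb hj
    rw [Real.sq_sqrt hlam.le] at h5
    exact h5
  · have hs' : |s| ≤ 1 / 2 ∧ 400 * H ≤ L := by
      rcases hs with h | h
      · exact absurd h.1 hs0.ne'
      · exact h
    have h3 : s ≤ 1 / 2 := (le_abs_self s).trans hs'.1
    obtain ⟨K, ℓ, hK, hℓ, hW⟩ := h2 s L H lam hL hH0 hs0 h3 hs'.2 hlam
    have hg : gap s = 1 / 32 := by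
      unfold gap
      rw [if_neg hs0.ne']
    exact ⟨K, ℓ, by rw [hg]; exact hK, hℓ, hW⟩

end Pool.Agent.Work.MP_33c50c_an.SK
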