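import Pool.Agent.Work.MP_33c50c_an.SK.Stmts

/-!
# MP_33c50c_an, block SK, item CellP: the counting function of a parallelogram, positive slope
-/

set_option autoImplicit false

open MeasureTheory Set
open scoped ENNReal ContDiff

namespace Pool.Agent.Work.MP_33c50c_an.SK

theorem CellP_proof (h0 : SReg) (h1 : SLow) (h2 : SNum) (h3 : SPos) : SCellP := by
  clear h0
  intro s L H lam hL hH hs hs2 hLH hlam
  have hsq : 0 < Real.sqrt lam := Real.sqrt_pos.2 hlam
  have hpi := Real.pi_pos
  rcases le_or_gt (H * Real.sqrt lam) Real.pi with hc | hc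
  · refine ⟨0, fun _ _ => 0, ?_, fun j => j.elim0, fun W hW hb _ => ?_⟩
    · rw [Nat.cast_zero]
      positivity
    · exact h1 s L H lam hL hH hlam hc W hW hb
  · obtain ⟨μ, δ, hμ, hδ, hδH, hlm, hK2⟩ := h2 L H lam hH hLH hc
    have hs1 : 0 < 1 + s ^ 2 := by positivity
    have hcc : (1 / Real.sqrt (1 + s ^ 2)) ^ 2 * (1 + s ^ 2) = 1 := by
      rw [div_pow, one_pow, Real.sq_sqrt hs1.le]
      exact div_mul_cancel₀ 1 hs1.ne'
    obtain ⟨K, ℓ, hK, hℓ, hW⟩ := h3 (1 / Real.sqrt (1 + s ^ 2)) s L H δ μ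
      (by positivity) hs hs2 hcc hH hLH hδ hδH hμ
    refine ⟨K, ℓ, ?_, hℓ, fun W hC hb hj => ?_⟩
    · refine (hK.trans hK2).trans ?_
      refine div_le_div_of_nonneg_right ?_ (by positivity)
      exact mul_le_mul_of_nonneg_left (le_max_right _ _) (by positivity)
    · have h4 := hW W hC hb hj
      refine le_trans (mul_le_mul_of_nonneg_right hlm ?_) h4
      refine intervalIntegral.integral_nonneg hL.le fun x _ => ?_
      exact intervalIntegral.integral_nonneg (by linarith) fun y _ => sq_nonneg _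

end Pool.Agent.Work.MP_33c50c_an.SK
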