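import Pool.Agent.Work.MP_33c50c_an.SK.Stmts

/-! MP_33c50c_an, block SK: item Cells. -/

set_option autoImplicit false

open MeasureTheory Set
open scoped ENNReal ContDiff

namespace Pool.Agent.Work.MP_33c50c_an.SK

open Pool.Agent.Work.MP_33c50c_an

/-- translation and reflection. -/
def Cells_tr (p q e : ℝ) (V : ℝ → ℝ → ℝ) (x y : ℝ) : ℝ := V (p + x) (q + e * y)

theorem Cells_C1 (p q e : ℝ) {V : ℝ → ℝ → ℝ} (hV : C1 V) : C1 (Cells_tr p q e V) := by
  unfold C1 Cells_tr at *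
  have h : ContDiff ℝ 1 (fun z : ℝ × ℝ => ((p + z.1, q + e * z.2) : ℝ × ℝ)) := by fun_prop
  exact hV.comp h

theorem Cells_lin (p q e : ℝ) {ℓ : (ℝ → ℝ → ℝ) → ℝ} (h : IsLin ℓ) :
    IsLin (fun V => ℓ (Cells_tr p q e V)) :=
  ⟨fun _ _ hU hV => h.1 _ _ (Cells_C1 p q e hU) (Cells_C1 p q e hV),
    fun a _ hU => h.2 a _ (Cells_C1 p q e hU)⟩

theorem Cells_gr (h0 : SReg) (p q e : ℝ) (he : e ^ 2 = 1) {V : ℝ → ℝ → ℝ} (hV : C1 V)
    (x y : ℝ) : gr (Cells_tr p q e V) x y = gr V (p + x) (q + e * y) := by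
  obtain ⟨-, -, -, hx, hy⟩ := h0 V hV
  have e1 : px (Cells_tr p q e V) x y = px V (p + x) (q + e * y) := by
    have h1 : HasDerivAt (fun τ : ℝ => p + τ) 1 x := by
      simpa using (hasDerivAt_id x).const_add p
    have h2 := HasDerivAt.comp x (hx (p + x) (q + e * y)) h1
    rw [mul_one] at h2
    exact h2.deriv
  have e2 : py (Cells_tr p q e V) x y = py V (p + x) (q + e * y) * e := by
    have h1 : HasDerivAt (fun τ : ℝ => q + e * τ) e y := by
      simpa using ((hasDerivAt_id y).const_mul e).const_add q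
    have h2 := HasDerivAt.comp y (hy (p + x) (q + e * y)) h1
    exact h2.deriv
  unfold gr
  rw [e1, e2, mul_pow, he, mul_one]

theorem Cells_cont {F : ℝ → ℝ → ℝ} (hF : Continuous fun q : ℝ × ℝ => F q.1 q.2) {α β : ℝ → ℝ}
    (hα : Continuous α) (hβ : Continuous β) : Continuous fun x => ∫ y in (α x)..(β x), F x y := by
  have h1 : Continuous fun x => ∫ y in (0:ℝ)..(β x), F x y :=
    intervalIntegral.continuous_parametric_intervalIntegral_of_continuous (f := F) hF hβ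
  have h2 : Continuous fun x => ∫ y in (0:ℝ)..(α x), F x y :=
    intervalIntegral.continuous_parametric_intervalIntegral_of_continuous (f := F) hF hα
  have hi : ∀ x a b, IntervalIntegrable (fun y => F x y) volume a b := fun x a b =>
    (hF.comp (Continuous.prodMk_right x)).intervalIntegrable _ _
  have h3 : (fun x => ∫ y in (α x)..(β x), F x y) =
      fun x => (∫ y in (0:ℝ)..(β x), F x y) - ∫ y in (0:ℝ)..(α x), F x y := by
    funext x
    rw [intervalIntegral.integral_interval_sub_left (hi x _ _) (hi x _ _)]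
  rw [h3]
  exact h1.sub h2

theorem Cells_add {F G : ℝ → ℝ → ℝ} (hF : Continuous fun q : ℝ × ℝ => F q.1 q.2)
    (hG : Continuous fun q : ℝ × ℝ => G q.1 q.2) {α β : ℝ → ℝ} (hα : Continuous α)
    (hβ : Continuous β) (a b : ℝ) :
    ∫ x in a..b, ∫ y in (α x)..(β x), (F x y + G x y) =
      (∫ x in a..b, ∫ y in (α x)..(β x), F x y) + ∫ x in a..b, ∫ y in (α x)..(β x), G x y := by
  rw [← intervalIntegral.integral_add ((Cells_cont hF hα hβ).intervalIntegrable _ _)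
    ((Cells_cont hG hα hβ).intervalIntegrable _ _)]
  refine intervalIntegral.integral_congr fun x _ => ?_
  exact intervalIntegral.integral_add
    ((hF.comp (Continuous.prodMk_right x)).intervalIntegrable _ _)
    ((hG.comp (Continuous.prodMk_right x)).intervalIntegrable _ _)

theorem Cells_smul {F : ℝ → ℝ → ℝ} (r : ℝ) {α β : ℝ → ℝ} (a b : ℝ) :
    ∫ x in a..b, ∫ y in (α x)..(β x), r * F x y = r * ∫ x in a..b, ∫ y in (α x)..(β x), F x y := by
  rw [← intervalIntegral.integral_const_mul]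
  refine intervalIntegral.integral_congr fun x _ => ?_
  exact intervalIntegral.integral_const_mul _ _

/-- the density of the form. -/
noncomputable def Cells_q (μ : ℝ) (V : ℝ → ℝ → ℝ) (x y : ℝ) : ℝ := gr V x y - μ ^ 2 * V x y ^ 2

theorem Cells_qc (h0 : SReg) (μ : ℝ) {V : ℝ → ℝ → ℝ} (hV : C1 V) :
    Continuous fun q : ℝ × ℝ => Cells_q μ V q.1 q.2 := by
  obtain ⟨h1, h2, h3, -, -⟩ := h0 V hV
  unfold Cells_q gr
  exact ((h2.pow 2).add (h3.pow 2)).sub (continuous_const.mul (h1.pow 2))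

/-- one cell. -/
theorem Cells_one (h0 : SReg) {a μ : ℝ} {β : ℝ → ℝ} (hβ : Continuous β) {V₁ V₂ : ℝ → ℝ → ℝ}
    (h1 : C1 V₁) (h2 : C1 V₂)
    (h : μ ^ 2 * (∫ x in (0:ℝ)..a, ∫ y in (0:ℝ)..(β x), (V₁ x y ^ 2 + V₂ x y ^ 2)) ≤
      ∫ x in (0:ℝ)..a, ∫ y in (0:ℝ)..(β x), (gr V₁ x y + gr V₂ x y)) :
    0 ≤ (∫ x in (0:ℝ)..a, ∫ y in (0:ℝ)..(β x), Cells_q μ V₁ x y) +
      ∫ x in (0:ℝ)..a, ∫ y in (0:ℝ)..(β x), Cells_q μ V₂ x y := by
  obtain ⟨a1, a2, a3, -, -⟩ := h0 V₁ h1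
  obtain ⟨b1, b2, b3, -, -⟩ := h0 V₂ h2
  have c1 : Continuous fun q : ℝ × ℝ => (gr V₁ q.1 q.2 + gr V₂ q.1 q.2) := by
    unfold gr
    exact ((a2.pow 2).add (a3.pow 2)).add ((b2.pow 2).add (b3.pow 2))
  have c2 : Continuous fun q : ℝ × ℝ => -μ ^ 2 * (V₁ q.1 q.2 ^ 2 + V₂ q.1 q.2 ^ 2) :=
    continuous_const.mul ((a1.pow 2).add (b1.pow 2))
  rw [← Cells_add (F := Cells_q μ V₁) (G := Cells_q μ V₂) (Cells_qc h0 μ h1) (Cells_qc h0 μ h2)
    continuous_const hβ 0 a]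
  have e1 : ∫ x in (0:ℝ)..a, ∫ y in (0:ℝ)..(β x), (Cells_q μ V₁ x y + Cells_q μ V₂ x y) =
      ∫ x in (0:ℝ)..a, ∫ y in (0:ℝ)..(β x), ((gr V₁ x y + gr V₂ x y) +
        -μ ^ 2 * (V₁ x y ^ 2 + V₂ x y ^ 2)) := by
    refine intervalIntegral.integral_congr fun x _ => ?_
    refine intervalIntegral.integral_congr fun y _ => ?_
    simp only [Cells_q]
    ring
  rw [e1, Cells_add (F := fun x y => gr V₁ x y + gr V₂ x y)
    (G := fun x y => -μ ^ 2 * (V₁ x y ^ 2 + V₂ x y ^ 2)) c1 c2 continuous_const hβ 0 a,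
    Cells_smul]
  linarith

theorem Cells_proof (h0 : SReg) (h1 : SDCL) (h2 : SRotE) : SCells := by
  intro c s H δ μ x₃ y₃ hc hs hs2 hcs hH hδ hδH hμ hx3 hy3
  have hpi := Real.pi_pos
  have hc1 : c ≤ 1 := by
    by_contra h
    push Not at h
    have : 1 < c ^ 2 * (1 + s ^ 2) := by nlinarith [sq_nonneg (c * s)]
    linarith
  have hc2 : c ^ 2 ≤ 1 := by nlinarith
  have hx3' : x₃ = c * δ + s * c ^ 2 * H := by rw [hx3]; ring
  have hcδ : 0 < c * δ := by positivity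
  have hd : 0 < s * c ^ 2 * H := by positivity
  have hx30 : 0 < x₃ := by rw [hx3']; positivity
  have hy30 : 0 < y₃ := by rw [hy3]; positivity
  have hcδH : c * δ ≤ H := by
    calc c * δ ≤ 1 * H := mul_le_mul hc1 hδH hδ.le zero_le_one
      _ = H := one_mul H
  have hdH : s * c ^ 2 * H ≤ 1 / 2 * H := by
    have : s * c ^ 2 ≤ 1 / 2 * 1 := mul_le_mul hs2 hc2 (by positivity) (by norm_num)
    have := mul_le_mul_of_nonneg_right this hH.le
    linarith
  have hy3H : y₃ ≤ H := by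
    rw [hy3, hx3']
    have e1 : s * (c * δ) ≤ 1 / 2 * H := mul_le_mul hs2 hcδH hcδ.le (by norm_num)
    have e2 : s * (s * c ^ 2 * H) ≤ 1 / 2 * (1 / 2 * H) := mul_le_mul hs2 hdH hd.le (by norm_num)
    nlinarith
  -- the three families
  obtain ⟨K₁, A₁, B₁, hK₁, hl₁, hT⟩ := h1 x₃ y₃ μ y₃ (-s) hx30 hy30 hμ
    (by rw [hy3]; ring) (by
      intro x hx
      have : s * x ≤ s * x₃ := mul_le_mul_of_nonneg_left hx.2 hs.le
      rw [hy3]; linarith)
  obtain ⟨K₂, A₂, B₂, hK₂, hl₂, hU⟩ := h1 (c * δ) (2 * (H - y₃) + s * (c * δ)) μ (H - y₃) s hcδ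
    (by nlinarith [mul_pos hs hcδ]) hμ (by ring) (by
      intro x hx
      have : 0 ≤ s * x := mul_nonneg hs.le hx.1
      linarith)
  obtain ⟨K₃, A₃, B₃, hK₃, hl₃, hR⟩ := h1 (s * c ^ 2 * H) (c ^ 2 * H) μ (c ^ 2 * H) (-1 / s) hd
    (by positivity) hμ (by field_simp; ring) (by
      intro x hx
      have e1 : x / s ≤ c ^ 2 * H := by
        rw [div_le_iff₀ hs]
        have := hx.2
        nlinarith
      have e2 : -1 / s * x = -(x / s) := by ring
      rw [e2]; linarith)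
  refine ⟨K₁ + K₂ + K₃,
    Fin.append (Fin.append (fun j V => A₁ j (Cells_tr 0 y₃ (-1) V))
      (fun j V => A₂ j (Cells_tr 0 y₃ 1 V))) (fun j V => A₃ j (Cells_tr (c * δ) y₃ 1 V)),
    Fin.append (Fin.append (fun j V => B₁ j (Cells_tr 0 y₃ (-1) V))
      (fun j V => B₂ j (Cells_tr 0 y₃ 1 V))) (fun j V => B₃ j (Cells_tr (c * δ) y₃ 1 V)),
    ?_, ?_, ?_⟩
  · push_cast
    have area : x₃ * y₃ + c * δ * (2 * (H - y₃) + s * (c * δ)) + s * c ^ 2 * H * (c ^ 2 * H) =
        (2 * δ + s * (c * H)) * (c * H) := by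
      rw [hy3, hx3']
      linear_combination (s * c ^ 2 * H ^ 2) * hcs
    have per : (x₃ + y₃) + (c * δ + (2 * (H - y₃) + s * (c * δ))) +
        (s * c ^ 2 * H + c ^ 2 * H) ≤ 13 / 2 * H := by
      have e1 : (x₃ + y₃) + (c * δ + (2 * (H - y₃) + s * (c * δ))) +
        (s * c ^ 2 * H + c ^ 2 * H) = 2 * (c * δ) + (2 - s) * (s * c ^ 2 * H) + 2 * H +
          c ^ 2 * H := by
        rw [hy3, hx3']; ring
      rw [e1]
      have e2 : (2 - s) * (s * c ^ 2 * H) ≤ 2 * (s * c ^ 2 * H) :=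
        mul_le_mul_of_nonneg_right (by linarith) hd.le
      have e3 : c ^ 2 * H ≤ 1 * H := mul_le_mul_of_nonneg_right hc2 hH.le
      linarith
    have hsum : x₃ * y₃ * μ ^ 2 / (4 * Real.pi) + (x₃ + y₃) * μ / Real.pi + 1 +
        (c * δ * (2 * (H - y₃) + s * (c * δ)) * μ ^ 2 / (4 * Real.pi) +
          (c * δ + (2 * (H - y₃) + s * (c * δ))) * μ / Real.pi + 1) +
        (s * c ^ 2 * H * (c ^ 2 * H) * μ ^ 2 / (4 * Real.pi) +
          (s * c ^ 2 * H + c ^ 2 * H) * μ / Real.pi + 1) =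
        (x₃ * y₃ + c * δ * (2 * (H - y₃) + s * (c * δ)) + s * c ^ 2 * H * (c ^ 2 * H)) *
          μ ^ 2 / (4 * Real.pi) + ((x₃ + y₃) + (c * δ + (2 * (H - y₃) + s * (c * δ))) +
        (s * c ^ 2 * H + c ^ 2 * H)) * (μ / Real.pi) + 3 := by ring
    rw [area] at hsum
    have e4 := mul_le_mul_of_nonneg_right per (by positivity : 0 ≤ μ / Real.pi)
    have e5 : 13 / 2 * H * (μ / Real.pi) = 13 / 2 * H * μ / Real.pi := by ring
    linarith
  · intro j
    refine Fin.addCases (fun j => ?_) (fun j => ?_) j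
    · rw [Fin.append_left, Fin.append_left]
      refine Fin.addCases (fun j => ?_) (fun j => ?_) j
      · rw [Fin.append_left, Fin.append_left]
        exact ⟨Cells_lin _ _ _ (hl₁ j).1, Cells_lin _ _ _ (hl₁ j).2⟩
      · rw [Fin.append_right, Fin.append_right]
        exact ⟨Cells_lin _ _ _ (hl₂ j).1, Cells_lin _ _ _ (hl₂ j).2⟩
    · rw [Fin.append_right, Fin.append_right]
      exact ⟨Cells_lin _ _ _ (hl₃ j).1, Cells_lin _ _ _ (hl₃ j).2⟩
  · intro V₁ V₂ hV₁ hV₂ hvan hcond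
    have hcT : ∀ j, A₁ j (Cells_tr 0 y₃ (-1) V₁) + B₁ j (Cells_tr 0 y₃ (-1) V₂) = 0 := by
      intro j
      have := hcond (Fin.castAdd K₃ (Fin.castAdd K₂ j))
      rw [Fin.append_left, Fin.append_left, Fin.append_left, Fin.append_left] at this
      exact this
    have hcU : ∀ j, A₂ j (Cells_tr 0 y₃ 1 V₁) + B₂ j (Cells_tr 0 y₃ 1 V₂) = 0 := by
      intro j
      have := hcond (Fin.castAdd K₃ (Fin.natAdd K₁ j))
      rw [Fin.append_left, Fin.append_left, Fin.append_right, Fin.append_right] at this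
      exact this
    have hcR : ∀ j, A₃ j (Cells_tr (c * δ) y₃ 1 V₁) + B₃ j (Cells_tr (c * δ) y₃ 1 V₂) = 0 := by
      intro j
      have := hcond (Fin.natAdd (K₁ + K₂) j)
      rw [Fin.append_right, Fin.append_right] at this
      exact this
    obtain ⟨p1, p2, p3⟩ := hvan V₁ (Or.inl rfl)
    obtain ⟨q1, q2, q3⟩ := hvan V₂ (Or.inr rfl)
    -- the three inequalities
    have iT := Cells_one h0 (μ := μ) (a := x₃) (β := fun x => y₃ + -s * x) (by fun_prop)
      (Cells_C1 0 y₃ (-1) hV₁) (Cells_C1 0 y₃ (-1) hV₂)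
      (hT _ _ (Cells_C1 0 y₃ (-1) hV₁) (Cells_C1 0 y₃ (-1) hV₂) (by
        intro x hx
        have e1 : y₃ + -1 * (y₃ + -s * x) = s * x := by ring
        simp only [Cells_tr, zero_add, e1]
        exact ⟨p1 x hx, q1 x hx⟩) hcT)
    have iU := Cells_one h0 (μ := μ) (a := c * δ) (β := fun x => (H - y₃) + s * x) (by fun_prop)
      (Cells_C1 0 y₃ 1 hV₁) (Cells_C1 0 y₃ 1 hV₂)
      (hU _ _ (Cells_C1 0 y₃ 1 hV₁) (Cells_C1 0 y₃ 1 hV₂) (by
        intro x hx
        have e1 : y₃ + 1 * (H - y₃ + s * x) = s * x + H := by ring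
        simp only [Cells_tr, zero_add, e1]
        exact ⟨p2 x hx, q2 x hx⟩) hcU)
    have iR := Cells_one h0 (μ := μ) (a := s * c ^ 2 * H) (β := fun x => c ^ 2 * H + -1 / s * x)
      (by fun_prop)
      (Cells_C1 (c * δ) y₃ 1 hV₁) (Cells_C1 (c * δ) y₃ 1 hV₂)
      (hR _ _ (Cells_C1 (c * δ) y₃ 1 hV₁) (Cells_C1 (c * δ) y₃ 1 hV₂) (by
        intro x hx
        have e1 : y₃ + 1 * (c ^ 2 * H + -1 / s * x) = y₃ + (x₃ - (c * δ + x)) / s := by
          rw [hx3']; field_simp; ring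
        have hx' : c * δ + x ∈ Icc (c * δ) x₃ := by
          rw [hx3']
          exact ⟨by linarith [hx.1], by linarith [hx.2]⟩
        simp only [Cells_tr, e1]
        exact ⟨p3 _ hx', q3 _ hx'⟩) hcR)
    -- the integrals
    have key : ∀ V : ℝ → ℝ → ℝ, C1 V →
        ie c s H δ (fun x y => gr V x y - μ ^ 2 * V x y ^ 2) =
        (∫ x in (0:ℝ)..x₃, ∫ y in (0:ℝ)..(y₃ + -s * x), Cells_q μ (Cells_tr 0 y₃ (-1) V) x y) +
        (∫ x in (0:ℝ)..(c * δ), ∫ y in (0:ℝ)..((H - y₃) + s * x),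
          Cells_q μ (Cells_tr 0 y₃ 1 V) x y) +
        ∫ x in (0:ℝ)..(s * c ^ 2 * H), ∫ y in (0:ℝ)..(c ^ 2 * H + -1 / s * x),
          Cells_q μ (Cells_tr (c * δ) y₃ 1 V) x y := by
      intro V hV
      have hq : ∀ p q e : ℝ, e ^ 2 = 1 → ∀ x y, Cells_q μ (Cells_tr p q e V) x y =
          Cells_q μ V (p + x) (q + e * y) := by
        intro p q e he x y
        unfold Cells_q
        rw [Cells_gr h0 p q e he hV]
        rfl
      have e0 := h2 c s H δ x₃ y₃ hc hs hcs hH hδ hx3 hy3 (Cells_q μ V) (Cells_qc h0 μ hV)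
      have e1 : (∫ x in (0:ℝ)..x₃, ∫ y in (0:ℝ)..(y₃ + -s * x),
          Cells_q μ (Cells_tr 0 y₃ (-1) V) x y) =
          ∫ x in (0:ℝ)..x₃, ∫ y in (s * x)..y₃, Cells_q μ V x y := by
        refine intervalIntegral.integral_congr fun x _ => ?_
        have f1 : ∀ y, Cells_q μ (Cells_tr 0 y₃ (-1) V) x y = Cells_q μ V x (y₃ - y) := by
          intro y
          rw [hq 0 y₃ (-1) (by norm_num), zero_add]
          congr 1
          ring
        simp only [f1]
        rw [intervalIntegral.integral_comp_sub_left (fun y => Cells_q μ V x y) y₃]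
        congr 1 <;> ring
      have e2 : (∫ x in (0:ℝ)..(c * δ), ∫ y in (0:ℝ)..((H - y₃) + s * x),
          Cells_q μ (Cells_tr 0 y₃ 1 V) x y) =
          ∫ x in (0:ℝ)..(c * δ), ∫ y in y₃..(s * x + H), Cells_q μ V x y := by
        refine intervalIntegral.integral_congr fun x _ => ?_
        have f1 : ∀ y, Cells_q μ (Cells_tr 0 y₃ 1 V) x y = Cells_q μ V x (y₃ + y) := by
          intro y
          rw [hq 0 y₃ 1 (by norm_num), zero_add, one_mul]
        simp only [f1]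
        rw [intervalIntegral.integral_comp_add_left (fun y => Cells_q μ V x y) y₃]
        congr 1 <;> ring
      have e3 : (∫ x in (0:ℝ)..(s * c ^ 2 * H), ∫ y in (0:ℝ)..(c ^ 2 * H + -1 / s * x),
          Cells_q μ (Cells_tr (c * δ) y₃ 1 V) x y) =
          ∫ x in (c * δ)..x₃, ∫ y in y₃..(y₃ + (x₃ - x) / s), Cells_q μ V x y := by
        have f2 : ∀ x : ℝ, (∫ y in (0:ℝ)..(c ^ 2 * H + -1 / s * x),
            Cells_q μ (Cells_tr (c * δ) y₃ 1 V) x y) =
            (fun X => ∫ y in y₃..(y₃ + (x₃ - X) / s), Cells_q μ V X y) (c * δ + x) := by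
          intro x
          have f1 : ∀ y, Cells_q μ (Cells_tr (c * δ) y₃ 1 V) x y =
              Cells_q μ V (c * δ + x) (y₃ + y) := by
            intro y
            rw [hq (c * δ) y₃ 1 (by norm_num), one_mul]
          simp only [f1]
          rw [intervalIntegral.integral_comp_add_left (fun y => Cells_q μ V (c * δ + x) y) y₃]
          congr 1
          · ring
          · rw [hx3']; field_simp; ring
        simp only [f2]
        rw [intervalIntegral.integral_comp_add_left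
          (fun X => ∫ y in y₃..(y₃ + (x₃ - X) / s), Cells_q μ V X y) (c * δ)]
        rw [add_zero, ← hx3']
      rw [e1, e2, e3, ← e0]
      rfl
    rw [key V₁ hV₁, key V₂ hV₂]
    linarith

end Pool.Agent.Work.MP_33c50c_an.SK
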