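import Pool.Agent.Work.MP_33c50c_an.SK.Stmts
import Pool.Agent.Work.MP_33c50c_an.Cyl2

set_option autoImplicit false

open MeasureTheory Set
open scoped ENNReal ContDiff

namespace Pool.Agent.Work.MP_33c50c_an.SK

open Pool.Agent.Work.MP_33c50c_an

lemma Count_mass_pos {Ω : Set Cyl} {u : Cyl → ℝ} (hu : IsTest Ω u) (hne : u ≠ 0) : 0 < mass u := by
  obtain ⟨x, hx⟩ := Function.ne_iff.mp hne
  have hc := cont_f u (test_lft hu)
  apply Continuous.integral_pos_of_hasCompactSupport_nonneg_nonzero (x := x) (hc.pow 2)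
  · apply HasCompactSupport.of_support_subset_isCompact hu.2.1
    intro p hp
    apply subset_tsupport
    intro h
    apply hp
    show u p ^ 2 = 0
    rw [h]; simp
  · intro p; exact sq_nonneg (u p)
  · exact pow_ne_zero 2 hx

lemma Count_mass_nonneg (u : Cyl → ℝ) : 0 ≤ mass u := integral_nonneg (fun _ => sq_nonneg _)

lemma Count_W_add {Ω : Set Cyl} (P : SkewPacking Ω) (u v : Fin P.p → Cyl → ℝ) (ρ : Fin P.nR) :
    P.W (fun q => u q + v q) ρ = fun x y => P.W u ρ x y + P.W v ρ x y := by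
  funext x y
  unfold SkewPacking.W
  rw [← Finset.sum_add_distrib]
  apply Finset.sum_congr rfl; intro q _
  rw [← Finset.sum_add_distrib]
  apply Finset.sum_congr rfl; intro i _
  split_ifs
  · rfl
  · simp

lemma Count_W_smul {Ω : Set Cyl} (P : SkewPacking Ω) (c : ℝ) (u : Fin P.p → Cyl → ℝ)
    (ρ : Fin P.nR) : P.W (fun q => c • u q) ρ = fun x y => c * P.W u ρ x y := by
  funext x y
  unfold SkewPacking.W
  rw [Finset.mul_sum]
  apply Finset.sum_congr rfl; intro q _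
  rw [Finset.mul_sum]
  apply Finset.sum_congr rfl; intro i _
  split_ifs
  · rfl
  · simp

/-- the linear map of the functionals. -/
noncomputable def Count_Lam (h2 : SWreg) {Ω : Set Cyl} (hΩ : IsOpen Ω) (P : SkewPacking Ω)
    (V : Submodule ℝ (Cyl → ℝ)) (hV : ∀ u ∈ V, IsTest Ω u) (K : Fin P.nR → ℕ)
    (l : ∀ ρ, Fin (K ρ) → (ℝ → ℝ → ℝ) → ℝ) (hl : ∀ ρ j, IsLin (l ρ j)) :
    (Fin P.p → V) →ₗ[ℝ] ((Σ ρ : Fin P.nR, Fin (K ρ)) → ℝ) where
  toFun w s := l s.1 s.2 (P.W (fun q => (w q : Cyl → ℝ)) s.1)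
  map_add' w v := by
    ext s
    show l s.1 s.2 (P.W (fun q => (w q : Cyl → ℝ) + (v q : Cyl → ℝ)) s.1) =
      l s.1 s.2 (P.W (fun q => (w q : Cyl → ℝ)) s.1) +
        l s.1 s.2 (P.W (fun q => (v q : Cyl → ℝ)) s.1)
    rw [Count_W_add]
    exact (hl s.1 s.2).1 _ _ (h2 Ω hΩ P _ (fun q => hV _ (w q).2) s.1).1
      (h2 Ω hΩ P _ (fun q => hV _ (v q).2) s.1).1
  map_smul' c w := by
    ext s
    show l s.1 s.2 (P.W (fun q => c • (w q : Cyl → ℝ)) s.1) =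
      c * l s.1 s.2 (P.W (fun q => (w q : Cyl → ℝ)) s.1)
    rw [Count_W_smul]
    exact (hl s.1 s.2).2 c _ (h2 Ω hΩ P _ (fun q => hV _ (w q).2) s.1).1

theorem Count_proof (h1 : SCell) (h2 : SWreg) (h3 : SWint) : SCount := by
  intro Ω hΩ P V hV k hk hk1 lam lam' hlt hlam' hR
  by_contra hcard
  rw [not_le] at hcard
  have hex := fun ρ => h1 (P.σ ρ) (P.L ρ) (P.H ρ) lam' (P.L_pos ρ) (P.H_nonneg ρ) (P.thin ρ) hlam'
  choose K l hK hlin hmain using hex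
  have hp : (0 : ℝ) < P.p := by exact_mod_cast P.p_pos
  have hpi := Real.pi_pos
  have hsum : ((∑ ρ, K ρ : ℕ) : ℝ) < P.p * k := by
    have e1 : ((∑ ρ, K ρ : ℕ) : ℝ) ≤ ∑ ρ, P.L ρ * Real.sqrt lam' *
        max 0 (P.H ρ * Real.sqrt lam' - gap (P.σ ρ)) / (4 * Real.pi) := by
      push_cast
      exact Finset.sum_le_sum fun ρ _ => hK ρ
    have e2 : ∑ ρ, P.L ρ * Real.sqrt lam' *
        max 0 (P.H ρ * Real.sqrt lam' - gap (P.σ ρ)) / (4 * Real.pi) = P.bound lam' * P.p := by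
      unfold SkewPacking.bound
      rw [← Finset.sum_div]
      generalize (∑ ρ, P.L ρ * Real.sqrt lam' *
        max 0 (P.H ρ * Real.sqrt lam' - gap (P.σ ρ))) = Sg
      field_simp
    rw [e2] at e1
    nlinarith [mul_lt_mul_of_pos_right hcard hp]
  have hsum' : ∑ ρ, K ρ < P.p * k := by exact_mod_cast hsum
  have hfin : FiniteDimensional ℝ V := Module.finite_of_finrank_pos (by omega)
  have hd1 : Module.finrank ℝ (Fin P.p → V) = P.p * k := by
    rw [Module.finrank_pi_fintype]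
    simp [hk]
  have hd2 : Module.finrank ℝ ((Σ ρ : Fin P.nR, Fin (K ρ)) → ℝ) = ∑ ρ, K ρ := by
    rw [Module.finrank_pi]
    simp
  have hker := LinearMap.ker_ne_bot_of_finrank_lt (f := Count_Lam h2 hΩ P V hV K l hlin) (by
    rw [hd1, hd2]; exact hsum')
  obtain ⟨w, hw, hw0⟩ := (Submodule.ne_bot_iff _).mp hker
  have hLam : ∀ (ρ : Fin P.nR) (j : Fin (K ρ)), l ρ j (P.W (fun q => (w q : Cyl → ℝ)) ρ) = 0 := by
    intro ρ j
    have h4 : Count_Lam h2 hΩ P V hV K l hlin w = 0 := hw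
    exact congrFun h4 ⟨ρ, j⟩
  have hwt : ∀ q, IsTest Ω (w q : Cyl → ℝ) := fun q => hV _ (w q).2
  obtain ⟨hm, he⟩ := h3 Ω hΩ P (fun q => (w q : Cyl → ℝ)) hwt
  have h5 : lam' * ∑ q, mass (w q : Cyl → ℝ) ≤ ∑ q, energy (w q : Cyl → ℝ) := by
    rw [hm, he, Finset.mul_sum]
    refine Finset.sum_le_sum fun ρ _ => ?_
    obtain ⟨hc, hz⟩ := h2 Ω hΩ P (fun q => (w q : Cyl → ℝ)) hwt ρ
    exact hmain ρ _ hc (fun x hx => ⟨hz x hx _ (fun h => lt_irrefl _ h.1),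
      hz x hx _ (fun h => lt_irrefl _ h.2)⟩) (hLam ρ)
  have hpos : 0 < ∑ q, mass (w q : Cyl → ℝ) := by
    obtain ⟨i, hi⟩ := Function.ne_iff.mp hw0
    apply Finset.sum_pos' (fun i _ => Count_mass_nonneg _)
    refine ⟨i, Finset.mem_univ i, ?_⟩
    have h4 : (w i : Cyl → ℝ) ≠ 0 := fun h => hi (Subtype.ext h)
    exact Count_mass_pos (hV _ (w i).2) h4
  have hle : ∑ q, energy (w q : Cyl → ℝ) ≤ lam * ∑ q, mass (w q : Cyl → ℝ) := by
    rw [Finset.mul_sum]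
    exact Finset.sum_le_sum fun q _ => hR _ (w q).2
  have h6 : lam * ∑ q, mass (w q : Cyl → ℝ) < lam' * ∑ q, mass (w q : Cyl → ℝ) :=
    mul_lt_mul_of_pos_right hlt hpos
  linarith

end Pool.Agent.Work.MP_33c50c_an.SK
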