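import Pool.Agent.Work.MP_33c50c_an.SK.Stmts

/-!
# MP_33c50c_an, block SK: two functions on a trapezoid which vanish on the slanted side
-/

set_option autoImplicit false

open MeasureTheory Set
open scoped ENNReal ContDiff

namespace Pool.Agent.Work.MP_33c50c_an.SK

open Pool.Agent.Work.MP_33c50c_an

/-- comparison of two integrals over a trapezoid -/
theorem DC_int (a b : ℝ) (g : ℝ → ℝ) (ha : 0 < a) (hg : Continuous g)
    (hgb : ∀ x ∈ Icc 0 a, 0 ≤ g x ∧ g x ≤ b) (F G : ℝ → ℝ → ℝ)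
    (hF : Continuous fun q : ℝ × ℝ => F q.1 q.2) (hG : Continuous fun q : ℝ × ℝ => G q.1 q.2)
    (C : ℝ) (hC : 0 ≤ C) (h : ∀ x ∈ Icc 0 a, ∀ y ∈ Icc 0 (g x), |F x y - G x y| ≤ C) :
    |(∫ x in (0:ℝ)..a, ∫ y in (0:ℝ)..(g x), F x y) -
      ∫ x in (0:ℝ)..a, ∫ y in (0:ℝ)..(g x), G x y| ≤ C * (a * b) := by
  have cF : Continuous fun x => ∫ y in (0:ℝ)..(g x), F x y :=
    intervalIntegral.continuous_parametric_intervalIntegral_of_continuous
      (f := F) hF hg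
  have cG : Continuous fun x => ∫ y in (0:ℝ)..(g x), G x y :=
    intervalIntegral.continuous_parametric_intervalIntegral_of_continuous
      (f := G) hG hg
  rw [← intervalIntegral.integral_sub (cF.intervalIntegrable _ _) (cG.intervalIntegrable _ _)]
  have hin : ∀ x ∈ Set.uIoc 0 a, ‖(∫ y in (0:ℝ)..(g x), F x y) - ∫ y in (0:ℝ)..(g x), G x y‖ ≤
      C * b := by
    intro x hx
    rw [Set.uIoc_of_le ha.le] at hx
    have hx' : x ∈ Icc 0 a := ⟨hx.1.le, hx.2⟩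
    have cFx : Continuous fun y => F x y := hF.comp (by fun_prop : Continuous fun y => (x, y))
    have cGx : Continuous fun y => G x y := hG.comp (by fun_prop : Continuous fun y => (x, y))
    rw [← intervalIntegral.integral_sub (cFx.intervalIntegrable _ _)
      (cGx.intervalIntegrable _ _)]
    have h1 : ‖∫ y in (0:ℝ)..(g x), (F x y - G x y)‖ ≤ C * |g x - 0| := by
      apply intervalIntegral.norm_integral_le_of_norm_le_const
      intro y hy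
      rw [Set.uIoc_of_le (hgb x hx').1] at hy
      exact h x hx' y ⟨hy.1.le, hy.2⟩
    refine le_trans h1 ?_
    rw [sub_zero, abs_of_nonneg (hgb x hx').1]
    exact mul_le_mul_of_nonneg_left (hgb x hx').2 hC
  have h2 := intervalIntegral.norm_integral_le_of_norm_le_const hin
  rw [Real.norm_eq_abs] at h2
  refine le_trans h2 ?_
  rw [sub_zero, abs_of_pos ha]
  apply le_of_eq
  ring

/-- passage to the limit -/
theorem DC_lim (A B C : ℝ) (hC : 0 ≤ C) (h : ∀ ε : ℝ, 0 < ε → ε ≤ 1 → A ≤ B + C * ε) :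
    A ≤ B := by
  apply le_of_forall_pos_le_add
  intro δ hδ
  have h1 : 0 < min 1 (δ / (C + 1)) := lt_min one_pos (div_pos hδ (by linarith))
  have h2 := h _ h1 (min_le_left _ _)
  have h3 : C * min 1 (δ / (C + 1)) ≤ C * (δ / (C + 1)) :=
    mul_le_mul_of_nonneg_left (min_le_right _ _) hC
  have h4 : C * (δ / (C + 1)) ≤ δ := by
    rw [← mul_div_assoc, div_le_iff₀ (by linarith)]
    nlinarith
  linarith

theorem DC_proof (h0 : SReg) (h1 : SDCe) (h2 : STheta) (h4 : SLatN) : SDC := by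
  classical
  intro a b μ g₀ k ha hb hμ hgk hpos V₁ V₂ hV₁ hV₂ hz hcoef
  obtain ⟨θ, hθ1, hθ2, hθ3, hθ4⟩ := h2
  obtain ⟨S₀, hS₀, -⟩ := h4 a b μ ha hb hμ
  set S : Finset (ℕ × ℕ) := S₀.filter
    (fun s => ((s.1 : ℝ) * b) ^ 2 + ((s.2 : ℝ) * a) ^ 2 < (μ * a * b / Real.pi) ^ 2) with hS
  have hS1 : ∀ n m : ℕ, ((n : ℝ) * b) ^ 2 + ((m : ℝ) * a) ^ 2 < (μ * a * b / Real.pi) ^ 2 →
      (n, m) ∈ S := fun n m h => Finset.mem_filter.2 ⟨hS₀ n m h, h⟩
  have hS2 : ∀ s ∈ S, cc a b g₀ k s.1 s.2 V₁ + cr a b g₀ k s.1 s.2 V₂ = 0 :=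
    fun s hs => hcoef s.1 s.2 (Finset.mem_filter.1 hs).2
  have cV₁ := (h0 V₁ hV₁).1
  have cV₂ := (h0 V₂ hV₂).1
  have cθ : Continuous θ := hθ1.continuous
  have hg : Continuous fun x : ℝ => g₀ + k * x := by fun_prop
  have hgb : ∀ x ∈ Icc 0 a, 0 ≤ g₀ + k * x ∧ g₀ + k * x ≤ b := by
    intro x hx
    refine ⟨hpos x hx, ?_⟩
    have e0 := hpos (a - x) ⟨by linarith [hx.2], by linarith [hx.1]⟩
    nlinarith
  obtain ⟨M₁, hM₁⟩ := (isCompact_Icc (a := ((0 : ℝ), (0 : ℝ))) (b := (a, b))).exists_bound_of_continuousOn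
    cV₁.continuousOn
  obtain ⟨M₂, hM₂⟩ := (isCompact_Icc (a := ((0 : ℝ), (0 : ℝ))) (b := (a, b))).exists_bound_of_continuousOn
    cV₂.continuousOn
  set M : ℝ := max (max M₁ M₂) 0 with hM
  have hM0 : 0 ≤ M := le_max_right _ _
  have hVM : ∀ x ∈ Icc 0 a, ∀ y ∈ Icc 0 (g₀ + k * x), |V₁ x y| ≤ M ∧ |V₂ x y| ≤ M := by
    intro x hx y hy
    have hm : (x, y) ∈ Icc ((0 : ℝ), (0 : ℝ)) (a, b) :=
      ⟨⟨hx.1, hy.1⟩, ⟨hx.2, le_trans hy.2 (hgb x hx).2⟩⟩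
    exact ⟨le_trans (hM₁ _ hm) (le_trans (le_max_left _ _) (le_max_left _ _)),
      le_trans (hM₂ _ hm) (le_trans (le_max_right _ _) (le_max_left _ _))⟩
  set C : ℝ := μ ^ 2 * (4 * (2 * M + 2) * (a * b)) +
    μ ^ 2 * (4 / (a * b) * ((S.card : ℝ) * (4 * (a * b)) ^ 2)) with hC
  have hab : 0 < a * b := mul_pos ha hb
  have hC0 : 0 ≤ C := by positivity
  apply DC_lim _ _ C hC0
  intro ε hε hε1
  have main := h1 a b μ g₀ k ha hb hμ hgk hpos V₁ V₂ hV₁ hV₂ hz θ hθ1 hθ2 hθ3 ε hε S hS1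
  have hT : ∀ v : ℝ, |ε * θ (v / ε) - v| ≤ 2 * ε := by
    intro v
    have e1 : ε * θ (v / ε) - v = ε * (θ (v / ε) - v / ε) := by
      field_simp
    rw [e1, abs_mul, abs_of_pos hε]
    nlinarith [hθ4 (v / ε)]
  have hTs : ∀ v : ℝ, |v| ≤ M → |(ε * θ (v / ε)) ^ 2 - v ^ 2| ≤ 2 * ε * (2 * M + 2) := by
    intro v hv
    have e1 := hT v
    have e2 : (ε * θ (v / ε)) ^ 2 - v ^ 2 = (ε * θ (v / ε) - v) * ((ε * θ (v / ε) - v) + 2 * v) := by
      ring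
    rw [e2, abs_mul]
    have e3 : |(ε * θ (v / ε) - v) + 2 * v| ≤ 2 * M + 2 := by
      refine le_trans (abs_add_le _ _) ?_
      rw [abs_mul, abs_of_pos (by norm_num : (0 : ℝ) < 2)]
      nlinarith
    exact mul_le_mul e1 e3 (abs_nonneg _) (by positivity)
  have cT₁ : Continuous fun q : ℝ × ℝ => ε * θ (V₁ q.1 q.2 / ε) :=
    continuous_const.mul (cθ.comp (cV₁.div_const _))
  have cT₂ : Continuous fun q : ℝ × ℝ => ε * θ (V₂ q.1 q.2 / ε) :=
    continuous_const.mul (cθ.comp (cV₂.div_const _))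
  -- the squares
  have hsq := DC_int a b (fun x => g₀ + k * x) ha hg hgb
    (fun x y => (ε * θ (V₁ x y / ε)) ^ 2 + (ε * θ (V₂ x y / ε)) ^ 2)
    (fun x y => V₁ x y ^ 2 + V₂ x y ^ 2)
    ((cT₁.pow 2).add (cT₂.pow 2)) ((cV₁.pow 2).add (cV₂.pow 2))
    (4 * ε * (2 * M + 2)) (by positivity) (by
      intro x hx y hy
      have e1 := hTs _ (hVM x hx y hy).1
      have e2 := hTs _ (hVM x hx y hy).2
      have e3 : ((ε * θ (V₁ x y / ε)) ^ 2 + (ε * θ (V₂ x y / ε)) ^ 2) -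
          (V₁ x y ^ 2 + V₂ x y ^ 2) = ((ε * θ (V₁ x y / ε)) ^ 2 - V₁ x y ^ 2) +
          ((ε * θ (V₂ x y / ε)) ^ 2 - V₂ x y ^ 2) := by ring
      show |((ε * θ (V₁ x y / ε)) ^ 2 + (ε * θ (V₂ x y / ε)) ^ 2) -
          (V₁ x y ^ 2 + V₂ x y ^ 2)| ≤ _
      rw [e3]
      refine le_trans (abs_add_le _ _) ?_
      linarith)
  -- the coefficients
  have hco : ∀ s ∈ S, (cc a b g₀ k s.1 s.2 (fun x y => ε * θ (V₁ x y / ε)) +
        cr a b g₀ k s.1 s.2 (fun x y => ε * θ (V₂ x y / ε))) ^ 2 ≤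
        (4 * (a * b)) ^ 2 * ε := by
    intro s hs
    have e1 := DC_int a b (fun x => g₀ + k * x) ha hg hgb
      (fun x y => ε * θ (V₁ x y / ε) *
        (Real.cos (s.1 * Real.pi * x / a) * Real.cos (s.2 * Real.pi * y / b)))
      (fun x y => V₁ x y *
        (Real.cos (s.1 * Real.pi * x / a) * Real.cos (s.2 * Real.pi * y / b)))
      (cT₁.mul (by fun_prop)) (cV₁.mul (by fun_prop)) (2 * ε) (by positivity) (by
        intro x hx y hy
        show |ε * θ (V₁ x y / ε) *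
          (Real.cos (s.1 * Real.pi * x / a) * Real.cos (s.2 * Real.pi * y / b)) - V₁ x y *
          (Real.cos (s.1 * Real.pi * x / a) * Real.cos (s.2 * Real.pi * y / b))| ≤ _
        rw [← sub_mul, abs_mul, abs_mul]
        have f1 := Real.abs_cos_le_one (s.1 * Real.pi * x / a)
        have f2 := Real.abs_cos_le_one (s.2 * Real.pi * y / b)
        have f3 := hT (V₁ x y)
        calc _ ≤ (2 * ε) * (1 * 1) := by gcongr
          _ = 2 * ε := by ring)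
    have e2 := DC_int a b (fun x => g₀ + k * x) ha hg hgb
      (fun x y => ε * θ (V₂ x y / ε) *
        (Real.cos (s.1 * Real.pi * (a - x) / a) * Real.cos (s.2 * Real.pi * (b - y) / b)))
      (fun x y => V₂ x y *
        (Real.cos (s.1 * Real.pi * (a - x) / a) * Real.cos (s.2 * Real.pi * (b - y) / b)))
      (cT₂.mul (by fun_prop)) (cV₂.mul (by fun_prop)) (2 * ε) (by positivity) (by
        intro x hx y hy
        show |ε * θ (V₂ x y / ε) *
          (Real.cos (s.1 * Real.pi * (a - x) / a) * Real.cos (s.2 * Real.pi * (b - y) / b)) -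
          V₂ x y *
          (Real.cos (s.1 * Real.pi * (a - x) / a) * Real.cos (s.2 * Real.pi * (b - y) / b))| ≤ _
        rw [← sub_mul, abs_mul, abs_mul]
        have f1 := Real.abs_cos_le_one (s.1 * Real.pi * (a - x) / a)
        have f2 := Real.abs_cos_le_one (s.2 * Real.pi * (b - y) / b)
        have f3 := hT (V₂ x y)
        calc _ ≤ (2 * ε) * (1 * 1) := by gcongr
          _ = 2 * ε := by ring)
    have e3 := hS2 s hs
    have e4 : |cc a b g₀ k s.1 s.2 (fun x y => ε * θ (V₁ x y / ε)) +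
        cr a b g₀ k s.1 s.2 (fun x y => ε * θ (V₂ x y / ε))| ≤ 4 * (a * b) * ε := by
      have e5 : cc a b g₀ k s.1 s.2 (fun x y => ε * θ (V₁ x y / ε)) +
          cr a b g₀ k s.1 s.2 (fun x y => ε * θ (V₂ x y / ε)) =
          (cc a b g₀ k s.1 s.2 (fun x y => ε * θ (V₁ x y / ε)) - cc a b g₀ k s.1 s.2 V₁) +
          (cr a b g₀ k s.1 s.2 (fun x y => ε * θ (V₂ x y / ε)) - cr a b g₀ k s.1 s.2 V₂) := by
        linarith
      rw [e5]
      refine le_trans (abs_add_le _ _) ?_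
      have e6 : |cc a b g₀ k s.1 s.2 (fun x y => ε * θ (V₁ x y / ε)) - cc a b g₀ k s.1 s.2 V₁| ≤
          2 * ε * (a * b) := e1
      have e7 : |cr a b g₀ k s.1 s.2 (fun x y => ε * θ (V₂ x y / ε)) - cr a b g₀ k s.1 s.2 V₂| ≤
          2 * ε * (a * b) := e2
      linarith
    have e8 : (cc a b g₀ k s.1 s.2 (fun x y => ε * θ (V₁ x y / ε)) +
        cr a b g₀ k s.1 s.2 (fun x y => ε * θ (V₂ x y / ε))) ^ 2 ≤ (4 * (a * b) * ε) ^ 2 := by
      apply sq_le_sq'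
      · exact (abs_le.1 e4).1
      · exact (abs_le.1 e4).2
    refine le_trans e8 ?_
    have e9 : (4 * (a * b) * ε) ^ 2 = (4 * (a * b)) ^ 2 * ε * ε := by ring
    rw [e9]
    have e10 : 0 ≤ (4 * (a * b)) ^ 2 * ε := by positivity
    nlinarith
  have hsum : ∑ s ∈ S, (cc a b g₀ k s.1 s.2 (fun x y => ε * θ (V₁ x y / ε)) +
        cr a b g₀ k s.1 s.2 (fun x y => ε * θ (V₂ x y / ε))) ^ 2 ≤
        (S.card : ℝ) * ((4 * (a * b)) ^ 2 * ε) := by
    refine le_trans (Finset.sum_le_sum hco) ?_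
    rw [Finset.sum_const, nsmul_eq_mul]
  have hrem : μ ^ 2 * (4 / (a * b) * ∑ s ∈ S,
      (cc a b g₀ k s.1 s.2 (fun x y => ε * θ (V₁ x y / ε)) +
        cr a b g₀ k s.1 s.2 (fun x y => ε * θ (V₂ x y / ε))) ^ 2) ≤
      μ ^ 2 * (4 / (a * b) * ((S.card : ℝ) * ((4 * (a * b)) ^ 2 * ε))) := by
    gcongr
  have hl : μ ^ 2 * (∫ x in (0:ℝ)..a, ∫ y in (0:ℝ)..(g₀ + k * x), (V₁ x y ^ 2 + V₂ x y ^ 2)) ≤
      μ ^ 2 * ((∫ x in (0:ℝ)..a, ∫ y in (0:ℝ)..(g₀ + k * x),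
        ((ε * θ (V₁ x y / ε)) ^ 2 + (ε * θ (V₂ x y / ε)) ^ 2)) +
        4 * ε * (2 * M + 2) * (a * b)) := by
    gcongr
    linarith [(abs_le.1 hsq).1]
  rw [hC]
  calc μ ^ 2 * (∫ x in (0:ℝ)..a, ∫ y in (0:ℝ)..(g₀ + k * x), (V₁ x y ^ 2 + V₂ x y ^ 2))
      ≤ μ ^ 2 * (∫ x in (0:ℝ)..a, ∫ y in (0:ℝ)..(g₀ + k * x),
        ((ε * θ (V₁ x y / ε)) ^ 2 + (ε * θ (V₂ x y / ε)) ^ 2)) +
        μ ^ 2 * (4 * (2 * M + 2) * (a * b)) * ε := by
        refine le_trans hl (le_of_eq ?_)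
        ring
    _ ≤ (∫ x in (0:ℝ)..a, ∫ y in (0:ℝ)..(g₀ + k * x), (gr V₁ x y + gr V₂ x y)) +
        μ ^ 2 * (4 / (a * b) * ((S.card : ℝ) * ((4 * (a * b)) ^ 2 * ε))) +
        μ ^ 2 * (4 * (2 * M + 2) * (a * b)) * ε := by
        linarith
    _ = _ := by ring

end Pool.Agent.Work.MP_33c50c_an.SK
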