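import Pool.Agent.Work.MP_33c50c_an.SK.Stmts

/-!
# Two functions on a trapezoid: linear conditions
-/

set_option autoImplicit false

open MeasureTheory Set
open scoped ENNReal ContDiff

namespace Pool.Agent.Work.MP_33c50c_an.SK

open Pool.Agent.Work.MP_33c50c_an

/-- integration against a continuous weight is linear -/
theorem DCL_lin (a g₀ k : ℝ) (w : ℝ → ℝ → ℝ) (hw : Continuous fun q : ℝ × ℝ => w q.1 q.2) :
    IsLin (fun V => ∫ x in (0:ℝ)..a, ∫ y in (0:ℝ)..(g₀ + k * x), V x y * w x y) := by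
  have hin : ∀ V : ℝ → ℝ → ℝ, C1 V → Continuous (Function.uncurry fun x y => V x y * w x y) := by
    intro V hV
    exact (ContDiff.continuous hV).mul hw
  have hy : ∀ V : ℝ → ℝ → ℝ, C1 V → ∀ x : ℝ, Continuous fun y => V x y * w x y := by
    intro V hV x
    exact (hin V hV).comp (Continuous.prodMk_right x)
  have hx : ∀ V : ℝ → ℝ → ℝ, C1 V →
      Continuous fun x : ℝ => ∫ y in (0:ℝ)..(g₀ + k * x), V x y * w x y := by
    intro V hV
    exact intervalIntegral.continuous_parametric_intervalIntegral_of_continuous (hin V hV)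
      (by fun_prop)
  refine ⟨fun U V hU hV => ?_, fun c U hU => ?_⟩
  · have h1 : ∀ x : ℝ, ∫ y in (0:ℝ)..(g₀ + k * x), (U x y + V x y) * w x y =
        (∫ y in (0:ℝ)..(g₀ + k * x), U x y * w x y) +
        ∫ y in (0:ℝ)..(g₀ + k * x), V x y * w x y := by
      intro x
      rw [← intervalIntegral.integral_add ((hy U hU x).intervalIntegrable _ _)
        ((hy V hV x).intervalIntegrable _ _)]
      refine intervalIntegral.integral_congr fun y _ => ?_
      ring
    change ∫ x in (0:ℝ)..a, ∫ y in (0:ℝ)..(g₀ + k * x), (U x y + V x y) * w x y =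
      (∫ x in (0:ℝ)..a, ∫ y in (0:ℝ)..(g₀ + k * x), U x y * w x y) +
      ∫ x in (0:ℝ)..a, ∫ y in (0:ℝ)..(g₀ + k * x), V x y * w x y
    rw [← intervalIntegral.integral_add ((hx U hU).intervalIntegrable _ _)
      ((hx V hV).intervalIntegrable _ _)]
    exact intervalIntegral.integral_congr fun x _ => h1 x
  · have h1 : ∀ x : ℝ, ∫ y in (0:ℝ)..(g₀ + k * x), (c * U x y) * w x y =
        c * ∫ y in (0:ℝ)..(g₀ + k * x), U x y * w x y := by
      intro x
      rw [← intervalIntegral.integral_const_mul]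
      refine intervalIntegral.integral_congr fun y _ => ?_
      ring
    change ∫ x in (0:ℝ)..a, ∫ y in (0:ℝ)..(g₀ + k * x), (c * U x y) * w x y =
      c * ∫ x in (0:ℝ)..a, ∫ y in (0:ℝ)..(g₀ + k * x), U x y * w x y
    rw [← intervalIntegral.integral_const_mul]
    exact intervalIntegral.integral_congr fun x _ => h1 x

/-- (DCL) the same with a number of linear conditions. -/
theorem DCL_proof (h0 : SReg) (h1 : SDC) (h2 : SLatN) : SDCL := by
  intro a b μ g₀ k ha hb hμ hg hpos
  obtain ⟨S, hS, hcard⟩ := h2 a b μ ha hb hμ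
  let e : Fin S.card ≃ S := S.equivFin.symm
  refine ⟨S.card, fun j => cc a b g₀ k (e j).1.1 (e j).1.2,
    fun j => cr a b g₀ k (e j).1.1 (e j).1.2, hcard, fun j => ⟨?_, ?_⟩, ?_⟩
  · exact DCL_lin a g₀ k
      (fun x y => Real.cos (((e j).1.1 : ℝ) * Real.pi * x / a) *
        Real.cos (((e j).1.2 : ℝ) * Real.pi * y / b)) (by fun_prop)
  · exact DCL_lin a g₀ k
      (fun x y => Real.cos (((e j).1.1 : ℝ) * Real.pi * (a - x) / a) *
        Real.cos (((e j).1.2 : ℝ) * Real.pi * (b - y) / b)) (by fun_prop)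
  · intro V₁ V₂ hV₁ hV₂ hz hA
    refine h1 a b μ g₀ k ha hb hμ hg hpos V₁ V₂ hV₁ hV₂ hz ?_
    intro n m hnm
    have h3 := hA (e.symm ⟨(n, m), hS n m hnm⟩)
    simp only [Equiv.apply_symm_apply] at h3
    exact h3

end Pool.Agent.Work.MP_33c50c_an.SK
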