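import Pool.Agent.Work.MP_33c50c_an.SK.Stmts

/-! Item DCe: the truncated functions. -/

set_option autoImplicit false

open MeasureTheory Set
open scoped ENNReal ContDiff

namespace Pool.Agent.Work.MP_33c50c_an.SK

open Pool.Agent.Work.MP_33c50c_an

theorem DCe_cont_slice {P : ℝ → ℝ → ℝ} (hP : Continuous fun q : ℝ × ℝ => P q.1 q.2) (x : ℝ) :
    Continuous (P x) := hP.comp (continuous_const.prodMk continuous_id)

theorem DCe_cont_int (g₀ k : ℝ) {P : ℝ → ℝ → ℝ} (hP : Continuous fun q : ℝ × ℝ => P q.1 q.2) :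
    Continuous (fun x : ℝ => ∫ y in (0:ℝ)..(g₀ + k * x), P x y) :=
  intervalIntegral.continuous_parametric_intervalIntegral_of_continuous (f := P) hP
    (continuous_const.add (continuous_const.mul continuous_id))

theorem DCe_split (a b g₀ k : ℝ) (ha : 0 < a) (heq : g₀ + (g₀ + k * a) = b)
    (hpos : ∀ x ∈ Icc 0 a, 0 ≤ g₀ + k * x) (P Q Z : ℝ → ℝ → ℝ)
    (hP : Continuous fun q : ℝ × ℝ => P q.1 q.2) (hQ : Continuous fun q : ℝ × ℝ => Q q.1 q.2)
    (hZP : ∀ x ∈ Ioo 0 a, ∀ y < g₀ + k * x, Z x y = P x y)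
    (hZQ : ∀ x ∈ Ioo 0 a, ∀ y, g₀ + k * x < y → Z x y = Q x y) :
    (∫ x in (0:ℝ)..a, ∫ y in (0:ℝ)..b, Z x y) =
      (∫ x in (0:ℝ)..a, ∫ y in (0:ℝ)..(g₀ + k * x), P x y) +
      ∫ x in (0:ℝ)..a, ∫ y in (0:ℝ)..(g₀ + k * x), Q (a - x) (b - y) := by
  have hQ' : Continuous fun q : ℝ × ℝ => Q (a - q.1) (b - q.2) :=
    hQ.comp ((continuous_const.sub continuous_fst).prodMk (continuous_const.sub continuous_snd))
  obtain ⟨A, hA⟩ : ∃ A : ℝ → ℝ, A = fun x => ∫ y in (0:ℝ)..(g₀ + k * x), P x y := ⟨_, rfl⟩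
  obtain ⟨B, hB⟩ : ∃ B : ℝ → ℝ, B = fun x => ∫ y in (0:ℝ)..(g₀ + k * x), Q (a - x) (b - y) :=
    ⟨_, rfl⟩
  have hAc : Continuous A := by
    rw [hA]
    exact DCe_cont_int g₀ k hP
  have hBc : Continuous B := by
    rw [hB]
    exact DCe_cont_int g₀ k (P := fun x y => Q (a - x) (b - y)) hQ'
  have hinner : ∀ x ∈ Ioo 0 a, (∫ y in (0:ℝ)..b, Z x y) = A x + B (a - x) := by
    intro x hx
    have h0 : 0 ≤ g₀ + k * x := hpos x ⟨hx.1.le, hx.2.le⟩
    have h1 : 0 ≤ g₀ + k * (a - x) := hpos (a - x) ⟨by linarith [hx.2], by linarith [hx.1]⟩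
    have h2 : b - (g₀ + k * x) = g₀ + k * (a - x) := by rw [← heq]; ring
    have h3 : g₀ + k * x ≤ b := by linarith
    have iP : IntervalIntegrable (P x) volume 0 (g₀ + k * x) :=
      (DCe_cont_slice hP x).intervalIntegrable _ _
    have iQ : IntervalIntegrable (Q x) volume (g₀ + k * x) b :=
      (DCe_cont_slice hQ x).intervalIntegrable _ _
    have eP : EqOn (P x) (Z x) (Ioo 0 (g₀ + k * x)) := fun y hy => (hZP x hx y hy.2).symm
    have eQ : EqOn (Q x) (Z x) (Ioo (g₀ + k * x) b) := fun y hy => (hZQ x hx y hy.1).symm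
    have iZ1 : IntervalIntegrable (Z x) volume 0 (g₀ + k * x) :=
      iP.congr_uIoo (by rw [uIoo_of_le h0]; exact eP)
    have iZ2 : IntervalIntegrable (Z x) volume (g₀ + k * x) b :=
      iQ.congr_uIoo (by rw [uIoo_of_le h3]; exact eQ)
    rw [← intervalIntegral.integral_add_adjacent_intervals iZ1 iZ2]
    congr 1
    · rw [hA]
      exact (intervalIntegral.integral_congr_Ioo_of_le h0 eP).symm
    · rw [← intervalIntegral.integral_congr_Ioo_of_le h3 eQ, hB]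
      show (∫ y in (g₀ + k * x)..b, Q x y) =
        ∫ y in (0:ℝ)..(g₀ + k * (a - x)), Q (a - (a - x)) (b - y)
      rw [sub_sub_cancel, ← h2,
        intervalIntegral.integral_comp_sub_left (fun y => Q x y) b, sub_sub_cancel, sub_zero]
  rw [intervalIntegral.integral_congr_Ioo_of_le ha.le
    (g := fun x => A x + B (a - x)) (fun x hx => hinner x hx)]
  have hB' : Continuous fun x => B (a - x) := hBc.comp (continuous_const.sub continuous_id)
  have e := intervalIntegral.integral_add (μ := volume) (hAc.intervalIntegrable 0 a)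
    (hB'.intervalIntegrable 0 a)
  rw [e, intervalIntegral.integral_comp_sub_left B a, sub_self, sub_zero, hA, hB]

theorem DCe_add (a g₀ k : ℝ) (P Q : ℝ → ℝ → ℝ)
    (hP : Continuous fun q : ℝ × ℝ => P q.1 q.2) (hQ : Continuous fun q : ℝ × ℝ => Q q.1 q.2) :
    (∫ x in (0:ℝ)..a, ∫ y in (0:ℝ)..(g₀ + k * x), (P x y + Q x y)) =
      (∫ x in (0:ℝ)..a, ∫ y in (0:ℝ)..(g₀ + k * x), P x y) +
      ∫ x in (0:ℝ)..a, ∫ y in (0:ℝ)..(g₀ + k * x), Q x y := by
  rw [← intervalIntegral.integral_add ((DCe_cont_int g₀ k hP).intervalIntegrable _ _)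
    ((DCe_cont_int g₀ k hQ).intervalIntegrable _ _)]
  congr 1
  funext x
  exact intervalIntegral.integral_add ((DCe_cont_slice hP x).intervalIntegrable _ _)
    ((DCe_cont_slice hQ x).intervalIntegrable _ _)

theorem DCe_mono (a g₀ k : ℝ) (ha : 0 < a) (hpos : ∀ x ∈ Icc 0 a, 0 ≤ g₀ + k * x)
    (P Q : ℝ → ℝ → ℝ)
    (hP : Continuous fun q : ℝ × ℝ => P q.1 q.2) (hQ : Continuous fun q : ℝ × ℝ => Q q.1 q.2)
    (h : ∀ x y, P x y ≤ Q x y) :
    (∫ x in (0:ℝ)..a, ∫ y in (0:ℝ)..(g₀ + k * x), P x y) ≤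
      ∫ x in (0:ℝ)..a, ∫ y in (0:ℝ)..(g₀ + k * x), Q x y := by
  refine intervalIntegral.integral_mono_on ha.le ((DCe_cont_int g₀ k hP).intervalIntegrable _ _)
    ((DCe_cont_int g₀ k hQ).intervalIntegrable _ _) (fun x hx => ?_)
  exact intervalIntegral.integral_mono_on (hpos x hx)
    ((DCe_cont_slice hP x).intervalIntegrable _ _)
    ((DCe_cont_slice hQ x).intervalIntegrable _ _) (fun y _ => h x y)

theorem DCe_C1_T {θ : ℝ → ℝ} (hθ : ContDiff ℝ 1 θ) {V : ℝ → ℝ → ℝ} (hV : C1 V) (ε : ℝ) :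
    C1 (fun x y => ε * θ (V x y / ε)) := by
  unfold C1 at *
  exact contDiff_const.mul (hθ.comp (hV.div_const ε))

theorem DCe_C1_rev {V : ℝ → ℝ → ℝ} (hV : C1 V) (a b : ℝ) : C1 (fun x y => V (a - x) (b - y)) := by
  unfold C1 at *
  exact hV.comp ((contDiff_const.sub contDiff_fst).prodMk (contDiff_const.sub contDiff_snd))

theorem DCe_gr_cont (h0 : SReg) {V : ℝ → ℝ → ℝ} (hV : C1 V) :
    Continuous fun q : ℝ × ℝ => gr V q.1 q.2 := by
  obtain ⟨-, h1, h2, -, -⟩ := h0 V hV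
  exact (h1.pow 2).add (h2.pow 2)

theorem DCe_gr_T (h0 : SReg) {θ : ℝ → ℝ} (hθ : ContDiff ℝ 1 θ) (hd : ∀ τ, |deriv θ τ| ≤ 1)
    {V : ℝ → ℝ → ℝ} (hV : C1 V) {ε : ℝ} (hε : 0 < ε) (x y : ℝ) :
    gr (fun x y => ε * θ (V x y / ε)) x y ≤ gr V x y := by
  obtain ⟨-, -, -, h1, h2⟩ := h0 V hV
  have hθd : ∀ t, HasDerivAt θ (deriv θ t) t := fun t =>
    ((hθ.differentiable (by norm_num)) t).hasDerivAt
  have e1 : px (fun x y => ε * θ (V x y / ε)) x y = deriv θ (V x y / ε) * px V x y := by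
    have h3 : HasDerivAt (fun τ => ε * θ (V τ y / ε))
        (ε * (deriv θ (V x y / ε) * (px V x y / ε))) x :=
      ((hθd _).comp x ((h1 x y).div_const ε)).const_mul ε
    unfold px at h3 ⊢
    rw [h3.deriv]
    field_simp
  have e2 : py (fun x y => ε * θ (V x y / ε)) x y = deriv θ (V x y / ε) * py V x y := by
    have h3 : HasDerivAt (fun τ => ε * θ (V x τ / ε))
        (ε * (deriv θ (V x y / ε) * (py V x y / ε))) y :=
      ((hθd _).comp y ((h2 x y).div_const ε)).const_mul ε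
    unfold py at h3 ⊢
    rw [h3.deriv]
    field_simp
  unfold gr
  rw [e1, e2, mul_pow, mul_pow, ← mul_add]
  have h4 : deriv θ (V x y / ε) ^ 2 ≤ 1 := by
    rw [← sq_abs]
    exact pow_le_one₀ (abs_nonneg _) (hd _)
  exact mul_le_of_le_one_left (by positivity) h4

theorem DCe_gr_rev (V : ℝ → ℝ → ℝ) (a b x y : ℝ) :
    gr (fun x y => V (a - x) (b - y)) x y = gr V (a - x) (b - y) := by
  have e1 : px (fun x y => V (a - x) (b - y)) x y = -px V (a - x) (b - y) := by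
    unfold px
    exact deriv_comp_const_sub (f := fun τ => V τ (b - y)) a x
  have e2 : py (fun x y => V (a - x) (b - y)) x y = -py V (a - x) (b - y) := by
    unfold py
    exact deriv_comp_const_sub (f := fun τ => V (a - x) τ) b y
  unfold gr
  rw [e1, e2, neg_sq, neg_sq]

theorem DCe_proof (h0 : SReg) (h1 : SRNN) (h3 : SGlue) : SDCe := by
  intro a b μ g₀ k ha hb hμ heq hpos V₁ V₂ hV₁ hV₂ hz θ hθ hθ0 hθd ε hε S hS
  obtain ⟨T₁, hT₁⟩ : ∃ T : ℝ → ℝ → ℝ, T = fun x y => ε * θ (V₁ x y / ε) := ⟨_, rfl⟩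
  obtain ⟨T₂, hT₂⟩ : ∃ T : ℝ → ℝ → ℝ, T = fun x y => ε * θ (V₂ x y / ε) := ⟨_, rfl⟩
  have cT₁ : C1 T₁ := by rw [hT₁]; exact DCe_C1_T hθ hV₁ ε
  have cT₂ : C1 T₂ := by rw [hT₂]; exact DCe_C1_T hθ hV₂ ε
  have cG : C1 (fun x y => T₂ (a - x) (b - y)) := DCe_C1_rev cT₂ a b
  have hc₁ : Continuous fun q : ℝ × ℝ => T₁ q.1 q.2 := (h0 _ cT₁).1
  have hc₂ : Continuous fun q : ℝ × ℝ => T₂ q.1 q.2 := (h0 _ cT₂).1
  have hcG : Continuous fun q : ℝ × ℝ => T₂ (a - q.1) (b - q.2) := (h0 _ cG).1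
  have hv₁ : Continuous fun q : ℝ × ℝ => V₁ q.1 q.2 := (h0 _ hV₁).1
  have hv₂ : Continuous fun q : ℝ × ℝ => V₂ (a - q.1) (b - q.2) :=
    (h0 _ (DCe_C1_rev hV₂ a b)).1
  have hlsym : ∀ x, b - (g₀ + k * x) = g₀ + k * (a - x) := fun x => by rw [← heq]; ring
  have hsmall : ∀ v : ℝ, |v| < ε → ε * θ (v / ε) = 0 := by
    intro v hv
    rw [hθ0 (v / ε) (by rw [abs_div, abs_of_pos hε, div_le_one hε]; exact hv.le), mul_zero]
  have hnear : ∀ x ∈ Icc 0 a, ∀ᶠ q : ℝ × ℝ in nhds (x, g₀ + k * x),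
      T₁ q.1 q.2 = 0 ∧ T₂ (a - q.1) (b - q.2) = 0 := by
    intro x hx
    have n1 : ∀ᶠ q : ℝ × ℝ in nhds (x, g₀ + k * x), |V₁ q.1 q.2| < ε := by
      have := (hv₁.abs).tendsto (x, g₀ + k * x)
      refine this.eventually (gt_mem_nhds ?_)
      show |V₁ x (g₀ + k * x)| < ε
      rw [(hz x hx).1, abs_zero]
      exact hε
    have n2 : ∀ᶠ q : ℝ × ℝ in nhds (x, g₀ + k * x), |V₂ (a - q.1) (b - q.2)| < ε := by
      have := (hv₂.abs).tendsto (x, g₀ + k * x)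
      refine this.eventually (gt_mem_nhds ?_)
      show |V₂ (a - x) (b - (g₀ + k * x))| < ε
      rw [hlsym, (hz (a - x) ⟨by linarith [hx.2], by linarith [hx.1]⟩).2, abs_zero]
      exact hε
    filter_upwards [n1, n2] with q q1 q2
    rw [hT₁, hT₂]
    exact ⟨hsmall _ q1, hsmall _ q2⟩
  obtain ⟨U, cU, hU⟩ := h3 a g₀ k ha T₁ (fun x y => T₂ (a - x) (b - y)) cT₁ cG hnear
  have hU1 : ∀ x ∈ Ioo 0 a, ∀ y < g₀ + k * x, U x y = T₁ x y := by
    intro x hx y hy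
    rw [hU x ⟨hx.1.le, hx.2.le⟩ y, if_pos hy]
  have hU2 : ∀ x ∈ Ioo 0 a, ∀ y, g₀ + k * x < y → U x y = T₂ (a - x) (b - y) := by
    intro x hx y hy
    rw [hU x ⟨hx.1.le, hx.2.le⟩ y, if_neg (not_lt.mpr hy.le)]
  have hlc : Continuous fun τ : ℝ => g₀ + k * τ := by fun_prop
  have g1 : ∀ x ∈ Ioo 0 a, ∀ y < g₀ + k * x, gr U x y = gr T₁ x y := by
    intro x hx y hy
    have e1 : px U x y = px T₁ x y := by
      unfold px
      apply Filter.EventuallyEq.deriv_eq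
      have m1 : ∀ᶠ τ in nhds x, τ ∈ Ioo 0 a := isOpen_Ioo.mem_nhds hx
      have m2 : ∀ᶠ τ in nhds x, y < g₀ + k * τ := (hlc.tendsto x).eventually (lt_mem_nhds hy)
      filter_upwards [m1, m2] with τ t1 t2
      exact hU1 τ t1 y t2
    have e2 : py U x y = py T₁ x y := by
      unfold py
      apply Filter.EventuallyEq.deriv_eq
      filter_upwards [gt_mem_nhds hy] with τ t1
      exact hU1 x hx τ t1
    unfold gr
    rw [e1, e2]
  have g2 : ∀ x ∈ Ioo 0 a, ∀ y, g₀ + k * x < y →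
      gr U x y = gr (fun x y => T₂ (a - x) (b - y)) x y := by
    intro x hx y hy
    have e1 : px U x y = px (fun x y => T₂ (a - x) (b - y)) x y := by
      unfold px
      apply Filter.EventuallyEq.deriv_eq
      have m1 : ∀ᶠ τ in nhds x, τ ∈ Ioo 0 a := isOpen_Ioo.mem_nhds hx
      have m2 : ∀ᶠ τ in nhds x, g₀ + k * τ < y := (hlc.tendsto x).eventually (gt_mem_nhds hy)
      filter_upwards [m1, m2] with τ t1 t2
      exact hU2 τ t1 y t2
    have e2 : py U x y = py (fun x y => T₂ (a - x) (b - y)) x y := by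
      unfold py
      apply Filter.EventuallyEq.deriv_eq
      filter_upwards [lt_mem_nhds hy] with τ t1
      exact hU2 x hx τ t1
    unfold gr
    rw [e1, e2]
  have key := h1 a b μ ha hb hμ U cU S hS
  -- the masses
  have i1 : (∫ x in (0:ℝ)..a, ∫ y in (0:ℝ)..b, U x y ^ 2) =
      ∫ x in (0:ℝ)..a, ∫ y in (0:ℝ)..(g₀ + k * x), (T₁ x y ^ 2 + T₂ x y ^ 2) := by
    rw [DCe_add a g₀ k (fun x y => T₁ x y ^ 2) (fun x y => T₂ x y ^ 2) (hc₁.pow 2) (hc₂.pow 2)]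
    have := DCe_split a b g₀ k ha heq hpos (fun x y => T₁ x y ^ 2)
      (fun x y => T₂ (a - x) (b - y) ^ 2) (fun x y => U x y ^ 2) (hc₁.pow 2) (hcG.pow 2)
      (fun x hx y hy => by rw [hU1 x hx y hy]) (fun x hx y hy => by rw [hU2 x hx y hy])
    simpa only [sub_sub_cancel] using this
  -- the coefficients
  have i2 : ∀ s : ℕ × ℕ, (∫ x in (0:ℝ)..a, ∫ y in (0:ℝ)..b,
      U x y * (Real.cos (s.1 * Real.pi * x / a) * Real.cos (s.2 * Real.pi * y / b))) =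
      cc a b g₀ k s.1 s.2 T₁ + cr a b g₀ k s.1 s.2 T₂ := by
    intro s
    have hcos : Continuous fun q : ℝ × ℝ =>
        Real.cos (s.1 * Real.pi * q.1 / a) * Real.cos (s.2 * Real.pi * q.2 / b) := by
      fun_prop
    have := DCe_split a b g₀ k ha heq hpos
      (fun x y => T₁ x y * (Real.cos (s.1 * Real.pi * x / a) * Real.cos (s.2 * Real.pi * y / b)))
      (fun x y => T₂ (a - x) (b - y) *
        (Real.cos (s.1 * Real.pi * x / a) * Real.cos (s.2 * Real.pi * y / b)))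
      (fun x y => U x y * (Real.cos (s.1 * Real.pi * x / a) * Real.cos (s.2 * Real.pi * y / b)))
      (hc₁.mul hcos) (hcG.mul hcos)
      (fun x hx y hy => by rw [hU1 x hx y hy]) (fun x hx y hy => by rw [hU2 x hx y hy])
    simp only [sub_sub_cancel] at this
    exact this
  -- the energies
  have i3 : (∫ x in (0:ℝ)..a, ∫ y in (0:ℝ)..b, gr U x y) ≤
      ∫ x in (0:ℝ)..a, ∫ y in (0:ℝ)..(g₀ + k * x), (gr V₁ x y + gr V₂ x y) := by
    rw [DCe_add a g₀ k (gr V₁) (gr V₂) (DCe_gr_cont h0 hV₁) (DCe_gr_cont h0 hV₂)]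
    have := DCe_split a b g₀ k ha heq hpos (gr T₁) (gr (fun x y => T₂ (a - x) (b - y))) (gr U)
      (DCe_gr_cont h0 cT₁) (DCe_gr_cont h0 cG) g1 g2
    rw [this]
    refine add_le_add ?_ ?_
    · refine DCe_mono a g₀ k ha hpos _ _ (DCe_gr_cont h0 cT₁) (DCe_gr_cont h0 hV₁) ?_
      intro x y
      rw [hT₁]
      exact DCe_gr_T h0 hθ hθd hV₁ hε x y
    · have e : ∀ x y, gr (fun x y => T₂ (a - x) (b - y)) (a - x) (b - y) = gr T₂ x y := by
        intro x y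
        rw [DCe_gr_rev, sub_sub_cancel, sub_sub_cancel]
      simp only [e]
      refine DCe_mono a g₀ k ha hpos _ _ (DCe_gr_cont h0 cT₂) (DCe_gr_cont h0 hV₂) ?_
      intro x y
      rw [hT₂]
      exact DCe_gr_T h0 hθ hθd hV₂ hε x y
  rw [i1] at key
  simp only [i2] at key
  rw [hT₁, hT₂] at key
  refine key.trans ?_
  exact add_le_add i3 le_rfl

end Pool.Agent.Work.MP_33c50c_an.SK
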