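import Pool.Agent.Work.MP_33c50c_an.SK.Stmts

/-!
# MP_33c50c_an, block SK: item Dec
-/

set_option autoImplicit false

open MeasureTheory Set
open scoped ENNReal ContDiff

namespace Pool.Agent.Work.MP_33c50c_an.SK

open Pool.Agent.Work.MP_33c50c_an

/-- differentiation under the integral sign -/
theorem Dec_deriv (W Wx : ℝ → ℝ → ℝ) (H : ℝ)
    (hW : Continuous fun q : ℝ × ℝ => W q.1 q.2) (hWx : Continuous fun q : ℝ × ℝ => Wx q.1 q.2)
    (hd : ∀ x y, HasDerivAt (fun τ => W τ y) (Wx x y) x) (x : ℝ) :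
    HasDerivAt (fun x => ∫ y in (0:ℝ)..H, W x y ^ 2)
      (2 * ∫ y in (0:ℝ)..H, W x y * Wx x y) x := by
  have hWf : ∀ z, Continuous fun y => W z y := fun z =>
    hW.comp (by fun_prop : Continuous fun y : ℝ => (z, y))
  have hWxf : ∀ z, Continuous fun y => Wx z y := fun z =>
    hWx.comp (by fun_prop : Continuous fun y : ℝ => (z, y))
  have hjoint : Continuous fun q : ℝ × ℝ => 2 * (W q.1 q.2 * Wx q.1 q.2) :=
    continuous_const.mul (hW.mul hWx)
  obtain ⟨C, hC⟩ := ((isCompact_Icc (a := x - 1) (b := x + 1)).prod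
    (isCompact_uIcc (a := (0:ℝ)) (b := H))).exists_bound_of_continuousOn hjoint.continuousOn
  rw [← intervalIntegral.integral_const_mul]
  refine (intervalIntegral.hasDerivAt_integral_of_dominated_loc_of_deriv_le
    (F := fun x y => W x y ^ 2) (F' := fun x y => 2 * (W x y * Wx x y)) (bound := fun _ => C)
    (s := Icc (x - 1) (x + 1)) (Icc_mem_nhds (by linarith) (by linarith)) ?_ ?_ ?_ ?_ ?_ ?_).2
  · exact Filter.Eventually.of_forall fun z => ((hWf z).pow 2).aestronglyMeasurable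
  · exact ((hWf x).pow 2).intervalIntegrable _ _
  · exact (continuous_const.mul ((hWf x).mul (hWxf x))).aestronglyMeasurable
  · refine Filter.Eventually.of_forall fun y hy z hz => ?_
    exact hC (z, y) ⟨hz, uIoc_subset_uIcc hy⟩
  · exact intervalIntegrable_const
  · refine Filter.Eventually.of_forall fun y _ z _ => ?_
    have := (hd z y).pow 2
    refine this.congr_deriv ?_
    simp only [Nat.cast_ofNat, Nat.add_one_sub_one, pow_one]
    ring

/-- the integral of a product -/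
theorem Dec_cont2 (U V : ℝ → ℝ → ℝ) (H : ℝ)
    (hU : Continuous fun q : ℝ × ℝ => U q.1 q.2) (hV : Continuous fun q : ℝ × ℝ => V q.1 q.2) :
    Continuous fun x => ∫ y in (0:ℝ)..H, U x y * V x y := by
  apply intervalIntegral.continuous_parametric_intervalIntegral_of_continuous'
  exact hU.mul hV

theorem Dec_contI (U : ℝ → ℝ → ℝ) (H : ℝ)
    (hU : Continuous fun q : ℝ × ℝ => U q.1 q.2) :
    Continuous fun x => ∫ y in (0:ℝ)..H, U x y := by
  apply intervalIntegral.continuous_parametric_intervalIntegral_of_continuous'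
  exact hU

/-- expansion of the energy -/
theorem Dec_expand (h : ℝ) (al bl l ak bk k : ℝ → ℝ) (cal : Continuous al) (cbl : Continuous bl)
    (cl : Continuous l) (cak : Continuous ak) (cbk : Continuous bk) (ck : Continuous k)
    (o1 : ∫ y in (0:ℝ)..h, l y * k y = 0) (o2 : ∫ y in (0:ℝ)..h, al y * k y = 0)
    (o3 : ∫ y in (0:ℝ)..h, al y * ak y = 0) (o4 : ∫ y in (0:ℝ)..h, bl y * bk y = 0)
    (s p m : ℝ) :
    ∫ y in (0:ℝ)..h, (((al y + s * ak y - p * k y) ^ 2 + (bl y + s * bk y) ^ 2)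
        - m * (l y + s * k y) ^ 2) =
      (∫ y in (0:ℝ)..h, (al y ^ 2 + bl y ^ 2 - m * l y ^ 2)) +
      (s ^ 2 * (∫ y in (0:ℝ)..h, ak y ^ 2) - 2 * (s * p) * (∫ y in (0:ℝ)..h, k y * ak y) +
        p ^ 2 * (∫ y in (0:ℝ)..h, k y ^ 2) +
        s ^ 2 * ((∫ y in (0:ℝ)..h, bk y ^ 2) - m * ∫ y in (0:ℝ)..h, k y ^ 2)) := by
  have ii : ∀ f : ℝ → ℝ, Continuous f → IntervalIntegrable f volume 0 h :=
    fun f hf => hf.intervalIntegrable _ _
  have e : ∀ y, (((al y + s * ak y - p * k y) ^ 2 + (bl y + s * bk y) ^ 2)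
        - m * (l y + s * k y) ^ 2) =
      (al y ^ 2 + bl y ^ 2 - m * l y ^ 2) + (s ^ 2 * ak y ^ 2 + ((-(2 * (s * p))) * (k y * ak y) +
        ((p ^ 2 - s ^ 2 * m) * k y ^ 2 + (s ^ 2 * bk y ^ 2 + ((2 * s) * (al y * ak y) +
        ((-(2 * p)) * (al y * k y) + ((2 * s) * (bl y * bk y) +
        (-(2 * m * s)) * (l y * k y)))))))) := fun y => by ring
  have c1 : Continuous fun y => (al y ^ 2 + bl y ^ 2 - m * l y ^ 2) := by fun_prop
  have c2 : Continuous fun y => s ^ 2 * ak y ^ 2 := by fun_prop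
  have c3 : Continuous fun y => (-(2 * (s * p))) * (k y * ak y) := by fun_prop
  have c4 : Continuous fun y => (p ^ 2 - s ^ 2 * m) * k y ^ 2 := by fun_prop
  have c5 : Continuous fun y => s ^ 2 * bk y ^ 2 := by fun_prop
  have c6 : Continuous fun y => (2 * s) * (al y * ak y) := by fun_prop
  have c7 : Continuous fun y => (-(2 * p)) * (al y * k y) := by fun_prop
  have c8 : Continuous fun y => (2 * s) * (bl y * bk y) := by fun_prop
  have c9 : Continuous fun y => (-(2 * m * s)) * (l y * k y) := by fun_prop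
  rw [intervalIntegral.integral_congr (fun y _ => e y)]
  rw [intervalIntegral.integral_add (ii _ c1) (ii _ (by fun_prop)),
    intervalIntegral.integral_add (ii _ c2) (ii _ (by fun_prop)),
    intervalIntegral.integral_add (ii _ c3) (ii _ (by fun_prop)),
    intervalIntegral.integral_add (ii _ c4) (ii _ (by fun_prop)),
    intervalIntegral.integral_add (ii _ c5) (ii _ (by fun_prop)),
    intervalIntegral.integral_add (ii _ c6) (ii _ (by fun_prop)),
    intervalIntegral.integral_add (ii _ c7) (ii _ (by fun_prop)),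
    intervalIntegral.integral_add (ii _ c8) (ii _ c9)]
  simp only [intervalIntegral.integral_const_mul, o1, o2, o3, o4]
  ring

theorem Dec_sq (h : ℝ) (hh : 0 ≤ h) (l k : ℝ → ℝ) (cl : Continuous l) (ck : Continuous k)
    (o1 : ∫ y in (0:ℝ)..h, l y * k y = 0) :
    ∫ y in (0:ℝ)..h, k y ^ 2 ≤ ∫ y in (0:ℝ)..h, (l y + k y) ^ 2 := by
  have ii : ∀ f : ℝ → ℝ, Continuous f → IntervalIntegrable f volume 0 h :=
    fun f hf => hf.intervalIntegrable _ _
  have e : ∀ y, (l y + k y) ^ 2 = l y ^ 2 + (2 * (l y * k y) + k y ^ 2) := fun y => by ring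
  rw [intervalIntegral.integral_congr (fun y _ => e y)]
  rw [intervalIntegral.integral_add (ii _ (by fun_prop)) (ii _ (by fun_prop)),
    intervalIntegral.integral_add (ii _ (by fun_prop)) (ii _ (by fun_prop)),
    intervalIntegral.integral_const_mul, o1]
  have : 0 ≤ ∫ y in (0:ℝ)..h, l y ^ 2 :=
    intervalIntegral.integral_nonneg hh fun _ _ => sq_nonneg _
  linarith

theorem Dec_proof (h0 : SReg) (h1 : SLoR) (h2 : SOrt) (h3 : SDecA) (h4 : SDecR) : SDec := by
  intro h m₀ μ δ hh hμ hδ hm w hw hbd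
  obtain ⟨hl1, hk1, -, -⟩ := h1 h m₀ w hh hw
  obtain ⟨hd1, -⟩ := h4 h m₀ μ δ hh hμ hδ w hw
  obtain ⟨cw, cpw, cqw, dpw, dqw⟩ := h0 w hw
  obtain ⟨cl, cpl, cql, dpl, dql⟩ := h0 _ hl1
  obtain ⟨ck, cpk, cqk, dpk, dqk⟩ := h0 _ hk1
  obtain ⟨cd, cpd, cqd, dpd, dqd⟩ := h0 _ hd1
  set l := lo h m₀ w with hldef
  set k := hi h m₀ w with hkdef
  set d := dec h m₀ μ δ w with hddef
  have hwlk : ∀ t y, w t y = l t y + k t y := by
    intro t y
    rw [hkdef]
    unfold hi
    ring
  have fib : ∀ (U : ℝ → ℝ → ℝ), (Continuous fun q : ℝ × ℝ => U q.1 q.2) → ∀ t,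
      Continuous fun y => U t y := fun U hU t =>
    hU.comp (by fun_prop : Continuous fun y : ℝ => (t, y))
  have hpw : ∀ t y, px w t y = px l t y + px k t y := by
    intro t y
    have e1 : HasDerivAt (fun τ => w τ y) (px l t y + px k t y) t := by
      have := (dpl t y).add (dpk t y)
      refine this.congr_of_eventuallyEq (Filter.Eventually.of_forall fun τ => ?_)
      exact hwlk τ y
    exact (dpw t y).unique e1
  have hqw : ∀ t y, py w t y = py l t y + py k t y := by
    intro t y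
    have e1 : HasDerivAt (fun τ => w t τ) (py l t y + py k t y) y := by
      have := (dql t y).add (dqk t y)
      refine this.congr_of_eventuallyEq (Filter.Eventually.of_forall fun τ => ?_)
      exact hwlk t τ
    exact (dqw t y).unique e1
  -- the cutoff function
  have hcosh : 1 < Real.cosh (2 * μ * δ) := by
    rw [Real.one_lt_cosh]
    positivity
  have hcp : 0 < Real.cosh (2 * μ * δ) - 1 := by linarith
  set φ : ℝ → ℝ := fun t => (Real.cosh (2 * μ * (δ - t)) - 1) / (Real.cosh (2 * μ * δ) - 1)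
    with hφ
  set φ' : ℝ → ℝ := fun t => -(2 * μ * Real.sinh (2 * μ * (δ - t))) /
    (Real.cosh (2 * μ * δ) - 1) with hφ'
  have hφd : ∀ t, HasDerivAt φ (φ' t) t := by
    intro t
    have e1 : HasDerivAt (fun t : ℝ => 2 * μ * (δ - t)) (2 * μ * (-1)) t := by
      have := ((hasDerivAt_id t).const_sub δ).const_mul (2 * μ)
      simpa using this
    have e2 := ((e1.cosh).sub_const 1).div_const (Real.cosh (2 * μ * δ) - 1)
    refine e2.congr_deriv ?_
    simp only [hφ']
    ring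
  have hphi : ∀ t, t ≤ δ → phi μ δ t = φ t := by
    intro t ht
    unfold phi
    rw [if_pos ht]
  have hdk : ∀ t y, t ≤ δ → d t y = l t y + (1 - φ t) * k t y := by
    intro t y ht
    have : d t y = w t y - phi μ δ t * k t y := rfl
    rw [this, hphi t ht, hwlk]
    ring
  have hpd : ∀ t y, t < δ → px d t y = px l t y + (1 - φ t) * px k t y - φ' t * k t y := by
    intro t y ht
    have e1 : HasDerivAt (fun τ => l τ y + (1 - φ τ) * k τ y)
        (px l t y + (-(φ' t) * k t y + (1 - φ t) * px k t y)) t := by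
      exact (dpl t y).add (((hφd t).const_sub 1).mul (dpk t y))
    have e2 : HasDerivAt (fun τ => d τ y)
        (px l t y + (-(φ' t) * k t y + (1 - φ t) * px k t y)) t := by
      refine e1.congr_of_eventuallyEq ?_
      filter_upwards [Iio_mem_nhds ht] with τ hτ
      exact hdk τ y (le_of_lt hτ)
    rw [(dpd t y).unique e2]
    ring
  have hqd : ∀ t y, t ≤ δ → py d t y = py l t y + (1 - φ t) * py k t y := by
    intro t y ht
    have e1 : HasDerivAt (fun τ => l t τ + (1 - φ t) * k t τ)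
        (py l t y + (1 - φ t) * py k t y) y := by
      exact (dql t y).add ((dqk t y).const_mul (1 - φ t))
    have e2 : HasDerivAt (fun τ => d t τ) (py l t y + (1 - φ t) * py k t y) y := by
      refine e1.congr_of_eventuallyEq (Filter.Eventually.of_forall fun τ => ?_)
      exact hdk t τ ht
    exact (dqd t y).unique e2
  -- the four functions
  set A : ℝ → ℝ := fun t => ∫ y in (0:ℝ)..h, k t y ^ 2 with hA
  set B : ℝ → ℝ := fun t => ∫ y in (0:ℝ)..h, px k t y ^ 2 with hB
  set D : ℝ → ℝ := fun t => ∫ y in (0:ℝ)..h, k t y * px k t y with hD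
  set G : ℝ → ℝ := fun t => ∫ y in (0:ℝ)..h, py k t y ^ 2 with hG
  set E : ℝ → ℝ := fun t => ∫ y in (0:ℝ)..h, (px l t y ^ 2 + py l t y ^ 2 - μ ^ 2 * l t y ^ 2)
    with hE
  have cA : Continuous A := Dec_contI (fun t y => k t y ^ 2) h (ck.pow 2)
  have cB : Continuous B := Dec_contI (fun t y => px k t y ^ 2) h (cpk.pow 2)
  have cD : Continuous D := Dec_contI (fun t y => k t y * px k t y) h (ck.mul cpk)
  have cG : Continuous G := Dec_contI (fun t y => py k t y ^ 2) h (cqk.pow 2)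
  have cE : Continuous E := Dec_contI
    (fun t y => px l t y ^ 2 + py l t y ^ 2 - μ ^ 2 * l t y ^ 2) h
    (((cpl.pow 2).add (cql.pow 2)).sub (continuous_const.mul (cl.pow 2)))
  have hAd : ∀ t, HasDerivAt A (2 * D t) t := fun t => Dec_deriv k (px k) h ck cpk dpk t
  have hpos : ∀ t ∈ Icc 0 δ, 0 ≤ A t ∧ 0 ≤ B t ∧ 4 * μ ^ 2 * A t ≤ G t := by
    intro t ht
    obtain ⟨-, -, -, -, o5⟩ := h2 h m₀ w hh hw t (hbd t ht).1 (hbd t ht).2
    have hA0 : 0 ≤ A t := intervalIntegral.integral_nonneg hh.le fun _ _ => sq_nonneg _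
    refine ⟨hA0, intervalIntegral.integral_nonneg hh.le fun _ _ => sq_nonneg _, ?_⟩
    refine le_trans ?_ o5
    refine mul_le_mul_of_nonneg_right ?_ hA0
    have : (2 * μ) ^ 2 ≤ ((m₀ + 1) * Real.pi / h) ^ 2 :=
      pow_le_pow_left₀ (by positivity) hm 2
    linarith
  have key := h3 μ δ hμ hδ A B D G cB cD cG hAd hpos φ φ' (fun t => rfl) (fun t => rfl)
  -- the energies on the fibres
  have F1 : ∀ t ∈ Ioo 0 δ, (∫ y in (0:ℝ)..h, (gr d t y - μ ^ 2 * d t y ^ 2)) =
      E t + ((1 - φ t) ^ 2 * B t - 2 * ((1 - φ t) * φ' t) * D t + φ' t ^ 2 * A t +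
      (1 - φ t) ^ 2 * (G t - μ ^ 2 * A t)) := by
    intro t ht
    obtain ⟨o1, o2, o3, o4, -⟩ := h2 h m₀ w hh hw t (hbd t ⟨ht.1.le, ht.2.le⟩).1
      (hbd t ⟨ht.1.le, ht.2.le⟩).2
    have := Dec_expand h (px l t) (py l t) (l t) (px k t) (py k t) (k t) (fib _ cpl t)
      (fib _ cql t) (fib _ cl t) (fib _ cpk t) (fib _ cqk t) (fib _ ck t) o1 o2 o3 o4
      (1 - φ t) (φ' t) (μ ^ 2)
    rw [← this]
    refine intervalIntegral.integral_congr fun y _ => ?_
    simp only [gr]
    rw [hpd t y ht.2, hqd t y ht.2.le, hdk t y ht.2.le]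
  have F2 : ∀ t ∈ Icc 0 δ, (∫ y in (0:ℝ)..h, (gr w t y - μ ^ 2 * w t y ^ 2)) =
      E t + (B t + (G t - μ ^ 2 * A t)) := by
    intro t ht
    obtain ⟨o1, o2, o3, o4, -⟩ := h2 h m₀ w hh hw t (hbd t ht).1 (hbd t ht).2
    have := Dec_expand h (px l t) (py l t) (l t) (px k t) (py k t) (k t) (fib _ cpl t)
      (fib _ cql t) (fib _ cl t) (fib _ cpk t) (fib _ cqk t) (fib _ ck t) o1 o2 o3 o4
      1 0 (μ ^ 2)
    have e2 : E t + (B t + (G t - μ ^ 2 * A t)) = E t + ((1:ℝ) ^ 2 * B t - 2 * (1 * 0) * D t +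
      (0:ℝ) ^ 2 * A t + (1:ℝ) ^ 2 * (G t - μ ^ 2 * A t)) := by ring
    rw [e2, ← this]
    refine intervalIntegral.integral_congr fun y _ => ?_
    simp only [gr]
    rw [hpw t y, hqw t y, hwlk t y]
    ring
  have F3 : ∀ t ∈ Icc 0 δ, A t ≤ ∫ y in (0:ℝ)..h, w t y ^ 2 := by
    intro t ht
    obtain ⟨o1, -⟩ := h2 h m₀ w hh hw t (hbd t ht).1 (hbd t ht).2
    have := Dec_sq h hh.le (l t) (k t) (fib _ cl t) (fib _ ck t) o1
    refine this.trans (le_of_eq ?_)
    refine intervalIntegral.integral_congr fun y _ => ?_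
    rw [hwlk t y]
  -- integration in t
  have cφ : Continuous φ := continuous_iff_continuousAt.2 fun t => (hφd t).continuousAt
  have cφ' : Continuous φ' := by
    simp only [hφ']
    exact ((continuous_const.mul (Real.continuous_sinh.comp (by fun_prop))).neg).div_const _
  have I1 : (∫ t in (0:ℝ)..δ, ∫ y in (0:ℝ)..h, (gr d t y - μ ^ 2 * d t y ^ 2)) =
      (∫ t in (0:ℝ)..δ, E t) + ∫ t in (0:ℝ)..δ, ((1 - φ t) ^ 2 * B t -
        2 * ((1 - φ t) * φ' t) * D t + φ' t ^ 2 * A t +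
      (1 - φ t) ^ 2 * (G t - μ ^ 2 * A t)) := by
    rw [← intervalIntegral.integral_add (cE.intervalIntegrable _ _)
      ((by fun_prop : Continuous fun t => ((1 - φ t) ^ 2 * B t -
        2 * ((1 - φ t) * φ' t) * D t + φ' t ^ 2 * A t +
      (1 - φ t) ^ 2 * (G t - μ ^ 2 * A t))).intervalIntegrable _ _)]
    rw [intervalIntegral.integral_of_le hδ.le, intervalIntegral.integral_of_le hδ.le,
      integral_Ioc_eq_integral_Ioo, integral_Ioc_eq_integral_Ioo]
    exact setIntegral_congr_fun measurableSet_Ioo fun t ht => F1 t ht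
  have I2 : (∫ t in (0:ℝ)..δ, ∫ y in (0:ℝ)..h, (gr w t y - μ ^ 2 * w t y ^ 2)) =
      (∫ t in (0:ℝ)..δ, E t) + ∫ t in (0:ℝ)..δ, (B t + (G t - μ ^ 2 * A t)) := by
    rw [← intervalIntegral.integral_add (cE.intervalIntegrable _ _)
      ((by fun_prop : Continuous fun t => (B t + (G t - μ ^ 2 * A t))).intervalIntegrable _ _)]
    refine intervalIntegral.integral_congr fun t ht => ?_
    rw [uIcc_of_le hδ.le] at ht
    exact F2 t ht
  have I3 : (∫ t in (0:ℝ)..δ, A t) ≤ ∫ t in (0:ℝ)..δ, ∫ y in (0:ℝ)..h, w t y ^ 2 := by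
    refine intervalIntegral.integral_mono_on hδ.le (cA.intervalIntegrable _ _)
      ((Dec_contI (fun t y => w t y ^ 2) h (cw.pow 2)).intervalIntegrable _ _) fun t ht => ?_
    exact F3 t ht
  have hc : 0 ≤ 4 * μ ^ 2 / (Real.cosh (2 * μ * δ) - 1) := by positivity
  have I4 := mul_le_mul_of_nonneg_left I3 hc
  rw [I1, I2]
  linarith

end Pool.Agent.Work.MP_33c50c_an.SK
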