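import Pool.Agent.Work.MP_33c50c_an.SK.Stmts

/-!
# MP_33c50c_an, block SK, item DecA: the one dimensional inequality for the decoupling
-/

set_option autoImplicit false

open MeasureTheory Set
open scoped ENNReal ContDiff

namespace Pool.Agent.Work.MP_33c50c_an.SK

open Pool.Agent.Work.MP_33c50c_an

theorem DecA_pt (f M A B G E : ℝ) (hf0 : 0 ≤ f) (hf1 : f ≤ 1) (hM : 0 ≤ M) (hA : 0 ≤ A)
    (hB : 0 ≤ B) (hE : 0 ≤ E) (hG : 4 * M * A ≤ G) :
    (1 - f) ^ 2 * B + (1 - f) * (4 * M * f + E) * A + (1 - f) ^ 2 * (G - M * A) ≤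
      B + (G - M * A) + E * A := by
  have h1 : 0 ≤ f * (2 - f) := mul_nonneg hf0 (by linarith)
  have h2 : (1 - f) ^ 2 = 1 - f * (2 - f) := by ring
  have h3 : 0 ≤ f * (2 - f) * B := mul_nonneg h1 hB
  have h4 : 0 ≤ f * (2 - f) * (G - 4 * M * A) := mul_nonneg h1 (by linarith)
  have hMA : 0 ≤ M * A := mul_nonneg hM hA
  have hEA : 0 ≤ E * A := mul_nonneg hE hA
  have h5 : 0 ≤ f * (E * A) := mul_nonneg hf0 hEA
  have h6 : 0 ≤ (2 * f + f ^ 2) * (M * A) := mul_nonneg (by positivity) hMA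
  rw [h2]
  nlinarith

theorem DecA_proof : SDecA := by
  intro μ δ hμ hδ A B D G hB hD hG hA hpos φ φ' hφ hφ'
  obtain ⟨C, hC⟩ : ∃ C : ℝ, C = Real.cosh (2 * μ * δ) - 1 := ⟨_, rfl⟩
  have hC0 : 0 < C := by
    rw [hC]
    have : 1 < Real.cosh (2 * μ * δ) := Real.one_lt_cosh.2 (by positivity)
    linarith
  simp only [← hC] at hφ hφ' ⊢
  obtain ⟨E, hE⟩ : ∃ E : ℝ, E = 4 * μ ^ 2 / C := ⟨_, rfl⟩
  have hE0 : 0 ≤ E := by rw [hE]; positivity
  have hAc : Continuous A := continuous_iff_continuousAt.2 fun t => (hA t).continuousAt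
  have hlin : ∀ t, HasDerivAt (fun t : ℝ => 2 * μ * (δ - t)) (-(2 * μ)) t := fun t => by
    have := ((hasDerivAt_id t).const_sub δ).const_mul (2 * μ)
    simpa using this
  have hdφ : ∀ t, HasDerivAt φ (φ' t) t := fun t => by
    have h1 := (((Real.hasDerivAt_cosh (2 * μ * (δ - t))).comp t (hlin t)).sub_const 1).div_const C
    have h2 : φ = fun t => (Real.cosh (2 * μ * (δ - t)) - 1) / C := funext hφ
    rw [h2, hφ']
    refine HasDerivAt.congr_deriv h1 ?_
    ring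
  have hdφ' : ∀ t, HasDerivAt φ' (4 * μ ^ 2 * φ t + E) t := fun t => by
    have h1 := (((Real.hasDerivAt_sinh (2 * μ * (δ - t))).comp t (hlin t)).const_mul
      (2 * μ)).neg.div_const C
    have h2 : φ' = fun t => -(2 * μ * Real.sinh (2 * μ * (δ - t))) / C := funext hφ'
    rw [h2, hφ, hE]
    refine HasDerivAt.congr_deriv h1 ?_
    field_simp
    ring
  have hφc : Continuous φ := continuous_iff_continuousAt.2 fun t => (hdφ t).continuousAt
  have hφc' : Continuous φ' := continuous_iff_continuousAt.2 fun t => (hdφ' t).continuousAt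
  -- integration by parts
  have hu : ∀ t, HasDerivAt (fun t => (1 - φ t) * φ' t * A t)
      ((-(φ' t) * φ' t + (1 - φ t) * (4 * μ ^ 2 * φ t + E)) * A t +
        (1 - φ t) * φ' t * (2 * D t)) t := fun t =>
    (((hdφ t).const_sub 1).mul (hdφ' t)).mul (hA t)
  have hcont : Continuous fun t => (-(φ' t) * φ' t + (1 - φ t) * (4 * μ ^ 2 * φ t + E)) * A t +
        (1 - φ t) * φ' t * (2 * D t) := by fun_prop
  have hφ0 : φ 0 = 1 := by
    rw [hφ, sub_zero, ← hC, div_self hC0.ne']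
  have hφδ : φ' δ = 0 := by
    rw [hφ', sub_self, mul_zero, Real.sinh_zero, mul_zero, neg_zero, zero_div]
  have hparts : ∫ t in (0:ℝ)..δ, ((-(φ' t) * φ' t + (1 - φ t) * (4 * μ ^ 2 * φ t + E)) * A t +
        (1 - φ t) * φ' t * (2 * D t)) = 0 := by
    rw [intervalIntegral.integral_eq_sub_of_hasDerivAt (fun t _ => hu t)
      (hcont.intervalIntegrable _ _), hφ0, hφδ]
    ring
  have hc1 : Continuous fun t => (1 - φ t) ^ 2 * B t - 2 * ((1 - φ t) * φ' t) * D t +
      φ' t ^ 2 * A t + (1 - φ t) ^ 2 * (G t - μ ^ 2 * A t) := by fun_prop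
  have hc2 : Continuous fun t => B t + (G t - μ ^ 2 * A t) := by fun_prop
  rw [← intervalIntegral.integral_const_mul, ← intervalIntegral.integral_add
    (hc2.intervalIntegrable _ _) ((hAc.const_mul _).intervalIntegrable _ _)]
  have key : ∫ t in (0:ℝ)..δ, ((1 - φ t) ^ 2 * B t - 2 * ((1 - φ t) * φ' t) * D t +
      φ' t ^ 2 * A t + (1 - φ t) ^ 2 * (G t - μ ^ 2 * A t)) =
      ∫ t in (0:ℝ)..δ, (((1 - φ t) ^ 2 * B t - 2 * ((1 - φ t) * φ' t) * D t +
      φ' t ^ 2 * A t + (1 - φ t) ^ 2 * (G t - μ ^ 2 * A t)) +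
      ((-(φ' t) * φ' t + (1 - φ t) * (4 * μ ^ 2 * φ t + E)) * A t +
        (1 - φ t) * φ' t * (2 * D t))) := by
    rw [intervalIntegral.integral_add (hc1.intervalIntegrable _ _)
      (hcont.intervalIntegrable _ _), hparts, add_zero]
  rw [key]
  refine intervalIntegral.integral_mono_on hδ.le ((hc1.add hcont).intervalIntegrable _ _)
    ((hc2.add (hAc.const_mul _)).intervalIntegrable _ _) fun t ht => ?_
  obtain ⟨hA0, hB0, hG0⟩ := hpos t ht
  have hf0 : 0 ≤ φ t := by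
    rw [hφ]
    have := Real.one_le_cosh (2 * μ * (δ - t))
    exact div_nonneg (by linarith) hC0.le
  have hf1 : φ t ≤ 1 := by
    rw [hφ, div_le_one hC0, hC]
    have : Real.cosh (2 * μ * (δ - t)) ≤ Real.cosh (2 * μ * δ) := by
      rw [Real.cosh_le_cosh, abs_of_nonneg (mul_nonneg (by positivity) (by linarith [ht.2])),
        abs_of_nonneg (by positivity)]
      have := ht.1
      gcongr
      linarith
    linarith
  have := DecA_pt (φ t) (μ ^ 2) (A t) (B t) (G t) E hf0 hf1 (by positivity) hA0 hB0 hE0 hG0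
  rw [← hE]
  calc ((1 - φ t) ^ 2 * B t - 2 * ((1 - φ t) * φ' t) * D t +
      φ' t ^ 2 * A t + (1 - φ t) ^ 2 * (G t - μ ^ 2 * A t)) +
      ((-(φ' t) * φ' t + (1 - φ t) * (4 * μ ^ 2 * φ t + E)) * A t +
        (1 - φ t) * φ' t * (2 * D t)) = (1 - φ t) ^ 2 * B t +
        (1 - φ t) * (4 * μ ^ 2 * φ t + E) * A t + (1 - φ t) ^ 2 * (G t - μ ^ 2 * A t) := by ring
    _ ≤ _ := this

end Pool.Agent.Work.MP_33c50c_an.SK
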