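import Pool.Agent.Work.MP_33c50c_an.SK.Stmts

/-!
# MP_33c50c_an, block SK: properties of the decoupled function
-/

set_option autoImplicit false

open MeasureTheory Set
open scoped ENNReal ContDiff

namespace Pool.Agent.Work.MP_33c50c_an.SK

open Pool.Agent.Work.MP_33c50c_an

theorem DecR_psi (μ u : ℝ) :
    HasDerivAt (fun u : ℝ => if 0 ≤ u then Real.cosh (2 * μ * u) - 1 else 0)
      (2 * μ * Real.sinh (2 * μ * max u 0)) u := by
  have hc : ∀ u : ℝ, HasDerivAt (fun u : ℝ => Real.cosh (2 * μ * u) - 1)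
      (2 * μ * Real.sinh (2 * μ * u)) u := by
    intro u
    have h1 : HasDerivAt (fun u : ℝ => 2 * μ * u) (2 * μ) u := by
      simpa using (hasDerivAt_id u).const_mul (2 * μ)
    have h2 := (h1.cosh).sub_const 1
    have e : Real.sinh (2 * μ * u) * (2 * μ) = 2 * μ * Real.sinh (2 * μ * u) := by ring
    rw [e] at h2
    exact h2
  rcases lt_trichotomy u 0 with hu | hu | hu
  · rw [max_eq_right hu.le]
    have h0 : HasDerivAt (fun _ : ℝ => (0 : ℝ)) (2 * μ * Real.sinh (2 * μ * 0)) u := by
      simpa using hasDerivAt_const u (0 : ℝ)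
    refine h0.congr_of_eventuallyEq ?_
    filter_upwards [Iio_mem_nhds hu] with v hv
    exact if_neg (not_le.2 hv)
  · subst hu
    rw [max_self]
    have h1 : HasDerivWithinAt (fun u : ℝ => if 0 ≤ u then Real.cosh (2 * μ * u) - 1 else 0)
        (2 * μ * Real.sinh (2 * μ * 0)) (Ici 0) 0 := by
      refine (hc 0).hasDerivWithinAt.congr ?_ ?_
      · intro v hv
        exact if_pos hv
      · exact if_pos le_rfl
    have h2 : HasDerivWithinAt (fun u : ℝ => if 0 ≤ u then Real.cosh (2 * μ * u) - 1 else 0)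
        (2 * μ * Real.sinh (2 * μ * 0)) (Iic 0) 0 := by
      have h0 : HasDerivWithinAt (fun _ : ℝ => (0 : ℝ)) (2 * μ * Real.sinh (2 * μ * 0))
          (Iic 0) 0 := by
        simpa using (hasDerivAt_const (0 : ℝ) (0 : ℝ)).hasDerivWithinAt
      refine h0.congr ?_ ?_
      · intro v hv
        by_cases h : 0 ≤ v
        · have : v = 0 := le_antisymm hv h
          simp [this]
        · simp [h]
      · simp
    have h3 := h2.union h1
    rw [Iic_union_Ici] at h3
    exact hasDerivWithinAt_univ.1 h3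
  · rw [max_eq_left hu.le]
    refine (hc u).congr_of_eventuallyEq ?_
    filter_upwards [Ioi_mem_nhds hu] with v hv
    exact if_pos (le_of_lt hv)

theorem DecR_phi (μ δ : ℝ) : ContDiff ℝ 1 (phi μ δ) := by
  have e : phi μ δ = fun t => (if 0 ≤ δ - t then Real.cosh (2 * μ * (δ - t)) - 1 else 0) /
      (Real.cosh (2 * μ * δ) - 1) := by
    funext t
    unfold phi
    by_cases h : t ≤ δ
    · rw [if_pos h, if_pos (sub_nonneg.2 h)]
    · rw [if_neg h, if_neg (by simpa using h), zero_div]
  have hd : ∀ t, HasDerivAt (phi μ δ) (2 * μ * Real.sinh (2 * μ * max (δ - t) 0) * (-1) /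
      (Real.cosh (2 * μ * δ) - 1)) t := by
    intro t
    rw [e]
    have h1 : HasDerivAt (fun t : ℝ => δ - t) (-1) t := by
      simpa using (hasDerivAt_id t).const_sub δ
    exact ((DecR_psi μ (δ - t)).comp t h1).div_const _
  rw [contDiff_one_iff_deriv]
  refine ⟨fun t => (hd t).differentiableAt, ?_⟩
  have h2 : deriv (phi μ δ) = fun t => 2 * μ * Real.sinh (2 * μ * max (δ - t) 0) * (-1) /
      (Real.cosh (2 * μ * δ) - 1) := funext fun t => (hd t).deriv
  rw [h2]
  have h3 : Continuous fun t : ℝ => Real.sinh (2 * μ * max (δ - t) 0) :=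
    Real.continuous_sinh.comp (by fun_prop)
  exact ((continuous_const.mul h3).mul continuous_const).div_const _

theorem DecR_phi_ge (μ δ t : ℝ) (h : δ ≤ t) : phi μ δ t = 0 := by
  unfold phi
  by_cases h1 : t ≤ δ
  · have : t = δ := le_antisymm h1 h
    subst this
    simp
  · rw [if_neg h1]

theorem DecR_phi_zero (μ δ : ℝ) (hμ : 0 < μ) (hδ : 0 < δ) : phi μ δ 0 = 1 := by
  unfold phi
  rw [if_pos hδ.le, sub_zero]
  apply div_self
  have : 1 < Real.cosh (2 * μ * δ) := by
    rw [Real.one_lt_cosh]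
    positivity
  linarith

theorem DecR_lo_zero (h : ℝ) (m₀ : ℕ) (w : ℝ → ℝ → ℝ) (t : ℝ) : lo h m₀ w t 0 = 0 := by
  unfold lo
  apply Finset.sum_eq_zero
  intro m _
  simp

theorem DecR_lo_h (h : ℝ) (hh : 0 < h) (m₀ : ℕ) (w : ℝ → ℝ → ℝ) (t : ℝ) :
    lo h m₀ w t h = 0 := by
  unfold lo
  apply Finset.sum_eq_zero
  intro m _
  have e : ((m : ℝ) + 1) * Real.pi * h / h = ((m + 1 : ℕ) : ℝ) * Real.pi := by
    rw [mul_div_assoc, div_self hh.ne', mul_one]
    push_cast
    ring
  rw [e, Real.sin_nat_mul_pi, mul_zero]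

theorem DecR_cf_add (h0 : SReg) (h : ℝ) (w w' : ℝ → ℝ → ℝ) (hw : C1 w) (hw' : C1 w') (m : ℕ)
    (t : ℝ) : cf h (fun t η => w t η + w' t η) m t = cf h w m t + cf h w' m t := by
  unfold cf
  have c1 : Continuous fun y => w t y * Real.sin ((m + 1) * Real.pi * y / h) := by
    have h1 := (h0 w hw).1
    have h2 : Continuous fun y : ℝ => w t y := h1.comp (by fun_prop : Continuous fun y : ℝ => (t, y))
    exact h2.mul (Real.continuous_sin.comp (by fun_prop))
  have c2 : Continuous fun y => w' t y * Real.sin ((m + 1) * Real.pi * y / h) := by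
    have h1 := (h0 w' hw').1
    have h2 : Continuous fun y : ℝ => w' t y :=
      h1.comp (by fun_prop : Continuous fun y : ℝ => (t, y))
    exact h2.mul (Real.continuous_sin.comp (by fun_prop))
  have e : (fun y => (w t y + w' t y) * Real.sin ((m + 1) * Real.pi * y / h)) =
      fun y => w t y * Real.sin ((m + 1) * Real.pi * y / h) +
        w' t y * Real.sin ((m + 1) * Real.pi * y / h) := by
    funext y
    ring
  rw [e, intervalIntegral.integral_add (c1.intervalIntegrable _ _) (c2.intervalIntegrable _ _)]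
  ring

theorem DecR_cf_mul (h : ℝ) (r : ℝ) (w : ℝ → ℝ → ℝ) (m : ℕ)
    (t : ℝ) : cf h (fun t η => r * w t η) m t = r * cf h w m t := by
  unfold cf
  have e : (fun y => (r * w t y) * Real.sin ((m + 1) * Real.pi * y / h)) =
      fun y => r * (w t y * Real.sin ((m + 1) * Real.pi * y / h)) := by
    funext y
    ring
  rw [e, intervalIntegral.integral_const_mul]
  ring

theorem DecR_proof (h0 : SReg) (h1 : SLoR) : SDecR := by
  intro h m₀ μ δ hh hμ hδ w hw
  refine ⟨?_, ?_, ?_, ?_, ?_, ?_, ?_⟩
  · have h2 : C1 (hi h m₀ w) := (h1 h m₀ w hh hw).2.1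
    have h3 : ContDiff ℝ 1 (fun q : ℝ × ℝ => phi μ δ q.1) := (DecR_phi μ δ).comp contDiff_fst
    exact ContDiff.sub hw (h3.mul h2)
  · intro t η ht
    unfold dec
    rw [DecR_phi_ge μ δ t ht]
    ring
  · intro t ht
    unfold dec hi
    rw [DecR_lo_zero, ht]
    ring
  · intro t ht
    unfold dec hi
    rw [DecR_lo_h h hh, ht]
    ring
  · intro hc η
    unfold dec hi
    have e : lo h m₀ w 0 η = 0 := by
      unfold lo
      apply Finset.sum_eq_zero
      intro m hm
      rw [hc m (Finset.mem_range.1 hm), zero_mul]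
    rw [e, DecR_phi_zero μ δ hμ hδ]
    ring
  · intro w' hw'
    funext t η
    unfold dec hi
    have e : lo h m₀ (fun t η => w t η + w' t η) t η = lo h m₀ w t η + lo h m₀ w' t η := by
      unfold lo
      rw [← Finset.sum_add_distrib]
      apply Finset.sum_congr rfl
      intro m _
      rw [DecR_cf_add h0 h w w' hw hw']
      ring
    rw [e]
    ring
  · intro r
    funext t η
    unfold dec hi
    have e : lo h m₀ (fun t η => r * w t η) t η = r * lo h m₀ w t η := by
      unfold lo
      rw [Finset.mul_sum]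
      apply Finset.sum_congr rfl
      intro m _
      rw [DecR_cf_mul]
      ring
    rw [e]
    ring

end Pool.Agent.Work.MP_33c50c_an.SK
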