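import Pool.Agent.Work.MP_33c50c_an.SK.Stmts

/-! MP_33c50c_an, block SK: item End. -/

set_option autoImplicit false

open MeasureTheory Set
open scoped ENNReal ContDiff

namespace Pool.Agent.Work.MP_33c50c_an.SK

open Pool.Agent.Work.MP_33c50c_an

theorem End_zero : IsLin (fun _ => (0 : ℝ)) :=
  ⟨fun _ _ _ _ => by simp, fun _ _ _ => by simp⟩

theorem End_proof (h0 : SReg) (h1 : SEndV) (h2 : SEndL) (h3 : SCells) : SEnd := by
  intro c s H δ μ hc hs hs2 hcs hH hδ hδH hHμ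
  have _ := h0
  have hpi := Real.pi_pos
  have hμ : 0 < μ := by
    by_contra h
    push Not at h
    have : H * μ ≤ 0 := mul_nonpos_of_nonneg_of_nonpos hH.le h
    linarith
  have hc1 : c ≤ 1 := by
    by_contra h
    push Not at h
    have : 1 < c ^ 2 * (1 + s ^ 2) := by nlinarith [sq_nonneg (c * s)]
    linarith
  obtain ⟨x₃, hx3⟩ : ∃ x₃ : ℝ, x₃ = c * (s * (c * H) + δ) := ⟨_, rfl⟩
  obtain ⟨y₃, hy3⟩ : ∃ y₃ : ℝ, y₃ = s * x₃ := ⟨_, rfl⟩
  obtain ⟨m₀, hm₀⟩ : ∃ m₀ : ℕ, m₀ = ⌊2 * μ * (c * H) / Real.pi⌋₊ := ⟨_, rfl⟩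
  have hnn : 0 ≤ 2 * μ * (c * H) / Real.pi := by positivity
  have hm1 : (m₀ : ℝ) ≤ 2 * μ * (c * H) / Real.pi := by
    rw [hm₀]; exact Nat.floor_le hnn
  have hm2 : 2 * μ * (c * H) / Real.pi < m₀ + 1 := by
    rw [hm₀]; exact Nat.lt_floor_add_one _
  have hm3 : 2 * μ ≤ (m₀ + 1) * Real.pi / (c * H) := by
    rw [le_div_iff₀ (by positivity)]
    rw [div_lt_iff₀ hpi] at hm2
    linarith
  obtain ⟨K, A, B, hK, hl, hC⟩ := h3 c s H δ μ x₃ y₃ hc hs hs2 hcs hH hδ hδH hμ hx3 hy3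
  obtain ⟨l1, l2, l3⟩ := h2 c s H δ μ m₀ hc hs hcs hH hδ hμ
  refine ⟨K + m₀ + m₀,
    Fin.append (Fin.append (fun j W => A j (dv c s H δ μ m₀ W))
      (fun (j : Fin m₀) W => cf (c * H) (tw c s H δ W) j 0)) (fun (_ : Fin m₀) _ => (0 : ℝ)),
    Fin.append (Fin.append (fun j W => B j (dv c s H δ μ m₀ W)) (fun (_ : Fin m₀) _ => (0 : ℝ)))
      (fun (j : Fin m₀) W => cf (c * H) (tw c s H δ W) j 0), ?_, ?_, ?_⟩
  · push_cast
    have e1 : 2 * μ * (c * H) / Real.pi ≤ 2 * (H * μ / Real.pi) := by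
      have : 2 * μ * (c * H) / Real.pi = c * (2 * (H * μ / Real.pi)) := by ring
      rw [this]
      have h4 : 0 ≤ 2 * (H * μ / Real.pi) := by positivity
      nlinarith
    have e2 : 1 ≤ H * μ / Real.pi := by
      rw [le_div_iff₀ hpi]; linarith
    have e3 : 13 / 2 * H * μ / Real.pi = 13 / 2 * (H * μ / Real.pi) := by ring
    have e4 : 14 * H * μ / Real.pi = 14 * (H * μ / Real.pi) := by ring
    rw [e3] at hK
    rw [e4]
    linarith
  · intro j
    refine Fin.addCases (fun j => ?_) (fun j => ?_) j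
    · rw [Fin.append_left, Fin.append_left]
      refine Fin.addCases (fun j => ?_) (fun j => ?_) j
      · rw [Fin.append_left, Fin.append_left]
        exact ⟨l2 _ (hl j).1, l2 _ (hl j).2⟩
      · rw [Fin.append_right, Fin.append_right]
        exact ⟨l3 _, End_zero⟩
    · rw [Fin.append_right, Fin.append_right]
      exact ⟨End_zero, l3 _⟩
  · intro W₁ W₂ hW₁ hW₂ hvan hcond
    have c1 : ∀ j, A j (dv c s H δ μ m₀ W₁) + B j (dv c s H δ μ m₀ W₂) = 0 := by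
      intro j
      have := hcond (Fin.castAdd m₀ (Fin.castAdd m₀ j))
      rw [Fin.append_left, Fin.append_left, Fin.append_left, Fin.append_left] at this
      exact this
    have c2 : ∀ m < m₀, cf (c * H) (tw c s H δ W₁) m 0 = 0 := by
      intro m hm
      have := hcond (Fin.castAdd m₀ (Fin.natAdd K ⟨m, hm⟩))
      rw [Fin.append_left, Fin.append_left, Fin.append_right, Fin.append_right, add_zero] at this
      exact this
    have c3 : ∀ m < m₀, cf (c * H) (tw c s H δ W₂) m 0 = 0 := by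
      intro m hm
      have := hcond (Fin.natAdd (K + m₀) ⟨m, hm⟩)
      rw [Fin.append_right, Fin.append_right, zero_add] at this
      exact this
    rw [← hx3] at hvan
    obtain ⟨p1, p2, p3, p4⟩ := h1 c s H δ μ m₀ x₃ y₃ hc hs hcs hH hδ hμ hm3 hx3 hy3 W₁ hW₁
      (fun x hx => (hvan x hx).1) c2
    obtain ⟨q1, q2, q3, q4⟩ := h1 c s H δ μ m₀ x₃ y₃ hc hs hcs hH hδ hμ hm3 hx3 hy3 W₂ hW₂
      (fun x hx => (hvan x hx).2) c3
    have h5 := hC (dv c s H δ μ m₀ W₁) (dv c s H δ μ m₀ W₂) (l1 W₁ hW₁) (l1 W₂ hW₂) (by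
      intro V hV
      rcases hV with rfl | rfl
      · exact ⟨p1, p2, p3⟩
      · exact ⟨q1, q2, q3⟩) c1
    linarith

end Pool.Agent.Work.MP_33c50c_an.SK
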