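import Pool.Agent.Work.MP_33c50c_an.SK.Stmts

/-! MP_33c50c_an, block SK: item EndL. -/

set_option autoImplicit false

open MeasureTheory Set
open scoped ENNReal ContDiff

namespace Pool.Agent.Work.MP_33c50c_an.SK

open Pool.Agent.Work.MP_33c50c_an

theorem EndL_tw (c s H δ : ℝ) {W : ℝ → ℝ → ℝ} (hW : C1 W) : C1 (tw c s H δ W) := by
  unfold C1 tw rt at *
  have h : ContDiff ℝ 1 (fun z : ℝ × ℝ =>
      ((c * (s * (c * H) + δ - z.1) - s * c * z.2,
        s * c * (s * (c * H) + δ - z.1) + c * z.2) : ℝ × ℝ)) := by fun_prop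
  exact hW.comp h

theorem EndL_dv (h1 : SDecR) {c s H δ μ : ℝ} (m₀ : ℕ) (hc : 0 < c) (hH : 0 < H) (hδ : 0 < δ)
    (hμ : 0 < μ) {W : ℝ → ℝ → ℝ} (hW : C1 W) : C1 (dv c s H δ μ m₀ W) := by
  have h2 := (h1 (c * H) m₀ μ δ (by positivity) hμ hδ _ (EndL_tw c s H δ hW)).1
  unfold C1 dv at *
  have h : ContDiff ℝ 1 (fun z : ℝ × ℝ =>
      ((s * (c * H) + δ - (c * z.1 + s * c * z.2), -(s * c * z.1) + c * z.2) : ℝ × ℝ)) := by
    fun_prop
  exact h2.comp h

theorem EndL_proof (h0 : SReg) (h1 : SDecR) : SEndL := by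
  intro c s H δ μ m₀ hc _ _ hH hδ hμ
  have hadd : ∀ U V : ℝ → ℝ → ℝ, C1 U → C1 V →
      dv c s H δ μ m₀ (fun x y => U x y + V x y) =
        fun x y => dv c s H δ μ m₀ U x y + dv c s H δ μ m₀ V x y := by
    intro U V hU hV
    have h2 := (h1 (c * H) m₀ μ δ (by positivity) hμ hδ _ (EndL_tw c s H δ hU)).2.2.2.2.2.1
      _ (EndL_tw c s H δ hV)
    have h3 : tw c s H δ (fun x y => U x y + V x y) =
        fun t η => tw c s H δ U t η + tw c s H δ V t η := rfl
    funext x y
    unfold dv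
    rw [h3, h2]
  have hsmul : ∀ (a : ℝ) (U : ℝ → ℝ → ℝ), C1 U →
      dv c s H δ μ m₀ (fun x y => a * U x y) = fun x y => a * dv c s H δ μ m₀ U x y := by
    intro a U hU
    have h2 := (h1 (c * H) m₀ μ δ (by positivity) hμ hδ _ (EndL_tw c s H δ hU)).2.2.2.2.2.2 a
    have h3 : tw c s H δ (fun x y => a * U x y) = fun t η => a * tw c s H δ U t η := rfl
    funext x y
    unfold dv
    rw [h3, h2]
  refine ⟨fun W hW => EndL_dv h1 m₀ hc hH hδ hμ hW, ?_, ?_⟩
  · intro ℓ hℓ
    refine ⟨?_, ?_⟩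
    · intro U V hU hV
      show ℓ (dv c s H δ μ m₀ (fun x y => U x y + V x y)) = _
      rw [hadd U V hU hV]
      exact hℓ.1 _ _ (EndL_dv h1 m₀ hc hH hδ hμ hU) (EndL_dv h1 m₀ hc hH hδ hμ hV)
    · intro a U hU
      show ℓ (dv c s H δ μ m₀ (fun x y => a * U x y)) = _
      rw [hsmul a U hU]
      exact hℓ.2 a _ (EndL_dv h1 m₀ hc hH hδ hμ hU)
  · intro m
    have hi : ∀ U : ℝ → ℝ → ℝ, C1 U → IntervalIntegrable
        (fun y => tw c s H δ U 0 y * Real.sin ((m + 1) * Real.pi * y / (c * H))) volume 0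
        (c * H) := by
      intro U hU
      have h2 := (h0 _ (EndL_tw c s H δ hU)).1
      have h3 : Continuous fun y => tw c s H δ U 0 y := h2.comp (Continuous.prodMk_right 0)
      exact (h3.mul (by fun_prop)).intervalIntegrable _ _
    refine ⟨?_, ?_⟩
    · intro U V hU hV
      show cf (c * H) (tw c s H δ (fun x y => U x y + V x y)) m 0 = _
      have e : (∫ y in (0:ℝ)..(c * H), tw c s H δ (fun x y => U x y + V x y) 0 y *
          Real.sin ((m + 1) * Real.pi * y / (c * H))) = ∫ y in (0:ℝ)..(c * H),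
          (tw c s H δ U 0 y * Real.sin ((m + 1) * Real.pi * y / (c * H)) +
          tw c s H δ V 0 y * Real.sin ((m + 1) * Real.pi * y / (c * H))) := by
        refine intervalIntegral.integral_congr fun y _ => ?_
        show (tw c s H δ U 0 y + tw c s H δ V 0 y) * _ = _
        ring
      unfold cf
      rw [e, intervalIntegral.integral_add (hi U hU) (hi V hV), mul_add]
    · intro a U _
      show cf (c * H) (tw c s H δ (fun x y => a * U x y)) m 0 = _
      have e : (∫ y in (0:ℝ)..(c * H), tw c s H δ (fun x y => a * U x y) 0 y *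
          Real.sin ((m + 1) * Real.pi * y / (c * H))) = ∫ y in (0:ℝ)..(c * H),
          a * (tw c s H δ U 0 y * Real.sin ((m + 1) * Real.pi * y / (c * H))) := by
        refine intervalIntegral.integral_congr fun y _ => ?_
        show (a * tw c s H δ U 0 y) * _ = _
        ring
      unfold cf
      rw [e, intervalIntegral.integral_const_mul]
      ring

end Pool.Agent.Work.MP_33c50c_an.SK
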