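import Pool.Agent.Work.MP_33c50c_an.SK.Stmts

/-! MP_33c50c_an, block SK: item EndV. -/

set_option autoImplicit false

open MeasureTheory Set
open scoped ENNReal ContDiff

namespace Pool.Agent.Work.MP_33c50c_an.SK

open Pool.Agent.Work.MP_33c50c_an

theorem EndV_tw (c s H δ : ℝ) {W : ℝ → ℝ → ℝ} (hW : C1 W) : C1 (tw c s H δ W) := by
  unfold C1 tw rt at *
  have h : ContDiff ℝ 1 (fun z : ℝ × ℝ =>
      ((c * (s * (c * H) + δ - z.1) - s * c * z.2,
        s * c * (s * (c * H) + δ - z.1) + c * z.2) : ℝ × ℝ)) := by fun_prop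
  exact hW.comp h

theorem EndV_dv {c s H δ μ : ℝ} {m₀ : ℕ} {W : ℝ → ℝ → ℝ}
    (h2 : C1 (dec (c * H) m₀ μ δ (tw c s H δ W))) : C1 (dv c s H δ μ m₀ W) := by
  unfold C1 dv at *
  have h : ContDiff ℝ 1 (fun z : ℝ × ℝ =>
      ((s * (c * H) + δ - (c * z.1 + s * c * z.2), -(s * c * z.1) + c * z.2) : ℝ × ℝ)) := by
    fun_prop
  exact h2.comp h

/-- reflection in the first variable. -/
theorem EndV_refl (h0 : SReg) (a : ℝ) {w : ℝ → ℝ → ℝ} (hw : C1 w) (x y : ℝ) :
    gr (fun ξ η => w (a - ξ) η) x y = gr w (a - x) y := by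
  obtain ⟨-, -, -, hx, hy⟩ := h0 w hw
  have e1 : px (fun ξ η => w (a - ξ) η) x y = -px w (a - x) y := by
    have h1 : HasDerivAt (fun τ : ℝ => a - τ) (-1) x := by
      simpa using (hasDerivAt_id x).const_sub a
    have h2 := HasDerivAt.comp x (hx (a - x) y) h1
    rw [mul_neg, mul_one] at h2
    exact h2.deriv
  have e2 : py (fun ξ η => w (a - ξ) η) x y = py w (a - x) y := rfl
  unfold gr
  rw [e1, e2, neg_sq]

theorem EndV_cont {F : ℝ → ℝ → ℝ} (hF : Continuous fun q : ℝ × ℝ => F q.1 q.2) {α β : ℝ → ℝ}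
    (hα : Continuous α) (hβ : Continuous β) : Continuous fun e => ∫ t in (α e)..(β e), F t e := by
  have hF' : Continuous (Function.uncurry fun e t => F t e) :=
    hF.comp (continuous_snd.prodMk continuous_fst)
  have h1 : Continuous fun e => ∫ t in (0:ℝ)..(β e), F t e :=
    intervalIntegral.continuous_parametric_intervalIntegral_of_continuous
      (f := fun e t => F t e) hF' hβ
  have h2 : Continuous fun e => ∫ t in (0:ℝ)..(α e), F t e :=
    intervalIntegral.continuous_parametric_intervalIntegral_of_continuous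
      (f := fun e t => F t e) hF' hα
  have hi : ∀ e a b, IntervalIntegrable (fun t => F t e) volume a b := fun e a b =>
    (hF.comp (Continuous.prodMk_left e)).intervalIntegrable _ _
  have h3 : (fun e => ∫ t in (α e)..(β e), F t e) =
      fun e => (∫ t in (0:ℝ)..(β e), F t e) - ∫ t in (0:ℝ)..(α e), F t e := by
    funext e
    rw [intervalIntegral.integral_interval_sub_left (hi e _ _) (hi e _ _)]
  rw [h3]
  exact h1.sub h2

/-- the end integral in the coordinates `t, η`. -/
theorem EndV_ie (c s H δ : ℝ) {F F' : ℝ → ℝ → ℝ}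
    (h : ∀ ξ η, rt c s F ξ η = F' (s * (c * H) + δ - ξ) η) :
    ie c s H δ F = ∫ η in (0:ℝ)..(c * H), ∫ t in (0:ℝ)..(s * (c * H) + δ - s * η), F' t η := by
  unfold ie
  refine intervalIntegral.integral_congr fun η _ => ?_
  simp only [h]
  rw [intervalIntegral.integral_comp_sub_left (fun t => F' t η) (s * (c * H) + δ)]
  congr 1
  ring

/-- splitting of the end integral. -/
theorem EndV_split {c s H δ : ℝ} {F : ℝ → ℝ → ℝ}
    (hF : Continuous fun q : ℝ × ℝ => F q.1 q.2) :
    ∫ η in (0:ℝ)..(c * H), ∫ t in (0:ℝ)..(s * (c * H) + δ - s * η), F t η =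
      (∫ η in (0:ℝ)..(c * H), ∫ t in (0:ℝ)..δ, F t η) +
      ∫ η in (0:ℝ)..(c * H), ∫ t in δ..(s * (c * H) + δ - s * η), F t η := by
  rw [← intervalIntegral.integral_add
    ((EndV_cont hF continuous_const continuous_const).intervalIntegrable _ _)
    ((EndV_cont (β := fun η => s * (c * H) + δ - s * η) hF continuous_const
      (by fun_prop)).intervalIntegrable _ _)]
  refine intervalIntegral.integral_congr fun η _ => ?_
  exact (intervalIntegral.integral_add_adjacent_intervals
    ((hF.comp (Continuous.prodMk_left η)).intervalIntegrable _ _)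
    ((hF.comp (Continuous.prodMk_left η)).intervalIntegrable _ _)).symm

/-- order of integration on a rectangle. -/
theorem EndV_swap {a b : ℝ} {F : ℝ → ℝ → ℝ}
    (hF : Continuous fun q : ℝ × ℝ => F q.1 q.2) :
    ∫ η in (0:ℝ)..b, ∫ t in (0:ℝ)..a, F t η = ∫ t in (0:ℝ)..a, ∫ η in (0:ℝ)..b, F t η := by
  refine intervalIntegral_intervalIntegral_swap (F := fun η t => F t η) ?_
  have hc : Continuous (Function.uncurry fun η t => F t η) :=
    hF.comp (continuous_snd.prodMk continuous_fst)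
  exact (hc.continuousOn.integrableOn_compact (isCompact_uIcc.prod isCompact_uIcc)).mono_set
    (prod_mono uIoc_subset_uIcc uIoc_subset_uIcc)

/-- the density of the form. -/
noncomputable def EndV_q (μ : ℝ) (V : ℝ → ℝ → ℝ) (x y : ℝ) : ℝ := gr V x y - μ ^ 2 * V x y ^ 2

theorem EndV_qc (h0 : SReg) (μ : ℝ) {V : ℝ → ℝ → ℝ} (hV : C1 V) :
    Continuous fun q : ℝ × ℝ => EndV_q μ V q.1 q.2 := by
  obtain ⟨h1, h2, h3, -, -⟩ := h0 V hV
  unfold EndV_q gr
  exact ((h2.pow 2).add (h3.pow 2)).sub (continuous_const.mul (h1.pow 2))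

/-- the densities agree for `t > δ`. -/
theorem EndV_congr {w v : ℝ → ℝ → ℝ} {δ : ℝ} (h : ∀ t η, δ ≤ t → v t η = w t η) (μ : ℝ)
    {t : ℝ} (ht : δ < t) (η : ℝ) : EndV_q μ v t η = EndV_q μ w t η := by
  have e1 : px v t η = px w t η := by
    unfold px
    apply Filter.EventuallyEq.deriv_eq
    filter_upwards [Ioi_mem_nhds ht] with τ hτ
    exact h τ η (le_of_lt hτ)
  have e2 : py v t η = py w t η := by
    unfold py
    apply Filter.EventuallyEq.deriv_eq
    filter_upwards with τ
    exact h t τ ht.le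
  unfold EndV_q gr
  rw [e1, e2, h t η ht.le]

theorem EndV_proof (h0 : SReg) (h1 : SRotG) (h2 : SDecR) (h3 : SDec) : SEndV := by
  intro c s H δ μ m₀ x₃ y₃ hc hs hcs hH hδ hμ hm hx3 hy3 W hW hvan hcf
  have hcH : 0 < c * H := by positivity
  have hw : C1 (tw c s H δ W) := EndV_tw c s H δ hW
  obtain ⟨d1, d2, d3, d4, d5, -, -⟩ := h2 (c * H) m₀ μ δ hcH hμ hδ (tw c s H δ W) hw
  have hv : C1 (dv c s H δ μ m₀ W) := EndV_dv d1
  have hx30 : 0 < x₃ := by rw [hx3]; positivity
  have hcδ : c * δ ≤ x₃ := by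
    rw [hx3]
    have : 0 ≤ c * (s * (c * H)) := by positivity
    linarith
  -- `w` at the points of the strip
  have w0 : ∀ t, tw c s H δ W t 0 = W (c * (s * (c * H) + δ - t)) (s * (c * (s * (c * H) + δ - t))) := by
    intro t
    unfold tw rt
    congr 1 <;> ring
  have w1 : ∀ t, tw c s H δ W t (c * H) = W (c * (δ - t)) (s * (c * (δ - t)) + H) := by
    intro t
    unfold tw rt
    congr 1
    · ring
    · linear_combination H * hcs
  have key : ∀ ξ η, rt c s (dv c s H δ μ m₀ W) ξ η =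
      dec (c * H) m₀ μ δ (tw c s H δ W) (s * (c * H) + δ - ξ) η := by
    intro ξ η
    unfold rt dv
    have e1 : s * (c * H) + δ - (c * (c * ξ - s * c * η) + s * c * (s * c * ξ + c * η)) =
        s * (c * H) + δ - ξ := by linear_combination (-ξ) * hcs
    have e2 : -(s * c * (c * ξ - s * c * η)) + c * (s * c * ξ + c * η) = η := by
      linear_combination η * hcs
    rw [e1, e2]
  refine ⟨?_, ?_, ?_, ?_⟩
  · intro x hx
    unfold dv
    have e1 : -(s * c * x) + c * (s * x) = 0 := by ring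
    rw [e1]
    apply d3
    rw [w0]
    have e2 : c * (s * (c * H) + δ - (s * (c * H) + δ - (c * x + s * c * (s * x)))) = x := by
      linear_combination x * hcs
    rw [e2]
    exact (hvan x hx).1
  · intro x hx
    unfold dv
    have e1 : -(s * c * x) + c * (s * x + H) = c * H := by ring
    rw [e1]
    apply d4
    rw [w1]
    have e2 : c * (δ - (s * (c * H) + δ - (c * x + s * c * (s * x + H)))) = x := by
      linear_combination x * hcs
    rw [e2]
    exact (hvan x ⟨hx.1, hx.2.trans hcδ⟩).2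
  · intro x _
    unfold dv
    have e1 : s * (c * H) + δ - (c * x + s * c * (y₃ + (x₃ - x) / s)) = 0 := by
      have e2 : s * c * (y₃ + (x₃ - x) / s) = s * c * y₃ + c * (x₃ - x) := by
        field_simp
      rw [e2, hy3, hx3]
      linear_combination (-(s * (c * H) + δ)) * hcs
    rw [e1]
    exact d5 hcf _
  · -- the energies
    have hE : 0 ≤ 4 * μ ^ 2 / (Real.cosh (2 * μ * δ) - 1) := by
      apply div_nonneg (by positivity)
      linarith [Real.one_le_cosh (2 * μ * δ)]
    have i1 : ie c s H δ (EndV_q μ (dv c s H δ μ m₀ W)) =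
        ∫ η in (0:ℝ)..(c * H), ∫ t in (0:ℝ)..(s * (c * H) + δ - s * η),
          EndV_q μ (dec (c * H) m₀ μ δ (tw c s H δ W)) t η := by
      refine EndV_ie c s H δ fun ξ η => ?_
      unfold EndV_q
      have g1 := (h1 c s hcs _ hv).2 ξ η
      have g2 : rt c s (dv c s H δ μ m₀ W) =
          fun ξ η => dec (c * H) m₀ μ δ (tw c s H δ W) (s * (c * H) + δ - ξ) η := by
        funext ξ η
        exact key ξ η
      rw [g2, EndV_refl h0 _ d1] at g1
      show gr (dv c s H δ μ m₀ W) (c * ξ - s * c * η) (s * c * ξ + c * η) -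
        μ ^ 2 * (rt c s (dv c s H δ μ m₀ W) ξ η) ^ 2 = _
      rw [← g1, key ξ η]
    have i2 : ie c s H δ (EndV_q μ W) =
        ∫ η in (0:ℝ)..(c * H), ∫ t in (0:ℝ)..(s * (c * H) + δ - s * η),
          EndV_q μ (tw c s H δ W) t η := by
      refine EndV_ie c s H δ fun ξ η => ?_
      unfold EndV_q
      have g1 := (h1 c s hcs _ hW).2 ξ η
      have g2 : rt c s W = fun ξ η => tw c s H δ W (s * (c * H) + δ - ξ) η := by
        funext ξ η
        unfold tw
        congr 1
        ring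
      rw [g2, EndV_refl h0 _ hw] at g1
      have g3 : W (c * ξ - s * c * η) (s * c * ξ + c * η) =
          tw c s H δ W (s * (c * H) + δ - ξ) η := congrFun (congrFun g2 ξ) η
      show gr W (c * ξ - s * c * η) (s * c * ξ + c * η) -
        μ ^ 2 * (W (c * ξ - s * c * η) (s * c * ξ + c * η)) ^ 2 = _
      rw [← g1, g3]
    have i3 : ie c s H δ (fun x y => W x y ^ 2) =
        ∫ η in (0:ℝ)..(c * H), ∫ t in (0:ℝ)..(s * (c * H) + δ - s * η),
          (tw c s H δ W t η) ^ 2 := by
      refine EndV_ie c s H δ (F' := fun t η => (tw c s H δ W t η) ^ 2) fun ξ η => ?_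
      unfold tw rt
      congr 2 <;> ring
    have hwc : Continuous fun q : ℝ × ℝ => tw c s H δ W q.1 q.2 ^ 2 := ((h0 _ hw).1).pow 2
    -- the parts `t > δ`
    have j1 : (∫ η in (0:ℝ)..(c * H), ∫ t in δ..(s * (c * H) + δ - s * η),
        EndV_q μ (dec (c * H) m₀ μ δ (tw c s H δ W)) t η) =
        ∫ η in (0:ℝ)..(c * H), ∫ t in δ..(s * (c * H) + δ - s * η),
          EndV_q μ (tw c s H δ W) t η := by
      refine intervalIntegral.integral_congr fun η hη => ?_
      rw [uIcc_of_le hcH.le] at hη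
      have hle : δ ≤ s * (c * H) + δ - s * η := by
        have := mul_le_mul_of_nonneg_left hη.2 hs.le
        linarith
      refine intervalIntegral.integral_congr_Ioo_of_le hle fun t ht => ?_
      exact EndV_congr d2 μ ht.1 η
    have j2 : 0 ≤ ∫ η in (0:ℝ)..(c * H), ∫ t in δ..(s * (c * H) + δ - s * η),
          (tw c s H δ W t η) ^ 2 := by
      refine intervalIntegral.integral_nonneg hcH.le fun η hη => ?_
      have hle : δ ≤ s * (c * H) + δ - s * η := by
        have := mul_le_mul_of_nonneg_left hη.2 hs.le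
        linarith
      exact intervalIntegral.integral_nonneg hle fun t _ => sq_nonneg _
    have hvs : ∀ t ∈ Icc 0 δ, tw c s H δ W t 0 = 0 ∧ tw c s H δ W t (c * H) = 0 := by
      intro t ht
      have hp : 0 ≤ s * (c * H) := by positivity
      rw [w0, w1]
      refine ⟨(hvan _ ⟨?_, ?_⟩).1, (hvan _ ⟨?_, ?_⟩).2⟩
      · exact mul_nonneg hc.le (by linarith [ht.2])
      · rw [hx3]
        exact mul_le_mul_of_nonneg_left (by linarith [ht.1]) hc.le
      · exact mul_nonneg hc.le (by linarith [ht.2])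
      · rw [hx3]
        exact mul_le_mul_of_nonneg_left (by linarith [ht.1]) hc.le
    have k1 := h3 (c * H) m₀ μ δ hcH hμ hδ hm _ hw hvs
    have k2 : (∫ t in (0:ℝ)..δ, ∫ η in (0:ℝ)..(c * H),
        EndV_q μ (dec (c * H) m₀ μ δ (tw c s H δ W)) t η) ≤
        (∫ t in (0:ℝ)..δ, ∫ η in (0:ℝ)..(c * H), EndV_q μ (tw c s H δ W) t η) +
        4 * μ ^ 2 / (Real.cosh (2 * μ * δ) - 1) * ∫ t in (0:ℝ)..δ, ∫ η in (0:ℝ)..(c * H),
          tw c s H δ W t η ^ 2 := k1
    show ie c s H δ (EndV_q μ (dv c s H δ μ m₀ W)) ≤ ie c s H δ (EndV_q μ W) +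
      4 * μ ^ 2 / (Real.cosh (2 * μ * δ) - 1) * ie c s H δ (fun x y => W x y ^ 2)
    rw [i1, i2, i3, EndV_split (F := EndV_q μ (dec (c * H) m₀ μ δ (tw c s H δ W)))
      (EndV_qc h0 μ d1), EndV_split (F := EndV_q μ (tw c s H δ W)) (EndV_qc h0 μ hw),
      EndV_split (F := fun t η => tw c s H δ W t η ^ 2) hwc, j1,
      EndV_swap (F := EndV_q μ (dec (c * H) m₀ μ δ (tw c s H δ W))) (EndV_qc h0 μ d1),
      EndV_swap (F := EndV_q μ (tw c s H δ W)) (EndV_qc h0 μ hw),
      EndV_swap (F := fun t η => tw c s H δ W t η ^ 2) hwc]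
    have k3 := mul_nonneg hE j2
    linarith

end Pool.Agent.Work.MP_33c50c_an.SK
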