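import Pool.Agent.Work.MP_33c50c_an.SK.Stmts

set_option autoImplicit false

/-!
# MP_33c50c_an, block SK: the rectangle with Dirichlet conditions on the horizontal sides
-/

open MeasureTheory Set
open scoped ENNReal ContDiff

namespace Pool.Agent.Work.MP_33c50c_an.SK

open Pool.Agent.Work.MP_33c50c_an

lemma Flat_dint_add (a b : ℝ) (F G : ℝ → ℝ → ℝ) (hF : Continuous fun q : ℝ × ℝ => F q.1 q.2)
    (hG : Continuous fun q : ℝ × ℝ => G q.1 q.2) :
    ∫ x in (0:ℝ)..a, ∫ y in (0:ℝ)..b, (F x y + G x y) =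
      (∫ x in (0:ℝ)..a, ∫ y in (0:ℝ)..b, F x y) + ∫ x in (0:ℝ)..a, ∫ y in (0:ℝ)..b, G x y := by
  have h1 : ∀ x, (∫ y in (0:ℝ)..b, (F x y + G x y)) =
      (∫ y in (0:ℝ)..b, F x y) + ∫ y in (0:ℝ)..b, G x y := by
    intro x
    apply intervalIntegral.integral_add
    · exact (hF.comp (Continuous.prodMk_right x)).intervalIntegrable _ _
    · exact (hG.comp (Continuous.prodMk_right x)).intervalIntegrable _ _
  simp_rw [h1]
  apply intervalIntegral.integral_add
  · exact (intervalIntegral.continuous_parametric_intervalIntegral_of_continuous' (f := F) hF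
      0 b).intervalIntegrable _ _
  · exact (intervalIntegral.continuous_parametric_intervalIntegral_of_continuous' (f := G) hG
      0 b).intervalIntegrable _ _

/-- the coefficient -/
noncomputable def Flat_co (L H : ℝ) (n m : ℕ) (W : ℝ → ℝ → ℝ) : ℝ :=
  ∫ x in (0:ℝ)..L, ∫ y in (0:ℝ)..H,
    W x y * (Real.cos (n * Real.pi * x / L) * Real.sin (m * Real.pi * y / H))

lemma Flat_lin (h0 : SReg) (L H : ℝ) (n m : ℕ) : IsLin (Flat_co L H n m) := by
  constructor
  · intro U V hU hV
    have hU' := (h0 U hU).1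
    have hV' := (h0 V hV).1
    unfold Flat_co
    rw [← Flat_dint_add L H
      (fun x y => U x y * (Real.cos (n * Real.pi * x / L) * Real.sin (m * Real.pi * y / H)))
      (fun x y => V x y * (Real.cos (n * Real.pi * x / L) * Real.sin (m * Real.pi * y / H)))]
    · congr 1; ext x; congr 1; ext y
      ring
    · apply hU'.mul; fun_prop
    · apply hV'.mul; fun_prop
  · intro a U _
    unfold Flat_co
    rw [← intervalIntegral.integral_const_mul]
    congr 1; ext x
    rw [← intervalIntegral.integral_const_mul]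
    congr 1; ext y
    ring

theorem Flat_proof (h0 : SReg) (h1 : PK.SRect) (h2 : PK.SLat) : SFlat := by
  intro L H μ hL hH hLH hμ
  obtain ⟨S, hS, hc⟩ := h2 L H μ hL hH.le hLH hμ
  refine ⟨S.card, fun j => Flat_co L H (S.equivFin.symm j).1.1 (S.equivFin.symm j).1.2, hc,
    fun j => Flat_lin h0 L H _ _, ?_⟩
  intro W hW hb hj
  obtain ⟨r1, r2, r3, r4, r5⟩ := h0 W hW
  refine h1 L H μ hL hH hμ W (px W) (py W) r1 r2 r3 r4 r5 hb ?_
  intro n m hm hnm
  have hmem := hS n m hm hnm
  have h := hj (S.equivFin ⟨(n, m), hmem⟩)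
  simp only [Equiv.symm_apply_apply] at h
  exact h

end Pool.Agent.Work.MP_33c50c_an.SK
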