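import Pool.Agent.Work.MP_33c50c_an.SK.Stmts

/-!
# MP_33c50c_an, block SK, item Glue
-/

set_option autoImplicit false

open MeasureTheory Set
open scoped ENNReal ContDiff

namespace Pool.Agent.Work.MP_33c50c_an.SK

theorem Glue_thick (a g₀ k : ℝ) (O : Set (ℝ × ℝ)) (hO : IsOpen O)
    (h : ∀ x ∈ Icc 0 a, (x, g₀ + k * x) ∈ O) (ha : 0 < a) :
    ∃ r : ℝ, 0 < r ∧ ∀ x : ℝ, -r < x → x < a + r → (x, g₀ + k * x) ∈ O := by
  have hcont : Continuous fun x : ℝ => ((x, g₀ + k * x) : ℝ × ℝ) := by fun_prop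
  have hT : IsOpen ((fun x : ℝ => ((x, g₀ + k * x) : ℝ × ℝ)) ⁻¹' O) := hO.preimage hcont
  have hsub : Icc 0 a ⊆ (fun x : ℝ => ((x, g₀ + k * x) : ℝ × ℝ)) ⁻¹' O := fun x hx => h x hx
  obtain ⟨δ, hδ, hsub2⟩ := (isCompact_Icc (a := (0:ℝ)) (b := a)).exists_thickening_subset_open
    hT hsub
  refine ⟨δ, hδ, fun x h1 h2 => ?_⟩
  have h3 : x ∈ Metric.thickening δ (Icc (0:ℝ) a) := by
    rw [Metric.mem_thickening_iff]
    rcases lt_or_ge x 0 with h4 | h4
    · refine ⟨0, ⟨le_refl 0, ha.le⟩, ?_⟩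
      rw [Real.dist_eq, abs_lt]
      constructor <;> linarith
    · rcases le_or_gt x a with h5 | h5
      · refine ⟨x, ⟨h4, h5⟩, ?_⟩
        rw [dist_self]
        exact hδ
      · refine ⟨a, ⟨ha.le, le_refl a⟩, ?_⟩
        rw [Real.dist_eq, abs_lt]
        constructor <;> linarith
  exact hsub2 h3

theorem Glue_V (g₀ k : ℝ) (F G : ℝ → ℝ → ℝ) (hF : C1 F) (hG : C1 G) (q : ℝ × ℝ)
    (hq : ∀ᶠ p : ℝ × ℝ in nhds (q.1, g₀ + k * q.1), F p.1 p.2 = 0 ∧ G p.1 p.2 = 0) :
    ContDiffAt ℝ 1 (fun p : ℝ × ℝ => if p.2 < g₀ + k * p.1 then F p.1 p.2 else G p.1 p.2) q := by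
  have hc : Continuous fun p : ℝ × ℝ => g₀ + k * p.1 := by fun_prop
  rcases lt_trichotomy q.2 (g₀ + k * q.1) with h | h | h
  · have h1 : (fun p : ℝ × ℝ => if p.2 < g₀ + k * p.1 then F p.1 p.2 else G p.1 p.2) =ᶠ[nhds q]
        fun p : ℝ × ℝ => F p.1 p.2 := by
      have h2 : ∀ᶠ p : ℝ × ℝ in nhds q, p.2 < g₀ + k * p.1 :=
        (continuous_snd.continuousAt).eventually_lt hc.continuousAt h
      filter_upwards [h2] with p hp
      rw [if_pos hp]
    exact (ContDiff.contDiffAt hF).congr_of_eventuallyEq h1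
  · have h0 : (q.1, g₀ + k * q.1) = q := by
      rw [← h]
    rw [h0] at hq
    have h1 : (fun p : ℝ × ℝ => if p.2 < g₀ + k * p.1 then F p.1 p.2 else G p.1 p.2) =ᶠ[nhds q]
        fun _ : ℝ × ℝ => (0:ℝ) := by
      filter_upwards [hq] with p hp
      rw [hp.1, hp.2, ite_self]
    exact contDiffAt_const.congr_of_eventuallyEq h1
  · have h1 : (fun p : ℝ × ℝ => if p.2 < g₀ + k * p.1 then F p.1 p.2 else G p.1 p.2) =ᶠ[nhds q]
        fun p : ℝ × ℝ => G p.1 p.2 := by
      have h2 : ∀ᶠ p : ℝ × ℝ in nhds q, g₀ + k * p.1 < p.2 :=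
        (hc.continuousAt).eventually_lt continuous_snd.continuousAt h
      filter_upwards [h2] with p hp
      rw [if_neg (not_lt.mpr hp.le)]
    exact (ContDiff.contDiffAt hG).congr_of_eventuallyEq h1

theorem Glue_proof : SGlue := by
  intro a g₀ k ha F G hF hG h
  obtain ⟨r, hr, hr2⟩ := Glue_thick a g₀ k (interior {q : ℝ × ℝ | F q.1 q.2 = 0 ∧ G q.1 q.2 = 0})
    isOpen_interior (fun x hx => by
      rw [mem_interior_iff_mem_nhds]
      exact h x hx) ha
  refine ⟨fun x y => Real.smoothTransition (1 + 2 / r * x) *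
    Real.smoothTransition (1 + 2 / r * (a - x)) *
      (if y < g₀ + k * x then F x y else G x y), ?_, ?_⟩
  · show ContDiff ℝ 1 (fun q : ℝ × ℝ => Real.smoothTransition (1 + 2 / r * q.1) *
      Real.smoothTransition (1 + 2 / r * (a - q.1)) *
        (if q.2 < g₀ + k * q.1 then F q.1 q.2 else G q.1 q.2))
    rw [contDiff_iff_contDiffAt]
    intro q
    have hs : ContDiff ℝ 1 Real.smoothTransition := Real.smoothTransition.contDiff
    have hchi : ContDiff ℝ 1 (fun q : ℝ × ℝ => Real.smoothTransition (1 + 2 / r * q.1) *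
        Real.smoothTransition (1 + 2 / r * (a - q.1))) := by
      refine ContDiff.mul (hs.comp (by fun_prop)) (hs.comp (by fun_prop))
    by_cases h1 : -r < q.1
    · by_cases h2 : q.1 < a + r
      · refine ContDiffAt.mul hchi.contDiffAt (Glue_V g₀ k F G hF hG q ?_)
        have h3 := hr2 q.1 h1 h2
        rw [mem_interior_iff_mem_nhds] at h3
        exact h3
      · push Not at h2
        have h4 : (fun q : ℝ × ℝ => Real.smoothTransition (1 + 2 / r * q.1) *
            Real.smoothTransition (1 + 2 / r * (a - q.1)) *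
            (if q.2 < g₀ + k * q.1 then F q.1 q.2 else G q.1 q.2)) =ᶠ[nhds q]
            fun _ => (0:ℝ) := by
          have h5 : ∀ᶠ p : ℝ × ℝ in nhds q, a + r / 2 < p.1 :=
            (continuousAt_const).eventually_lt continuous_fst.continuousAt (by linarith)
          filter_upwards [h5] with p hp
          have h6 : 1 + 2 / r * (a - p.1) ≤ 0 := by
            have h7 : 2 / r * (a - p.1) ≤ 2 / r * (-(r / 2)) := by
              apply mul_le_mul_of_nonneg_left (by linarith) (by positivity)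
            have h8 : 2 / r * (-(r / 2)) = -1 := by field_simp
            linarith
          rw [Real.smoothTransition.zero_of_nonpos h6]
          ring
        exact contDiffAt_const.congr_of_eventuallyEq h4
    · push Not at h1
      have h4 : (fun q : ℝ × ℝ => Real.smoothTransition (1 + 2 / r * q.1) *
          Real.smoothTransition (1 + 2 / r * (a - q.1)) *
          (if q.2 < g₀ + k * q.1 then F q.1 q.2 else G q.1 q.2)) =ᶠ[nhds q]
          fun _ => (0:ℝ) := by
        have h5 : ∀ᶠ p : ℝ × ℝ in nhds q, p.1 < -(r / 2) :=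
          (continuous_fst.continuousAt).eventually_lt continuousAt_const (by linarith)
        filter_upwards [h5] with p hp
        have h6 : 1 + 2 / r * p.1 ≤ 0 := by
          have h7 : 2 / r * p.1 ≤ 2 / r * (-(r / 2)) := by
            apply mul_le_mul_of_nonneg_left (by linarith) (by positivity)
          have h8 : 2 / r * (-(r / 2)) = -1 := by field_simp
          linarith
        rw [Real.smoothTransition.zero_of_nonpos h6]
        ring
      exact contDiffAt_const.congr_of_eventuallyEq h4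
  · intro x hx y
    have h1 : (1:ℝ) ≤ 1 + 2 / r * x := by
      have := mul_nonneg (by positivity : (0:ℝ) ≤ 2 / r) hx.1
      linarith
    have h2 : (1:ℝ) ≤ 1 + 2 / r * (a - x) := by
      have := mul_nonneg (by positivity : (0:ℝ) ≤ 2 / r) (sub_nonneg.mpr hx.2)
      linarith
    show Real.smoothTransition (1 + 2 / r * x) * Real.smoothTransition (1 + 2 / r * (a - x)) *
      (if y < g₀ + k * x then F x y else G x y) = _
    rw [Real.smoothTransition.one_of_one_le h1, Real.smoothTransition.one_of_one_le h2,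
      one_mul, one_mul]

end Pool.Agent.Work.MP_33c50c_an.SK
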