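import Pool.Agent.Work.MP_33c50c_an.SK.Stmts

/-!
# MP_33c50c_an, block SK, item LatN: lattice points in a quarter of an ellipse
-/

set_option autoImplicit false

open MeasureTheory Set
open scoped ENNReal ContDiff

namespace Pool.Agent.Work.MP_33c50c_an.SK

/-- the quarter of the disc -/
theorem LatN_quarter : ∫ x in (0 : ℝ)..1, Real.sqrt (1 - x ^ 2) = Real.pi / 4 := by
  have h := integral_sqrt_one_sub_sq
  have hc : Continuous fun x : ℝ => Real.sqrt (1 - x ^ 2) := by fun_prop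
  have h1 : ∫ x in (-1 : ℝ)..0, Real.sqrt (1 - x ^ 2) =
      ∫ x in (0 : ℝ)..1, Real.sqrt (1 - x ^ 2) := by
    have h2 := intervalIntegral.integral_comp_neg (a := (-1 : ℝ)) (b := 0)
      (fun x : ℝ => Real.sqrt (1 - x ^ 2))
    simp only [neg_sq, neg_zero, neg_neg] at h2
    exact h2
  rw [← intervalIntegral.integral_add_adjacent_intervals (hc.intervalIntegrable (-1) 0)
    (hc.intervalIntegrable 0 1), h1] at h
  linarith

/-- the quarter of the ellipse -/
theorem LatN_ell (A B : ℝ) (hB : 0 < B) :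
    ∫ y in (0 : ℝ)..B, A * Real.sqrt (1 - (y / B) ^ 2) = Real.pi * A * B / 4 := by
  rw [intervalIntegral.integral_const_mul,
    intervalIntegral.integral_comp_div (fun x : ℝ => Real.sqrt (1 - x ^ 2)) hB.ne', zero_div,
    div_self hB.ne', LatN_quarter, smul_eq_mul]
  ring

theorem LatN_anti (A B : ℝ) (hA : 0 < A) (hB : 0 < B) :
    AntitoneOn (fun y : ℝ => A * Real.sqrt (1 - (y / B) ^ 2)) (Ici 0) := by
  intro x hx y _ hxy
  have hx0 : (0 : ℝ) ≤ x := hx
  have h1 : x / B ≤ y / B := div_le_div_of_nonneg_right hxy hB.le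
  have h2 : (x / B) ^ 2 ≤ (y / B) ^ 2 := pow_le_pow_left₀ (by positivity) h1 2
  exact mul_le_mul_of_nonneg_left (Real.sqrt_le_sqrt (by linarith)) hA.le

theorem LatN_sum (A B : ℝ) (hA : 0 < A) (hB : 0 < B) (M : ℕ) (hM : (M : ℝ) ≤ B) :
    ∑ i ∈ Finset.range M, A * Real.sqrt (1 - (((i + 1 : ℕ) : ℝ) / B) ^ 2) ≤
      Real.pi * A * B / 4 := by
  have hc : Continuous fun y : ℝ => A * Real.sqrt (1 - (y / B) ^ 2) := by fun_prop
  have h1 := AntitoneOn.sum_le_integral (x₀ := 0) (a := M)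
    (f := fun y : ℝ => A * Real.sqrt (1 - (y / B) ^ 2))
    ((LatN_anti A B hA hB).mono (fun x hx => hx.1))
  simp only [zero_add] at h1
  refine h1.trans ?_
  rw [← LatN_ell A B hB, ← intervalIntegral.integral_add_adjacent_intervals
    (hc.intervalIntegrable 0 M) (hc.intervalIntegrable M B)]
  have h2 : 0 ≤ ∫ y in (M : ℝ)..B, A * Real.sqrt (1 - (y / B) ^ 2) :=
    intervalIntegral.integral_nonneg hM (fun y _ => by positivity)
  linarith

theorem LatN_proof : SLatN := by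
  intro a b μ ha hb hμ
  have hpi := Real.pi_pos
  obtain ⟨A, hA⟩ : ∃ A : ℝ, A = a * μ / Real.pi := ⟨_, rfl⟩
  obtain ⟨B, hB⟩ : ∃ B : ℝ, B = b * μ / Real.pi := ⟨_, rfl⟩
  have hA0 : 0 < A := by rw [hA]; positivity
  have hB0 : 0 < B := by rw [hB]; positivity
  obtain ⟨f, hf⟩ : ∃ f : ℕ → ℝ, ∀ m, f m = A * Real.sqrt (1 - ((m : ℝ) / B) ^ 2) :=
    ⟨_, fun _ => rfl⟩
  have hf0 : ∀ m, 0 ≤ f m := fun m => by rw [hf]; positivity
  refine ⟨(Finset.range ⌈B⌉₊).biUnion fun m => (Finset.range ⌈f m⌉₊).image fun n => (n, m),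
    ?_, ?_⟩
  · intro n m h
    have h1 : ((n : ℝ) / A) ^ 2 + ((m : ℝ) / B) ^ 2 < 1 := by
      have h2 : ((n : ℝ) / A) ^ 2 + ((m : ℝ) / B) ^ 2 =
          ((n * b) ^ 2 + (m * a) ^ 2) / (μ * a * b / Real.pi) ^ 2 := by
        rw [hA, hB]
        field_simp
      rw [h2, div_lt_one (by positivity)]
      exact h
    rw [Finset.mem_biUnion]
    refine ⟨m, ?_, ?_⟩
    · rw [Finset.mem_range, Nat.lt_ceil]
      by_contra h3
      rw [not_lt] at h3
      have h4 : 1 ≤ (m : ℝ) / B := by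
        rw [le_div_iff₀ hB0]
        linarith
      nlinarith [sq_nonneg ((n : ℝ) / A)]
    · rw [Finset.mem_image]
      refine ⟨n, ?_, rfl⟩
      rw [Finset.mem_range, Nat.lt_ceil, hf, ← div_lt_iff₀' hA0]
      apply Real.lt_sqrt_of_sq_lt
      linarith
  · have h1 : ((((Finset.range ⌈B⌉₊).biUnion fun m =>
        (Finset.range ⌈f m⌉₊).image fun n => (n, m)).card : ℕ) : ℝ) ≤
        ∑ m ∈ Finset.range ⌈B⌉₊, (f m + 1) := by
      have h2 : ((Finset.range ⌈B⌉₊).biUnion fun m =>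
          (Finset.range ⌈f m⌉₊).image fun n => (n, m)).card ≤
          ∑ m ∈ Finset.range ⌈B⌉₊, ⌈f m⌉₊ := by
        refine Finset.card_biUnion_le.trans (Finset.sum_le_sum fun m _ => ?_)
        refine Finset.card_image_le.trans ?_
        rw [Finset.card_range]
      have h3 : ((∑ m ∈ Finset.range ⌈B⌉₊, ⌈f m⌉₊ : ℕ) : ℝ) ≤
          ∑ m ∈ Finset.range ⌈B⌉₊, (f m + 1) := by
        push_cast
        exact Finset.sum_le_sum fun m _ => (Nat.ceil_lt_add_one (hf0 m)).le
      exact le_trans (by exact_mod_cast h2) h3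
    refine h1.trans ?_
    obtain ⟨M, hM⟩ : ∃ M, ⌈B⌉₊ = M + 1 :=
      Nat.exists_eq_add_one_of_ne_zero (Nat.ceil_pos.2 hB0).ne'
    have hMB : (M : ℝ) < B := by
      rw [← Nat.lt_ceil, hM]
      exact Nat.lt_succ_self M
    rw [Finset.sum_add_distrib, hM, Finset.sum_range_succ']
    have h4 := LatN_sum A B hA0 hB0 M hMB.le
    have h5 : f 0 = A := by
      rw [hf]
      simp
    have h6 : ∑ i ∈ Finset.range M, f (i + 1) =
        ∑ i ∈ Finset.range M, A * Real.sqrt (1 - (((i + 1 : ℕ) : ℝ) / B) ^ 2) :=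
      Finset.sum_congr rfl fun i _ => hf _
    rw [h6, h5, Finset.sum_const, Finset.card_range, nsmul_eq_mul, mul_one]
    push_cast at h4 ⊢
    have h7 : Real.pi * A * B / 4 = a * b * μ ^ 2 / (4 * Real.pi) := by
      rw [hA, hB]
      field_simp
    have h8 : (a + b) * μ / Real.pi = A + B := by
      rw [hA, hB]
      ring
    rw [← h7, h8]
    linarith

end Pool.Agent.Work.MP_33c50c_an.SK
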