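import Pool.Agent.Work.MP_33c50c_an.SK.Stmts
import Pool.Agent.Work.MP_33c50c_an.PK.I_Rect

/-!
# Regularity of the modes
-/

set_option autoImplicit false

open MeasureTheory Set
open scoped ENNReal ContDiff

namespace Pool.Agent.Work.MP_33c50c_an.SK

open Pool.Agent.Work.MP_33c50c_an

/-- the derivative of the coefficients -/
theorem LoR_deriv (h0 : SReg) (h : ℝ) (w : ℝ → ℝ → ℝ) (hw : C1 w) (m : ℕ) (t : ℝ) :
    HasDerivAt (cf h w m) (cf h (px w) m t) t := by
  obtain ⟨c1, c2, -, d1, -⟩ := h0 w hw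
  have hs : Continuous fun y : ℝ => Real.sin ((m + 1) * Real.pi * y / h) := by fun_prop
  exact (PK.Rect_deriv w (px w) (fun y => Real.sin ((m + 1) * Real.pi * y / h)) h c1 c2 hs d1
    t).const_mul (2 / h)

theorem LoR_cont (h0 : SReg) (h : ℝ) (w : ℝ → ℝ → ℝ) (hw : C1 w) (m : ℕ) :
    Continuous (cf h (px w) m) := by
  obtain ⟨-, c2, -, -, -⟩ := h0 w hw
  have hs : Continuous fun y : ℝ => Real.sin ((m + 1) * Real.pi * y / h) := by fun_prop
  exact continuous_const.mul (PK.Rect_cont (px w)
    (fun y => Real.sin ((m + 1) * Real.pi * y / h)) h c2 hs)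

theorem LoR_cd (h0 : SReg) (h : ℝ) (w : ℝ → ℝ → ℝ) (hw : C1 w) (m : ℕ) :
    ContDiff ℝ 1 (cf h w m) := by
  rw [contDiff_one_iff_deriv]
  refine ⟨fun t => (LoR_deriv h0 h w hw m t).differentiableAt, ?_⟩
  have e : deriv (cf h w m) = cf h (px w) m := by
    funext t
    exact (LoR_deriv h0 h w hw m t).deriv
  rw [e]
  exact LoR_cont h0 h w hw m

theorem LoR_proof (h0 : SReg) : SLoR := by
  intro h m₀ w _ hw
  have hlo : C1 (lo h m₀ w) := by
    unfold C1 lo
    apply ContDiff.sum
    intro m _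
    apply ContDiff.mul
    · exact (LoR_cd h0 h w hw m).comp contDiff_fst
    · fun_prop
  refine ⟨hlo, ?_, ?_, ?_⟩
  · unfold C1 hi
    exact ContDiff.sub hw hlo
  · intro t η
    unfold px
    have e : HasDerivAt (fun τ => lo h m₀ w τ η)
        (∑ m ∈ Finset.range m₀, cf h (px w) m t * Real.sin ((m + 1) * Real.pi * η / h)) t := by
      unfold lo
      apply HasDerivAt.fun_sum
      intro m _
      exact (LoR_deriv h0 h w hw m t).mul_const _
    exact e.deriv
  · intro t η
    unfold py
    have e : HasDerivAt (fun τ => lo h m₀ w t τ)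
        (∑ m ∈ Finset.range m₀, cf h w m t * ((m + 1) * Real.pi / h *
          Real.cos ((m + 1) * Real.pi * η / h))) η := by
      unfold lo
      apply HasDerivAt.fun_sum
      intro m _
      apply HasDerivAt.const_mul
      have e1 : HasDerivAt (fun τ : ℝ => (m + 1) * Real.pi * τ / h)
          ((m + 1) * Real.pi * 1 / h) η :=
        ((hasDerivAt_id η).const_mul ((m + 1) * Real.pi)).div_const h
      refine e1.sin.congr_deriv ?_
      rw [mul_one]
      exact mul_comm _ _
    exact e.deriv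

end Pool.Agent.Work.MP_33c50c_an.SK
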