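import Pool.Agent.Work.MP_33c50c_an.SK.Stmts

/-!
# MP_33c50c_an, block SK: the low case of a parallelogram
-/

set_option autoImplicit false

open MeasureTheory Set
open scoped ENNReal ContDiff

namespace Pool.Agent.Work.MP_33c50c_an.SK

open Pool.Agent.Work.MP_33c50c_an

/-- shift of the inner integral -/
theorem Low_shift (s H x : ℝ) (f : ℝ → ℝ) :
    ∫ y in (s * x)..(s * x + H), f y = ∫ y in (0:ℝ)..H, f (s * x + y) := by
  have h := intervalIntegral.integral_comp_add_left (a := (0 : ℝ)) (b := H) f (s * x)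
  rw [h, add_zero]

theorem Low_cont (s H : ℝ) (F : ℝ → ℝ → ℝ) (hF : Continuous fun q : ℝ × ℝ => F q.1 q.2) :
    Continuous fun x => ∫ y in (s * x)..(s * x + H), F x y := by
  have h1 : (fun x => ∫ y in (s * x)..(s * x + H), F x y) =
      fun x => ∫ y in (0:ℝ)..H, F x (s * x + y) := by
    funext x
    exact Low_shift s H x (F x)
  rw [h1]
  refine intervalIntegral.continuous_parametric_intervalIntegral_of_continuous' ?_ 0 H
  have h2 : Continuous fun q : ℝ × ℝ => ((q.1, s * q.1 + q.2) : ℝ × ℝ) := by fun_prop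
  exact hF.comp h2

theorem Low_proof (h0 : SReg) (h1 : SWir) : SLow := by
  intro s L H lam hL hH hlam hHl W hW hbd
  obtain ⟨cW, cx, cy, dx, dy⟩ := h0 W hW
  have cW2 : Continuous fun q : ℝ × ℝ => W q.1 q.2 ^ 2 := cW.pow 2
  have cG : Continuous fun q : ℝ × ℝ => gr W q.1 q.2 := (cx.pow 2).add (cy.pow 2)
  have hl : lam ≤ (Real.pi / H) ^ 2 := by
    have h2 : Real.sqrt lam ≤ Real.pi / H := by
      rw [le_div_iff₀ hH, mul_comm]
      exact hHl
    calc lam = Real.sqrt lam ^ 2 := (Real.sq_sqrt hlam.le).symm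
      _ ≤ (Real.pi / H) ^ 2 := pow_le_pow_left₀ (Real.sqrt_nonneg _) h2 2
  rw [← intervalIntegral.integral_const_mul]
  refine intervalIntegral.integral_mono_on hL.le
    ((continuous_const.mul (Low_cont s H (fun x y => W x y ^ 2) cW2)).intervalIntegrable _ _)
    ((Low_cont s H (fun x y => gr W x y) cG).intervalIntegrable _ _) fun x hx => ?_
  obtain ⟨hb0, hb1⟩ := hbd x hx
  rw [Low_shift, Low_shift]
  have c2 : Continuous fun y : ℝ => ((x, s * x + y) : ℝ × ℝ) := by fun_prop
  have cg' : Continuous fun y => py W x (s * x + y) := cy.comp c2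
  have cg : Continuous fun y => W x (s * x + y) := cW.comp c2
  have cgr : Continuous fun y => gr W x (s * x + y) := cG.comp c2
  have h3 := h1 H hH (fun y => W x (s * x + y)) (fun y => py W x (s * x + y)) cg'
    (fun y => (dy x (s * x + y)).comp_const_add (s * x) y) (by simpa using hb0) hb1 0
    (fun m hm => absurd hm (Nat.not_lt_zero m))
  have h4 : (((0 : ℕ) : ℝ) + 1) * Real.pi / H = Real.pi / H := by norm_num
  rw [h4] at h3
  have h5 : 0 ≤ ∫ y in (0:ℝ)..H, W x (s * x + y) ^ 2 :=
    intervalIntegral.integral_nonneg hH.le fun y _ => sq_nonneg _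
  have h6 : ∫ y in (0:ℝ)..H, py W x (s * x + y) ^ 2 ≤ ∫ y in (0:ℝ)..H, gr W x (s * x + y) := by
    refine intervalIntegral.integral_mono_on hH.le ((cg'.pow 2).intervalIntegrable _ _)
      (cgr.intervalIntegrable _ _) fun y _ => ?_
    show py W x (s * x + y) ^ 2 ≤ px W x (s * x + y) ^ 2 + py W x (s * x + y) ^ 2
    have := sq_nonneg (px W x (s * x + y))
    linarith
  have h7 := mul_le_mul_of_nonneg_right hl h5
  linarith

end Pool.Agent.Work.MP_33c50c_an.SK
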