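import Pool.Agent.Work.MP_33c50c_an.SK.Stmts

/-!
# The midpoint rule from below (block SK)
-/

set_option autoImplicit false

namespace Pool.Agent.Work.MP_33c50c_an.SK

theorem Mid_low (h h' : ℝ → ℝ) (κ x0 : ℝ) (hd : ∀ x : ℝ, HasDerivAt h (h' x) x)
    (hL : ∀ x y : ℝ, |h' x - h' y| ≤ κ * |x - y|) (x : ℝ) :
    h x0 + h' x0 * (x - x0) - κ * (x - x0) ^ 2 / 2 ≤ h x := by
  have hD : ∀ y : ℝ, HasDerivAt (fun y => h y - h x0 - h' x0 * (y - x0) + κ * (y - x0) ^ 2 / 2)
      (h' y - h' x0 + κ * (y - x0)) y := by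
    intro y
    have h1 : HasDerivAt (fun y : ℝ => y - x0) 1 y := (hasDerivAt_id y).sub_const x0
    have h2 := h1.pow 2
    have h3 := (((hd y).sub_const (h x0)).sub (h1.const_mul (h' x0))).add
      ((h2.const_mul κ).div_const 2)
    refine h3.congr_deriv ?_
    simp
    ring
  have hc : Continuous (fun y => h y - h x0 - h' x0 * (y - x0) + κ * (y - x0) ^ 2 / 2) :=
    continuous_iff_continuousAt.2 fun y => (hD y).continuousAt
  have h0 : (fun y => h y - h x0 - h' x0 * (y - x0) + κ * (y - x0) ^ 2 / 2) x0 = 0 := by simp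
  have key : 0 ≤ (fun y => h y - h x0 - h' x0 * (y - x0) + κ * (y - x0) ^ 2 / 2) x := by
    rw [← h0]
    rcases le_total x0 x with hx | hx
    · refine monotoneOn_of_deriv_nonneg (convex_Ici x0) hc.continuousOn
        (fun y _ => (hD y).differentiableAt.differentiableWithinAt) ?_ Set.self_mem_Ici hx hx
      intro y hy
      rw [interior_Ici] at hy
      have hy' : 0 < y - x0 := sub_pos.2 hy
      rw [(hD y).deriv]
      have h1 := (abs_le.1 (hL y x0)).1
      rw [abs_of_pos hy'] at h1
      linarith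
    · refine antitoneOn_of_deriv_nonpos (convex_Iic x0) hc.continuousOn
        (fun y _ => (hD y).differentiableAt.differentiableWithinAt) ?_ hx Set.self_mem_Iic hx
      intro y hy
      rw [interior_Iic] at hy
      have hy' : y - x0 < 0 := sub_neg.2 hy
      rw [(hD y).deriv]
      have h1 := (abs_le.1 (hL y x0)).2
      rw [abs_of_neg hy'] at h1
      linarith
  simp only at key
  linarith

theorem Mid_proof : SMid := by
  intro h h' κ w a hκ hw hd hL
  have hc : Continuous h := continuous_iff_continuousAt.2 fun y => (hd y).continuousAt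
  set x0 : ℝ := a + w / 2 with hx0
  have hP : ∀ x : ℝ, HasDerivAt (fun x => h x0 * x + h' x0 * (x - x0) ^ 2 / 2 -
      κ * (x - x0) ^ 3 / 6) (h x0 + h' x0 * (x - x0) - κ * (x - x0) ^ 2 / 2) x := by
    intro y
    have h1 : HasDerivAt (fun y : ℝ => y - x0) 1 y := (hasDerivAt_id y).sub_const x0
    have h2 := h1.pow 2
    have h3 := h1.pow 3
    have h4 := ((((hasDerivAt_id y).const_mul (h x0)).add
      ((h2.const_mul (h' x0)).div_const 2)).sub ((h3.const_mul κ).div_const 6))
    refine h4.congr_deriv ?_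
    simp
    ring
  have hcP : Continuous (fun x => h x0 + h' x0 * (x - x0) - κ * (x - x0) ^ 2 / 2) := by
    fun_prop
  have e1 := intervalIntegral.integral_eq_sub_of_hasDerivAt (a := a) (b := a + w)
    (fun x _ => hP x) (hcP.intervalIntegrable _ _)
  have e2 : ∫ x in a..(a + w), (h x0 + h' x0 * (x - x0) - κ * (x - x0) ^ 2 / 2) ≤
      ∫ x in a..(a + w), h x :=
    intervalIntegral.integral_mono_on (by linarith) (hcP.intervalIntegrable _ _)
      (hc.intervalIntegrable _ _) fun x _ => Mid_low h h' κ x0 hd hL x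
  rw [e1] at e2
  have e3 : h x0 * (a + w) + h' x0 * (a + w - x0) ^ 2 / 2 - κ * (a + w - x0) ^ 3 / 6 -
      (h x0 * a + h' x0 * (a - x0) ^ 2 / 2 - κ * (a - x0) ^ 3 / 6) =
      w * h x0 - κ * w ^ 3 / 24 := by
    rw [hx0]
    ring
  rw [e3] at e2
  linarith

end Pool.Agent.Work.MP_33c50c_an.SK
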