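import Pool.Agent.Work.MP_33c50c_an.SK.Stmts

/-!
# MP_33c50c_an, block SK: the choice of the parameters
-/

set_option autoImplicit false

open MeasureTheory Set
open scoped ENNReal ContDiff

namespace Pool.Agent.Work.MP_33c50c_an.SK

open Pool.Agent.Work.MP_33c50c_an

theorem Num_exp (u : ℝ) (hu : 3.14 < u) : 2 + 128 * u ≤ Real.exp (2 * u) := by
  have h1 : (387 : ℝ) ≤ Real.exp 6 := by
    have h2 := Real.exp_one_gt_d9
    have h3 : Real.exp 6 = Real.exp 1 ^ 6 := by
      rw [← Real.exp_nat_mul]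
      norm_num
    rw [h3]
    calc (387 : ℝ) ≤ (2.7182818283 : ℝ) ^ 6 := by norm_num
      _ ≤ Real.exp 1 ^ 6 := by gcongr
  have h4 : Real.exp (2 * u) = Real.exp 6 * Real.exp (2 * u - 6) := by
    rw [← Real.exp_add]
    congr 1
    ring
  have h5 : 2 * u - 6 + 1 ≤ Real.exp (2 * u - 6) := Real.add_one_le_exp _
  have h6 : 0 ≤ 2 * u - 6 + 1 := by norm_num at hu; linarith
  rw [h4]
  calc 2 + 128 * u ≤ 387 * (2 * u - 6 + 1) := by norm_num at hu; linarith
    _ ≤ Real.exp 6 * Real.exp (2 * u - 6) := by gcongr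

theorem Num_proof : SNum := by
  intro L H lam hH hL hlam
  have hpi := Real.pi_pos
  have hpi3 := Real.pi_gt_d2
  set r := Real.sqrt lam with hr
  have hr0 : 0 < r := by
    by_contra h
    have h1 : H * r ≤ 0 := mul_nonpos_of_nonneg_of_nonpos hH.le (not_lt.1 h)
    linarith
  have hl0 : 0 < lam := Real.sqrt_pos.1 hr0
  have hr2 : r ^ 2 = lam := Real.sq_sqrt hl0.le
  set e : ℝ := 1 / (16 * H) with he
  have he0 : 0 < e := by positivity
  have heH : e * H = 1 / 16 := by
    rw [he]
    field_simp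
  set μ : ℝ := e / 2 + Real.sqrt (lam + e ^ 2 / 4) with hμ
  have hμ2 : μ ^ 2 = e * μ + lam := by
    have h1 : Real.sqrt (lam + e ^ 2 / 4) ^ 2 = lam + e ^ 2 / 4 := Real.sq_sqrt (by positivity)
    rw [hμ]
    nlinarith [h1]
  have hμ0 : 0 < μ := by
    have := Real.sqrt_nonneg (lam + e ^ 2 / 4)
    rw [hμ]
    linarith
  have hμr : r < μ := by
    have h1 : r ^ 2 < μ ^ 2 := by
      rw [hr2, hμ2]
      have := mul_pos he0 hμ0
      linarith
    exact lt_of_pow_lt_pow_left₀ 2 hμ0.le h1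
  have hHμ : Real.pi < H * μ := hlam.trans (mul_lt_mul_of_pos_left hμr hH)
  have hHμ0 : 0 < H * μ := mul_pos hH hμ0
  have harg : 1 < 2 + 128 * (H * μ) := by linarith
  have hlog : 0 < Real.log (2 + 128 * (H * μ)) := Real.log_pos harg
  refine ⟨μ, Real.log (2 + 128 * (H * μ)) / (2 * μ), hHμ, by positivity, ?_, ?_, ?_⟩
  · rw [div_le_iff₀ (by positivity)]
    have h1 := Num_exp (H * μ) (by linarith)
    have h2 : Real.log (2 + 128 * (H * μ)) ≤ Real.log (Real.exp (2 * (H * μ))) :=
      Real.log_le_log (by linarith) h1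
    rw [Real.log_exp] at h2
    linarith
  · have h1 : 2 * μ * (Real.log (2 + 128 * (H * μ)) / (2 * μ)) =
        Real.log (2 + 128 * (H * μ)) := by
      field_simp
    rw [h1]
    have h2 : 64 * (H * μ) ≤ Real.cosh (Real.log (2 + 128 * (H * μ))) - 1 := by
      rw [Real.cosh_eq, Real.exp_log (by linarith)]
      have h3 := Real.exp_pos (-Real.log (2 + 128 * (H * μ)))
      linarith
    have h4 : 0 < Real.cosh (Real.log (2 + 128 * (H * μ))) - 1 := by linarith
    have h5 : 4 * μ ^ 2 / (Real.cosh (Real.log (2 + 128 * (H * μ))) - 1) ≤ e * μ := by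
      rw [div_le_iff₀ h4]
      calc 4 * μ ^ 2 = e * μ * (64 * (H * μ)) := by
            have : e * μ * (64 * (H * μ)) = 64 * (e * H) * μ ^ 2 := by ring
            rw [this, heH]
            ring
        _ ≤ _ := by gcongr
    linarith
  · have hL0 : 0 < L := by linarith
    have key : L * H * μ ^ 2 / 4 - (L - 3 * H) * μ / 16 + 14 * H * μ ≤
        L * r * (H * r - 1 / 32) / 4 := by
      have h1 : L * H * μ ^ 2 = L * (e * H) * μ + L * H * r ^ 2 := by
        rw [hμ2, hr2]
        ring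
      rw [h1, heH]
      have h2 : L * r ≤ L * μ := by gcongr
      have h3 : 400 * H * μ ≤ L * μ := by gcongr
      nlinarith [mul_pos hH hμ0]
    have e1 : L * H * μ ^ 2 / (4 * Real.pi) - (L - 3 * H) * μ / (16 * Real.pi) +
        14 * H * μ / Real.pi =
        (L * H * μ ^ 2 / 4 - (L - 3 * H) * μ / 16 + 14 * H * μ) / Real.pi := by
      field_simp
    have e2 : L * r * (H * r - 1 / 32) / (4 * Real.pi) =
        (L * r * (H * r - 1 / 32) / 4) / Real.pi := by
      field_simp
    rw [e1, e2]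
    gcongr

end Pool.Agent.Work.MP_33c50c_an.SK
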