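import Pool.Agent.Work.MP_33c50c_an.SK.Stmts

/-!
# Bessel's inequality for the derivative, cosines
-/

set_option autoImplicit false

open MeasureTheory Set
open scoped ENNReal ContDiff

namespace Pool.Agent.Work.MP_33c50c_an.SK

open Pool.Agent.Work.MP_33c50c_an

/-- integration by parts -/
theorem OneC_parts {L : ℝ} (hL : 0 < L) {a a' : ℝ → ℝ} (ha' : Continuous a')
    (ha : ∀ x, HasDerivAt a (a' x) x) (m : ℕ) :
    ∫ y in (0:ℝ)..L, a' y * Real.sin ((m + 1) * Real.pi * y / L) =
      -(((m : ℝ) + 1) * Real.pi / L) *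
        ∫ x in (0:ℝ)..L, a x * Real.cos (((m + 1 : ℕ) : ℝ) * Real.pi * x / L) := by
  set k : ℝ := ((m : ℝ) + 1) * Real.pi / L with hk
  have hac : Continuous a := continuous_iff_continuousAt.2 fun x => (ha x).continuousAt
  have e1 : ∀ y : ℝ, ((m : ℝ) + 1) * Real.pi * y / L = k * y := by
    intro y
    rw [hk]
    ring
  have e2 : ∀ y : ℝ, ((m + 1 : ℕ) : ℝ) * Real.pi * y / L = k * y := by
    intro y
    rw [hk]
    push_cast
    ring
  simp_rw [e1, e2]
  have hs : ∀ x : ℝ, HasDerivAt (fun y : ℝ => Real.sin (k * y)) (Real.cos (k * x) * k) x := by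
    intro x
    have h1 : HasDerivAt (fun y : ℝ => k * y) k x := by
      simpa using (hasDerivAt_id x).const_mul k
    exact h1.sin
  have h1 := intervalIntegral.integral_mul_deriv_eq_deriv_mul (a := 0) (b := L)
    (u := fun y : ℝ => Real.sin (k * y)) (v := a) (u' := fun y : ℝ => Real.cos (k * y) * k)
    (v' := a') (fun x _ => hs x) (fun x _ => ha x)
    (Continuous.intervalIntegrable (by fun_prop) _ _)
    (Continuous.intervalIntegrable ha' _ _)
  have h2 : Real.sin (k * L) = 0 := by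
    have h3 : k * L = ((m + 1 : ℕ) : ℝ) * Real.pi := by
      rw [hk]
      push_cast
      field_simp
    rw [h3]
    exact Real.sin_nat_mul_pi _
  simp only [mul_zero, Real.sin_zero, zero_mul, h2, sub_self, zero_sub] at h1
  have h3 : ∫ y in (0:ℝ)..L, a' y * Real.sin (k * y) = ∫ y in (0:ℝ)..L, Real.sin (k * y) * a' y :=
    intervalIntegral.integral_congr fun y _ => mul_comm _ _
  have h4 : ∫ y in (0:ℝ)..L, Real.cos (k * y) * k * a y =
      k * ∫ y in (0:ℝ)..L, a y * Real.cos (k * y) := by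
    rw [← intervalIntegral.integral_const_mul]
    exact intervalIntegral.integral_congr fun y _ => by
      show Real.cos (k * y) * k * a y = k * (a y * Real.cos (k * y))
      ring
  rw [h3, h1, h4]
  ring

/-- (OneC) Bessel's inequality for the derivative, cosines. -/
theorem OneC_proof (h : PK.SBsin) : SOneC := by
  intro H hH g g' hg' hg K
  have hnn : 0 ≤ ∫ y in (0:ℝ)..H, g' y ^ 2 :=
    intervalIntegral.integral_nonneg hH.le fun x _ => sq_nonneg _
  rcases Nat.eq_zero_or_pos K with h0 | h0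
  · rw [h0, Finset.sum_range_zero]
    exact hnn
  obtain ⟨M, rfl⟩ : ∃ M, K = M + 1 := ⟨K - 1, by omega⟩
  rw [Finset.sum_range_succ']
  have hterm : ∀ m ∈ Finset.range M, (((m + 1 : ℕ) : ℝ) * Real.pi / H) ^ 2 *
      ((if m + 1 = 0 then (1 : ℝ) else 2) / H *
        (∫ y in (0:ℝ)..H, g y * Real.cos (((m + 1 : ℕ) : ℝ) * Real.pi * y / H)) ^ 2) =
      2 / H * (∫ y in (0:ℝ)..H, g' y * Real.sin ((m + 1) * Real.pi * y / H)) ^ 2 := by
    intro m _
    rw [if_neg (Nat.succ_ne_zero m), OneC_parts hH hg' hg m]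
    push_cast
    ring
  rw [Finset.sum_congr rfl hterm]
  have h1 := h H hH g' hg' M
  have h2 : (((0 : ℕ) : ℝ) * Real.pi / H) ^ 2 * ((if 0 = 0 then (1 : ℝ) else 2) / H *
      (∫ y in (0:ℝ)..H, g y * Real.cos (((0 : ℕ) : ℝ) * Real.pi * y / H)) ^ 2) = 0 := by
    simp
  rw [h2, add_zero]
  exact h1

end Pool.Agent.Work.MP_33c50c_an.SK
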