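import Pool.Agent.Work.MP_33c50c_an.SK.Stmts

/-!
# The one dimensional inequality with a remainder, cosines
-/

set_option autoImplicit false

open MeasureTheory Set
open scoped ENNReal ContDiff

namespace Pool.Agent.Work.MP_33c50c_an.SK

open Pool.Agent.Work.MP_33c50c_an

/-- integration by parts -/
theorem OneR_parts {L : ℝ} (hL : 0 < L) {a a' : ℝ → ℝ} (ha' : Continuous a')
    (ha : ∀ x, HasDerivAt a (a' x) x) (m : ℕ) :
    ∫ y in (0:ℝ)..L, a' y * Real.sin ((m + 1) * Real.pi * y / L) =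
      -(((m : ℝ) + 1) * Real.pi / L) *
        ∫ x in (0:ℝ)..L, a x * Real.cos (((m + 1 : ℕ) : ℝ) * Real.pi * x / L) := by
  set k : ℝ := ((m : ℝ) + 1) * Real.pi / L with hk
  have hac : Continuous a := continuous_iff_continuousAt.2 fun x => (ha x).continuousAt
  have e1 : ∀ y : ℝ, ((m : ℝ) + 1) * Real.pi * y / L = k * y := by
    intro y
    rw [hk]
    ring
  have e2 : ∀ y : ℝ, ((m + 1 : ℕ) : ℝ) * Real.pi * y / L = k * y := by
    intro y
    rw [hk]
    push_cast
    ring
  simp_rw [e1, e2]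
  have hs : ∀ x : ℝ, HasDerivAt (fun y : ℝ => Real.sin (k * y)) (Real.cos (k * x) * k) x := by
    intro x
    have h1 : HasDerivAt (fun y : ℝ => k * y) k x := by
      simpa using (hasDerivAt_id x).const_mul k
    exact h1.sin
  have h1 := intervalIntegral.integral_mul_deriv_eq_deriv_mul (a := 0) (b := L)
    (u := fun y : ℝ => Real.sin (k * y)) (v := a) (u' := fun y : ℝ => Real.cos (k * y) * k)
    (v' := a') (fun x _ => hs x) (fun x _ => ha x)
    (Continuous.intervalIntegrable (by fun_prop) _ _)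
    (Continuous.intervalIntegrable ha' _ _)
  have h2 : Real.sin (k * L) = 0 := by
    have h3 : k * L = ((m + 1 : ℕ) : ℝ) * Real.pi := by
      rw [hk]
      push_cast
      field_simp
    rw [h3]
    exact Real.sin_nat_mul_pi _
  simp only [mul_zero, Real.sin_zero, zero_mul, h2, sub_self, zero_sub] at h1
  have h3 : ∫ y in (0:ℝ)..L, a' y * Real.sin (k * y) = ∫ y in (0:ℝ)..L, Real.sin (k * y) * a' y :=
    intervalIntegral.integral_congr fun y _ => mul_comm _ _
  have h4 : ∫ y in (0:ℝ)..L, Real.cos (k * y) * k * a y =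
      k * ∫ y in (0:ℝ)..L, a y * Real.cos (k * y) := by
    rw [← intervalIntegral.integral_const_mul]
    exact intervalIntegral.integral_congr fun y _ => by
      show Real.cos (k * y) * k * a y = k * (a y * Real.cos (k * y))
      ring
  rw [h3, h1, h4]
  ring

theorem OneR_proof (h1 : PK.SCos) (h2 : PK.SBsin) : SOneR := by
  intro L hL κ hκ a a' ha' ha N hN
  have hac : Continuous a := continuous_iff_continuousAt.2 fun x => (ha x).continuousAt
  have hnn : 0 ≤ ∫ x in (0:ℝ)..L, a' x ^ 2 :=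
    intervalIntegral.integral_nonneg hL.le fun x _ => sq_nonneg _
  rcases hκ.eq_or_lt with h0 | h0
  · rw [← h0]
    simpa using hnn
  have hsum := (h1 L hL a hac).tendsto_sum_nat
  have hlim := hsum.const_mul (κ ^ 2)
  refine le_of_tendsto hlim ?_
  filter_upwards [Filter.eventually_ge_atTop 1] with M hM
  obtain ⟨K, rfl⟩ : ∃ K, M = K + 1 := ⟨M - 1, by omega⟩
  obtain ⟨A, hA⟩ : ∃ A : ℕ → ℝ, A = fun n : ℕ =>
      (∫ x in (0:ℝ)..L, a x * Real.cos (n * Real.pi * x / L)) ^ 2 := ⟨_, rfl⟩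
  obtain ⟨B, hB⟩ : ∃ B : ℕ → ℝ, B = fun n : ℕ => if n = 0 then 0 else
      2 / L * (∫ y in (0:ℝ)..L, a' y * Real.sin (((n - 1 : ℕ) + 1 : ℝ) * Real.pi * y / L)) ^ 2 :=
    ⟨_, rfl⟩
  have hA0 : ∀ n, 0 ≤ A n := fun n => by rw [hA]; exact sq_nonneg _
  have hB0 : ∀ n, 0 ≤ B n := fun n => by
    rw [hB]
    change 0 ≤ if n = 0 then (0 : ℝ) else _
    split_ifs
    · exact le_refl _
    · positivity
  have hterm : ∀ n ∈ Finset.range (K + 1), κ ^ 2 * ((if n = 0 then (1 : ℝ) else 2) / L * A n) ≤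
      (if n ∈ N then κ ^ 2 * (2 / L * A n) else 0) + B n := by
    intro n _
    by_cases hn : n ∈ N
    · rw [if_pos hn]
      have e1 : (if n = 0 then (1 : ℝ) else 2) / L ≤ 2 / L := by
        split_ifs
        · gcongr
          norm_num
        · exact le_refl _
      have e2 : κ ^ 2 * ((if n = 0 then (1 : ℝ) else 2) / L * A n) ≤ κ ^ 2 * (2 / L * A n) :=
        mul_le_mul_of_nonneg_left (mul_le_mul_of_nonneg_right e1 (hA0 n)) (sq_nonneg _)
      linarith [hB0 n]
    · rw [if_neg hn, zero_add]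
      have hge : κ ≤ n * Real.pi / L := by
        by_contra hlt
        exact hn (hN n (not_le.1 hlt))
      rcases Nat.eq_zero_or_pos n with h | h
      · rw [h] at hge
        simp at hge
        linarith
      · obtain ⟨m, rfl⟩ : ∃ m, n = m + 1 := ⟨n - 1, by omega⟩
        rw [hB, if_neg (Nat.succ_ne_zero m)]
        change _ ≤ if m + 1 = 0 then (0 : ℝ) else _
        rw [if_neg (Nat.succ_ne_zero m), Nat.add_sub_cancel, OneR_parts hL ha' ha m, hA]
        change κ ^ 2 * (2 / L *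
          (∫ x in (0:ℝ)..L, a x * Real.cos (((m + 1 : ℕ) : ℝ) * Real.pi * x / L)) ^ 2) ≤ _
        set c : ℝ := ∫ x in (0:ℝ)..L, a x * Real.cos (((m + 1 : ℕ) : ℝ) * Real.pi * x / L)
          with hc
        have hge' : κ ≤ ((m : ℝ) + 1) * Real.pi / L := by
          push_cast at hge
          exact hge
        have hsq : κ ^ 2 ≤ (((m : ℝ) + 1) * Real.pi / L) ^ 2 := pow_le_pow_left₀ h0.le hge' 2
        calc κ ^ 2 * (2 / L * c ^ 2) ≤ (((m : ℝ) + 1) * Real.pi / L) ^ 2 * (2 / L * c ^ 2) :=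
              mul_le_mul_of_nonneg_right hsq (by positivity)
          _ = 2 / L * (-(((m : ℝ) + 1) * Real.pi / L) * c) ^ 2 := by ring
  have hBs : ∑ n ∈ Finset.range (K + 1), B n ≤ ∫ x in (0:ℝ)..L, a' x ^ 2 := by
    rw [Finset.sum_range_succ', hB]
    have := h2 L hL a' ha' K
    simpa using this
  have hAs : ∑ n ∈ Finset.range (K + 1), (if n ∈ N then κ ^ 2 * (2 / L * A n) else 0) ≤
      κ ^ 2 * (2 / L * ∑ n ∈ N, A n) := by
    rw [← Finset.sum_filter, Finset.mul_sum, Finset.mul_sum]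
    refine Finset.sum_le_sum_of_subset_of_nonneg ?_ ?_
    · intro n hn
      exact (Finset.mem_filter.1 hn).2
    · intro n _ _
      have := hA0 n
      positivity
  have hfin : κ ^ 2 * ∑ n ∈ Finset.range (K + 1), (if n = 0 then (1 : ℝ) else 2) / L * A n ≤
      (∫ x in (0:ℝ)..L, a' x ^ 2) + κ ^ 2 * (2 / L * ∑ n ∈ N, A n) := by
    rw [Finset.mul_sum]
    refine (Finset.sum_le_sum hterm).trans ?_
    rw [Finset.sum_add_distrib]
    linarith
  rw [hA] at hfin
  exact hfin

end Pool.Agent.Work.MP_33c50c_an.SK
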