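import Pool.Agent.Work.MP_33c50c_an.SK.Stmts
import Pool.Agent.Work.MP_33c50c_an.PK.I_Bsin

/-!
# Orthogonality of the modes
-/

set_option autoImplicit false

open MeasureTheory Set
open scoped ENNReal ContDiff

namespace Pool.Agent.Work.MP_33c50c_an.SK

open Pool.Agent.Work.MP_33c50c_an

/-- the sines -/
noncomputable def Ort_S (h : ℝ) (m : ℕ) (y : ℝ) : ℝ := Real.sin ((m + 1) * Real.pi * y / h)

theorem Ort_Sc (h : ℝ) (m : ℕ) : Continuous (Ort_S h m) := by
  unfold Ort_S
  fun_prop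

theorem Ort_loc (h : ℝ) (m₀ : ℕ) (v : ℝ → ℝ → ℝ) (t : ℝ) : Continuous (lo h m₀ v t) := by
  have e : lo h m₀ v t = fun y => ∑ m ∈ Finset.range m₀, cf h v m t * Ort_S h m y := rfl
  rw [e]
  exact continuous_finsetSum _ fun m _ => continuous_const.mul (Ort_Sc h m)

theorem Ort_int (h : ℝ) (f : ℝ → ℝ) (hf : Continuous f) : IntervalIntegrable f volume 0 h :=
  hf.intervalIntegrable _ _

/-- the high modes are orthogonal to the low sines -/
theorem Ort_two (h : ℝ) (hh : 0 < h) (m₀ : ℕ) (v : ℝ → ℝ → ℝ) (t : ℝ) (hv : Continuous (v t))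
    (m : ℕ) (hm : m < m₀) :
    ∫ y in (0:ℝ)..h, (v t y - lo h m₀ v t y) * Ort_S h m y = 0 := by
  have e1 : ∫ y in (0:ℝ)..h, (v t y - lo h m₀ v t y) * Ort_S h m y =
      (∫ y in (0:ℝ)..h, v t y * Ort_S h m y) - ∫ y in (0:ℝ)..h, lo h m₀ v t y * Ort_S h m y := by
    have i1 : IntervalIntegrable (fun y => v t y * Ort_S h m y) volume 0 h :=
      Ort_int h _ (hv.mul (Ort_Sc h m))
    have i2 : IntervalIntegrable (fun y => lo h m₀ v t y * Ort_S h m y) volume 0 h :=
      Ort_int h _ ((Ort_loc h m₀ v t).mul (Ort_Sc h m))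
    rw [← intervalIntegral.integral_sub i1 i2]
    exact intervalIntegral.integral_congr fun y _ => sub_mul _ _ _
  have e2 : ∫ y in (0:ℝ)..h, lo h m₀ v t y * Ort_S h m y =
      ∑ n ∈ Finset.range m₀, cf h v n t * ∫ y in (0:ℝ)..h, Ort_S h n y * Ort_S h m y := by
    have e3 : ∀ y, lo h m₀ v t y * Ort_S h m y =
        ∑ n ∈ Finset.range m₀, cf h v n t * (Ort_S h n y * Ort_S h m y) := by
      intro y
      have : lo h m₀ v t y = ∑ n ∈ Finset.range m₀, cf h v n t * Ort_S h n y := rfl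
      rw [this, Finset.sum_mul]
      exact Finset.sum_congr rfl fun n _ => by ring
    simp_rw [e3]
    rw [intervalIntegral.integral_finsetSum]
    · exact Finset.sum_congr rfl fun n _ => intervalIntegral.integral_const_mul _ _
    · intro n _
      exact Ort_int h _ (continuous_const.mul ((Ort_Sc h n).mul (Ort_Sc h m)))
  have e4 : ∀ n : ℕ, ∫ y in (0:ℝ)..h, Ort_S h n y * Ort_S h m y = if n = m then h / 2 else 0 :=
    fun n => PK.Bsin_orth h hh n m
  rw [e1, e2, Finset.sum_eq_single m]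
  · rw [e4, if_pos rfl]
    have e5 : cf h v m t = 2 / h * ∫ y in (0:ℝ)..h, v t y * Ort_S h m y := rfl
    rw [e5]
    field_simp
    ring
  · intro n _ hnm
    rw [e4, if_neg hnm, mul_zero]
  · intro hn
    exact absurd (Finset.mem_range.mpr hm) hn

/-- combinations of the low sines are orthogonal to the high modes -/
theorem Ort_comb (h : ℝ) (hh : 0 < h) (m₀ : ℕ) (v : ℝ → ℝ → ℝ) (t : ℝ) (hv : Continuous (v t))
    (c : ℕ → ℝ) :
    ∫ y in (0:ℝ)..h, (∑ m ∈ Finset.range m₀, c m * Ort_S h m y) * (v t y - lo h m₀ v t y) = 0 := by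
  have e : ∀ y, (∑ m ∈ Finset.range m₀, c m * Ort_S h m y) * (v t y - lo h m₀ v t y) =
      ∑ m ∈ Finset.range m₀, c m * ((v t y - lo h m₀ v t y) * Ort_S h m y) := by
    intro y
    rw [Finset.sum_mul]
    exact Finset.sum_congr rfl fun m _ => by ring
  simp_rw [e]
  rw [intervalIntegral.integral_finsetSum]
  · refine Finset.sum_eq_zero fun m hm => ?_
    rw [intervalIntegral.integral_const_mul,
      Ort_two h hh m₀ v t hv m (Finset.mem_range.mp hm), mul_zero]
  · intro m _
    exact Ort_int h _ (continuous_const.mul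
      ((hv.sub (Ort_loc h m₀ v t)).mul (Ort_Sc h m)))

/-- (Ort) orthogonality. -/
theorem Ort_proof (h0 : SReg) (h1 : SLoR) (h2 : SWir) : SOrt := by
  intro h m₀ w hh hw t hw0 hwh
  obtain ⟨hlo, hhi, hpx, hpy⟩ := h1 h m₀ w hh hw
  obtain ⟨rw1, rw2, rw3, rw4, rw5⟩ := h0 w hw
  obtain ⟨rl1, rl2, rl3, rl4, rl5⟩ := h0 _ hlo
  obtain ⟨rh1, rh2, rh3, rh4, rh5⟩ := h0 _ hhi
  have hslice : ∀ F : ℝ → ℝ → ℝ, (Continuous fun q : ℝ × ℝ => F q.1 q.2) → Continuous (F t) :=
    fun F hF => hF.comp (Continuous.prodMk_right t)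
  have cw : Continuous (w t) := hslice _ rw1
  have cpx : Continuous (px w t) := hslice _ rw2
  have chi : Continuous (hi h m₀ w t) := hslice _ rh1
  have cpyhi : Continuous (py (hi h m₀ w) t) := hslice _ rh3
  have cpylo : Continuous (py (lo h m₀ w) t) := hslice _ rl3
  have hh0 : h ≠ 0 := hh.ne'
  have S0 : ∀ m, Ort_S h m 0 = 0 := by
    intro m
    unfold Ort_S
    simp
  have Sh : ∀ m, Ort_S h m h = 0 := by
    intro m
    unfold Ort_S
    have e : ((m : ℝ) + 1) * Real.pi * h / h = ((m + 1 : ℕ) : ℝ) * Real.pi := by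
      push_cast
      field_simp
    rw [e]
    exact Real.sin_nat_mul_pi _
  have hloS : ∀ y, lo h m₀ w t y = ∑ m ∈ Finset.range m₀, cf h w m t * Ort_S h m y :=
    fun _ => rfl
  have hi0 : hi h m₀ w t 0 = 0 := by
    change w t 0 - lo h m₀ w t 0 = 0
    rw [hw0, hloS]
    simp [S0]
  have hih : hi h m₀ w t h = 0 := by
    change w t h - lo h m₀ w t h = 0
    rw [hwh, hloS]
    simp [Sh]
  have f2 : ∀ m < m₀, ∫ y in (0:ℝ)..h, hi h m₀ w t y * Ort_S h m y = 0 :=
    fun m hm => Ort_two h hh m₀ w t cw m hm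
  refine ⟨?_, ?_, ?_, ?_, ?_⟩
  · exact Ort_comb h hh m₀ w t cw (fun m => cf h w m t)
  · have e : ∀ y, px (lo h m₀ w) t y * hi h m₀ w t y =
        (∑ m ∈ Finset.range m₀, cf h (px w) m t * Ort_S h m y) * (w t y - lo h m₀ w t y) := by
      intro y
      rw [hpx t y]
      rfl
    simp_rw [e]
    exact Ort_comb h hh m₀ w t cw (fun m => cf h (px w) m t)
  · have e1 : ∀ y, px (hi h m₀ w) t y = px w t y - lo h m₀ (px w) t y := by
      intro y
      rw [← hpx t y]
      exact ((rw4 t y).sub (rl4 t y)).deriv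
    have e : ∀ y, px (lo h m₀ w) t y * px (hi h m₀ w) t y =
        (∑ m ∈ Finset.range m₀, cf h (px w) m t * Ort_S h m y) *
          (px w t y - lo h m₀ (px w) t y) := by
      intro y
      rw [e1 y, hpx t y]
      rfl
    simp_rw [e]
    exact Ort_comb h hh m₀ (px w) t cpx (fun m => cf h (px w) m t)
  · set U' : ℝ → ℝ := fun y => -∑ m ∈ Finset.range m₀,
      (cf h w m t * (((m : ℝ) + 1) * Real.pi / h) ^ 2) * Ort_S h m y with hU'
    have hU : ∀ y, HasDerivAt (py (lo h m₀ w) t) (U' y) y := by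
      intro y
      have e : py (lo h m₀ w) t = fun y => ∑ m ∈ Finset.range m₀,
          cf h w m t * ((m + 1) * Real.pi / h * Real.cos ((m + 1) * Real.pi * y / h)) := by
        funext y
        exact hpy t y
      rw [e]
      have hsum : HasDerivAt (fun y => ∑ m ∈ Finset.range m₀,
          cf h w m t * ((m + 1) * Real.pi / h * Real.cos ((m + 1) * Real.pi * y / h)))
          (∑ m ∈ Finset.range m₀, cf h w m t * (((m : ℝ) + 1) * Real.pi / h *
            (-Real.sin ((m + 1) * Real.pi * y / h) * (((m : ℝ) + 1) * Real.pi / h)))) y := by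
        refine HasDerivAt.fun_sum fun m _ => ?_
        have h3 : HasDerivAt (fun y : ℝ => ((m : ℝ) + 1) * Real.pi * y / h)
            (((m : ℝ) + 1) * Real.pi / h) y := by
          have := ((hasDerivAt_id y).const_mul (((m : ℝ) + 1) * Real.pi)).div_const h
          simpa using this
        exact (h3.cos.const_mul _).const_mul _
      refine hsum.congr_deriv ?_
      change _ = -∑ m ∈ Finset.range m₀,
        (cf h w m t * (((m : ℝ) + 1) * Real.pi / h) ^ 2) * Ort_S h m y
      rw [← Finset.sum_neg_distrib]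
      refine Finset.sum_congr rfl fun m _ => ?_
      unfold Ort_S
      ring
    have cU' : Continuous U' := by
      rw [hU']
      exact (continuous_finsetSum _ fun m _ => continuous_const.mul (Ort_Sc h m)).neg
    have hparts := intervalIntegral.integral_mul_deriv_eq_deriv_mul (a := 0) (b := h)
      (u := py (lo h m₀ w) t) (v := hi h m₀ w t) (u' := U') (v' := py (hi h m₀ w) t)
      (fun x _ => hU x) (fun x _ => rh5 t x) (Ort_int h _ cU') (Ort_int h _ cpyhi)
    rw [hi0, hih, mul_zero, mul_zero, sub_zero, zero_sub] at hparts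
    rw [hparts]
    have e : ∀ y, U' y * hi h m₀ w t y = -((∑ m ∈ Finset.range m₀,
        (cf h w m t * (((m : ℝ) + 1) * Real.pi / h) ^ 2) * Ort_S h m y) *
          (w t y - lo h m₀ w t y)) := by
      intro y
      rw [hU', ← neg_mul]
      rfl
    simp_rw [e]
    rw [intervalIntegral.integral_neg, Ort_comb h hh m₀ w t cw]
    simp
  · exact h2 h hh (hi h m₀ w t) (py (hi h m₀ w) t) cpyhi (fun y => rh5 t y) hi0 hih m₀ f2

end Pool.Agent.Work.MP_33c50c_an.SK
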