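import Pool.Agent.Work.MP_33c50c_an.SK.Stmts

/-!
# MP_33c50c_an, block SK: the parallelogram with positive slope
-/

set_option autoImplicit false

open MeasureTheory Set
open scoped ENNReal ContDiff

namespace Pool.Agent.Work.MP_33c50c_an.SK

open Pool.Agent.Work.MP_33c50c_an

theorem Pos_cont (F : ℝ → ℝ → ℝ) (hF : Continuous fun q : ℝ × ℝ => F q.1 q.2) (a b : ℝ → ℝ)
    (ha : Continuous a) (hb : Continuous b) :
    Continuous fun x => ∫ y in (a x)..(b x), F x y := by
  have hi : ∀ x, ∀ u v : ℝ, IntervalIntegrable (fun y => F x y) volume u v := by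
    intro x u v
    exact (hF.comp (by fun_prop : Continuous fun y : ℝ => (x, y))).intervalIntegrable u v
  have h : (fun x => ∫ y in (a x)..(b x), F x y) =
      fun x => (∫ y in (0:ℝ)..(b x), F x y) - ∫ y in (0:ℝ)..(a x), F x y := by
    funext x
    exact (intervalIntegral.integral_interval_sub_left (hi x _ _) (hi x _ _)).symm
  rw [h]
  have h1 : Continuous fun x => ∫ y in (0:ℝ)..(b x), F x y :=
    intervalIntegral.continuous_parametric_intervalIntegral_of_continuous hF hb
  have h2 : Continuous fun x => ∫ y in (0:ℝ)..(a x), F x y :=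
    intervalIntegral.continuous_parametric_intervalIntegral_of_continuous hF ha
  exact h1.sub h2

theorem Pos_sub (F G : ℝ → ℝ → ℝ) (hF : Continuous fun q : ℝ × ℝ => F q.1 q.2)
    (hG : Continuous fun q : ℝ × ℝ => G q.1 q.2) (a b : ℝ → ℝ)
    (ha : Continuous a) (hb : Continuous b) (p q k : ℝ) :
    ∫ x in p..q, ∫ y in (a x)..(b x), (F x y - k * G x y) =
      (∫ x in p..q, ∫ y in (a x)..(b x), F x y) - k * ∫ x in p..q, ∫ y in (a x)..(b x), G x y := by
  have hi : ∀ (E : ℝ → ℝ → ℝ), (Continuous fun q : ℝ × ℝ => E q.1 q.2) →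
      ∀ x, ∀ u v : ℝ, IntervalIntegrable (fun y => E x y) volume u v := by
    intro E hE x u v
    exact (hE.comp (by fun_prop : Continuous fun y : ℝ => (x, y))).intervalIntegrable u v
  have h1 : ∀ x, ∫ y in (a x)..(b x), (F x y - k * G x y) =
      (∫ y in (a x)..(b x), F x y) - k * ∫ y in (a x)..(b x), G x y := by
    intro x
    rw [intervalIntegral.integral_sub (hi F hF x _ _) ((hi G hG x _ _).const_mul k),
      intervalIntegral.integral_const_mul]
  simp only [h1]
  rw [intervalIntegral.integral_sub ((Pos_cont F hF a b ha hb).intervalIntegrable _ _)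
    (((Pos_cont G hG a b ha hb).intervalIntegrable _ _).const_mul k),
    intervalIntegral.integral_const_mul]

theorem Pos_C1s (c s a : ℝ) (W : ℝ → ℝ → ℝ) (hW : C1 W) :
    C1 (fun x y => rt c s W (a + x) y) := by
  have h : ContDiff ℝ 1 (fun q : ℝ × ℝ =>
      ((c * (a + q.1) - s * c * q.2, s * c * (a + q.1) + c * q.2) : ℝ × ℝ)) := by fun_prop
  exact hW.comp h

theorem Pos_C1r (s L H : ℝ) (W : ℝ → ℝ → ℝ) (hW : C1 W) : C1 (rv s L H W) := by
  have h : ContDiff ℝ 1 (fun q : ℝ × ℝ => ((L - q.1, s * L + H - q.2) : ℝ × ℝ)) := by fun_prop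
  exact hW.comp h

theorem Pos_grs (V : ℝ → ℝ → ℝ) (a x y : ℝ) :
    gr (fun x y => V (a + x) y) x y = gr V (a + x) y := by
  have h1 : px (fun x y => V (a + x) y) x y = px V (a + x) y := by
    show deriv (fun τ => V (a + τ) y) x = deriv (fun τ => V τ y) (a + x)
    exact deriv_comp_const_add (f := fun τ => V τ y) a x
  have h2 : py (fun x y => V (a + x) y) x y = py V (a + x) y := rfl
  unfold gr
  rw [h1, h2]

theorem Pos_grr (s L H : ℝ) (V : ℝ → ℝ → ℝ) (x y : ℝ) :
    gr (rv s L H V) x y = rv s L H (gr V) x y := by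
  have h1 : px (rv s L H V) x y = - px V (L - x) (s * L + H - y) := by
    show deriv (fun τ => V (L - τ) (s * L + H - y)) x = - deriv (fun τ => V τ (s * L + H - y)) (L - x)
    exact deriv_comp_const_sub (f := fun τ => V τ (s * L + H - y)) L x
  have h2 : py (rv s L H V) x y = - py V (L - x) (s * L + H - y) := by
    show deriv (fun τ => V (L - x) (s * L + H - τ)) y = - deriv (fun τ => V (L - x) τ) (s * L + H - y)
    exact deriv_comp_const_sub (f := fun τ => V (L - x) τ) (s * L + H) y
  show px (rv s L H V) x y ^ 2 + py (rv s L H V) x y ^ 2 =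
    px V (L - x) (s * L + H - y) ^ 2 + py V (L - x) (s * L + H - y) ^ 2
  rw [h1, h2]
  ring

theorem Pos_grc (h0 : SReg) (W : ℝ → ℝ → ℝ) (hW : C1 W) :
    Continuous fun q : ℝ × ℝ => gr W q.1 q.2 := by
  obtain ⟨_, h2, h3, _, _⟩ := h0 W hW
  exact (h2.pow 2).add (h3.pow 2)

theorem Pos_count (c s L H δ μ : ℝ) (K1 K2 : ℕ) (hc : 0 < c) (_hs : 0 < s) (hs2 : s ≤ 1 / 2)
    (hcs : c ^ 2 * (1 + s ^ 2) = 1) (hH : 0 < H) (hμ : Real.pi < H * μ)
    (hl : L - 3 * H ≤ L / c - s * (c * H) - 2 * δ) (hl0 : 0 < L / c - s * (c * H) - 2 * δ)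
    (hK1 : (K1 : ℝ) ≤ (L / c - s * (c * H) - 2 * δ) * μ * max 0 (c * H * μ - 1 / 4) /
      (4 * Real.pi))
    (hK2 : (K2 : ℝ) ≤ (2 * δ + s * (c * H)) * (c * H) * μ ^ 2 / (4 * Real.pi) +
      14 * H * μ / Real.pi) :
    ((K1 + K2 : ℕ) : ℝ) ≤ L * H * μ ^ 2 / (4 * Real.pi) - (L - 3 * H) * μ / (16 * Real.pi) +
      14 * H * μ / Real.pi := by
  have hπ : (3 : ℝ) < Real.pi := Real.pi_gt_three
  have hπ0 : (0 : ℝ) < Real.pi := by linarith
  have hμ0 : 0 < μ := by
    have : 0 < H * μ := lt_trans hπ0 hμ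
    exact (pos_iff_pos_of_mul_pos this).mp hH
  have hc2 : (8 : ℝ) / 9 ≤ c := by
    by_contra hcon
    push Not at hcon
    have : c ^ 2 * (1 + s ^ 2) < 1 := by
      have h1 : c ^ 2 < (8 / 9) ^ 2 := by nlinarith
      have h2 : 1 + s ^ 2 ≤ 5 / 4 := by nlinarith
      nlinarith [sq_nonneg c, sq_nonneg s]
    linarith
  have hcH : (1 : ℝ) / 4 ≤ c * H * μ := by
    have h1 : c * H * μ = c * (H * μ) := by ring
    rw [h1]
    nlinarith
  rw [max_eq_right (by linarith)] at hK1
  set l := L / c - s * (c * H) - 2 * δ with hl'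
  have hLH : l * (c * H) + (2 * δ + s * (c * H)) * (c * H) = L * H := by
    rw [hl']
    field_simp
    ring
  have e1 : l * μ * (c * H * μ - 1 / 4) / (4 * Real.pi) =
      l * (c * H) * μ ^ 2 / (4 * Real.pi) - l * μ / (16 * Real.pi) := by
    field_simp
    ring
  have e2 : L * H * μ ^ 2 / (4 * Real.pi) = l * (c * H) * μ ^ 2 / (4 * Real.pi) +
      (2 * δ + s * (c * H)) * (c * H) * μ ^ 2 / (4 * Real.pi) := by
    rw [← hLH]
    ring
  have e3 : (L - 3 * H) * μ / (16 * Real.pi) ≤ l * μ / (16 * Real.pi) := by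
    refine div_le_div_of_nonneg_right ?_ (by positivity)
    exact mul_le_mul_of_nonneg_right hl hμ0.le
  push_cast
  rw [e1] at hK1
  rw [e2]
  linarith

theorem Pos_proof (h0 : SReg) (h1 : SRotG) (h2 : SFlat) (h3 : SEnd) (h4 : SSplit) : SPos := by
  intro c s L H δ μ hc hs hs2 hcs hH hHL hδ hδH hμ
  have hπ : (3 : ℝ) < Real.pi := Real.pi_gt_three
  have hπ0 : (0 : ℝ) < Real.pi := by linarith
  have hμ0 : 0 < μ := by
    have : 0 < H * μ := lt_trans hπ0 hμ
    exact (pos_iff_pos_of_mul_pos this).mp hH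
  have hc1 : c ≤ 1 := by
    by_contra hcon
    push Not at hcon
    have : 1 < c ^ 2 := by nlinarith
    nlinarith [sq_nonneg s, sq_nonneg (c * s)]
  have hL : 0 < L := by linarith
  have hLc : L ≤ L / c := by
    rw [le_div_iff₀ hc]
    nlinarith
  have hsc : s * (c * H) ≤ H / 2 := by
    have : c * H ≤ H := by nlinarith
    nlinarith [mul_pos hc hH]
  have hsc0 : 0 < s * (c * H) := by positivity
  have hl : L - 3 * H ≤ L / c - s * (c * H) - 2 * δ := by linarith
  have hl0 : 0 < L / c - s * (c * H) - 2 * δ := by linarith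
  have hcH : 0 < c * H := by positivity
  have h4cH : 4 * (c * H) ≤ L / c - s * (c * H) - 2 * δ := by nlinarith
  obtain ⟨K1, f, hK1, hf, hf2⟩ := h2 (L / c - s * (c * H) - 2 * δ) (c * H) μ hl0 hcH h4cH hμ0
  obtain ⟨K2, A, B, hK2, hAB, hE⟩ := h3 c s H δ μ hc hs hs2 hcs hH hδ hδH hμ
  have hclc : c * (L / c) = L := by field_simp
  refine ⟨K1 + K2, Fin.append (fun j W => f j (fun x y => rt c s W (s * (c * H) + δ + x) y))
    (fun j W => A j W + B j (rv s L H W)),
    Pos_count c s L H δ μ K1 K2 hc hs hs2 hcs hH hμ hl hl0 hK1 hK2, ?_, ?_⟩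
  · intro j
    refine Fin.addCases (fun i => ?_) (fun i => ?_) j
    · rw [Fin.append_left]
      refine ⟨fun U V hU hV => ?_, fun a U hU => ?_⟩
      · exact (hf i).1 _ _ (Pos_C1s c s _ U hU) (Pos_C1s c s _ V hV)
      · exact (hf i).2 a _ (Pos_C1s c s _ U hU)
    · rw [Fin.append_right]
      refine ⟨fun U V hU hV => ?_, fun a U hU => ?_⟩
      · have e1 := (hAB i).1.1 U V hU hV
        have e2 := (hAB i).2.1 _ _ (Pos_C1r s L H U hU) (Pos_C1r s L H V hV)
        show A i (fun x y => U x y + V x y) + B i (fun x y => rv s L H U x y + rv s L H V x y) = _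
        rw [e1, e2]
        ring
      · have e1 := (hAB i).1.2 a U hU
        have e2 := (hAB i).2.2 a _ (Pos_C1r s L H U hU)
        show A i (fun x y => a * U x y) + B i (fun x y => a * rv s L H U x y) = _
        rw [e1, e2]
        ring
  · intro W hW hbd hz
    have hz1 : ∀ i, f i (fun x y => rt c s W (s * (c * H) + δ + x) y) = 0 := by
      intro i
      have := hz (Fin.castAdd K2 i)
      rwa [Fin.append_left] at this
    have hz2 : ∀ i, A i W + B i (rv s L H W) = 0 := by
      intro i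
      have := hz (Fin.natAdd K1 i)
      rwa [Fin.append_right] at this
    obtain ⟨hWc, -, -, -, -⟩ := h0 W hW
    have hgc := Pos_grc h0 W hW
    -- the core
    have hcore1 : ∀ x ∈ Icc 0 (L / c - s * (c * H) - 2 * δ),
        rt c s W (s * (c * H) + δ + x) 0 = 0 ∧ rt c s W (s * (c * H) + δ + x) (c * H) = 0 := by
      intro x hx
      constructor
      · have hX : c * (s * (c * H) + δ + x) ∈ Icc (0 : ℝ) L := by
          refine ⟨by nlinarith [hx.1], ?_⟩
          have : s * (c * H) + δ + x ≤ L / c - δ := by linarith [hx.2]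
          have h5 : c * (s * (c * H) + δ + x) ≤ c * (L / c - δ) :=
            mul_le_mul_of_nonneg_left this hc.le
          rw [mul_sub, hclc] at h5
          nlinarith
        have h6 := (hbd _ hX).1
        show W (c * (s * (c * H) + δ + x) - s * c * 0) (s * c * (s * (c * H) + δ + x) + c * 0) = 0
        have e1 : c * (s * (c * H) + δ + x) - s * c * 0 = c * (s * (c * H) + δ + x) := by ring
        have e2 : s * c * (s * (c * H) + δ + x) + c * 0 = s * (c * (s * (c * H) + δ + x)) := by
          ring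
        rw [e1, e2]
        exact h6
      · have hX : c * (δ + x) ∈ Icc (0 : ℝ) L := by
          refine ⟨by nlinarith [hx.1], ?_⟩
          have : δ + x ≤ L / c := by linarith [hx.2]
          have h5 : c * (δ + x) ≤ c * (L / c) := mul_le_mul_of_nonneg_left this hc.le
          rwa [hclc] at h5
        have h6 := (hbd _ hX).2
        show W (c * (s * (c * H) + δ + x) - s * c * (c * H))
          (s * c * (s * (c * H) + δ + x) + c * (c * H)) = 0
        have e1 : c * (s * (c * H) + δ + x) - s * c * (c * H) = c * (δ + x) := by ring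
        have e2 : s * c * (s * (c * H) + δ + x) + c * (c * H) = s * (c * (δ + x)) + H := by
          have : s * c * (s * (c * H) + δ + x) + c * (c * H) =
              s * (c * (δ + x)) + c ^ 2 * (1 + s ^ 2) * H := by ring
          rw [this, hcs, one_mul]
        rw [e1, e2]
        exact h6
    have hC1s := Pos_C1s c s (s * (c * H) + δ) W hW
    have hflat := hf2 (fun x y => rt c s W (s * (c * H) + δ + x) y) hC1s hcore1 hz1
    have hgs : ∀ x y, gr (fun x y => rt c s W (s * (c * H) + δ + x) y) x y =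
        rt c s (gr W) (s * (c * H) + δ + x) y := by
      intro x y
      rw [Pos_grs (rt c s W) (s * (c * H) + δ) x y]
      exact (h1 c s hcs W hW).2 _ _
    simp only [hgs] at hflat
    -- continuity
    have hF1c : Continuous fun q : ℝ × ℝ => gr W q.1 q.2 - μ ^ 2 * W q.1 q.2 ^ 2 :=
      hgc.sub ((hWc.pow 2).const_mul _)
    have hF2c : Continuous fun q : ℝ × ℝ => W q.1 q.2 ^ 2 := hWc.pow 2
    have haff : Continuous fun q : ℝ × ℝ =>
        ((c * (s * (c * H) + δ + q.1) - s * c * q.2,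
          s * c * (s * (c * H) + δ + q.1) + c * q.2) : ℝ × ℝ) := by fun_prop
    have hsp1 := h4 c s L H δ hc hs hcs hL.le hH.le (fun x y => gr W x y - μ ^ 2 * W x y ^ 2) hF1c
    have hsp2 := h4 c s L H δ hc hs hcs hL.le hH.le (fun x y => W x y ^ 2) hF2c
    have hcore : 0 ≤ ∫ x in (0:ℝ)..(L / c - s * (c * H) - 2 * δ), ∫ y in (0:ℝ)..(c * H),
        rt c s (fun x y => gr W x y - μ ^ 2 * W x y ^ 2) (s * (c * H) + δ + x) y := by
      have e := Pos_sub (fun x y => rt c s (gr W) (s * (c * H) + δ + x) y)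
        (fun x y => rt c s W (s * (c * H) + δ + x) y ^ 2)
        (hgc.comp haff) ((hWc.comp haff).pow 2) (fun _ => 0) (fun _ => c * H)
        continuous_const continuous_const 0 (L / c - s * (c * H) - 2 * δ) (μ ^ 2)
      have e' : (∫ x in (0:ℝ)..(L / c - s * (c * H) - 2 * δ), ∫ y in (0:ℝ)..(c * H),
        rt c s (fun x y => gr W x y - μ ^ 2 * W x y ^ 2) (s * (c * H) + δ + x) y) =
        ∫ x in (0:ℝ)..(L / c - s * (c * H) - 2 * δ), ∫ y in (0:ℝ)..(c * H),
          (rt c s (gr W) (s * (c * H) + δ + x) y -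
            μ ^ 2 * rt c s W (s * (c * H) + δ + x) y ^ 2) := rfl
      rw [e', e]
      linarith
    have hcore2 : 0 ≤ ∫ x in (0:ℝ)..(L / c - s * (c * H) - 2 * δ), ∫ y in (0:ℝ)..(c * H),
        rt c s (fun x y => W x y ^ 2) (s * (c * H) + δ + x) y := by
      refine intervalIntegral.integral_nonneg hl0.le fun x _ => ?_
      refine intervalIntegral.integral_nonneg hcH.le fun y _ => ?_
      exact sq_nonneg _
    -- the ends
    have hca : c * (s * (c * H) + δ) ≤ L := by
      have : c * (s * (c * H) + δ) ≤ 1 * (s * (c * H) + δ) :=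
        mul_le_mul_of_nonneg_right hc1 (by linarith)
      linarith
    have hend := hE W (rv s L H W) hW (Pos_C1r s L H W hW) (by
      intro x hx
      have hx1 : x ∈ Icc (0 : ℝ) L := ⟨hx.1, hx.2.trans hca⟩
      have hx2 : L - x ∈ Icc (0 : ℝ) L := ⟨by linarith [hx1.2], by linarith [hx1.1]⟩
      refine ⟨hbd x hx1, ?_, ?_⟩
      · show W (L - x) (s * L + H - s * x) = 0
        have : s * L + H - s * x = s * (L - x) + H := by ring
        rw [this]
        exact (hbd _ hx2).2
      · show W (L - x) (s * L + H - (s * x + H)) = 0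
        have : s * L + H - (s * x + H) = s * (L - x) := by ring
        rw [this]
        exact (hbd _ hx2).1) hz2
    have hrv1 : rv s L H (fun x y => gr W x y - μ ^ 2 * W x y ^ 2) =
        fun x y => gr (rv s L H W) x y - μ ^ 2 * rv s L H W x y ^ 2 := by
      funext x y
      rw [Pos_grr]
      rfl
    have hrv2 : rv s L H (fun x y => W x y ^ 2) = fun x y => rv s L H W x y ^ 2 := rfl
    rw [hrv1] at hsp1
    rw [hrv2] at hsp2
    have hEnn : 0 ≤ 4 * μ ^ 2 / (Real.cosh (2 * μ * δ) - 1) := by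
      refine div_nonneg (by positivity) ?_
      have := Real.one_le_cosh (2 * μ * δ)
      linarith
    have hP := Pos_sub (gr W) (fun x y => W x y ^ 2) hgc hF2c (fun x => s * x)
      (fun x => s * x + H) (by fun_prop) (by fun_prop) 0 L (μ ^ 2)
    have hle : ie c s H δ (fun x y => W x y ^ 2) + ie c s H δ (fun x y => rv s L H W x y ^ 2) ≤
        ∫ x in (0:ℝ)..L, ∫ y in (s * x)..(s * x + H), W x y ^ 2 := by
      rw [hsp2]
      linarith
    have hle2 := mul_le_mul_of_nonneg_left hle hEnn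
    have hfin : (∫ x in (0:ℝ)..L, ∫ y in (s * x)..(s * x + H), gr W x y) -
        μ ^ 2 * (∫ x in (0:ℝ)..L, ∫ y in (s * x)..(s * x + H), W x y ^ 2) =
        ∫ x in (0:ℝ)..L, ∫ y in (s * x)..(s * x + H), (gr W x y - μ ^ 2 * W x y ^ 2) := hP.symm
    rw [sub_mul]
    linarith

end Pool.Agent.Work.MP_33c50c_an.SK
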