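import Pool.Agent.Work.MP_33c50c_an.SK.Stmts

/-!
# MP_33c50c_an, block SK, item RNN
-/

set_option autoImplicit false

open MeasureTheory Set
open scoped ENNReal ContDiff

namespace Pool.Agent.Work.MP_33c50c_an.SK

open Pool.Agent.Work.MP_33c50c_an

/-- integration of a series of nonnegative continuous functions -/
theorem RNN_hasSum (g : ℕ → ℝ → ℝ) (S : ℝ → ℝ) (a b : ℝ) (hab : a ≤ b)
    (hg : ∀ m, Continuous (g m)) (hg0 : ∀ m x, 0 ≤ g m x) (hS : Continuous S)
    (h : ∀ x ∈ Icc a b, HasSum (fun m => g m x) (S x)) :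
    HasSum (fun m => ∫ x in a..b, g m x) (∫ x in a..b, S x) := by
  have hi : ∀ m, Integrable (g m) (volume.restrict (Ioc a b)) := fun m =>
    (intervalIntegrable_iff_integrableOn_Ioc_of_le hab).mp ((hg m).intervalIntegrable a b)
  have hle : ∀ s : Finset ℕ, ∑ m ∈ s, ∫ x in a..b, g m x ≤ ∫ x in a..b, S x := by
    intro s
    rw [← intervalIntegral.integral_finsetSum (fun m _ => (hg m).intervalIntegrable a b)]
    apply intervalIntegral.integral_mono_on hab _ (hS.intervalIntegrable a b)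
    · intro x hx
      exact sum_le_hasSum s (fun m _ => hg0 m x) (h x hx)
    · exact Continuous.intervalIntegrable (continuous_finsetSum _ (fun m _ => hg m)) _ _
  have hsum : Summable fun m => ∫ x in a..b, g m x :=
    summable_of_sum_le (fun m => intervalIntegral.integral_nonneg hab (fun x _ => hg0 m x)) hle
  have hsum' : Summable fun m => ∫ x, ‖g m x‖ ∂(volume.restrict (Ioc a b)) := by
    convert hsum using 1
    ext m
    rw [intervalIntegral.integral_of_le hab]
    congr 1; ext x; rw [Real.norm_eq_abs, abs_of_nonneg (hg0 m x)]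
  have := hasSum_integral_of_summable_integral_norm hi hsum'
  have e1 : (fun m => ∫ x in a..b, g m x) = fun m => ∫ x, g m x ∂(volume.restrict (Ioc a b)) := by
    ext m; rw [intervalIntegral.integral_of_le hab]
  have e2 : ∫ x in Ioc a b, S x = ∫ x in Ioc a b, ∑' m, g m x :=
    setIntegral_congr_fun measurableSet_Ioc fun x hx =>
      (h x (Ioc_subset_Icc_self hx)).tsum_eq.symm
  rw [e1, intervalIntegral.integral_of_le hab, e2]
  exact this

/-- differentiation under the integral sign -/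
theorem RNN_deriv (W Wx : ℝ → ℝ → ℝ) (s : ℝ → ℝ) (H : ℝ)
    (hW : Continuous fun q : ℝ × ℝ => W q.1 q.2) (hWx : Continuous fun q : ℝ × ℝ => Wx q.1 q.2)
    (hs : Continuous s) (hd : ∀ x y, HasDerivAt (fun τ => W τ y) (Wx x y) x) (x : ℝ) :
    HasDerivAt (fun x => ∫ y in (0:ℝ)..H, W x y * s y) (∫ y in (0:ℝ)..H, Wx x y * s y) x := by
  have hc : ∀ z, Continuous fun y => W z y * s y := fun z =>
    (hW.comp (by fun_prop : Continuous fun y : ℝ => (z, y))).mul hs
  have hc' : ∀ z, Continuous fun y => Wx z y * s y := fun z =>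
    (hWx.comp (by fun_prop : Continuous fun y : ℝ => (z, y))).mul hs
  have hjoint : Continuous fun q : ℝ × ℝ => Wx q.1 q.2 * s q.2 :=
    hWx.mul (hs.comp continuous_snd)
  obtain ⟨C, hC⟩ := ((isCompact_Icc (a := x - 1) (b := x + 1)).prod
    (isCompact_uIcc (a := (0:ℝ)) (b := H))).exists_bound_of_continuousOn hjoint.continuousOn
  refine (intervalIntegral.hasDerivAt_integral_of_dominated_loc_of_deriv_le
    (F := fun x y => W x y * s y) (F' := fun x y => Wx x y * s y) (bound := fun _ => C)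
    (s := Icc (x - 1) (x + 1)) (Icc_mem_nhds (by linarith) (by linarith)) ?_ ?_ ?_ ?_ ?_ ?_).2
  · exact Filter.Eventually.of_forall fun z => (hc z).aestronglyMeasurable
  · exact (hc x).intervalIntegrable _ _
  · exact (hc' x).aestronglyMeasurable
  · refine Filter.Eventually.of_forall fun y hy z hz => ?_
    exact hC (z, y) ⟨hz, uIoc_subset_uIcc hy⟩
  · exact intervalIntegrable_const
  · refine Filter.Eventually.of_forall fun y _ z _ => ?_
    exact (hd z y).mul_const (s y)

theorem RNN_cont (W : ℝ → ℝ → ℝ) (s : ℝ → ℝ) (H : ℝ)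
    (hW : Continuous fun q : ℝ × ℝ => W q.1 q.2) (hs : Continuous s) :
    Continuous fun x => ∫ y in (0:ℝ)..H, W x y * s y := by
  apply intervalIntegral.continuous_parametric_intervalIntegral_of_continuous'
  exact hW.mul (hs.comp continuous_snd)

theorem RNN_cont_sq (W : ℝ → ℝ → ℝ) (H : ℝ)
    (hW : Continuous fun q : ℝ × ℝ => W q.1 q.2) :
    Continuous fun x => ∫ y in (0:ℝ)..H, W x y ^ 2 := by
  apply intervalIntegral.continuous_parametric_intervalIntegral_of_continuous'
  exact hW.pow 2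

/-- one mode -/
theorem RNN_mode (h2 : SOneR) {L μ c : ℝ} (hL : 0 < L) (hc : 0 ≤ c) (hμ : 0 < μ)
    (a a' : ℝ → ℝ) (ha' : Continuous a') (hd : ∀ x, HasDerivAt a (a' x) x) (N : Finset ℕ)
    (h : ∀ n : ℕ, (n * Real.pi / L) ^ 2 + c ^ 2 < μ ^ 2 → n ∈ N) :
    μ ^ 2 * ∫ x in (0:ℝ)..L, a x ^ 2 ≤
      (∫ x in (0:ℝ)..L, a' x ^ 2) + c ^ 2 * (∫ x in (0:ℝ)..L, a x ^ 2) +
      μ ^ 2 * (2 / L * ∑ n ∈ N, (∫ x in (0:ℝ)..L, a x * Real.cos (n * Real.pi * x / L)) ^ 2) := by
  have h1 : 0 ≤ ∫ x in (0:ℝ)..L, a x ^ 2 :=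
    intervalIntegral.integral_nonneg hL.le fun x _ => sq_nonneg _
  have h2' : 0 ≤ ∫ x in (0:ℝ)..L, a' x ^ 2 :=
    intervalIntegral.integral_nonneg hL.le fun x _ => sq_nonneg _
  have h3 : 0 ≤ 2 / L * ∑ n ∈ N, (∫ x in (0:ℝ)..L, a x * Real.cos (n * Real.pi * x / L)) ^ 2 :=
    mul_nonneg (by positivity) (Finset.sum_nonneg fun _ _ => sq_nonneg _)
  have h3' := mul_nonneg (sq_nonneg μ) h3
  by_cases hμc : μ ≤ c
  · have : μ ^ 2 ≤ c ^ 2 := pow_le_pow_left₀ hμ.le hμc 2
    nlinarith [mul_le_mul_of_nonneg_right this h1]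
  · push Not at hμc
    have h4 : 0 ≤ μ ^ 2 - c ^ 2 := by
      have : c ^ 2 ≤ μ ^ 2 := pow_le_pow_left₀ hc hμc.le 2
      linarith
    have h5 : Real.sqrt (μ ^ 2 - c ^ 2) ^ 2 = μ ^ 2 - c ^ 2 := Real.sq_sqrt h4
    have h6 := h2 L hL (Real.sqrt (μ ^ 2 - c ^ 2)) (Real.sqrt_nonneg _) a a' ha' hd N (by
      intro n hn
      apply h n
      have h7 : 0 ≤ n * Real.pi / L := by positivity
      have h8 : (n * Real.pi / L) ^ 2 < Real.sqrt (μ ^ 2 - c ^ 2) ^ 2 :=
        pow_lt_pow_left₀ hn h7 (by norm_num)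
      rw [h5] at h8
      linarith)
    rw [h5] at h6
    have h9 := mul_nonneg (sq_nonneg c) h3
    linarith [h6, h9]

/-- the remainder -/
theorem RNN_rem (S : Finset (ℕ × ℕ)) (f : ℕ → ℕ → ℝ) (hf : ∀ n m, 0 ≤ f n m) (K : ℕ) :
    ∑ m ∈ Finset.range K, ∑ n ∈ (S.filter (fun s => s.2 = m)).image Prod.fst, f n m ≤
      ∑ s ∈ S, f s.1 s.2 := by
  have h1 : ∀ m : ℕ, ∑ n ∈ (S.filter (fun s => s.2 = m)).image Prod.fst, f n m =
      ∑ s ∈ S, if s.2 = m then f s.1 s.2 else 0 := by
    intro m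
    rw [Finset.sum_image, Finset.sum_filter]
    · refine Finset.sum_congr rfl fun s _ => ?_
      split_ifs with h
      · rw [h]
      · rfl
    · intro s hs t ht hst
      rw [Finset.mem_coe, Finset.mem_filter] at hs ht
      exact Prod.ext hst (hs.2.trans ht.2.symm)
  simp only [h1]
  rw [Finset.sum_comm]
  refine Finset.sum_le_sum fun s _ => ?_
  rw [Finset.sum_ite_eq]
  split_ifs
  · exact le_rfl
  · exact hf _ _

theorem RNN_proof (h0 : SReg) (h1 : PK.SCos) (h2 : SOneR) (h3 : SOneC) : SRNN := by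
  intro a b μ ha hb hμ U hU S hS
  have hpi := Real.pi_pos
  obtain ⟨hUc, hUx, hUy, hdx, hdy⟩ := h0 U hU
  set cs : ℕ → ℝ → ℝ := fun m y => Real.cos (m * Real.pi * y / b) with hcs
  have hcsc : ∀ m, Continuous (cs m) := by
    intro m
    simp only [hcs]
    fun_prop
  set A : ℕ → ℝ → ℝ := fun m x => ∫ y in (0:ℝ)..b, U x y * cs m y with hA
  set A' : ℕ → ℝ → ℝ := fun m x => ∫ y in (0:ℝ)..b, px U x y * cs m y with hA'
  have hAc : ∀ m, Continuous (A m) := fun m => RNN_cont U (cs m) b hUc (hcsc m)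
  have hA'c : ∀ m, Continuous (A' m) := fun m => RNN_cont (px U) (cs m) b hUx (hcsc m)
  have hAd : ∀ m x, HasDerivAt (A m) (A' m x) x := fun m x =>
    RNN_deriv U (px U) (cs m) b hUc hUx (hcsc m) hdx x
  have hUfib : ∀ x, Continuous fun y => U x y := fun x =>
    hUc.comp (by fun_prop : Continuous fun y : ℝ => (x, y))
  have hUxfib : ∀ x, Continuous fun y => px U x y := fun x =>
    hUx.comp (by fun_prop : Continuous fun y : ℝ => (x, y))
  have hUyfib : ∀ x, Continuous fun y => py U x y := fun x =>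
    hUy.comp (by fun_prop : Continuous fun y : ℝ => (x, y))
  set e : ℕ → ℝ := fun m => (if m = 0 then 1 else 2) / b with he
  have he0 : ∀ m, 0 ≤ e m := by
    intro m
    simp only [he]
    split_ifs <;> positivity
  have he2 : ∀ m, e m ≤ 2 / b := by
    intro m
    simp only [he]
    split_ifs
    · exact div_le_div_of_nonneg_right (by norm_num) hb.le
    · exact le_rfl
  -- fibre identities
  have hSu : ∀ x ∈ Icc 0 a, HasSum (fun m => e m * A m x ^ 2) (∫ y in (0:ℝ)..b, U x y ^ 2) :=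
    fun x _ => h1 b hb (fun y => U x y) (hUfib x)
  have hB : ∀ x, ∀ K : ℕ, ∑ m ∈ Finset.range K, e m * A' m x ^ 2 ≤
      ∫ y in (0:ℝ)..b, px U x y ^ 2 := fun x K =>
    sum_le_hasSum _ (fun m _ => mul_nonneg (he0 m) (sq_nonneg _))
      (h1 b hb (fun y => px U x y) (hUxfib x))
  have hY : ∀ x, ∀ K : ℕ, ∑ m ∈ Finset.range K, (m * Real.pi / b) ^ 2 *
      (e m * A m x ^ 2) ≤ ∫ y in (0:ℝ)..b, py U x y ^ 2 := fun x K =>
    h3 b hb (fun y => U x y) (fun y => py U x y) (hUyfib x) (hdy x) K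
  -- the modes
  set cf' : ℕ → ℕ → ℝ := fun n m => (∫ x in (0:ℝ)..a, ∫ y in (0:ℝ)..b,
        U x y * (Real.cos (n * Real.pi * x / a) * Real.cos (m * Real.pi * y / b))) ^ 2 with hcf
  have hcfe : ∀ n m : ℕ, (∫ x in (0:ℝ)..a, A m x * Real.cos (n * Real.pi * x / a)) ^ 2 =
      cf' n m := by
    intro n m
    simp only [hcf]
    congr 1
    refine intervalIntegral.integral_congr fun x _ => ?_
    refine ((intervalIntegral.integral_mul_const (Real.cos (n * Real.pi * x / a))
      (fun y => U x y * cs m y)).symm).trans ?_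
    refine intervalIntegral.integral_congr fun y _ => ?_
    simp only [hcs]
    ring
  have hM : ∀ m : ℕ, μ ^ 2 * ∫ x in (0:ℝ)..a, A m x ^ 2 ≤
      (∫ x in (0:ℝ)..a, A' m x ^ 2) + (m * Real.pi / b) ^ 2 * (∫ x in (0:ℝ)..a, A m x ^ 2) +
      μ ^ 2 * (2 / a * ∑ n ∈ (S.filter (fun s => s.2 = m)).image Prod.fst, cf' n m) := by
    intro m
    have hm := RNN_mode h2 ha (by positivity : (0:ℝ) ≤ m * Real.pi / b) hμ (A m) (A' m)
      (hA'c m) (hAd m) ((S.filter (fun s => s.2 = m)).image Prod.fst) (by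
      intro n hn
      have e1 := hS n m (by
        have e2 : ((n * Real.pi / a) ^ 2 + (m * Real.pi / b) ^ 2) * (a * b / Real.pi) ^ 2 <
            μ ^ 2 * (a * b / Real.pi) ^ 2 := mul_lt_mul_of_pos_right hn (by positivity)
        have e3 : ((n * Real.pi / a) ^ 2 + (m * Real.pi / b) ^ 2) * (a * b / Real.pi) ^ 2 =
            (n * b) ^ 2 + (m * a) ^ 2 := by
          field_simp
        have e4 : μ ^ 2 * (a * b / Real.pi) ^ 2 = (μ * a * b / Real.pi) ^ 2 := by ring
        rw [e3, e4] at e2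
        exact e2)
      rw [Finset.mem_image]
      exact ⟨(n, m), Finset.mem_filter.mpr ⟨e1, rfl⟩, rfl⟩)
    refine hm.trans (le_of_eq ?_)
    congr 3
    exact Finset.sum_congr rfl fun n _ => hcfe n m
  have hcf0 : ∀ n m, 0 ≤ cf' n m := fun n m => sq_nonneg _
  -- finite sums
  have hK : ∀ K : ℕ, μ ^ 2 * ∑ m ∈ Finset.range K, ∫ x in (0:ℝ)..a, e m * A m x ^ 2 ≤
      (∫ x in (0:ℝ)..a, ∫ y in (0:ℝ)..b, gr U x y) +
      μ ^ 2 * (4 / (a * b) * ∑ s ∈ S, cf' s.1 s.2) := by
    intro K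
    have i1 : ∀ m, IntervalIntegrable (fun x => e m * A' m x ^ 2) volume 0 a := fun m =>
      (continuous_const.mul ((hA'c m).pow 2)).intervalIntegrable _ _
    have i2 : ∀ m : ℕ, IntervalIntegrable (fun x => (m * Real.pi / b) ^ 2 *
        (e m * A m x ^ 2)) volume 0 a := fun m =>
      (continuous_const.mul (continuous_const.mul ((hAc m).pow 2))).intervalIntegrable _ _
    have c1 := RNN_cont_sq (px U) b hUx
    have c2 := RNN_cont_sq (py U) b hUy
    have e1 : ∫ x in (0:ℝ)..a, ∫ y in (0:ℝ)..b, gr U x y =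
        (∫ x in (0:ℝ)..a, ∫ y in (0:ℝ)..b, px U x y ^ 2) +
          ∫ x in (0:ℝ)..a, ∫ y in (0:ℝ)..b, py U x y ^ 2 := by
      rw [← intervalIntegral.integral_add (c1.intervalIntegrable _ _)
        (c2.intervalIntegrable _ _)]
      refine intervalIntegral.integral_congr fun x _ => ?_
      exact intervalIntegral.integral_add (((hUxfib x).pow 2).intervalIntegrable _ _)
        (((hUyfib x).pow 2).intervalIntegrable _ _)
    have e2 : ∑ m ∈ Finset.range K, ∫ x in (0:ℝ)..a, e m * A' m x ^ 2 ≤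
        ∫ x in (0:ℝ)..a, ∫ y in (0:ℝ)..b, px U x y ^ 2 := by
      rw [← intervalIntegral.integral_finsetSum fun m _ => i1 m]
      refine intervalIntegral.integral_mono_on ha.le ?_ (c1.intervalIntegrable _ _)
        fun x _ => hB x K
      exact (continuous_finsetSum _ fun m _ =>
        continuous_const.mul ((hA'c m).pow 2)).intervalIntegrable _ _
    have e3 : ∑ m ∈ Finset.range K, ∫ x in (0:ℝ)..a, (m * Real.pi / b) ^ 2 *
        (e m * A m x ^ 2) ≤ ∫ x in (0:ℝ)..a, ∫ y in (0:ℝ)..b, py U x y ^ 2 := by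
      rw [← intervalIntegral.integral_finsetSum fun m _ => i2 m]
      refine intervalIntegral.integral_mono_on ha.le ?_ (c2.intervalIntegrable _ _)
        fun x hx => hY x K
      exact (continuous_finsetSum _ fun m _ =>
        continuous_const.mul (continuous_const.mul ((hAc m).pow 2))).intervalIntegrable _ _
    have e4 : ∑ m ∈ Finset.range K, e m * (μ ^ 2 * (2 / a *
        ∑ n ∈ (S.filter (fun s => s.2 = m)).image Prod.fst, cf' n m)) ≤
        μ ^ 2 * (4 / (a * b) * ∑ s ∈ S, cf' s.1 s.2) := by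
      have e5 : ∀ m ∈ Finset.range K, e m * (μ ^ 2 * (2 / a *
          ∑ n ∈ (S.filter (fun s => s.2 = m)).image Prod.fst, cf' n m)) ≤
          (μ ^ 2 * (4 / (a * b))) *
          ∑ n ∈ (S.filter (fun s => s.2 = m)).image Prod.fst, cf' n m := by
        intro m _
        have e6 : 0 ≤ μ ^ 2 * (2 / a *
          ∑ n ∈ (S.filter (fun s => s.2 = m)).image Prod.fst, cf' n m) :=
          mul_nonneg (sq_nonneg _) (mul_nonneg (by positivity)
            (Finset.sum_nonneg fun n _ => hcf0 n m))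
        refine (mul_le_mul_of_nonneg_right (he2 m) e6).trans (le_of_eq ?_)
        field_simp
        ring
      refine (Finset.sum_le_sum e5).trans ?_
      rw [← Finset.mul_sum, ← mul_assoc]
      exact mul_le_mul_of_nonneg_left (RNN_rem S cf' hcf0 K) (by positivity)
    rw [e1]
    refine le_trans ?_ (add_le_add (add_le_add e2 e3) e4)
    rw [Finset.mul_sum, ← Finset.sum_add_distrib, ← Finset.sum_add_distrib]
    refine Finset.sum_le_sum fun m _ => ?_
    simp only [intervalIntegral.integral_const_mul]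
    have e7 := mul_le_mul_of_nonneg_left (hM m) (he0 m)
    nlinarith [e7]
  -- the limit
  have hlim := (RNN_hasSum (fun m x => e m * A m x ^ 2) (fun x => ∫ y in (0:ℝ)..b, U x y ^ 2)
    0 a ha.le (fun m => continuous_const.mul ((hAc m).pow 2))
    (fun m x => mul_nonneg (he0 m) (sq_nonneg _))
    (RNN_cont_sq U b hUc) hSu).tendsto_sum_nat
  exact le_of_tendsto (hlim.const_mul (μ ^ 2)) (Filter.Eventually.of_forall hK)

end Pool.Agent.Work.MP_33c50c_an.SK
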