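import Pool.Agent.Work.MP_33c50c_an.SK.Stmts

/-!
# MP_33c50c_an, block SK: regularity of functions of two variables
-/

set_option autoImplicit false

open MeasureTheory Set
open scoped ENNReal ContDiff

namespace Pool.Agent.Work.MP_33c50c_an.SK

open Pool.Agent.Work.MP_33c50c_an

theorem Reg_x {W : ℝ → ℝ → ℝ} (h : C1 W) (x y : ℝ) :
    HasDerivAt (fun τ => W τ y) (fderiv ℝ (fun q : ℝ × ℝ => W q.1 q.2) (x, y) (1, 0)) x := by
  have h1 : HasFDerivAt (fun q : ℝ × ℝ => W q.1 q.2)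
      (fderiv ℝ (fun q : ℝ × ℝ => W q.1 q.2) (x, y)) (x, y) :=
    (h.differentiable one_ne_zero (x, y)).hasFDerivAt
  have h2 : HasDerivAt (fun τ : ℝ => (τ, y)) ((1 : ℝ), (0 : ℝ)) x :=
    (hasDerivAt_id x).prodMk (hasDerivAt_const x y)
  exact h1.comp_hasDerivAt x h2

theorem Reg_y {W : ℝ → ℝ → ℝ} (h : C1 W) (x y : ℝ) :
    HasDerivAt (fun τ => W x τ) (fderiv ℝ (fun q : ℝ × ℝ => W q.1 q.2) (x, y) (0, 1)) y := by
  have h1 : HasFDerivAt (fun q : ℝ × ℝ => W q.1 q.2)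
      (fderiv ℝ (fun q : ℝ × ℝ => W q.1 q.2) (x, y)) (x, y) :=
    (h.differentiable one_ne_zero (x, y)).hasFDerivAt
  have h2 : HasDerivAt (fun τ : ℝ => (x, τ)) ((0 : ℝ), (1 : ℝ)) y :=
    (hasDerivAt_const y x).prodMk (hasDerivAt_id y)
  exact h1.comp_hasDerivAt y h2

theorem Reg_proof : SReg := by
  intro W h
  have hx : ∀ x y, px W x y = fderiv ℝ (fun q : ℝ × ℝ => W q.1 q.2) (x, y) (1, 0) :=
    fun x y => (Reg_x h x y).deriv
  have hy : ∀ x y, py W x y = fderiv ℝ (fun q : ℝ × ℝ => W q.1 q.2) (x, y) (0, 1) :=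
    fun x y => (Reg_y h x y).deriv
  have hc : Continuous (fderiv ℝ (fun q : ℝ × ℝ => W q.1 q.2)) :=
    h.continuous_fderiv one_ne_zero
  refine ⟨h.continuous, ?_, ?_, fun x y => ?_, fun x y => ?_⟩
  · simp only [hx]
    exact hc.clm_apply continuous_const
  · simp only [hy]
    exact hc.clm_apply continuous_const
  · rw [hx]; exact Reg_x h x y
  · rw [hy]; exact Reg_y h x y

end Pool.Agent.Work.MP_33c50c_an.SK
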