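import Pool.Agent.Work.MP_33c50c_an.SK.Stmts

set_option autoImplicit false

open MeasureTheory Set
open scoped ENNReal ContDiff

namespace Pool.Agent.Work.MP_33c50c_an.SK

open Pool.Agent.Work.MP_33c50c_an

lemma RotE_swap (F : ℝ → ℝ → ℝ)
    (hF : Continuous fun q : ℝ × ℝ => F q.1 q.2) (a b c d : ℝ) :
    ∫ x in a..b, ∫ y in c..d, F x y = ∫ y in c..d, ∫ x in a..b, F x y := by
  apply intervalIntegral_intervalIntegral_swap
  have h : IntegrableOn (fun q : ℝ × ℝ => F q.1 q.2) (uIcc a b ×ˢ uIcc c d) :=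
    hF.continuousOn.integrableOn_compact (isCompact_uIcc.prod isCompact_uIcc)
  exact h.mono_set (prod_mono uIoc_subset_uIcc uIoc_subset_uIcc)

/-- continuity of an integral with variable end points -/
lemma RotE_cont (F : ℝ → ℝ → ℝ) (hF : Continuous fun q : ℝ × ℝ => F q.1 q.2) (a b : ℝ → ℝ)
    (ha : Continuous a) (hb : Continuous b) : Continuous fun x => ∫ y in (a x)..(b x), F x y := by
  have h1 : ∀ x, ∫ y in (a x)..(b x), F x y =
      (∫ y in (0:ℝ)..(b x), F x y) - ∫ y in (0:ℝ)..(a x), F x y := by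
    intro x
    have hc : Continuous (F x) := hF.comp (continuous_const.prodMk continuous_id)
    rw [intervalIntegral.integral_interval_sub_left (hc.intervalIntegrable _ _)
      (hc.intervalIntegrable _ _)]
  simp_rw [h1]
  have hF' : Continuous (Function.uncurry F) := hF
  exact (intervalIntegral.continuous_parametric_intervalIntegral_of_continuous hF' hb).sub
    (intervalIntegral.continuous_parametric_intervalIntegral_of_continuous hF' ha)

/-- integral over a part of an interval -/
lemma RotE_ind (g : ℝ → ℝ) (a b : ℝ) (hb : 0 ≤ b) (hba : b ≤ a) :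
    ∫ u in (0:ℝ)..b, g u = ∫ u in (0:ℝ)..a, (Iic b).indicator g u := by
  rw [intervalIntegral.integral_of_le hb, intervalIntegral.integral_of_le (hb.trans hba),
    setIntegral_indicator measurableSet_Iic]
  congr 2
  ext u
  simp only [mem_Ioc, mem_inter_iff, mem_Iic]
  constructor
  · rintro ⟨h1, h2⟩
    exact ⟨⟨h1, h2.trans hba⟩, h2⟩
  · rintro ⟨⟨h1, _⟩, h2⟩
    exact ⟨h1, h2⟩

/-- Fubini for triangles -/
lemma RotE_tri (m H : ℝ) (hm : 0 < m) (hH : 0 < H) (g : ℝ → ℝ → ℝ)
    (hg : Continuous fun q : ℝ × ℝ => g q.1 q.2) :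
    ∫ t in (0:ℝ)..H, ∫ u in (0:ℝ)..(m * (H - t)), g u t =
      ∫ u in (0:ℝ)..(m * H), ∫ t in (0:ℝ)..(H - u / m), g u t := by
  classical
  have h1 : ∫ t in (0:ℝ)..H, ∫ u in (0:ℝ)..(m * (H - t)), g u t =
      ∫ t in (0:ℝ)..H, ∫ u in (0:ℝ)..(m * H), if u + m * t ≤ m * H then g u t else 0 := by
    refine intervalIntegral.integral_congr fun t ht => ?_
    rw [uIcc_of_le hH.le] at ht
    rw [RotE_ind (fun u => g u t) (m * H) (m * (H - t)) (mul_nonneg hm.le (by linarith [ht.2]))
      (mul_le_mul_of_nonneg_left (by linarith [ht.1]) hm.le)]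
    refine intervalIntegral.integral_congr fun u _ => ?_
    simp only [indicator, mem_Iic]
    refine if_congr ?_ rfl rfl
    constructor <;> intro h <;> nlinarith
  have h2 : ∫ u in (0:ℝ)..(m * H), ∫ t in (0:ℝ)..(H - u / m), g u t =
      ∫ u in (0:ℝ)..(m * H), ∫ t in (0:ℝ)..H, if u + m * t ≤ m * H then g u t else 0 := by
    refine intervalIntegral.integral_congr fun u hu => ?_
    rw [uIcc_of_le (by positivity)] at hu
    have hu1 : 0 ≤ u / m := div_nonneg hu.1 hm.le
    have hu2 : u / m ≤ H := by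
      rw [div_le_iff₀ hm]
      linarith [hu.2, mul_comm m H]
    rw [RotE_ind (fun t => g u t) H (H - u / m) (by linarith) (by linarith)]
    refine intervalIntegral.integral_congr fun t _ => ?_
    simp only [indicator, mem_Iic]
    refine if_congr ?_ rfl rfl
    have h3 : m * (u / m) = u := by field_simp
    constructor
    · intro h
      have := mul_le_mul_of_nonneg_left h hm.le
      nlinarith
    · intro h
      by_contra hcon
      push Not at hcon
      have := mul_lt_mul_of_pos_left hcon hm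
      nlinarith
  rw [h1, h2]
  apply intervalIntegral_intervalIntegral_swap
  have hT : MeasurableSet {q : ℝ × ℝ | q.2 + m * q.1 ≤ m * H} :=
    measurableSet_le (by fun_prop) (by fun_prop)
  have hg' : Continuous fun q : ℝ × ℝ => g q.2 q.1 := hg.comp continuous_swap
  have hi : IntegrableOn (fun q : ℝ × ℝ => g q.2 q.1) (uIcc 0 H ×ˢ uIcc 0 (m * H)) :=
    hg'.continuousOn.integrableOn_compact (isCompact_uIcc.prod isCompact_uIcc)
  have hi2 : IntegrableOn ({q : ℝ × ℝ | q.2 + m * q.1 ≤ m * H}.indicator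
      (fun q : ℝ × ℝ => g q.2 q.1)) (uIcc 0 H ×ˢ uIcc 0 (m * H)) :=
    Integrable.indicator hi hT
  refine (hi2.mono_set (prod_mono uIoc_subset_uIcc uIoc_subset_uIcc)).congr_fun ?_
    (measurableSet_uIoc.prod measurableSet_uIoc)
  intro q _
  simp only [indicator, mem_ofPred_eq, Function.uncurry]

theorem RotE_proof : SRotE := by
  intro c s H δ x₃ y₃ hc hs hcs hH hδ hx₃ hy₃ F hF
  set m : ℝ := s * c ^ 2 with hm
  have hm0 : 0 < m := by positivity
  set x₂ : ℝ := c * δ with hx₂
  have hx32 : x₃ = x₂ + m * H := by rw [hx₃, hx₂, hm]; ring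
  -- step 1: substitution in the inner integral
  have h1 : ∀ η : ℝ, ∫ ξ in (s * η)..(s * (c * H) + δ), rt c s F ξ η =
      c⁻¹ * ∫ x in (0:ℝ)..(x₃ - s * c * η), F x (s * x + η / c) := by
    intro η
    have h := intervalIntegral.integral_comp_mul_sub (a := s * η) (b := s * (c * H) + δ)
      (fun x => F x (s * x + η / c)) hc.ne' (s * c * η)
    have e1 : c * (s * η) - s * c * η = 0 := by ring
    have e2 : c * (s * (c * H) + δ) - s * c * η = x₃ - s * c * η := by rw [hx₃]
    rw [e1, e2, smul_eq_mul] at h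
    rw [← h]
    refine intervalIntegral.integral_congr fun ξ _ => ?_
    simp only [rt]
    congr 1
    have h2 : c * η = (c ^ 2 * (1 + s ^ 2)) * (η / c) - s ^ 2 * c * η := by
      field_simp
      ring
    rw [hcs, one_mul] at h2
    rw [h2]
    ring
  -- step 2: substitution in the outer integral
  have h2 : ie c s H δ F = ∫ t in (0:ℝ)..H, ∫ x in (0:ℝ)..(x₂ + m * (H - t)), F x (s * x + t) := by
    have h := intervalIntegral.integral_comp_mul_left (a := 0) (b := H)
      (fun η => ∫ x in (0:ℝ)..(x₃ - s * c * η), F x (s * x + η / c)) hc.ne'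
    rw [mul_zero, smul_eq_mul] at h
    unfold ie
    simp_rw [h1]
    rw [intervalIntegral.integral_const_mul, ← h]
    refine intervalIntegral.integral_congr fun t _ => ?_
    have e1 : x₃ - s * c * (c * t) = x₂ + m * (H - t) := by rw [hx32, hm]; ring
    have e2 : c * t / c = t := by field_simp
    rw [e1, e2]
  -- the integrand
  have hG : Continuous fun q : ℝ × ℝ => F q.1 (s * q.1 + q.2) :=
    hF.comp (continuous_fst.prodMk
      (by fun_prop : Continuous fun q : ℝ × ℝ => s * q.1 + q.2))
  have hG' : Continuous fun q : ℝ × ℝ => F q.2 (s * q.2 + q.1) := hG.comp continuous_swap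
  have hGs : ∀ t : ℝ, Continuous fun x => F x (s * x + t) := fun t =>
    hG.comp (continuous_id.prodMk continuous_const)
  -- step 3: splitting
  have h3 : ∀ t : ℝ, ∫ x in (0:ℝ)..(x₂ + m * (H - t)), F x (s * x + t) =
      (∫ x in (0:ℝ)..x₂, F x (s * x + t)) +
        ∫ u in (0:ℝ)..(m * (H - t)), F (x₂ + u) (s * (x₂ + u) + t) := by
    intro t
    rw [← intervalIntegral.integral_add_adjacent_intervals
      ((hGs t).intervalIntegrable 0 x₂) ((hGs t).intervalIntegrable x₂ (x₂ + m * (H - t)))]
    congr 1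
    have h := intervalIntegral.integral_comp_add_left (a := 0) (b := m * (H - t))
      (fun x => F x (s * x + t)) x₂
    rw [add_zero] at h
    exact h.symm
  have hg : Continuous fun q : ℝ × ℝ => F (x₂ + q.1) (s * (x₂ + q.1) + q.2) :=
    hF.comp ((by fun_prop : Continuous fun q : ℝ × ℝ => x₂ + q.1).prodMk
      (by fun_prop : Continuous fun q : ℝ × ℝ => s * (x₂ + q.1) + q.2))
  have hA : Continuous fun t : ℝ => ∫ x in (0:ℝ)..x₂, F x (s * x + t) :=
    RotE_cont (fun t x => F x (s * x + t)) hG' (fun _ => 0) (fun _ => x₂) continuous_const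
      continuous_const
  have hB : Continuous fun t : ℝ => ∫ u in (0:ℝ)..(m * (H - t)), F (x₂ + u) (s * (x₂ + u) + t) :=
    RotE_cont (fun t u => F (x₂ + u) (s * (x₂ + u) + t)) (hg.comp continuous_swap) (fun _ => 0)
      (fun t => m * (H - t)) continuous_const (by fun_prop)
  have h4 : ie c s H δ F = (∫ t in (0:ℝ)..H, ∫ x in (0:ℝ)..x₂, F x (s * x + t)) +
      ∫ t in (0:ℝ)..H, ∫ u in (0:ℝ)..(m * (H - t)), F (x₂ + u) (s * (x₂ + u) + t) := by
    rw [h2]
    simp_rw [h3]
    exact intervalIntegral.integral_add (hA.intervalIntegrable _ _) (hB.intervalIntegrable _ _)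
  have h5 : ∫ t in (0:ℝ)..H, ∫ x in (0:ℝ)..x₂, F x (s * x + t) =
      ∫ x in (0:ℝ)..x₂, ((∫ y in (s * x)..y₃, F x y) + ∫ y in y₃..(s * x + H), F x y) := by
    rw [RotE_swap (fun t x => F x (s * x + t)) hG']
    refine intervalIntegral.integral_congr fun x _ => ?_
    have hFx : Continuous (F x) := hF.comp (continuous_const.prodMk continuous_id)
    rw [intervalIntegral.integral_add_adjacent_intervals (hFx.intervalIntegrable _ _)
      (hFx.intervalIntegrable _ _), intervalIntegral.integral_comp_add_left, add_zero]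
  have h6 : ∫ t in (0:ℝ)..H, ∫ u in (0:ℝ)..(m * (H - t)), F (x₂ + u) (s * (x₂ + u) + t) =
      ∫ x in x₂..x₃, ((∫ y in (s * x)..y₃, F x y) + ∫ y in y₃..(y₃ + (x₃ - x) / s), F x y) := by
    rw [RotE_tri m H hm0 hH (fun u t => F (x₂ + u) (s * (x₂ + u) + t)) hg]
    have h := intervalIntegral.integral_comp_add_left (a := 0) (b := m * H)
      (fun x => (∫ y in (s * x)..y₃, F x y) + ∫ y in y₃..(y₃ + (x₃ - x) / s), F x y) x₂
    rw [add_zero, ← hx32] at h
    rw [← h]
    refine intervalIntegral.integral_congr fun u _ => ?_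
    have hFx : Continuous (F (x₂ + u)) := hF.comp (continuous_const.prodMk continuous_id)
    rw [intervalIntegral.integral_add_adjacent_intervals (hFx.intervalIntegrable _ _)
      (hFx.intervalIntegrable _ _), intervalIntegral.integral_comp_add_left, add_zero]
    congr 1
    rw [hy₃, hx32, hm]
    have hc2 : c ^ 2 * s ^ 2 = 1 - c ^ 2 := by linarith
    field_simp
    have e2 : H * s ^ 2 * c ^ 2 = H * (1 - c ^ 2) := by rw [← hc2]; ring
    have e3 : u * s ^ 2 * c ^ 2 = u * (1 - c ^ 2) := by rw [← hc2]; ring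
    nlinarith
  have hyc : Continuous fun x : ℝ => ∫ y in (s * x)..y₃, F x y :=
    RotE_cont F hF (fun x => s * x) (fun _ => y₃) (by fun_prop) continuous_const
  have hyc2 : Continuous fun x : ℝ => ∫ y in y₃..(s * x + H), F x y :=
    RotE_cont F hF (fun _ => y₃) (fun x => s * x + H) continuous_const (by fun_prop)
  have hyc3 : Continuous fun x : ℝ => ∫ y in y₃..(y₃ + (x₃ - x) / s), F x y :=
    RotE_cont F hF (fun _ => y₃) (fun x => y₃ + (x₃ - x) / s) continuous_const (by fun_prop)
  rw [h4, h5, h6, intervalIntegral.integral_add (hyc.intervalIntegrable _ _)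
    (hyc2.intervalIntegrable _ _), intervalIntegral.integral_add (hyc.intervalIntegrable _ _)
    (hyc3.intervalIntegrable _ _), ← intervalIntegral.integral_add_adjacent_intervals
    (hyc.intervalIntegrable 0 x₂) (hyc.intervalIntegrable x₂ x₃)]
  ring

end Pool.Agent.Work.MP_33c50c_an.SK
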