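import Pool.Agent.Work.MP_33c50c_an.SK.Stmts

set_option autoImplicit false

/-! Item `RotG`: rotations are isometries. -/

open MeasureTheory Set
open scoped ENNReal ContDiff

namespace Pool.Agent.Work.MP_33c50c_an.SK

theorem RotG_line (W : ℝ → ℝ → ℝ) (hW : C1 W) (u v : ℝ → ℝ) (u' v' τ : ℝ)
    (hu : HasDerivAt u u' τ) (hv : HasDerivAt v v' τ) :
    deriv (fun τ => W (u τ) (v τ)) τ =
      u' * fderiv ℝ (fun q : ℝ × ℝ => W q.1 q.2) (u τ, v τ) (1, 0) +
      v' * fderiv ℝ (fun q : ℝ × ℝ => W q.1 q.2) (u τ, v τ) (0, 1) := by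
  have hd : Differentiable ℝ (fun q : ℝ × ℝ => W q.1 q.2) := ContDiff.differentiable hW (by simp)
  have h1 := (hd (u τ, v τ)).hasFDerivAt.comp_hasDerivAt τ (hu.prodMk hv)
  have h2 : HasDerivAt (fun τ => W (u τ) (v τ))
      (fderiv ℝ (fun q : ℝ × ℝ => W q.1 q.2) (u τ, v τ) (u', v')) τ := h1
  rw [h2.deriv]
  have h3 : ((u', v') : ℝ × ℝ) = u' • ((1, 0) : ℝ × ℝ) + v' • ((0, 1) : ℝ × ℝ) := by simp
  rw [h3, map_add, map_smul, map_smul, smul_eq_mul, smul_eq_mul]

theorem RotG_proof : SRotG := by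
  intro c s hcs W hW
  refine ⟨?_, fun ξ η => ?_⟩
  · have h1 : ContDiff ℝ 1 (fun q : ℝ × ℝ => (c * q.1 - s * c * q.2, s * c * q.1 + c * q.2)) := by
      fun_prop
    exact ContDiff.comp hW h1
  · have hx : px (rt c s W) ξ η = _ := RotG_line W hW (fun τ => c * τ - s * c * η)
      (fun τ => s * c * τ + c * η) c (s * c) ξ
      (by simpa using ((hasDerivAt_id ξ).const_mul c).sub_const (s * c * η))
      (by simpa using ((hasDerivAt_id ξ).const_mul (s * c)).add_const (c * η))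
    have hy : py (rt c s W) ξ η = _ := RotG_line W hW (fun τ => c * ξ - s * c * τ)
      (fun τ => s * c * ξ + c * τ) (-(s * c)) c η
      (by simpa using ((hasDerivAt_id η).const_mul (s * c)).const_sub (c * ξ))
      (by simpa using ((hasDerivAt_id η).const_mul c).const_add (s * c * ξ))
    have hx2 : px W (c * ξ - s * c * η) (s * c * ξ + c * η) = _ :=
      RotG_line W hW (fun τ => τ) (fun _ => s * c * ξ + c * η) 1 0 (c * ξ - s * c * η)
        (hasDerivAt_id _) (hasDerivAt_const _ _)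
    have hy2 : py W (c * ξ - s * c * η) (s * c * ξ + c * η) = _ :=
      RotG_line W hW (fun _ => c * ξ - s * c * η) (fun τ => τ) 0 1 (s * c * ξ + c * η)
        (hasDerivAt_const _ _) (hasDerivAt_id _)
    simp only [gr]
    rw [hx, hy, hx2, hy2]
    set A := fderiv ℝ (fun q : ℝ × ℝ => W q.1 q.2) (c * ξ - s * c * η, s * c * ξ + c * η) (1, 0)
    set B := fderiv ℝ (fun q : ℝ × ℝ => W q.1 q.2) (c * ξ - s * c * η, s * c * ξ + c * η) (0, 1)
    have : (c * A + s * c * B) ^ 2 + (-(s * c) * A + c * B) ^ 2 =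
        (c ^ 2 * (1 + s ^ 2)) * (A ^ 2 + B ^ 2) := by ring
    rw [this, hcs]
    ring

end Pool.Agent.Work.MP_33c50c_an.SK
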