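import Pool.Agent.Work.MP_33c50c_an.SK.Stmts

/-!
# The integral over the parallelogram
-/

set_option autoImplicit false

open MeasureTheory Set
open scoped ENNReal ContDiff

namespace Pool.Agent.Work.MP_33c50c_an.SK

open Pool.Agent.Work.MP_33c50c_an

/-- Fubini on a rectangle -/
theorem RotP_swap (G : ℝ → ℝ → ℝ) (hG : Continuous (Function.uncurry G)) (a b c d : ℝ) :
    ∫ x in a..b, ∫ y in c..d, G x y = ∫ y in c..d, ∫ x in a..b, G x y := by
  refine MeasureTheory.intervalIntegral_intervalIntegral_swap ?_
  have h : IntegrableOn (Function.uncurry G) (uIcc a b ×ˢ uIcc c d) :=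
    hG.continuousOn.integrableOn_compact (isCompact_uIcc.prod isCompact_uIcc)
  exact h.mono_set (prod_mono uIoc_subset_uIcc uIoc_subset_uIcc)

/-- (RotP) the integral over the parallelogram. -/
theorem RotP_proof : SRotP := by
  intro c s L H hc hcs hL hH F hF
  have hc0 : c ≠ 0 := hc.ne'
  set G : ℝ → ℝ → ℝ := fun x e => F x (s * x + e / c) with hGd
  have hG : Continuous (Function.uncurry G) := by
    have : Function.uncurry G = fun q : ℝ × ℝ => F q.1 (s * q.1 + q.2 / c) := by
      funext q
      rfl
    rw [this]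
    exact hF.comp (by fun_prop : Continuous fun q : ℝ × ℝ => (q.1, s * q.1 + q.2 / c))
  have h1 : ∀ x : ℝ, ∫ y in (s * x)..(s * x + H), F x y =
      c⁻¹ * ∫ e in (0:ℝ)..(c * H), G x e := by
    intro x
    have h := intervalIntegral.integral_comp_add_div (a := 0) (b := c * H) (F x) hc0 (s * x)
    have e1 : s * x + 0 / c = s * x := by ring
    have e2 : s * x + c * H / c = s * x + H := by
      field_simp
    rw [e1, e2, smul_eq_mul] at h
    change _ = c⁻¹ * ∫ e in (0:ℝ)..(c * H), F x (s * x + e / c)
    rw [h, ← mul_assoc, inv_mul_cancel₀ hc0, one_mul]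
  have h3 : ∀ e : ℝ, ∫ ξ in (s * e)..(L / c + s * e), rt c s F ξ e =
      c⁻¹ * ∫ x in (0:ℝ)..L, G x e := by
    intro e
    have h := intervalIntegral.integral_comp_mul_sub (a := s * e) (b := L / c + s * e)
      (fun x => G x e) hc0 (s * c * e)
    have e1 : c * (s * e) - s * c * e = 0 := by ring
    have e2 : c * (L / c + s * e) - s * c * e = L := by
      field_simp
      ring
    rw [e1, e2, smul_eq_mul] at h
    rw [← h]
    refine intervalIntegral.integral_congr fun ξ _ => ?_
    change F (c * ξ - s * c * e) (s * c * ξ + c * e) =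
      F (c * ξ - s * c * e) (s * (c * ξ - s * c * e) + e / c)
    congr 1
    field_simp
    linear_combination e * hcs
  simp_rw [h1, h3]
  rw [intervalIntegral.integral_const_mul, intervalIntegral.integral_const_mul,
    RotP_swap G hG]

end Pool.Agent.Work.MP_33c50c_an.SK
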