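import Pool.Agent.Work.MP_33c50c_an.SK.Stmts

/-! MP_33c50c_an, block SK: item Smooth. -/

set_option autoImplicit false

open MeasureTheory Set
open scoped ENNReal ContDiff

namespace Pool.Agent.Work.MP_33c50c_an.SK

open Pool.Agent.Work.MP_33c50c_an

lemma Smooth_cont {h : AddCircle (2 * Real.pi) → ℝ} {h' : ℝ → ℝ}
    (hh : ∀ x : ℝ, HasDerivAt (fun τ : ℝ => h (τ : AddCircle (2 * Real.pi))) (h' x) x) :
    Continuous h := by
  have h1 : Continuous (fun τ : ℝ => h (τ : AddCircle (2 * Real.pi))) :=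
    continuous_iff_continuousAt.2 fun x => (hh x).continuousAt
  exact (QuotientAddGroup.isOpenQuotientMap_mk.isQuotientMap).continuous_iff.2 h1

/-- the sum of the integrals -/
lemma Smooth_sum {h : AddCircle (2 * Real.pi) → ℝ} (hc : Continuous h) {m : ℕ} {w : ℝ}
    (hw : m * w = 2 * Real.pi) :
    ∑ i ∈ Finset.range m, (∫ x in ((i : ℝ) * w)..((i : ℝ) * w + w),
      h (x : AddCircle (2 * Real.pi))) =
      ∫ x in (0:ℝ)..(2 * Real.pi), h (x : AddCircle (2 * Real.pi)) := by
  have hcc : Continuous fun x : ℝ => h (x : AddCircle (2 * Real.pi)) :=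
    hc.comp (AddCircle.continuous_mk' _)
  have h3 := intervalIntegral.sum_integral_adjacent_intervals (μ := volume)
    (f := fun x : ℝ => h (x : AddCircle (2 * Real.pi))) (a := fun i : ℕ => (i : ℝ) * w)
    (n := m) (fun i _ => hcc.intervalIntegrable _ _)
  rw [hw, Nat.cast_zero, zero_mul] at h3
  rw [← h3]
  refine Finset.sum_congr rfl fun i _ => ?_
  have e : (i : ℝ) * w + w = ((i + 1 : ℕ) : ℝ) * w := by
    push_cast
    ring
  rw [e]

theorem Smooth_proof (h1 : SBound) (h2 : SSmoothP) (h3 : SMid) (h4 : PK.SVol) : SSmooth := by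
  intro f h f' h' κ η hκ hη hη' hκη hf hh hf' hh' hfb hbd k hk
  have hpi := Real.pi_pos
  have hpi3 := Real.pi_gt_three
  have hpi4 := Real.pi_lt_d2
  have hfc := Smooth_cont hf
  have hhc := Smooth_cont hh
  obtain ⟨hopen, hvol⟩ := h4 f h hfc hhc (fun θ => (hbd θ).1)
  have hvol0 := hvol 0
  rw [zero_add] at hvol0
  obtain ⟨A, hA⟩ : ∃ A : ℝ, A = ∫ x in (0:ℝ)..(2 * Real.pi), h (x : AddCircle (2 * Real.pi)) :=
    ⟨_, rfl⟩
  rw [← hA] at hvol0
  have hA0 : 0 ≤ A := by
    rw [hA]
    exact intervalIntegral.integral_nonneg (by positivity) fun x _ => (hbd _).1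
  -- the number of cells
  obtain ⟨m, hm⟩ : ∃ m : ℕ, m = ⌊2 * Real.pi / (1000 * η)⌋₊ := ⟨_, rfl⟩
  have hx1 : 2 ≤ 2 * Real.pi / (1000 * η) := by
    rw [le_div_iff₀ (by positivity)]
    linarith
  have hmle : (m : ℝ) ≤ 2 * Real.pi / (1000 * η) := by
    rw [hm]
    exact Nat.floor_le (by positivity)
  have hmge : 2 * Real.pi / (1000 * η) ≤ 2 * m := by
    have := Nat.lt_floor_add_one (2 * Real.pi / (1000 * η))
    rw [← hm] at this
    linarith
  have hm1' : (1 : ℝ) ≤ m := by linarith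
  have hm1 : 1 ≤ m := by exact_mod_cast hm1'
  have hm0 : (0 : ℝ) < m := by linarith
  obtain ⟨w, hw⟩ : ∃ w : ℝ, w = 2 * Real.pi / m := ⟨_, rfl⟩
  have hw0 : 0 < w := by rw [hw]; positivity
  have hmw : (m : ℝ) * w = 2 * Real.pi := by rw [hw]; field_simp
  have hw1 : 1000 * η ≤ w := by
    rw [hw, le_div_iff₀ hm0]
    rw [le_div_iff₀ (by positivity)] at hmle
    nlinarith
  have hw2 : w ≤ 2000 * η := by
    rw [hw, div_le_iff₀ hm0]
    rw [div_le_iff₀ (by positivity)] at hmge
    nlinarith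
  have hwsq : w ^ 2 ≤ 4000000 * η ^ 2 := by nlinarith
  have hκw : κ * w ^ 2 ≤ 4000000 * (κ * η ^ 2) := by nlinarith
  have hκη2 : 10000000 * (κ * η ^ 2) ≤ η := by
    have e1 : κ * η * η ≤ 1 / 10 ^ 7 * η := mul_le_mul_of_nonneg_right hκη hη.le
    norm_num at e1
    nlinarith
  obtain ⟨P, hP1, hPb⟩ := h2 f h f' h' κ w m hκ hm1 hmw hf hh hf' hh' hfb
    (fun θ => (hbd θ).1) (fun x => by
      have := (hbd (x : AddCircle (2 * Real.pi))).2
      linarith)
  -- the main bound
  have hmid : ∀ i : ℕ, 2 * (w * h (((i + 1 / 2) * w : ℝ) : AddCircle (2 * Real.pi))) ≤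
      2 * (∫ x in ((i : ℝ) * w)..((i : ℝ) * w + w), h (x : AddCircle (2 * Real.pi))) +
        κ * w ^ 3 / 12 := by
    intro i
    have := h3 (fun τ : ℝ => h (τ : AddCircle (2 * Real.pi))) h' κ w (i * w) hκ hw0 hh hh'
    have e : (i : ℝ) * w + w / 2 = (i + 1 / 2) * w := by ring
    rw [e] at this
    exact this
  have key : ∀ lam : ℝ, 0 ≤ lam → eigenvalue (PK.graphDomain f h) k ≤ ENNReal.ofReal lam →
      ∀ B : ℝ, (∀ i : ℕ, w * max 0 ((2 * h (((i + 1 / 2) * w : ℝ) : AddCircle (2 * Real.pi)) +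
          κ * w ^ 2) * Real.sqrt lam - 1 / 32) ≤
        (2 * (∫ x in ((i : ℝ) * w)..((i : ℝ) * w + w), h (x : AddCircle (2 * Real.pi))) + B) *
          Real.sqrt lam) → 8 * Real.pi * k ≤ lam * (2 * A + m * B) := by
    intro lam hlam hE B hB
    have b1 := h1 _ hopen P k hk lam hlam hE
    have b2 := hPb lam hlam
    have hr0 := Real.sqrt_nonneg lam
    have b3 : ∑ i ∈ Finset.range m, w * Real.sqrt lam *
        max 0 ((2 * h (((i + 1 / 2) * w : ℝ) : AddCircle (2 * Real.pi)) + κ * w ^ 2) *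
          Real.sqrt lam - 1 / 32) / (8 * Real.pi) ≤ lam * (2 * A + m * B) / (8 * Real.pi) := by
      rw [← Finset.sum_div]
      apply div_le_div_of_nonneg_right _ (by positivity)
      calc ∑ i ∈ Finset.range m, w * Real.sqrt lam *
            max 0 ((2 * h (((i + 1 / 2) * w : ℝ) : AddCircle (2 * Real.pi)) + κ * w ^ 2) *
              Real.sqrt lam - 1 / 32)
          ≤ ∑ i ∈ Finset.range m, lam * (2 * (∫ x in ((i : ℝ) * w)..((i : ℝ) * w + w),
              h (x : AddCircle (2 * Real.pi))) + B) := by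
            refine Finset.sum_le_sum fun i _ => ?_
            have c1 := mul_le_mul_of_nonneg_left (hB i) hr0
            have c2 : Real.sqrt lam * Real.sqrt lam = lam := Real.mul_self_sqrt hlam
            calc w * Real.sqrt lam * max 0 ((2 * h (((i + 1 / 2) * w : ℝ) :
                    AddCircle (2 * Real.pi)) + κ * w ^ 2) * Real.sqrt lam - 1 / 32)
                = Real.sqrt lam * (w * max 0 ((2 * h (((i + 1 / 2) * w : ℝ) :
                    AddCircle (2 * Real.pi)) + κ * w ^ 2) * Real.sqrt lam - 1 / 32)) := by ring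
              _ ≤ _ := c1
              _ = (Real.sqrt lam * Real.sqrt lam) * (2 * (∫ x in ((i : ℝ) * w)..((i : ℝ) * w + w),
                    h (x : AddCircle (2 * Real.pi))) + B) := by ring
              _ = _ := by rw [c2]
        _ = lam * (2 * A + m * B) := by
            rw [← Finset.mul_sum, Finset.sum_add_distrib, ← Finset.mul_sum,
              Smooth_sum hhc hmw, ← hA, Finset.sum_const, Finset.card_range, nsmul_eq_mul]
    have b4 := b1.trans (b2.trans b3)
    rw [le_div_iff₀ (by positivity)] at b4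
    linarith
  have hJ0 : ∀ i : ℕ, 0 ≤ ∫ x in ((i : ℝ) * w)..((i : ℝ) * w + w),
      h (x : AddCircle (2 * Real.pi)) := fun i =>
    intervalIntegral.integral_nonneg (by linarith) fun x _ => (hbd _).1
  constructor
  · intro hE
    have hEtop : eigenvalue (PK.graphDomain f h) k ≠ ⊤ :=
      ne_top_of_le_ne_top ENNReal.ofReal_ne_top hE
    obtain ⟨lam, hlam⟩ : ∃ lam : ℝ, lam = (eigenvalue (PK.graphDomain f h) k).toReal := ⟨_, rfl⟩
    have hlam0 : 0 ≤ lam := by rw [hlam]; exact ENNReal.toReal_nonneg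
    have hElam : eigenvalue (PK.graphDomain f h) k = ENNReal.ofReal lam := by
      rw [hlam, ENNReal.ofReal_toReal hEtop]
    have hlamle : lam ≤ (1 / (14 * 10 ^ 7 * κ * η ^ 2)) ^ 2 := by
      rw [hElam, ENNReal.ofReal_le_ofReal_iff (by positivity)] at hE
      rw [div_pow, one_pow]
      exact hE
    have hsq : Real.sqrt lam ≤ 1 / (14 * 10 ^ 7 * κ * η ^ 2) := by
      rw [← Real.sqrt_sq (show 0 ≤ 1 / (14 * 10 ^ 7 * κ * η ^ 2) by positivity)]
      exact Real.sqrt_le_sqrt hlamle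
    have hr0 := Real.sqrt_nonneg lam
    have c2 : 13 / 12 * (κ * w ^ 2) * Real.sqrt lam ≤ 1 / 32 := by
      rw [le_div_iff₀ (by positivity)] at hsq
      have d1 : 13 / 12 * (κ * w ^ 2) * Real.sqrt lam ≤
          13 / 12 * (4000000 * (κ * η ^ 2)) * Real.sqrt lam :=
        mul_le_mul_of_nonneg_right (by linarith) hr0
      nlinarith
    have hB := key lam hlam0 hElam.le 0 (by
      intro i
      have c1 := hmid i
      have c3 := hJ0 i
      rw [add_zero, mul_max_of_nonneg _ _ hw0.le, mul_zero]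
      apply max_le (by positivity)
      have c4 := mul_le_mul_of_nonneg_right c1 hr0
      have c5 : w * (13 / 12 * (κ * w ^ 2) * Real.sqrt lam) ≤ w * (1 / 32) :=
        mul_le_mul_of_nonneg_left c2 hw0.le
      nlinarith)
    rw [mul_zero, add_zero] at hB
    have hB' : 4 * Real.pi * k ≤ lam * A := by linarith
    rw [hElam, hvol0]
    apply ENNReal.div_le_of_le_mul
    rw [← ENNReal.ofReal_mul hlam0]
    exact ENNReal.ofReal_le_ofReal hB'
  · by_cases hEtop : eigenvalue (PK.graphDomain f h) k = ⊤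
    · rw [hEtop]
      exact le_top
    obtain ⟨lam, hlam⟩ : ∃ lam : ℝ, lam = (eigenvalue (PK.graphDomain f h) k).toReal := ⟨_, rfl⟩
    have hlam0 : 0 ≤ lam := by rw [hlam]; exact ENNReal.toReal_nonneg
    have hElam : eigenvalue (PK.graphDomain f h) k = ENNReal.ofReal lam := by
      rw [hlam, ENNReal.ofReal_toReal hEtop]
    have hr0 := Real.sqrt_nonneg lam
    have hB := key lam hlam0 hElam.le (13 / 12 * (κ * w ^ 3)) (by
      intro i
      have c1 := hmid i
      have c3 := hJ0 i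
      rw [mul_max_of_nonneg _ _ hw0.le, mul_zero]
      apply max_le (by positivity)
      have c4 := mul_le_mul_of_nonneg_right c1 hr0
      nlinarith)
    have e1 : (m : ℝ) * (13 / 12 * (κ * w ^ 3)) = 13 / 12 * (2 * Real.pi) * (κ * w ^ 2) := by
      rw [← hmw]
      ring
    rw [e1] at hB
    have hC : 4 * Real.pi * k ≤ lam * (A + 2 * 10 ^ 7 * κ * η ^ 2) := by
      have e2 : 13 / 12 * (2 * Real.pi) * (κ * w ^ 2) ≤ 2 * (2 * 10 ^ 7 * κ * η ^ 2) := by
        have e3 : 0 ≤ κ * η ^ 2 := by positivity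
        have e4 : 13 / 12 * (2 * Real.pi) * (κ * w ^ 2) ≤
            13 / 12 * (2 * Real.pi) * (4000000 * (κ * η ^ 2)) :=
          mul_le_mul_of_nonneg_left hκw (by positivity)
        have e5 : Real.pi * (κ * η ^ 2) ≤ 3.15 * (κ * η ^ 2) :=
          mul_le_mul_of_nonneg_right hpi4.le e3
        linarith
      have e6 := mul_le_mul_of_nonneg_left e2 hlam0
      linarith
    rw [hElam, hvol0, ← ENNReal.ofReal_add hA0 (by positivity)]
    apply ENNReal.div_le_of_le_mul
    rw [← ENNReal.ofReal_mul hlam0]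
    exact ENNReal.ofReal_le_ofReal hC

end Pool.Agent.Work.MP_33c50c_an.SK
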