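import Pool.Agent.Work.MP_33c50c_an.SK.Stmts

/-!
# MP_33c50c_an, block SK, item SmoothP
-/

set_option autoImplicit false

open MeasureTheory Set
open scoped ENNReal ContDiff

namespace Pool.Agent.Work.MP_33c50c_an.SK

open Pool.Agent.Work.MP_33c50c_an

theorem SmoothP_low (h h' : ℝ → ℝ) (κ x0 : ℝ) (hd : ∀ x : ℝ, HasDerivAt h (h' x) x)
    (hL : ∀ x y : ℝ, |h' x - h' y| ≤ κ * |x - y|) (x : ℝ) :
    h x0 + h' x0 * (x - x0) - κ * (x - x0) ^ 2 / 2 ≤ h x := by
  have hD : ∀ y : ℝ, HasDerivAt (fun y => h y - h x0 - h' x0 * (y - x0) + κ * (y - x0) ^ 2 / 2)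
      (h' y - h' x0 + κ * (y - x0)) y := by
    intro y
    have h1 : HasDerivAt (fun y : ℝ => y - x0) 1 y := (hasDerivAt_id y).sub_const x0
    have h2 := h1.pow 2
    have h3 := (((hd y).sub_const (h x0)).sub (h1.const_mul (h' x0))).add
      ((h2.const_mul κ).div_const 2)
    refine h3.congr_deriv ?_
    simp
    ring
  have hc : Continuous (fun y => h y - h x0 - h' x0 * (y - x0) + κ * (y - x0) ^ 2 / 2) :=
    continuous_iff_continuousAt.2 fun y => (hD y).continuousAt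
  have h0 : (fun y => h y - h x0 - h' x0 * (y - x0) + κ * (y - x0) ^ 2 / 2) x0 = 0 := by simp
  have key : 0 ≤ (fun y => h y - h x0 - h' x0 * (y - x0) + κ * (y - x0) ^ 2 / 2) x := by
    rw [← h0]
    rcases le_total x0 x with hx | hx
    · refine monotoneOn_of_deriv_nonneg (convex_Ici x0) hc.continuousOn
        (fun y _ => (hD y).differentiableAt.differentiableWithinAt) ?_ Set.self_mem_Ici hx hx
      intro y hy
      rw [interior_Ici] at hy
      have hy' : 0 < y - x0 := sub_pos.2 hy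
      rw [(hD y).deriv]
      have h1 := (abs_le.1 (hL y x0)).1
      rw [abs_of_pos hy'] at h1
      linarith
    · refine antitoneOn_of_deriv_nonpos (convex_Iic x0) hc.continuousOn
        (fun y _ => (hD y).differentiableAt.differentiableWithinAt) ?_ hx Set.self_mem_Iic hx
      intro y hy
      rw [interior_Iic] at hy
      have hy' : y - x0 < 0 := sub_neg.2 hy
      rw [(hD y).deriv]
      have h1 := (abs_le.1 (hL y x0)).2
      rw [abs_of_neg hy'] at h1
      linarith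
  simp only at key
  linarith

theorem SmoothP_high (h h' : ℝ → ℝ) (κ x0 : ℝ) (hd : ∀ x : ℝ, HasDerivAt h (h' x) x)
    (hL : ∀ x y : ℝ, |h' x - h' y| ≤ κ * |x - y|) (x : ℝ) :
    h x ≤ h x0 + h' x0 * (x - x0) + κ * (x - x0) ^ 2 / 2 := by
  have h1 := SmoothP_low (fun x => -h x) (fun x => -h' x) κ x0 (fun x => (hd x).neg) (by
    intro x y
    have : -h' x - -h' y = -(h' x - h' y) := by ring
    rw [this, abs_neg]
    exact hL x y) x
  linarith

/-- both estimates with `w / 2` -/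
theorem SmoothP_two (h h' : ℝ → ℝ) (κ w x0 : ℝ) (hκ : 0 < κ) (hd : ∀ x : ℝ, HasDerivAt h (h' x) x)
    (hL : ∀ x y : ℝ, |h' x - h' y| ≤ κ * |x - y|) (τ : ℝ) (hτ : |τ| ≤ w / 2) :
    h x0 + h' x0 * τ - κ * w ^ 2 / 8 ≤ h (x0 + τ) ∧
      h (x0 + τ) ≤ h x0 + h' x0 * τ + κ * w ^ 2 / 8 := by
  have h1 := SmoothP_low h h' κ x0 hd hL (x0 + τ)
  have h2 := SmoothP_high h h' κ x0 hd hL (x0 + τ)
  rw [add_sub_cancel_left] at h1 h2
  have h3 : τ ^ 2 ≤ (w / 2) ^ 2 := by
    rw [← sq_abs τ]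
    exact pow_le_pow_left₀ (abs_nonneg τ) hτ 2
  have h4 : κ * τ ^ 2 / 2 ≤ κ * w ^ 2 / 8 := by
    have := mul_le_mul_of_nonneg_left h3 hκ.le
    linarith
  constructor <;> linarith

lemma SmoothP_mem (f h : AddCircle (2 * Real.pi) → ℝ) (q : Fin 2) (a L c0 c1 x y : ℝ) :
    PK.place a L (decide (q = 1)) (decide (q = 1)) (if q = 1 then c1 else c0) x y ∈
      PK.graphDomain f h ↔
      (q = 0 ∧ f ((a + x : ℝ) : AddCircle (2 * Real.pi)) < y - c0 ∧
        y - c0 < f ((a + x : ℝ) : AddCircle (2 * Real.pi)) +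
          h ((a + x : ℝ) : AddCircle (2 * Real.pi))) ∨
      (q = 1 ∧ f ((a + L - x : ℝ) : AddCircle (2 * Real.pi)) < c1 - y ∧
        c1 - y < f ((a + L - x : ℝ) : AddCircle (2 * Real.pi)) +
          h ((a + L - x : ℝ) : AddCircle (2 * Real.pi))) := by
  fin_cases q
  · simp [PK.place, PK.graphDomain]
  · simp [PK.place, PK.graphDomain]

/-- the analytic facts about a piece. -/
theorem SmoothP_piece (F F' G G' : ℝ → ℝ) (κ w x0 : ℝ) (hκ : 0 < κ) (hw : 0 < w)
    (hF : ∀ x : ℝ, HasDerivAt F (F' x) x) (hG : ∀ x : ℝ, HasDerivAt G (G' x) x)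
    (hFL : ∀ x y : ℝ, |F' x - F' y| ≤ κ * |x - y|) (hGL : ∀ x y : ℝ, |G' x - G' y| ≤ κ * |x - y|)
    (hG0 : ∀ x, 0 ≤ G x) (τ : ℝ) (hτ : |τ| ≤ w / 2) :
    0 ≤ F (x0 + τ) - (F x0 + F' x0 * τ - κ * w ^ 2 / 8) ∧
    F (x0 + τ) + G (x0 + τ) - (F x0 + F' x0 * τ - κ * w ^ 2 / 8) ≤
      G x0 + G' x0 * τ + 3 * (κ * w ^ 2 / 8) ∧
    G x0 + G' x0 * τ + 3 * (κ * w ^ 2 / 8) ≤ 2 * G x0 + κ * w ^ 2 := by
  obtain ⟨h1, h2⟩ := SmoothP_two F F' κ w x0 hκ hF hFL τ hτ
  obtain ⟨h3, h4⟩ := SmoothP_two G G' κ w x0 hκ hG hGL τ hτ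
  have hw2 : |w / 2| ≤ w / 2 := by rw [abs_of_pos (by linarith)]
  have hw2' : |(-(w / 2))| ≤ w / 2 := by rw [abs_neg]; exact hw2
  obtain ⟨_, h5⟩ := SmoothP_two G G' κ w x0 hκ hG hGL (w / 2) hw2
  obtain ⟨_, h6⟩ := SmoothP_two G G' κ w x0 hκ hG hGL (-(w / 2)) hw2'
  have h7 := hG0 (x0 + w / 2)
  have h8 := hG0 (x0 + -(w / 2))
  have h9 : |G' x0| * (w / 2) ≤ G x0 + κ * w ^ 2 / 8 := by
    rcases abs_cases (G' x0) with ⟨h, _⟩ | ⟨h, _⟩ <;> rw [h] <;> linarith
  have h10 : G' x0 * τ ≤ |G' x0| * (w / 2) := by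
    calc G' x0 * τ ≤ |G' x0 * τ| := le_abs_self _
      _ = |G' x0| * |τ| := abs_mul _ _
      _ ≤ |G' x0| * (w / 2) := mul_le_mul_of_nonneg_left hτ (abs_nonneg _)
  have h11 : 0 < κ * w ^ 2 := by positivity
  refine ⟨by linarith, by linarith, by linarith⟩

theorem SmoothP_proof : SSmoothP := by
  intro f h f' h' κ w m hκ hm hmw hf hh hfL hhL hf2 hpos hthin
  have hm0 : (0 : ℝ) < m := by exact_mod_cast hm
  have hpi := Real.pi_pos
  have hw : 0 < w := by
    by_contra hcon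
    have := mul_nonpos_of_nonneg_of_nonpos hm0.le (not_lt.1 hcon)
    linarith
  have hκw : 0 < κ * w ^ 2 := by positivity
  set X : ℕ → ℝ := fun i => ((i : ℝ) + 1 / 2) * w with hX
  set F : ℝ → ℝ := fun τ => f (τ : AddCircle (2 * Real.pi)) with hFdef
  set G : ℝ → ℝ := fun τ => h (τ : AddCircle (2 * Real.pi)) with hGdef
  have hG0 : ∀ x, 0 ≤ G x := fun x => hpos _
  have hpc := fun (i : ℕ) (τ : ℝ) (hτ : |τ| ≤ w / 2) =>
    SmoothP_piece F f' G h' κ w (X i) hκ hw hf hh hfL hhL hG0 τ hτ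
  let R : ℕ → Fin m := fun i => if hi : i < m then ⟨i, hi⟩ else ⟨0, hm⟩
  have hR : ∀ i, i < m → ((R i : ℕ) = i) := by
    intro i hi
    simp only [R, dif_pos hi]
  have hfa : ∀ (i : ℕ) (x : ℝ), (i : ℝ) * w + x = X i + (x - w / 2) := by
    intro i x
    simp only [hX]
    ring
  have hfb : ∀ (i : ℕ) (x : ℝ), (i : ℝ) * w + w - x = X i + (w / 2 - x) := by
    intro i x
    simp only [hX]
    ring
  have habs : ∀ x ∈ Ioo 0 w, |x - w / 2| ≤ w / 2 ∧ |w / 2 - x| ≤ w / 2 := by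
    intro x hx
    constructor <;> rw [abs_le] <;> constructor <;> linarith [hx.1, hx.2]
  -- the function `y - σ x` on the pieces
  have key : ∀ (q : Fin 2) (i : ℕ) (x y : ℝ), x ∈ Ioo 0 w →
      PK.place ((i : ℝ) * w) w (decide (q = 1)) (decide (q = 1))
        (if q = 1 then f' (X i) * w + (2 * G (X i) + κ * w ^ 2) +
          (F (X i) - f' (X i) * (w / 2) - κ * w ^ 2 / 8) else
          -(F (X i) - f' (X i) * (w / 2) - κ * w ^ 2 / 8)) x y ∈ PK.graphDomain f h →
      (q = 0 ∧ 0 < y - f' (X i) * x ∧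
        y - f' (X i) * x < G (X i) + h' (X i) * (x - w / 2) + 3 * (κ * w ^ 2 / 8) ∧
        y - f' (X i) * x < 2 * G (X i) + κ * w ^ 2) ∨
      (q = 1 ∧ y - f' (X i) * x < 2 * G (X i) + κ * w ^ 2 ∧
        G (X i) + h' (X i) * (x - w / 2) + 5 * (κ * w ^ 2 / 8) < y - f' (X i) * x ∧
        0 < y - f' (X i) * x) := by
    intro q i x y hx hmem
    rw [SmoothP_mem] at hmem
    obtain ⟨ha1, ha2⟩ := habs x hx
    rcases hmem with ⟨hq, h1, h2⟩ | ⟨hq, h1, h2⟩
    · left
      obtain ⟨p1, p2, p3⟩ := hpc i (x - w / 2) ha1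
      have h1' : F (X i + (x - w / 2)) < y - -(F (X i) - f' (X i) * (w / 2) - κ * w ^ 2 / 8) := by
        rw [← hfa i x]
        exact h1
      have h2' : y - -(F (X i) - f' (X i) * (w / 2) - κ * w ^ 2 / 8) <
          F (X i + (x - w / 2)) + G (X i + (x - w / 2)) := by
        rw [← hfa i x]
        exact h2
      refine ⟨hq, by linarith, by linarith, by linarith⟩
    · right
      obtain ⟨p1, p2, p3⟩ := hpc i (w / 2 - x) ha2
      have h1' : F (X i + (w / 2 - x)) < f' (X i) * w + (2 * G (X i) + κ * w ^ 2) +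
          (F (X i) - f' (X i) * (w / 2) - κ * w ^ 2 / 8) - y := by
        rw [← hfb i x]
        exact h1
      have h2' : f' (X i) * w + (2 * G (X i) + κ * w ^ 2) +
          (F (X i) - f' (X i) * (w / 2) - κ * w ^ 2 / 8) - y <
          F (X i + (w / 2 - x)) + G (X i + (w / 2 - x)) := by
        rw [← hfb i x]
        exact h2
      refine ⟨hq, by linarith, by linarith, by linarith⟩
  let P : SkewPacking (PK.graphDomain f h) :=
    { p := 2
      nR := m
      L := fun _ => w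
      H := fun ρ => 2 * G (X ρ) + κ * w ^ 2
      σ := fun ρ => f' (X ρ)
      n := fun _ => m
      t := fun _ i => (i : ℝ) * w
      r := fun _ i => R i
      sx := fun q _ => decide (q = 1)
      sy := fun q _ => decide (q = 1)
      c := fun q i => if q = 1 then f' (X i) * w + (2 * G (X i) + κ * w ^ 2) +
          (F (X i) - f' (X i) * (w / 2) - κ * w ^ 2 / 8) else
          -(F (X i) - f' (X i) * (w / 2) - κ * w ^ 2 / 8)
      p_pos := by norm_num
      L_pos := fun _ => hw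
      H_nonneg := fun ρ => by
        have := hG0 (X ρ)
        positivity
      thin := fun ρ => Or.inr ⟨hf2 _, hthin (X ρ)⟩
      around := fun _ => by
        simp only [Nat.cast_zero, zero_mul, zero_add]
        exact hmw
      width := fun _ i _ => by
        push_cast
        ring
      inside := fun q i hi x hx y hmem => by
        have hRi := hR i hi
        rw [hRi]
        rcases key q i x y hx hmem with ⟨_, h1, _, h3⟩ | ⟨_, h1, _, h3⟩ <;>
          constructor <;> linarith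
      disj := fun q i q' i' hi hi' hne hrr x hx y => by
        have hii : i = i' := by
          rw [← hR i hi, ← hR i' hi', hrr]
        subst hii
        have hqq : q ≠ q' := fun h' => hne (by rw [h'])
        rintro ⟨h1, h2⟩
        rcases key q i x y hx h1 with ⟨hq, _, h3, _⟩ | ⟨hq, _, h3, _⟩ <;>
          rcases key q' i x y hx h2 with ⟨hq', _, h4, _⟩ | ⟨hq', _, h4, _⟩
        · exact hqq (hq.trans hq'.symm)
        · linarith
        · linarith
        · exact hqq (hq.trans hq'.symm) }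
  refine ⟨P, rfl, fun lam hlam => ?_⟩
  have hbd : P.bound lam = (∑ ρ : Fin m, w * Real.sqrt lam *
      max 0 ((2 * G (X ρ) + κ * w ^ 2) * Real.sqrt lam - gap (f' (X ρ)))) /
        (4 * Real.pi * ((2 : ℕ) : ℝ)) := rfl
  have e8 : 4 * Real.pi * ((2 : ℕ) : ℝ) = 8 * Real.pi := by
    push_cast
    ring
  rw [hbd, e8, Finset.sum_div, Finset.sum_range]
  refine Finset.sum_le_sum (fun ρ _ => ?_)
  have hgap : 1 / 32 ≤ gap (f' (X ρ)) := by
    unfold gap
    split_ifs <;> norm_num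
  have h1 : max 0 ((2 * G (X ρ) + κ * w ^ 2) * Real.sqrt lam - gap (f' (X ρ))) ≤
      max 0 ((2 * G (X ρ) + κ * w ^ 2) * Real.sqrt lam - 1 / 32) :=
    max_le_max le_rfl (by linarith)
  have h2 : 0 ≤ w * Real.sqrt lam := by positivity
  have h3 := mul_le_mul_of_nonneg_left h1 h2
  exact div_le_div_of_nonneg_right h3 (by positivity)

end Pool.Agent.Work.MP_33c50c_an.SK
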