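import Pool.Agent.Work.MP_33c50c_an.SK.Stmts

/-!
# MP_33c50c_an, block SK: the parallelogram is the union of two ends and a rectangle
-/

set_option autoImplicit false

open MeasureTheory Set
open scoped ENNReal ContDiff

namespace Pool.Agent.Work.MP_33c50c_an.SK

open Pool.Agent.Work.MP_33c50c_an

/-- integrals with variable limits are continuous -/
theorem Split_cont (R : ℝ → ℝ → ℝ) (hR : Continuous fun q : ℝ × ℝ => R q.1 q.2) (u v : ℝ → ℝ)
    (hu : Continuous u) (hv : Continuous v) :
    Continuous fun η => ∫ ξ in (u η)..(v η), R ξ η := by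
  have hR' : Continuous (Function.uncurry fun η ξ => R ξ η) :=
    hR.comp (by fun_prop : Continuous fun q : ℝ × ℝ => (q.2, q.1))
  have h1 : Continuous fun η => ∫ ξ in (0:ℝ)..(v η), R ξ η :=
    intervalIntegral.continuous_parametric_intervalIntegral_of_continuous hR' hv
  have h2 : Continuous fun η => ∫ ξ in (0:ℝ)..(u η), R ξ η :=
    intervalIntegral.continuous_parametric_intervalIntegral_of_continuous hR' hu
  have h3 : (fun η => ∫ ξ in (u η)..(v η), R ξ η) =
      fun η => (∫ ξ in (0:ℝ)..(v η), R ξ η) - ∫ ξ in (0:ℝ)..(u η), R ξ η := by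
    funext η
    have cη : Continuous fun ξ => R ξ η :=
      hR.comp (by fun_prop : Continuous fun ξ : ℝ => (ξ, η))
    rw [← intervalIntegral.integral_interval_sub_left (cη.intervalIntegrable _ _)
      (cη.intervalIntegrable _ _)]
  rw [h3]
  exact h1.sub h2

theorem Split_proof (h1 : SRotP) : SSplit := by
  intro c s L H δ hc hs hcs hL hH F hF
  rw [h1 c s L H hc hcs hL hH F hF]
  have hR : Continuous fun q : ℝ × ℝ => rt c s F q.1 q.2 := by
    have e : (fun q : ℝ × ℝ => rt c s F q.1 q.2) = (fun q : ℝ × ℝ => F q.1 q.2) ∘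
        fun q : ℝ × ℝ => (c * q.1 - s * c * q.2, s * c * q.1 + c * q.2) := by
      funext q
      rfl
    rw [e]
    exact hF.comp (by fun_prop)
  have hcη : ∀ η : ℝ, Continuous fun ξ => rt c s F ξ η := fun η =>
    hR.comp (by fun_prop : Continuous fun ξ : ℝ => (ξ, η))
  have hsplit : ∀ η : ℝ, ∫ ξ in (s * η)..(L / c + s * η), rt c s F ξ η =
      (∫ ξ in (s * η)..(s * (c * H) + δ), rt c s F ξ η) +
      ((∫ ξ in (L / c - δ)..(L / c + s * η), rt c s F ξ η) +
      ∫ ξ in (s * (c * H) + δ)..(L / c - δ), rt c s F ξ η) := by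
    intro η
    have e1 := intervalIntegral.integral_add_adjacent_intervals
      ((hcη η).intervalIntegrable (μ := volume) (s * (c * H) + δ) (L / c - δ))
      ((hcη η).intervalIntegrable (μ := volume) (L / c - δ) (L / c + s * η))
    have e2 := intervalIntegral.integral_add_adjacent_intervals
      ((hcη η).intervalIntegrable (μ := volume) (s * η) (s * (c * H) + δ))
      ((hcη η).intervalIntegrable (μ := volume) (s * (c * H) + δ) (L / c + s * η))
    linarith
  have c1 : Continuous fun η => ∫ ξ in (s * η)..(s * (c * H) + δ), rt c s F ξ η :=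
    Split_cont _ hR _ _ (by fun_prop) (by fun_prop)
  have c2 : Continuous fun η => ∫ ξ in (L / c - δ)..(L / c + s * η), rt c s F ξ η :=
    Split_cont _ hR _ _ (by fun_prop) (by fun_prop)
  have c3 : Continuous fun η => ∫ ξ in (s * (c * H) + δ)..(L / c - δ), rt c s F ξ η :=
    Split_cont _ hR _ _ (by fun_prop) (by fun_prop)
  have hA : ∫ η in (0:ℝ)..(c * H), ∫ ξ in (s * η)..(L / c + s * η), rt c s F ξ η =
      ie c s H δ F +
      ((∫ η in (0:ℝ)..(c * H), ∫ ξ in (L / c - δ)..(L / c + s * η), rt c s F ξ η) +
      ∫ η in (0:ℝ)..(c * H), ∫ ξ in (s * (c * H) + δ)..(L / c - δ), rt c s F ξ η) := by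
    rw [← intervalIntegral.integral_add (c2.intervalIntegrable _ _) (c3.intervalIntegrable _ _)]
    unfold ie
    have c23 : Continuous fun η => (∫ ξ in (L / c - δ)..(L / c + s * η), rt c s F ξ η) +
        ∫ ξ in (s * (c * H) + δ)..(L / c - δ), rt c s F ξ η := c2.add c3
    rw [← intervalIntegral.integral_add (c1.intervalIntegrable _ _)
      (c23.intervalIntegrable _ _)]
    apply intervalIntegral.integral_congr
    intro η _
    exact hsplit η
  rw [hA]
  have hcL : c * (L / c) = L := by field_simp
  have hHH : s * c * (s * (c * H)) + c * (c * H) = H := by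
    have : s * c * (s * (c * H)) + c * (c * H) = (c ^ 2 * (1 + s ^ 2)) * H := by ring
    rw [this, hcs, one_mul]
  -- the third part
  have hB : ie c s H δ (rv s L H F) =
      ∫ η in (0:ℝ)..(c * H), ∫ ξ in (L / c - δ)..(L / c + s * η), rt c s F ξ η := by
    unfold ie
    have e1 : ∀ η : ℝ, ∫ ξ in (s * η)..(s * (c * H) + δ), rt c s (rv s L H F) ξ η =
        ∫ ξ in (L / c - δ)..(L / c + s * (c * H - η)), rt c s F ξ (c * H - η) := by
      intro η
      have e2 := intervalIntegral.integral_comp_sub_left
        (a := s * η) (b := s * (c * H) + δ) (fun ξ => rt c s F ξ (c * H - η))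
        (L / c + s * (c * H))
      have e3 : L / c + s * (c * H) - (s * (c * H) + δ) = L / c - δ := by ring
      have e4 : L / c + s * (c * H) - s * η = L / c + s * (c * H - η) := by ring
      rw [e3, e4] at e2
      rw [← e2]
      apply intervalIntegral.integral_congr
      intro ξ _
      show rv s L H F (c * ξ - s * c * η) (s * c * ξ + c * η) =
        F (c * (L / c + s * (c * H) - ξ) - s * c * (c * H - η))
          (s * c * (L / c + s * (c * H) - ξ) + c * (c * H - η))
      unfold rv
      have e5 : L - (c * ξ - s * c * η) = c * (L / c + s * (c * H) - ξ) - s * c * (c * H - η) := by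
        have : c * (L / c + s * (c * H) - ξ) - s * c * (c * H - η) =
            c * (L / c) - c * ξ + s * c * η := by ring
        rw [this, hcL]
        ring
      have e6 : s * L + H - (s * c * ξ + c * η) =
          s * c * (L / c + s * (c * H) - ξ) + c * (c * H - η) := by
        have : s * c * (L / c + s * (c * H) - ξ) + c * (c * H - η) =
            s * (c * (L / c)) + (s * c * (s * (c * H)) + c * (c * H)) - s * c * ξ - c * η := by
          ring
        rw [this, hcL, hHH]
        ring
      rw [e5, e6]
    have e7 := intervalIntegral.integral_comp_sub_left (a := 0) (b := c * H)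
      (fun η => ∫ ξ in (L / c - δ)..(L / c + s * η), rt c s F ξ η) (c * H)
    rw [sub_self, sub_zero] at e7
    rw [← e7]
    apply intervalIntegral.integral_congr
    intro η _
    exact e1 η
  -- the rectangle
  have hC : ∫ x in (0:ℝ)..(L / c - s * (c * H) - 2 * δ), ∫ y in (0:ℝ)..(c * H),
        rt c s F (s * (c * H) + δ + x) y =
      ∫ η in (0:ℝ)..(c * H), ∫ ξ in (s * (c * H) + δ)..(L / c - δ), rt c s F ξ η := by
    rw [MeasureTheory.intervalIntegral_intervalIntegral_swap]
    · apply intervalIntegral.integral_congr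
      intro η _
      show ∫ x in (0:ℝ)..(L / c - s * (c * H) - 2 * δ), rt c s F (s * (c * H) + δ + x) η = _
      rw [intervalIntegral.integral_comp_add_left (fun ξ => rt c s F ξ η) (s * (c * H) + δ)]
      have e8 : s * (c * H) + δ + (L / c - s * (c * H) - 2 * δ) = L / c - δ := by ring
      rw [add_zero, e8]
    · have hcont : Continuous (Function.uncurry fun x y => rt c s F (s * (c * H) + δ + x) y) :=
        hR.comp (by fun_prop : Continuous fun q : ℝ × ℝ => (s * (c * H) + δ + q.1, q.2))
      apply IntegrableOn.mono_set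
        (t := uIcc 0 (L / c - s * (c * H) - 2 * δ) ×ˢ uIcc 0 (c * H))
      · exact hcont.continuousOn.integrableOn_compact
          ((isCompact_uIcc).prod isCompact_uIcc)
      · exact prod_mono uIoc_subset_uIcc uIoc_subset_uIcc
  rw [hB, hC]
  ring

end Pool.Agent.Work.MP_33c50c_an.SK
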