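import Pool.Agent.Work.MP_33c50c_an.SK.Stmts

/-!
# MP_33c50c_an, block SK, item Theta
-/

set_option autoImplicit false

open MeasureTheory Set
open scoped ENNReal ContDiff

namespace Pool.Agent.Work.MP_33c50c_an.SK

/-- the one sided truncation -/
noncomputable def Theta_phi (u : ℝ) : ℝ := (max 0 u) ^ 2 / (max 0 u + 1)

theorem Theta_pos (u : ℝ) : 0 < max 0 u + 1 := by
  have := le_max_left 0 u
  linarith

theorem Theta_cont : Continuous Theta_phi := by
  unfold Theta_phi
  exact Continuous.div (by fun_prop) (by fun_prop) (fun u => (Theta_pos u).ne')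

theorem Theta_contd : Continuous fun u : ℝ => 1 - 1 / (max 0 u + 1) ^ 2 := by
  refine Continuous.sub continuous_const (Continuous.div continuous_const (by fun_prop) ?_)
  intro u
  exact pow_ne_zero 2 (Theta_pos u).ne'

theorem Theta_deriv_ne (u : ℝ) (hu : u ≠ 0) :
    HasDerivAt Theta_phi (1 - 1 / (max 0 u + 1) ^ 2) u := by
  rcases lt_or_gt_of_ne hu with h | h
  · have h1 : max 0 u = 0 := max_eq_left h.le
    rw [h1]
    have h2 : (fun _ : ℝ => (0:ℝ)) =ᶠ[nhds u] Theta_phi := by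
      filter_upwards [Iio_mem_nhds h] with v hv
      have : max 0 v = 0 := max_eq_left (le_of_lt hv)
      simp [Theta_phi, this]
    have h3 : HasDerivAt (fun _ : ℝ => (0:ℝ)) (1 - 1 / ((0:ℝ) + 1) ^ 2) u := by
      have h4 : (1:ℝ) - 1 / ((0:ℝ) + 1) ^ 2 = 0 := by norm_num
      rw [h4]
      exact hasDerivAt_const u 0
    exact h3.congr_of_eventuallyEq h2.symm
  · have h1 : max 0 u = u := max_eq_right h.le
    rw [h1]
    have h2 : (fun v : ℝ => v ^ 2 / (v + 1)) =ᶠ[nhds u] Theta_phi := by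
      filter_upwards [Ioi_mem_nhds h] with v hv
      have : max 0 v = v := max_eq_right (le_of_lt hv)
      simp [Theta_phi, this]
    have h3 : HasDerivAt (fun v : ℝ => v ^ 2 / (v + 1)) (1 - 1 / (u + 1) ^ 2) u := by
      have h5 : HasDerivAt (fun v : ℝ => v ^ 2) (2 * u) u := by
        have := hasDerivAt_pow 2 u
        simpa using this
      have h6 : HasDerivAt (fun v : ℝ => v + 1) 1 u := (hasDerivAt_id u).add_const 1
      have h7 : u + 1 ≠ 0 := by positivity
      have h8 := h5.div h6 h7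
      have h9 : (2 * u * (u + 1) - u ^ 2 * 1) / (u + 1) ^ 2 = 1 - 1 / (u + 1) ^ 2 := by
        field_simp
        ring
      rw [← h9]
      exact h8
    exact h3.congr_of_eventuallyEq h2.symm

theorem Theta_deriv (u : ℝ) : HasDerivAt Theta_phi (1 - 1 / (max 0 u + 1) ^ 2) u := by
  by_cases hu : u = 0
  · subst hu
    exact hasDerivAt_of_hasDerivAt_of_ne (f := Theta_phi)
      (g := fun u => 1 - 1 / (max 0 u + 1) ^ 2) (x := 0) (fun y hy => Theta_deriv_ne y hy)
      Theta_cont.continuousAt Theta_contd.continuousAt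
  · exact Theta_deriv_ne u hu

theorem Theta_proof : STheta := by
  have hd : ∀ τ : ℝ, HasDerivAt (fun τ => Theta_phi (τ - 1) - Theta_phi (-τ - 1))
      ((1 - 1 / (max 0 (τ - 1) + 1) ^ 2) + (1 - 1 / (max 0 (-τ - 1) + 1) ^ 2)) τ := by
    intro τ
    have h1 : HasDerivAt (fun τ : ℝ => τ - 1) 1 τ := (hasDerivAt_id τ).sub_const 1
    have h2 : HasDerivAt (fun τ : ℝ => -τ - 1) (-1) τ := (hasDerivAt_neg τ).sub_const 1
    have h3 := (Theta_deriv (τ - 1)).comp τ h1
    have h4 := (Theta_deriv (-τ - 1)).comp τ h2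
    have h5 := h3.sub h4
    have h6 : (1 - 1 / (max 0 (τ - 1) + 1) ^ 2) * 1 -
        (1 - 1 / (max 0 (-τ - 1) + 1) ^ 2) * -1 =
        (1 - 1 / (max 0 (τ - 1) + 1) ^ 2) + (1 - 1 / (max 0 (-τ - 1) + 1) ^ 2) := by ring
    rw [← h6]
    exact h5
  have hde : deriv (fun τ => Theta_phi (τ - 1) - Theta_phi (-τ - 1)) =
      fun τ => (1 - 1 / (max 0 (τ - 1) + 1) ^ 2) + (1 - 1 / (max 0 (-τ - 1) + 1) ^ 2) :=
    funext fun τ => (hd τ).deriv
  have hb : ∀ u : ℝ, 0 ≤ 1 - 1 / (max 0 u + 1) ^ 2 ∧ 1 - 1 / (max 0 u + 1) ^ 2 ≤ 1 := by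
    intro u
    have h0 := le_max_left 0 u
    have h1 : (1:ℝ) ≤ (max 0 u + 1) ^ 2 := by nlinarith
    have h2 : 1 / (max 0 u + 1) ^ 2 ≤ 1 := by
      rw [div_le_one (by linarith)]
      exact h1
    have h3 : 0 ≤ 1 / (max 0 u + 1) ^ 2 := by positivity
    constructor <;> linarith
  have hz : ∀ u : ℝ, u ≤ 0 → 1 - 1 / (max 0 u + 1) ^ 2 = 0 := by
    intro u hu
    rw [max_eq_left hu]
    norm_num
  have hz' : ∀ u : ℝ, u ≤ 0 → Theta_phi u = 0 := by
    intro u hu
    unfold Theta_phi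
    rw [max_eq_left hu]
    norm_num
  have hφ : ∀ u : ℝ, 0 ≤ u → 0 ≤ u - Theta_phi u ∧ u - Theta_phi u ≤ 1 := by
    intro u hu
    have h1 : u - Theta_phi u = u / (u + 1) := by
      unfold Theta_phi
      rw [max_eq_right hu]
      field_simp
      ring
    rw [h1]
    constructor
    · positivity
    · rw [div_le_one (by positivity)]
      linarith
  refine ⟨fun τ => Theta_phi (τ - 1) - Theta_phi (-τ - 1), ?_, ?_, ?_, ?_⟩
  · rw [contDiff_one_iff_deriv]
    refine ⟨fun τ => (hd τ).differentiableAt, ?_⟩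
    rw [hde]
    exact (Theta_contd.comp (by fun_prop : Continuous fun τ : ℝ => τ - 1)).add
      (Theta_contd.comp (by fun_prop : Continuous fun τ : ℝ => -τ - 1))
  · intro τ hτ
    rw [abs_le] at hτ
    show Theta_phi (τ - 1) - Theta_phi (-τ - 1) = 0
    rw [hz' (τ - 1) (by linarith), hz' (-τ - 1) (by linarith), sub_zero]
  · intro τ
    rw [hde]
    show |(1 - 1 / (max 0 (τ - 1) + 1) ^ 2) + (1 - 1 / (max 0 (-τ - 1) + 1) ^ 2)| ≤ 1
    have h1 := hb (τ - 1)
    have h2 := hb (-τ - 1)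
    rw [abs_le]
    rcases le_total 0 τ with h | h
    · have h3 := hz (-τ - 1) (by linarith)
      constructor <;> linarith [h1.1, h1.2]
    · have h3 := hz (τ - 1) (by linarith)
      constructor <;> linarith [h2.1, h2.2]
  · intro τ
    show |Theta_phi (τ - 1) - Theta_phi (-τ - 1) - τ| ≤ 2
    rw [abs_le]
    rcases le_total 1 τ with h | h
    · have h1 := hφ (τ - 1) (by linarith)
      have h2 := hz' (-τ - 1) (by linarith)
      constructor <;> linarith [h1.1, h1.2]
    · have h1 := hz' (τ - 1) (by linarith)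
      rcases le_total τ (-1) with h' | h'
      · have h2 := hφ (-τ - 1) (by linarith)
        constructor <;> linarith [h2.1, h2.2]
      · have h2 := hz' (-τ - 1) (by linarith)
        constructor <;> linarith

end Pool.Agent.Work.MP_33c50c_an.SK
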