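import Pool.Agent.Work.MP_33c50c_an.SK.Stmts
import Pool.Agent.Work.MP_33c50c_an.PK.I_Wmass
import Pool.Agent.Work.MP_33c50c_an.Cyl2

set_option autoImplicit false

open MeasureTheory Set
open scoped ENNReal ContDiff

namespace Pool.Agent.Work.MP_33c50c_an.SK

open Pool.Agent.Work.MP_33c50c_an

/-- the general superposition principle. -/
theorem Wint_gen {Ω : Set Cyl} (h2 : PK.SPieces) (P : SkewPacking Ω) (F : Fin P.p → Cyl → ℝ)
    (hc : ∀ q, Continuous (F q)) (hs : ∀ q, HasCompactSupport (F q))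
    (G : Fin P.nR → ℝ → ℝ → ℝ)
    (hG : ∀ ρ, ∀ x ∈ Ioo 0 (P.L ρ), ∀ y, G ρ x y =
      ∑ q, ∑ i ∈ Finset.range (P.n q), if P.r q i = ρ then F q (P.pl q i x y) else 0)
    (hG0 : ∀ ρ, ∀ x ∈ Ioo 0 (P.L ρ), ∀ y,
      ¬ (P.σ ρ * x < y ∧ y < P.σ ρ * x + P.H ρ) → G ρ x y = 0) :
    ∑ q, ∫ p, F q p = ∑ ρ, ∫ x in (0:ℝ)..(P.L ρ),
      ∫ y in (P.σ ρ * x)..(P.σ ρ * x + P.H ρ), G ρ x y := by
  have e1 : ∀ q, ∫ p, F q p = ∑ i ∈ Finset.range (P.n q),
      ∫ x in (0:ℝ)..(P.L (P.r q i)), ∫ y, F q (P.pl q i x y) := by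
    intro q
    exact h2 (F q) (hc q) (hs q) (P.n q) (P.t q) (fun i => P.L (P.r q i)) (P.sx q) (P.sy q)
      (P.c q) (P.around q) (fun i hi => ⟨P.L_pos _, P.width q i hi⟩)
  have hint : ∀ q i x, Integrable fun y => F q (P.pl q i x y) := fun q i x =>
    PK.Wmass_int (F q) (hc q) (hs q) _ _ _ _ _ x
  have hcont : ∀ q i, Continuous fun x => ∫ y, F q (P.pl q i x y) := fun q i =>
    PK.Wmass_cont (F q) (hc q) (hs q) _ _ _ _ _
  have e2 : ∀ ρ, ∫ x in (0:ℝ)..(P.L ρ), ∫ y in (P.σ ρ * x)..(P.σ ρ * x + P.H ρ), G ρ x y =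
      ∑ q, ∑ i ∈ Finset.range (P.n q), if P.r q i = ρ then
        ∫ x in (0:ℝ)..(P.L ρ), ∫ y, F q (P.pl q i x y) else 0 := by
    intro ρ
    have e3 : ∫ x in (0:ℝ)..(P.L ρ), ∫ y in (P.σ ρ * x)..(P.σ ρ * x + P.H ρ), G ρ x y =
        ∫ x in (0:ℝ)..(P.L ρ), ∑ q, ∑ i ∈ Finset.range (P.n q), if P.r q i = ρ then
          ∫ y, F q (P.pl q i x y) else 0 := by
      refine intervalIntegral.integral_congr_Ioo_of_le (P.L_pos ρ).le fun x hx => ?_
      have e4 : ∫ y in (P.σ ρ * x)..(P.σ ρ * x + P.H ρ), G ρ x y = ∫ y, G ρ x y := by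
        refine intervalIntegral.integral_eq_integral_of_support_subset ?_
        intro y hy
        by_contra h
        refine hy (hG0 ρ x hx y fun h3 => h ⟨h3.1, h3.2.le⟩)
      show ∫ y in (P.σ ρ * x)..(P.σ ρ * x + P.H ρ), G ρ x y = _
      rw [e4]
      have e5 : (fun y => G ρ x y) = fun y => ∑ q, ∑ i ∈ Finset.range (P.n q),
          if P.r q i = ρ then F q (P.pl q i x y) else 0 := funext fun y => hG ρ x hx y
      rw [e5, integral_finsetSum]
      · refine Finset.sum_congr rfl fun q _ => ?_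
        rw [integral_finsetSum]
        · refine Finset.sum_congr rfl fun i _ => ?_
          split_ifs
          · rfl
          · simp
        · intro i _
          split_ifs
          · exact hint q i x
          · exact integrable_zero _ _ _
      · intro q _
        refine integrable_finsetSum _ fun i _ => ?_
        split_ifs
        · exact hint q i x
        · exact integrable_zero _ _ _
    rw [e3, intervalIntegral.integral_finsetSum]
    · refine Finset.sum_congr rfl fun q _ => ?_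
      rw [intervalIntegral.integral_finsetSum]
      · refine Finset.sum_congr rfl fun i _ => ?_
        split_ifs
        · rfl
        · simp
      · intro i _
        split_ifs
        · exact (hcont q i).intervalIntegrable _ _
        · exact intervalIntegrable_const
    · intro q _
      refine Continuous.intervalIntegrable ?_ _ _
      refine continuous_finsetSum _ fun i _ => ?_
      split_ifs
      · exact hcont q i
      · exact continuous_const
  simp_rw [e2, e1]
  rw [Finset.sum_comm]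
  refine Finset.sum_congr rfl fun q _ => ?_
  rw [Finset.sum_comm]
  refine Finset.sum_congr rfl fun i _ => ?_
  rw [Finset.sum_ite_eq Finset.univ (P.r q i)
    (fun ρ => ∫ x in (0:ℝ)..(P.L ρ), ∫ y, F q (P.pl q i x y)), if_pos (Finset.mem_univ _)]

theorem Wint_proof (_h0 : SReg) (h1 : SWpt) (_h2 : SWreg) (h3 : PK.SPieces) : SWint := by
  intro Ω hΩ P u hu
  have hcu : ∀ q, Continuous (u q) := fun q =>
    continuous_of_lft (u q) (hu q).1.continuous
  have hl : ∀ q, ContDiff ℝ 1 (lft (u q)) := fun q => test_lft (hu q)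
  constructor
  · refine Wint_gen h3 P (fun q p => u q p ^ 2) (fun q => (hcu q).pow 2) (fun q => ?_)
      (fun ρ x y => P.W u ρ x y ^ 2) (fun ρ x hx y => (h1 Ω hΩ P u hu ρ x hx y).1)
      (fun ρ x hx y h => ?_)
    · refine HasCompactSupport.mono (hu q).2.1 ?_
      intro p hp h
      refine hp ?_
      simp only at h ⊢
      rw [h]; simp
    · show P.W u ρ x y ^ 2 = 0
      rw [((h1 Ω hΩ P u hu ρ x hx y).2.2 h).1]; simp
  · refine Wint_gen h3 P (fun q p => dX (u q) p ^ 2 + dY (u q) p ^ 2)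
      (fun q => ((cont_dX (u q) (hl q)).pow 2).add ((cont_dY (u q) (hl q)).pow 2))
      (fun q => ?_) (fun ρ x y => gr (P.W u ρ) x y)
      (fun ρ x hx y => (h1 Ω hΩ P u hu ρ x hx y).2.1)
      (fun ρ x hx y hy => ((h1 Ω hΩ P u hu ρ x hx y).2.2 hy).2)
    have e1 : HasCompactSupport (fun p => dX (u q) p ^ 2) :=
      (compact_dX (u q) (hu q).2.1).comp_left (g := fun t : ℝ => t ^ 2) (by norm_num)
    have e2 : HasCompactSupport (fun p => dY (u q) p ^ 2) :=
      (compact_dY (u q) (hu q).2.1).comp_left (g := fun t : ℝ => t ^ 2) (by norm_num)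
    exact e1.add e2

end Pool.Agent.Work.MP_33c50c_an.SK
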