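import Pool.Agent.Work.MP_33c50c_an.SK.Stmts

set_option autoImplicit false

/-! Item `Wir`: Wirtinger's inequality for functions orthogonal to the first sines. -/

open MeasureTheory Set Filter
open scoped ENNReal ContDiff

namespace Pool.Agent.Work.MP_33c50c_an.SK

theorem Wir_proof (h1 : PK.SSin) (h2 : PK.SOneY) : SWir := by
  intro H hH g g' hg' hd h0 hHt m₀ horth
  have hg : Continuous g := continuous_iff_continuousAt.2 fun y => (hd y).continuousAt
  have hs := h1 H hH g hg h0 hHt
  have hK : ∀ K : ℕ, ((m₀ + 1) * Real.pi / H) ^ 2 * ∑ m ∈ Finset.range K,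
      2 / H * (∫ y in (0:ℝ)..H, g y * Real.sin ((m + 1) * Real.pi * y / H)) ^ 2 ≤
      ∫ y in (0:ℝ)..H, g' y ^ 2 := by
    intro K
    refine le_trans ?_ (h2 H hH g g' hg' hd h0 hHt K)
    rw [Finset.mul_sum]
    refine Finset.sum_le_sum fun m _ => ?_
    rcases lt_or_ge m m₀ with hm | hm
    · rw [horth m hm]
      simp
    · have hm' : (m₀ : ℝ) ≤ m := by exact_mod_cast hm
      refine mul_le_mul_of_nonneg_right ?_ (by positivity)
      refine pow_le_pow_left₀ (by positivity) ?_ 2
      refine div_le_div_of_nonneg_right ?_ hH.le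
      exact mul_le_mul_of_nonneg_right (by linarith) Real.pi_pos.le
  exact le_of_tendsto' (hs.tendsto_sum_nat.const_mul _) hK

end Pool.Agent.Work.MP_33c50c_an.SK
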