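import Pool.Agent.Work.MP_33c50c_an.SK.Stmts

set_option autoImplicit false

open MeasureTheory Set
open scoped ENNReal ContDiff

namespace Pool.Agent.Work.MP_33c50c_an.SK

open Pool.Agent.Work.MP_33c50c_an

lemma Wpt_sq {ι : Type*} (s : Finset ι) (f : ι → ℝ)
    (h : ∀ i ∈ s, ∀ j ∈ s, i ≠ j → f i = 0 ∨ f j = 0) :
    (∑ i ∈ s, f i) ^ 2 = ∑ i ∈ s, f i ^ 2 := by
  by_cases hex : ∃ i ∈ s, f i ≠ 0
  · obtain ⟨i, hi, hne⟩ := hex
    have hz : ∀ j ∈ s, j ≠ i → f j = 0 := fun j hj hji =>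
      (h i hi j hj (Ne.symm hji)).resolve_left hne
    rw [Finset.sum_eq_single_of_mem i hi hz, Finset.sum_eq_single_of_mem i hi]
    intro j hj hji
    rw [hz j hj hji]; simp
  · push Not at hex
    rw [Finset.sum_eq_zero hex, Finset.sum_eq_zero (fun i hi => by rw [hex i hi]; simp)]
    simp

/-- the square of a double sum with at most one nonzero entry. -/
lemma Wpt_sq2 {Ω : Set Cyl} (P : SkewPacking Ω) (ρ : Fin P.nR) (x : ℝ) (hx : x ∈ Ioo 0 (P.L ρ))
    (y : ℝ) (f : Fin P.p → ℕ → ℝ) (hf : ∀ q i, P.pl q i x y ∉ Ω → f q i = 0) :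
    (∑ q, ∑ i ∈ Finset.range (P.n q), if P.r q i = ρ then f q i else 0) ^ 2 =
      ∑ q, ∑ i ∈ Finset.range (P.n q), if P.r q i = ρ then f q i ^ 2 else 0 := by
  rw [Finset.sum_sigma', Finset.sum_sigma', Wpt_sq]
  · refine Finset.sum_congr rfl fun a _ => ?_
    split_ifs <;> simp
  · intro a ha b hb hab
    by_contra hcon
    push Not at hcon
    obtain ⟨h1, h2⟩ := hcon
    rw [ne_eq, ite_eq_right_iff, not_forall] at h1 h2
    obtain ⟨ha1, ha2⟩ := h1
    obtain ⟨hb1, hb2⟩ := h2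
    have ha3 : P.pl a.1 a.2 x y ∈ Ω := by
      by_contra h; exact ha2 (hf _ _ h)
    have hb3 : P.pl b.1 b.2 x y ∈ Ω := by
      by_contra h; exact hb2 (hf _ _ h)
    have hne : (a.1, a.2) ≠ (b.1, b.2) := by
      intro h
      apply hab
      obtain ⟨a1, a2⟩ := a
      obtain ⟨b1, b2⟩ := b
      simp only [Prod.mk.injEq] at h
      obtain ⟨rfl, rfl⟩ := h
      rfl
    have hia : a.2 < P.n a.1 := by simpa using (Finset.mem_sigma.mp ha).2
    have hib : b.2 < P.n b.1 := by simpa using (Finset.mem_sigma.mp hb).2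
    exact P.disj a.1 a.2 b.1 b.2 hia hib hne (ha1.trans hb1.symm) x (by rw [ha1]; exact hx) y
      ⟨ha3, hb3⟩

/-- the double sum vanishes above and below the parallelogram. -/
lemma Wpt_zero {Ω : Set Cyl} (P : SkewPacking Ω) (ρ : Fin P.nR) (x : ℝ) (hx : x ∈ Ioo 0 (P.L ρ))
    (y : ℝ) (f : Fin P.p → ℕ → ℝ) (hf : ∀ q i, P.pl q i x y ∉ Ω → f q i = 0)
    (hy : ¬ (P.σ ρ * x < y ∧ y < P.σ ρ * x + P.H ρ)) :
    (∑ q, ∑ i ∈ Finset.range (P.n q), if P.r q i = ρ then f q i else 0) = 0 := by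
  refine Finset.sum_eq_zero fun q _ => Finset.sum_eq_zero fun i hi => ?_
  split_ifs with hr
  · apply hf
    intro hin
    apply hy
    have := P.inside q i (Finset.mem_range.mp hi) x (by rw [hr]; exact hx) y hin
    rw [hr] at this
    exact this
  · rfl

lemma Wpt_px {Ω : Set Cyl} (h1 : PK.SPlaceD) (P : SkewPacking Ω) (u : Fin P.p → Cyl → ℝ)
    (hu : ∀ q, IsTest Ω (u q)) (ρ : Fin P.nR) (x y : ℝ) :
    px (P.W u ρ) x y = ∑ q, ∑ i ∈ Finset.range (P.n q), if P.r q i = ρ then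
      (if P.sx q i then (-1:ℝ) else 1) * dX (u q) (P.pl q i x y) else 0 := by
  unfold px SkewPacking.W
  refine HasDerivAt.deriv ?_
  refine HasDerivAt.fun_sum fun q _ => HasDerivAt.fun_sum fun i _ => ?_
  by_cases hr : P.r q i = ρ
  · simp only [if_pos hr]
    exact ((h1 (u q) ((hu q).1.of_le (by exact_mod_cast le_top)) (P.t q i) (P.L (P.r q i))
      (P.sx q i) (P.sy q i) (P.c q i)).2 x y).1
  · simp only [if_neg hr]
    exact hasDerivAt_const _ _

lemma Wpt_py {Ω : Set Cyl} (h1 : PK.SPlaceD) (P : SkewPacking Ω) (u : Fin P.p → Cyl → ℝ)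
    (hu : ∀ q, IsTest Ω (u q)) (ρ : Fin P.nR) (x y : ℝ) :
    py (P.W u ρ) x y = ∑ q, ∑ i ∈ Finset.range (P.n q), if P.r q i = ρ then
      (if P.sy q i then (-1:ℝ) else 1) * dY (u q) (P.pl q i x y) else 0 := by
  unfold py SkewPacking.W
  refine HasDerivAt.deriv ?_
  refine HasDerivAt.fun_sum fun q _ => HasDerivAt.fun_sum fun i _ => ?_
  by_cases hr : P.r q i = ρ
  · simp only [if_pos hr]
    exact ((h1 (u q) ((hu q).1.of_le (by exact_mod_cast le_top)) (P.t q i) (P.L (P.r q i))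
      (P.sx q i) (P.sy q i) (P.c q i)).2 x y).2
  · simp only [if_neg hr]
    exact hasDerivAt_const _ _

theorem Wpt_proof (h1 : PK.SPlaceD) : SWpt := by
  intro Ω _ P u hu ρ x hx y
  have f0 : ∀ q i, P.pl q i x y ∉ Ω → u q (P.pl q i x y) = 0 := by
    intro q i h
    by_contra h'
    exact h ((hu q).2.2 (subset_tsupport _ h'))
  have fx : ∀ q i, P.pl q i x y ∉ Ω →
      (if P.sx q i then (-1:ℝ) else 1) * dX (u q) (P.pl q i x y) = 0 := by
    intro q i h
    by_contra h'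
    exact h ((hu q).2.2 (dX_ne _ _ (right_ne_zero_of_mul h')))
  have fy : ∀ q i, P.pl q i x y ∉ Ω →
      (if P.sy q i then (-1:ℝ) else 1) * dY (u q) (P.pl q i x y) = 0 := by
    intro q i h
    by_contra h'
    exact h ((hu q).2.2 (dY_ne _ _ (right_ne_zero_of_mul h')))
  refine ⟨?_, ?_, fun hy => ⟨?_, ?_⟩⟩
  · exact Wpt_sq2 P ρ x hx y (fun q i => u q (P.pl q i x y)) f0
  · have h2 := Wpt_sq2 P ρ x hx y
      (fun q i => (if P.sx q i then (-1:ℝ) else 1) * dX (u q) (P.pl q i x y)) fx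
    have h3 := Wpt_sq2 P ρ x hx y
      (fun q i => (if P.sy q i then (-1:ℝ) else 1) * dY (u q) (P.pl q i x y)) fy
    unfold gr
    rw [Wpt_px h1 P u hu, Wpt_py h1 P u hu, h2, h3, ← Finset.sum_add_distrib]
    refine Finset.sum_congr rfl fun q _ => ?_
    rw [← Finset.sum_add_distrib]
    refine Finset.sum_congr rfl fun i _ => ?_
    by_cases hr : P.r q i = ρ
    · rw [if_pos hr, if_pos hr, if_pos hr, mul_pow, mul_pow]
      cases P.sx q i <;> cases P.sy q i <;> simp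
    · rw [if_neg hr, if_neg hr, if_neg hr, add_zero]
  · exact Wpt_zero P ρ x hx y (fun q i => u q (P.pl q i x y)) f0 hy
  · have h2 := Wpt_zero P ρ x hx y
      (fun q i => (if P.sx q i then (-1:ℝ) else 1) * dX (u q) (P.pl q i x y)) fx hy
    have h3 := Wpt_zero P ρ x hx y
      (fun q i => (if P.sy q i then (-1:ℝ) else 1) * dY (u q) (P.pl q i x y)) fy hy
    unfold gr
    rw [Wpt_px h1 P u hu, Wpt_py h1 P u hu, h2, h3]
    norm_num

end Pool.Agent.Work.MP_33c50c_an.SK
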