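import Pool.Agent.Work.MP_33c50c_an.SK.Stmts
import Pool.Agent.Work.MP_33c50c_an.Cyl2

set_option autoImplicit false

/-! Item `Wreg`: regularity of the superposition. -/

open MeasureTheory Set
open scoped ENNReal ContDiff

namespace Pool.Agent.Work.MP_33c50c_an.SK

open Pool.Agent.Work.MP_33c50c_an

theorem Wreg_piece (u : Cyl → ℝ) (hu : ContDiff ℝ 1 (lft u)) (a L : ℝ) (sx sy : Bool) (c : ℝ) :
    ContDiff ℝ 1 (fun z : ℝ × ℝ => u (PK.place a L sx sy c z.1 z.2)) := by
  have h : ContDiff ℝ 1 fun q : ℝ × ℝ =>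
      (((if sx then a + L - q.1 else a + q.1), (if sy then c - q.2 else q.2 - c)) : ℝ × ℝ) := by
    cases sx <;> cases sy <;>
    · simp only [if_true, if_false, Bool.false_eq_true]
      fun_prop
  have h2 := hu.comp h
  have h3 : (fun z : ℝ × ℝ => u (PK.place a L sx sy c z.1 z.2)) = lft u ∘ fun q : ℝ × ℝ =>
      (((if sx then a + L - q.1 else a + q.1), (if sy then c - q.2 else q.2 - c)) : ℝ × ℝ) := by
    funext z
    simp [lft, PK.place, pt]
  rw [h3]
  exact h2

theorem Wreg_proof (h2 : SWpt) : SWreg := by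
  intro Ω hΩ P u hu ρ
  have hC : ∀ q, ContDiff ℝ 1 (lft (u q)) := fun q => test_lft (hu q)
  have hC1 : C1 (P.W u ρ) := by
    unfold C1 SkewPacking.W
    refine ContDiff.sum fun q _ => ContDiff.sum fun i _ => ?_
    by_cases hr : P.r q i = ρ
    · simp only [hr, if_true]
      exact Wreg_piece (u q) (hC q) _ _ _ _ _
    · simp only [hr, if_false]
      exact contDiff_const
  refine ⟨hC1, ?_⟩
  have hWc : Continuous fun z : ℝ × ℝ => P.W u ρ z.1 z.2 := ContDiff.continuous hC1
  have key : ∀ g : ℝ → ℝ, Continuous g → (∀ x ∈ Ioo 0 (P.L ρ),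
      ¬ (P.σ ρ * x < g x ∧ g x < P.σ ρ * x + P.H ρ)) → ∀ x ∈ Icc 0 (P.L ρ), P.W u ρ x (g x) = 0 := by
    intro g hg hn x hx
    have hcl : IsClosed {z : ℝ | P.W u ρ z (g z) = 0} := by
      have : Continuous fun z : ℝ => P.W u ρ z (g z) := hWc.comp (continuous_id.prodMk hg)
      exact isClosed_singleton.preimage this
    have hsub : closure (Ioo 0 (P.L ρ)) ⊆ {z : ℝ | P.W u ρ z (g z) = 0} := by
      refine closure_minimal ?_ hcl
      intro z hz
      exact ((h2 Ω hΩ P u hu ρ z hz (g z)).2.2 (hn z hz)).1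
    rw [closure_Ioo (P.L_pos ρ).ne] at hsub
    exact hsub hx
  intro x hx y hy
  rcases le_or_gt y (P.σ ρ * x) with h | h
  · have := key (fun x => min y (P.σ ρ * x)) (by fun_prop)
      (fun z _ hz => absurd (min_le_right y (P.σ ρ * z)) (not_le.mpr hz.1)) x hx
    simpa [min_eq_left h] using this
  · have h' : P.σ ρ * x + P.H ρ ≤ y := by
      by_contra hcon
      exact hy ⟨h, not_le.mp hcon⟩
    have := key (fun x => max y (P.σ ρ * x + P.H ρ)) (by fun_prop)
      (fun z _ hz => absurd (le_max_right y (P.σ ρ * z + P.H ρ)) (not_le.mpr hz.2)) x hx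
    simpa [max_eq_left h'] using this

end Pool.Agent.Work.MP_33c50c_an.SK
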