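import Pool.Agent.Work.MP_33c50c_an.PK.Main
import Pool.Agent.Work.MP_33c50c_an.SK.I_Reg
import Pool.Agent.Work.MP_33c50c_an.SK.I_Wir
import Pool.Agent.Work.MP_33c50c_an.SK.I_OneR
import Pool.Agent.Work.MP_33c50c_an.SK.I_OneC
import Pool.Agent.Work.MP_33c50c_an.SK.I_LatN
import Pool.Agent.Work.MP_33c50c_an.SK.I_RNN
import Pool.Agent.Work.MP_33c50c_an.SK.I_Theta
import Pool.Agent.Work.MP_33c50c_an.SK.I_Glue
import Pool.Agent.Work.MP_33c50c_an.SK.I_DCe
import Pool.Agent.Work.MP_33c50c_an.SK.I_DC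
import Pool.Agent.Work.MP_33c50c_an.SK.I_DCL
import Pool.Agent.Work.MP_33c50c_an.SK.I_Flat
import Pool.Agent.Work.MP_33c50c_an.SK.I_RotG
import Pool.Agent.Work.MP_33c50c_an.SK.I_RotP
import Pool.Agent.Work.MP_33c50c_an.SK.I_RotE
import Pool.Agent.Work.MP_33c50c_an.SK.I_LoR
import Pool.Agent.Work.MP_33c50c_an.SK.I_Ort
import Pool.Agent.Work.MP_33c50c_an.SK.I_DecA
import Pool.Agent.Work.MP_33c50c_an.SK.I_DecR
import Pool.Agent.Work.MP_33c50c_an.SK.I_Dec
import Pool.Agent.Work.MP_33c50c_an.SK.I_EndV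
import Pool.Agent.Work.MP_33c50c_an.SK.I_EndL
import Pool.Agent.Work.MP_33c50c_an.SK.I_Cells
import Pool.Agent.Work.MP_33c50c_an.SK.I_End
import Pool.Agent.Work.MP_33c50c_an.SK.I_Split
import Pool.Agent.Work.MP_33c50c_an.SK.I_Pos
import Pool.Agent.Work.MP_33c50c_an.SK.I_Num
import Pool.Agent.Work.MP_33c50c_an.SK.I_Low
import Pool.Agent.Work.MP_33c50c_an.SK.I_CellP
import Pool.Agent.Work.MP_33c50c_an.SK.I_Cell
import Pool.Agent.Work.MP_33c50c_an.SK.I_Wpt
import Pool.Agent.Work.MP_33c50c_an.SK.I_Wreg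
import Pool.Agent.Work.MP_33c50c_an.SK.I_Wint
import Pool.Agent.Work.MP_33c50c_an.SK.I_Count
import Pool.Agent.Work.MP_33c50c_an.SK.I_Bound
import Pool.Agent.Work.MP_33c50c_an.SK.I_Perfect
import Pool.Agent.Work.MP_33c50c_an.SK.I_SymP
import Pool.Agent.Work.MP_33c50c_an.SK.I_Sym
import Pool.Agent.Work.MP_33c50c_an.SK.I_SmoothP
import Pool.Agent.Work.MP_33c50c_an.SK.I_Mid
import Pool.Agent.Work.MP_33c50c_an.SK.I_Smooth

/-! MP_33c50c_an, block SK: assembly. -/

set_option autoImplicit false

namespace Pool.Agent.Work.MP_33c50c_an.SK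

theorem main : Statement := by
  -- from the block PK
  have plat : PK.SLat := PK.Lat_proof PK.Lat1_proof
  have poneX : PK.SOneX := PK.OneX_proof PK.Cos_proof PK.Bsin_proof
  have poneY : PK.SOneY := PK.OneY_proof PK.Bcos_proof
  have prect : PK.SRect := PK.Rect_proof PK.Sin_proof PK.Bsin_proof poneX poneY
  -- functions
  have h0 : SReg := Reg_proof
  have wir : SWir := Wir_proof PK.Sin_proof poneY
  have oneR : SOneR := OneR_proof PK.Cos_proof PK.Bsin_proof
  have oneC : SOneC := OneC_proof PK.Bsin_proof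
  have latN : SLatN := LatN_proof
  have rnn : SRNN := RNN_proof h0 PK.Cos_proof oneR oneC
  have dce : SDCe := DCe_proof h0 rnn Glue_proof
  have dc : SDC := DC_proof h0 dce Theta_proof latN
  have dcl : SDCL := DCL_proof h0 dc latN
  have flat : SFlat := Flat_proof h0 prect plat
  -- decoupling
  have lor : SLoR := LoR_proof h0
  have ort : SOrt := Ort_proof h0 lor wir
  have decR : SDecR := DecR_proof h0 lor
  have dec : SDec := Dec_proof h0 lor ort DecA_proof decR
  have endV : SEndV := EndV_proof h0 RotG_proof decR dec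
  have endL : SEndL := EndL_proof h0 decR
  have cells : SCells := Cells_proof h0 dcl RotE_proof
  have en : SEnd := End_proof h0 endV endL cells
  -- parallelograms
  have split : SSplit := Split_proof RotP_proof
  have pos : SPos := Pos_proof h0 RotG_proof flat en split
  have low : SLow := Low_proof h0 wir
  have cellP : SCellP := CellP_proof h0 low Num_proof pos
  have cell : SCell := Cell_proof h0 flat cellP
  -- the cylinder
  have wpt : SWpt := Wpt_proof PK.PlaceD_proof
  have wreg : SWreg := Wreg_proof wpt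
  have wint : SWint := Wint_proof h0 wpt wreg PK.Pieces_proof
  have count : SCount := Count_proof cell wreg wint
  have bound : SBound := Bound_proof count
  have perf : SPerfect := Perfect_proof bound
  exact ⟨bound, perf, Sym_proof perf SymP_proof PK.Vol_proof, PK.main.2.2.2,
    Smooth_proof bound SmoothP_proof Mid_proof PK.Vol_proof⟩

end Pool.Agent.Work.MP_33c50c_an.SK
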