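import Mathlib
import Pool.Agent.Work.MP_33c50c_an.SK.Defs
import Pool.Agent.Work.MP_33c50c_an.PK.Stmts
import Pool.Agent.Work.MP_33c50c_an.Cyl1

/-!
# MP_33c50c_an, block SK: packings in parallelograms, statements

The proofs are in the specifications (table `helpwanted`).
-/

set_option autoImplicit false

open MeasureTheory Set
open scoped ENNReal ContDiff

namespace Pool.Agent.Work.MP_33c50c_an.SK

open Pool.Agent.Work.MP_33c50c_an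

/-! ### Functions of two variables -/

/-- continuously differentiable functions of two variables -/
def C1 (W : ℝ → ℝ → ℝ) : Prop := ContDiff ℝ 1 (fun q : ℝ × ℝ => W q.1 q.2)

/-- the derivative in the first variable -/
noncomputable def px (W : ℝ → ℝ → ℝ) (x y : ℝ) : ℝ := deriv (fun τ => W τ y) x

/-- the derivative in the second variable -/
noncomputable def py (W : ℝ → ℝ → ℝ) (x y : ℝ) : ℝ := deriv (fun τ => W x τ) y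

/-- the squared gradient -/
noncomputable def gr (W : ℝ → ℝ → ℝ) (x y : ℝ) : ℝ := px W x y ^ 2 + py W x y ^ 2

/-- linear functionals on the continuously differentiable functions -/
def IsLin (ℓ : (ℝ → ℝ → ℝ) → ℝ) : Prop :=
  (∀ U V : ℝ → ℝ → ℝ, C1 U → C1 V → ℓ (fun x y => U x y + V x y) = ℓ U + ℓ V) ∧
  ∀ (a : ℝ) (U : ℝ → ℝ → ℝ), C1 U → ℓ (fun x y => a * U x y) = a * ℓ U

/-- (Reg) regularity. -/
def SReg : Prop :=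
  ∀ W : ℝ → ℝ → ℝ, C1 W →
    (Continuous fun q : ℝ × ℝ => W q.1 q.2) ∧ (Continuous fun q : ℝ × ℝ => px W q.1 q.2) ∧
    (Continuous fun q : ℝ × ℝ => py W q.1 q.2) ∧
    (∀ x y, HasDerivAt (fun τ => W τ y) (px W x y) x) ∧
    (∀ x y, HasDerivAt (fun τ => W x τ) (py W x y) y)

/-! ### One dimensional inequalities -/

/-- (Wir) Wirtinger's inequality for functions orthogonal to the first `m₀` sines. -/
def SWir : Prop :=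
  ∀ H : ℝ, 0 < H → ∀ g g' : ℝ → ℝ, Continuous g' → (∀ y, HasDerivAt g (g' y) y) →
    g 0 = 0 → g H = 0 → ∀ m₀ : ℕ,
    (∀ m < m₀, ∫ y in (0:ℝ)..H, g y * Real.sin ((m + 1) * Real.pi * y / H) = 0) →
    ((m₀ + 1) * Real.pi / H) ^ 2 * ∫ y in (0:ℝ)..H, g y ^ 2 ≤ ∫ y in (0:ℝ)..H, g' y ^ 2

/-- (OneR) the one dimensional inequality with a remainder, cosines. -/
def SOneR : Prop :=
  ∀ L : ℝ, 0 < L → ∀ κ : ℝ, 0 ≤ κ → ∀ a a' : ℝ → ℝ, Continuous a' →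
    (∀ x, HasDerivAt a (a' x) x) → ∀ N : Finset ℕ, (∀ n : ℕ, n * Real.pi / L < κ → n ∈ N) →
    κ ^ 2 * ∫ x in (0:ℝ)..L, a x ^ 2 ≤ (∫ x in (0:ℝ)..L, a' x ^ 2) +
      κ ^ 2 * (2 / L * ∑ n ∈ N, (∫ x in (0:ℝ)..L, a x * Real.cos (n * Real.pi * x / L)) ^ 2)

/-- (OneC) Bessel's inequality for the derivative, cosines. -/
def SOneC : Prop :=
  ∀ H : ℝ, 0 < H → ∀ g g' : ℝ → ℝ, Continuous g' → (∀ y, HasDerivAt g (g' y) y) → ∀ K : ℕ,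
    ∑ m ∈ Finset.range K, (m * Real.pi / H) ^ 2 *
      ((if m = 0 then 1 else 2) / H *
        (∫ y in (0:ℝ)..H, g y * Real.cos (m * Real.pi * y / H)) ^ 2) ≤
      ∫ y in (0:ℝ)..H, g' y ^ 2

/-! ### Rectangles -/

/-- (LatN) lattice points in a quarter of an ellipse, both axes included. -/
def SLatN : Prop :=
  ∀ a b μ : ℝ, 0 < a → 0 < b → 0 < μ → ∃ S : Finset (ℕ × ℕ),
    (∀ n m : ℕ, (n * b) ^ 2 + (m * a) ^ 2 < (μ * a * b / Real.pi) ^ 2 → (n, m) ∈ S) ∧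
    (S.card : ℝ) ≤ a * b * μ ^ 2 / (4 * Real.pi) + (a + b) * μ / Real.pi + 1

/-- (RNN) the inequality on a rectangle with Neumann conditions, with a remainder. -/
def SRNN : Prop :=
  ∀ a b μ : ℝ, 0 < a → 0 < b → 0 < μ → ∀ U : ℝ → ℝ → ℝ, C1 U → ∀ S : Finset (ℕ × ℕ),
    (∀ n m : ℕ, (n * b) ^ 2 + (m * a) ^ 2 < (μ * a * b / Real.pi) ^ 2 → (n, m) ∈ S) →
    μ ^ 2 * (∫ x in (0:ℝ)..a, ∫ y in (0:ℝ)..b, U x y ^ 2) ≤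
      (∫ x in (0:ℝ)..a, ∫ y in (0:ℝ)..b, gr U x y) +
      μ ^ 2 * (4 / (a * b) * ∑ s ∈ S, (∫ x in (0:ℝ)..a, ∫ y in (0:ℝ)..b,
        U x y * (Real.cos (s.1 * Real.pi * x / a) * Real.cos (s.2 * Real.pi * y / b))) ^ 2)

/-- (Theta) truncation. -/
def STheta : Prop :=
  ∃ θ : ℝ → ℝ, ContDiff ℝ 1 θ ∧ (∀ τ, |τ| ≤ 1 → θ τ = 0) ∧ (∀ τ, |deriv θ τ| ≤ 1) ∧
    ∀ τ, |θ τ - τ| ≤ 2

/-- (Glue) gluing of two functions which vanish near a segment. -/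
def SGlue : Prop :=
  ∀ a g₀ k : ℝ, 0 < a → ∀ F G : ℝ → ℝ → ℝ, C1 F → C1 G →
    (∀ x ∈ Icc 0 a, ∀ᶠ q : ℝ × ℝ in nhds (x, g₀ + k * x), F q.1 q.2 = 0 ∧ G q.1 q.2 = 0) →
    ∃ U : ℝ → ℝ → ℝ, C1 U ∧ ∀ x ∈ Icc 0 a, ∀ y : ℝ,
      U x y = if y < g₀ + k * x then F x y else G x y

/-- coefficient of a function on a trapezoid. -/
noncomputable def cc (a b g₀ k : ℝ) (n m : ℕ) (V : ℝ → ℝ → ℝ) : ℝ :=
  ∫ x in (0:ℝ)..a, ∫ y in (0:ℝ)..(g₀ + k * x),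
    V x y * (Real.cos (n * Real.pi * x / a) * Real.cos (m * Real.pi * y / b))

/-- coefficient of a function on the complementary trapezoid. -/
noncomputable def cr (a b g₀ k : ℝ) (n m : ℕ) (V : ℝ → ℝ → ℝ) : ℝ :=
  ∫ x in (0:ℝ)..a, ∫ y in (0:ℝ)..(g₀ + k * x),
    V x y * (Real.cos (n * Real.pi * (a - x) / a) * Real.cos (m * Real.pi * (b - y) / b))

/-- (DCe) the truncated functions. -/
def SDCe : Prop :=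
  ∀ a b μ g₀ k : ℝ, 0 < a → 0 < b → 0 < μ → g₀ + (g₀ + k * a) = b →
    (∀ x ∈ Icc 0 a, 0 ≤ g₀ + k * x) → ∀ V₁ V₂ : ℝ → ℝ → ℝ, C1 V₁ → C1 V₂ →
    (∀ x ∈ Icc 0 a, V₁ x (g₀ + k * x) = 0 ∧ V₂ x (g₀ + k * x) = 0) →
    ∀ θ : ℝ → ℝ, ContDiff ℝ 1 θ → (∀ τ, |τ| ≤ 1 → θ τ = 0) → (∀ τ, |deriv θ τ| ≤ 1) →
    ∀ ε : ℝ, 0 < ε → ∀ S : Finset (ℕ × ℕ),
    (∀ n m : ℕ, (n * b) ^ 2 + (m * a) ^ 2 < (μ * a * b / Real.pi) ^ 2 → (n, m) ∈ S) →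
    μ ^ 2 * (∫ x in (0:ℝ)..a, ∫ y in (0:ℝ)..(g₀ + k * x),
        ((ε * θ (V₁ x y / ε)) ^ 2 + (ε * θ (V₂ x y / ε)) ^ 2)) ≤
      (∫ x in (0:ℝ)..a, ∫ y in (0:ℝ)..(g₀ + k * x), (gr V₁ x y + gr V₂ x y)) +
      μ ^ 2 * (4 / (a * b) * ∑ s ∈ S, (cc a b g₀ k s.1 s.2 (fun x y => ε * θ (V₁ x y / ε)) +
        cr a b g₀ k s.1 s.2 (fun x y => ε * θ (V₂ x y / ε))) ^ 2)

/-- (DC) two functions on a trapezoid which vanish on the slanted side. -/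
def SDC : Prop :=
  ∀ a b μ g₀ k : ℝ, 0 < a → 0 < b → 0 < μ → g₀ + (g₀ + k * a) = b →
    (∀ x ∈ Icc 0 a, 0 ≤ g₀ + k * x) → ∀ V₁ V₂ : ℝ → ℝ → ℝ, C1 V₁ → C1 V₂ →
    (∀ x ∈ Icc 0 a, V₁ x (g₀ + k * x) = 0 ∧ V₂ x (g₀ + k * x) = 0) →
    (∀ n m : ℕ, (n * b) ^ 2 + (m * a) ^ 2 < (μ * a * b / Real.pi) ^ 2 →
      cc a b g₀ k n m V₁ + cr a b g₀ k n m V₂ = 0) →
    μ ^ 2 * (∫ x in (0:ℝ)..a, ∫ y in (0:ℝ)..(g₀ + k * x), (V₁ x y ^ 2 + V₂ x y ^ 2)) ≤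
      ∫ x in (0:ℝ)..a, ∫ y in (0:ℝ)..(g₀ + k * x), (gr V₁ x y + gr V₂ x y)

/-- (DCL) the same with a number of linear conditions. -/
def SDCL : Prop :=
  ∀ a b μ g₀ k : ℝ, 0 < a → 0 < b → 0 < μ → g₀ + (g₀ + k * a) = b →
    (∀ x ∈ Icc 0 a, 0 ≤ g₀ + k * x) → ∃ (K : ℕ) (A B : Fin K → (ℝ → ℝ → ℝ) → ℝ),
    (K : ℝ) ≤ a * b * μ ^ 2 / (4 * Real.pi) + (a + b) * μ / Real.pi + 1 ∧
    (∀ j, IsLin (A j) ∧ IsLin (B j)) ∧ ∀ V₁ V₂ : ℝ → ℝ → ℝ, C1 V₁ → C1 V₂ →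
    (∀ x ∈ Icc 0 a, V₁ x (g₀ + k * x) = 0 ∧ V₂ x (g₀ + k * x) = 0) →
    (∀ j, A j V₁ + B j V₂ = 0) →
    μ ^ 2 * (∫ x in (0:ℝ)..a, ∫ y in (0:ℝ)..(g₀ + k * x), (V₁ x y ^ 2 + V₂ x y ^ 2)) ≤
      ∫ x in (0:ℝ)..a, ∫ y in (0:ℝ)..(g₀ + k * x), (gr V₁ x y + gr V₂ x y)

/-- (Flat) a rectangle with Dirichlet conditions on the horizontal sides. -/
def SFlat : Prop :=
  ∀ L H μ : ℝ, 0 < L → 0 < H → 4 * H ≤ L → 0 < μ →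
    ∃ (K : ℕ) (ℓ : Fin K → (ℝ → ℝ → ℝ) → ℝ),
    (K : ℝ) ≤ L * μ * max 0 (H * μ - 1 / 4) / (4 * Real.pi) ∧ (∀ j, IsLin (ℓ j)) ∧
    ∀ W : ℝ → ℝ → ℝ, C1 W → (∀ x ∈ Icc 0 L, W x 0 = 0 ∧ W x H = 0) → (∀ j, ℓ j W = 0) →
    μ ^ 2 * (∫ x in (0:ℝ)..L, ∫ y in (0:ℝ)..H, W x y ^ 2) ≤
      ∫ x in (0:ℝ)..L, ∫ y in (0:ℝ)..H, gr W x y

/-! ### Rotation -/

/-- the function in the rotated coordinates: `c = cos α`, `s = tan α`. -/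
def rt (c s : ℝ) (F : ℝ → ℝ → ℝ) (ξ η : ℝ) : ℝ := F (c * ξ - s * c * η) (s * c * ξ + c * η)

/-- (RotG) rotations are isometries. -/
def SRotG : Prop :=
  ∀ c s : ℝ, c ^ 2 * (1 + s ^ 2) = 1 → ∀ W : ℝ → ℝ → ℝ, C1 W →
    C1 (rt c s W) ∧ ∀ ξ η, gr (rt c s W) ξ η = gr W (c * ξ - s * c * η) (s * c * ξ + c * η)

/-- (RotP) the integral over the parallelogram. -/
def SRotP : Prop :=
  ∀ c s L H : ℝ, 0 < c → c ^ 2 * (1 + s ^ 2) = 1 → 0 ≤ L → 0 ≤ H → ∀ F : ℝ → ℝ → ℝ,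
    (Continuous fun q : ℝ × ℝ => F q.1 q.2) →
    ∫ x in (0:ℝ)..L, ∫ y in (s * x)..(s * x + H), F x y =
      ∫ η in (0:ℝ)..(c * H), ∫ ξ in (s * η)..(L / c + s * η), rt c s F ξ η

/-- the integral over the end of the parallelogram, in the rotated coordinates. -/
noncomputable def ie (c s H δ : ℝ) (F : ℝ → ℝ → ℝ) : ℝ :=
  ∫ η in (0:ℝ)..(c * H), ∫ ξ in (s * η)..(s * (c * H) + δ), rt c s F ξ η

/-- (RotE) the integral over the end of the parallelogram; `x₃, y₃` is the corner of the end on the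
lower side. -/
def SRotE : Prop :=
  ∀ c s H δ x₃ y₃ : ℝ, 0 < c → 0 < s → c ^ 2 * (1 + s ^ 2) = 1 → 0 < H → 0 < δ →
    x₃ = c * (s * (c * H) + δ) → y₃ = s * x₃ → ∀ F : ℝ → ℝ → ℝ,
    (Continuous fun q : ℝ × ℝ => F q.1 q.2) →
    ie c s H δ F = (∫ x in (0:ℝ)..x₃, ∫ y in (s * x)..y₃, F x y) +
      (∫ x in (0:ℝ)..(c * δ), ∫ y in y₃..(s * x + H), F x y) +
      ∫ x in (c * δ)..x₃, ∫ y in y₃..(y₃ + (x₃ - x) / s), F x y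

/-! ### Decoupling -/

/-- sine coefficients on vertical segments. -/
noncomputable def cf (h : ℝ) (w : ℝ → ℝ → ℝ) (m : ℕ) (t : ℝ) : ℝ :=
  2 / h * ∫ y in (0:ℝ)..h, w t y * Real.sin ((m + 1) * Real.pi * y / h)

/-- the first `m₀` sine modes. -/
noncomputable def lo (h : ℝ) (m₀ : ℕ) (w : ℝ → ℝ → ℝ) (t η : ℝ) : ℝ :=
  ∑ m ∈ Finset.range m₀, cf h w m t * Real.sin ((m + 1) * Real.pi * η / h)

/-- the other modes. -/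
noncomputable def hi (h : ℝ) (m₀ : ℕ) (w : ℝ → ℝ → ℝ) (t η : ℝ) : ℝ := w t η - lo h m₀ w t η

/-- the cutoff function. -/
noncomputable def phi (μ δ t : ℝ) : ℝ :=
  if t ≤ δ then (Real.cosh (2 * μ * (δ - t)) - 1) / (Real.cosh (2 * μ * δ) - 1) else 0

/-- the decoupled function. -/
noncomputable def dec (h : ℝ) (m₀ : ℕ) (μ δ : ℝ) (w : ℝ → ℝ → ℝ) (t η : ℝ) : ℝ :=
  w t η - phi μ δ t * hi h m₀ w t η

/-- (LoR) regularity of the modes. -/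
def SLoR : Prop :=
  ∀ (h : ℝ) (m₀ : ℕ) (w : ℝ → ℝ → ℝ), 0 < h → C1 w →
    C1 (lo h m₀ w) ∧ C1 (hi h m₀ w) ∧
    (∀ t η, px (lo h m₀ w) t η = lo h m₀ (px w) t η) ∧
    (∀ t η, py (lo h m₀ w) t η = ∑ m ∈ Finset.range m₀,
      cf h w m t * ((m + 1) * Real.pi / h * Real.cos ((m + 1) * Real.pi * η / h)))

/-- (Ort) orthogonality. -/
def SOrt : Prop :=
  ∀ (h : ℝ) (m₀ : ℕ) (w : ℝ → ℝ → ℝ), 0 < h → C1 w → ∀ t : ℝ, w t 0 = 0 → w t h = 0 →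
    (∫ y in (0:ℝ)..h, lo h m₀ w t y * hi h m₀ w t y) = 0 ∧
    (∫ y in (0:ℝ)..h, px (lo h m₀ w) t y * hi h m₀ w t y) = 0 ∧
    (∫ y in (0:ℝ)..h, px (lo h m₀ w) t y * px (hi h m₀ w) t y) = 0 ∧
    (∫ y in (0:ℝ)..h, py (lo h m₀ w) t y * py (hi h m₀ w) t y) = 0 ∧
    ((m₀ + 1) * Real.pi / h) ^ 2 * (∫ y in (0:ℝ)..h, hi h m₀ w t y ^ 2) ≤
      ∫ y in (0:ℝ)..h, py (hi h m₀ w) t y ^ 2

/-- (DecA) the one dimensional inequality for the decoupling, `φ` and `φ'` are the cutoff function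
and its derivative on `[0, δ]`. -/
def SDecA : Prop :=
  ∀ μ δ : ℝ, 0 < μ → 0 < δ → ∀ A B D G : ℝ → ℝ, Continuous B → Continuous D → Continuous G →
    (∀ t, HasDerivAt A (2 * D t) t) → (∀ t ∈ Icc 0 δ, 0 ≤ A t ∧ 0 ≤ B t ∧ 4 * μ ^ 2 * A t ≤ G t) →
    ∀ φ φ' : ℝ → ℝ,
    (∀ t, φ t = (Real.cosh (2 * μ * (δ - t)) - 1) / (Real.cosh (2 * μ * δ) - 1)) →
    (∀ t, φ' t = -(2 * μ * Real.sinh (2 * μ * (δ - t))) / (Real.cosh (2 * μ * δ) - 1)) →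
    (∫ t in (0:ℝ)..δ, ((1 - φ t) ^ 2 * B t - 2 * ((1 - φ t) * φ' t) * D t + φ' t ^ 2 * A t +
      (1 - φ t) ^ 2 * (G t - μ ^ 2 * A t))) ≤
      (∫ t in (0:ℝ)..δ, (B t + (G t - μ ^ 2 * A t))) +
        4 * μ ^ 2 / (Real.cosh (2 * μ * δ) - 1) * ∫ t in (0:ℝ)..δ, A t

/-- (DecR) properties of the decoupled function. -/
def SDecR : Prop :=
  ∀ (h : ℝ) (m₀ : ℕ) (μ δ : ℝ), 0 < h → 0 < μ → 0 < δ → ∀ w : ℝ → ℝ → ℝ, C1 w →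
    C1 (dec h m₀ μ δ w) ∧ (∀ t η, δ ≤ t → dec h m₀ μ δ w t η = w t η) ∧
    (∀ t, w t 0 = 0 → dec h m₀ μ δ w t 0 = 0) ∧ (∀ t, w t h = 0 → dec h m₀ μ δ w t h = 0) ∧
    ((∀ m < m₀, cf h w m 0 = 0) → ∀ η, dec h m₀ μ δ w 0 η = 0) ∧
    (∀ (w' : ℝ → ℝ → ℝ), C1 w' → dec h m₀ μ δ (fun t η => w t η + w' t η) =
      fun t η => dec h m₀ μ δ w t η + dec h m₀ μ δ w' t η) ∧
    (∀ r : ℝ, dec h m₀ μ δ (fun t η => r * w t η) = fun t η => r * dec h m₀ μ δ w t η)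

/-- (Dec) the energy of the decoupled function. -/
def SDec : Prop :=
  ∀ (h : ℝ) (m₀ : ℕ) (μ δ : ℝ), 0 < h → 0 < μ → 0 < δ → 2 * μ ≤ (m₀ + 1) * Real.pi / h →
    ∀ w : ℝ → ℝ → ℝ, C1 w → (∀ t ∈ Icc 0 δ, w t 0 = 0 ∧ w t h = 0) →
    (∫ t in (0:ℝ)..δ, ∫ η in (0:ℝ)..h,
      (gr (dec h m₀ μ δ w) t η - μ ^ 2 * dec h m₀ μ δ w t η ^ 2)) ≤
      (∫ t in (0:ℝ)..δ, ∫ η in (0:ℝ)..h, (gr w t η - μ ^ 2 * w t η ^ 2)) +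
        4 * μ ^ 2 / (Real.cosh (2 * μ * δ) - 1) * ∫ t in (0:ℝ)..δ, ∫ η in (0:ℝ)..h, w t η ^ 2

/-! ### The end of the parallelogram -/

/-- `W` in the coordinates `t, η` of the end. -/
def tw (c s H δ : ℝ) (W : ℝ → ℝ → ℝ) (t η : ℝ) : ℝ := rt c s W (s * (c * H) + δ - t) η

/-- the decoupled function in the original coordinates. -/
noncomputable def dv (c s H δ μ : ℝ) (m₀ : ℕ) (W : ℝ → ℝ → ℝ) (x y : ℝ) : ℝ :=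
  dec (c * H) m₀ μ δ (tw c s H δ W) (s * (c * H) + δ - (c * x + s * c * y)) (-(s * c * x) + c * y)

/-- (EndV) decoupling of the end. -/
def SEndV : Prop :=
  ∀ (c s H δ μ : ℝ) (m₀ : ℕ) (x₃ y₃ : ℝ), 0 < c → 0 < s → c ^ 2 * (1 + s ^ 2) = 1 → 0 < H →
    0 < δ → 0 < μ → 2 * μ ≤ (m₀ + 1) * Real.pi / (c * H) →
    x₃ = c * (s * (c * H) + δ) → y₃ = s * x₃ → ∀ W : ℝ → ℝ → ℝ, C1 W →
    (∀ x ∈ Icc 0 x₃, W x (s * x) = 0 ∧ W x (s * x + H) = 0) →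
    (∀ m < m₀, cf (c * H) (tw c s H δ W) m 0 = 0) →
    (∀ x ∈ Icc 0 x₃, dv c s H δ μ m₀ W x (s * x) = 0) ∧
    (∀ x ∈ Icc 0 (c * δ), dv c s H δ μ m₀ W x (s * x + H) = 0) ∧
    (∀ x ∈ Icc (c * δ) x₃, dv c s H δ μ m₀ W x (y₃ + (x₃ - x) / s) = 0) ∧
    ie c s H δ (fun x y => gr (dv c s H δ μ m₀ W) x y - μ ^ 2 * dv c s H δ μ m₀ W x y ^ 2) ≤
      ie c s H δ (fun x y => gr W x y - μ ^ 2 * W x y ^ 2) +
        4 * μ ^ 2 / (Real.cosh (2 * μ * δ) - 1) * ie c s H δ (fun x y => W x y ^ 2)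

/-- (EndL) the map `dv` is linear and preserves `C1`. -/
def SEndL : Prop :=
  ∀ (c s H δ μ : ℝ) (m₀ : ℕ), 0 < c → 0 < s → c ^ 2 * (1 + s ^ 2) = 1 → 0 < H →
    0 < δ → 0 < μ → (∀ W : ℝ → ℝ → ℝ, C1 W → C1 (dv c s H δ μ m₀ W)) ∧
    (∀ ℓ : (ℝ → ℝ → ℝ) → ℝ, IsLin ℓ → IsLin (fun W => ℓ (dv c s H δ μ m₀ W))) ∧
    ∀ m : ℕ, IsLin (fun W => cf (c * H) (tw c s H δ W) m 0)

/-- (Cells) the end is cut in three trapezoids. -/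
def SCells : Prop :=
  ∀ (c s H δ μ x₃ y₃ : ℝ), 0 < c → 0 < s → s ≤ 1 / 2 → c ^ 2 * (1 + s ^ 2) = 1 → 0 < H →
    0 < δ → δ ≤ H → 0 < μ → x₃ = c * (s * (c * H) + δ) → y₃ = s * x₃ →
    ∃ (K : ℕ) (A B : Fin K → (ℝ → ℝ → ℝ) → ℝ),
    (K : ℝ) ≤ (2 * δ + s * (c * H)) * (c * H) * μ ^ 2 / (4 * Real.pi) +
      13 / 2 * H * μ / Real.pi + 3 ∧
    (∀ j, IsLin (A j) ∧ IsLin (B j)) ∧ ∀ V₁ V₂ : ℝ → ℝ → ℝ, C1 V₁ → C1 V₂ →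
    (∀ V, V = V₁ ∨ V = V₂ → (∀ x ∈ Icc 0 x₃, V x (s * x) = 0) ∧
      (∀ x ∈ Icc 0 (c * δ), V x (s * x + H) = 0) ∧
      ∀ x ∈ Icc (c * δ) x₃, V x (y₃ + (x₃ - x) / s) = 0) →
    (∀ j, A j V₁ + B j V₂ = 0) →
    0 ≤ ie c s H δ (fun x y => gr V₁ x y - μ ^ 2 * V₁ x y ^ 2) +
      ie c s H δ (fun x y => gr V₂ x y - μ ^ 2 * V₂ x y ^ 2)

/-- (End) the two ends. -/
def SEnd : Prop :=
  ∀ (c s H δ μ : ℝ), 0 < c → 0 < s → s ≤ 1 / 2 → c ^ 2 * (1 + s ^ 2) = 1 → 0 < H →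
    0 < δ → δ ≤ H → Real.pi < H * μ →
    ∃ (K : ℕ) (A B : Fin K → (ℝ → ℝ → ℝ) → ℝ),
    (K : ℝ) ≤ (2 * δ + s * (c * H)) * (c * H) * μ ^ 2 / (4 * Real.pi) + 14 * H * μ / Real.pi ∧
    (∀ j, IsLin (A j) ∧ IsLin (B j)) ∧ ∀ W₁ W₂ : ℝ → ℝ → ℝ, C1 W₁ → C1 W₂ →
    (∀ x ∈ Icc 0 (c * (s * (c * H) + δ)), (W₁ x (s * x) = 0 ∧ W₁ x (s * x + H) = 0) ∧
      (W₂ x (s * x) = 0 ∧ W₂ x (s * x + H) = 0)) →
    (∀ j, A j W₁ + B j W₂ = 0) →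
    -(4 * μ ^ 2 / (Real.cosh (2 * μ * δ) - 1) *
        (ie c s H δ (fun x y => W₁ x y ^ 2) + ie c s H δ (fun x y => W₂ x y ^ 2))) ≤
      ie c s H δ (fun x y => gr W₁ x y - μ ^ 2 * W₁ x y ^ 2) +
      ie c s H δ (fun x y => gr W₂ x y - μ ^ 2 * W₂ x y ^ 2)

/-! ### Parallelograms -/

/-- the function rotated by 180 degrees. -/
def rv (s L H : ℝ) (W : ℝ → ℝ → ℝ) (x y : ℝ) : ℝ := W (L - x) (s * L + H - y)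

/-- (Split) the parallelogram is the union of two ends and a rectangle. -/
def SSplit : Prop :=
  ∀ c s L H δ : ℝ, 0 < c → 0 < s → c ^ 2 * (1 + s ^ 2) = 1 → 0 ≤ L → 0 ≤ H → ∀ F : ℝ → ℝ → ℝ,
    (Continuous fun q : ℝ × ℝ => F q.1 q.2) →
    ∫ x in (0:ℝ)..L, ∫ y in (s * x)..(s * x + H), F x y =
      ie c s H δ F + ie c s H δ (rv s L H F) +
      ∫ x in (0:ℝ)..(L / c - s * (c * H) - 2 * δ), ∫ y in (0:ℝ)..(c * H),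
        rt c s F (s * (c * H) + δ + x) y

/-- (Pos) the parallelogram, positive slope, in terms of `μ` and `δ`. -/
def SPos : Prop :=
  ∀ (c s L H δ μ : ℝ), 0 < c → 0 < s → s ≤ 1 / 2 → c ^ 2 * (1 + s ^ 2) = 1 → 0 < H →
    400 * H ≤ L → 0 < δ → δ ≤ H → Real.pi < H * μ →
    ∃ (K : ℕ) (ℓ : Fin K → (ℝ → ℝ → ℝ) → ℝ),
    (K : ℝ) ≤ L * H * μ ^ 2 / (4 * Real.pi) - (L - 3 * H) * μ / (16 * Real.pi) +
      14 * H * μ / Real.pi ∧ (∀ j, IsLin (ℓ j)) ∧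
    ∀ W : ℝ → ℝ → ℝ, C1 W → (∀ x ∈ Icc 0 L, W x (s * x) = 0 ∧ W x (s * x + H) = 0) →
    (∀ j, ℓ j W = 0) →
    (μ ^ 2 - 4 * μ ^ 2 / (Real.cosh (2 * μ * δ) - 1)) *
      (∫ x in (0:ℝ)..L, ∫ y in (s * x)..(s * x + H), W x y ^ 2) ≤
      ∫ x in (0:ℝ)..L, ∫ y in (s * x)..(s * x + H), gr W x y

/-- (Num) the choice of `μ` and `δ`. -/
def SNum : Prop :=
  ∀ L H lam : ℝ, 0 < H → 400 * H ≤ L → Real.pi < H * Real.sqrt lam → ∃ μ δ : ℝ,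
    Real.pi < H * μ ∧ 0 < δ ∧ δ ≤ H ∧ lam ≤ μ ^ 2 - 4 * μ ^ 2 / (Real.cosh (2 * μ * δ) - 1) ∧
    L * H * μ ^ 2 / (4 * Real.pi) - (L - 3 * H) * μ / (16 * Real.pi) + 14 * H * μ / Real.pi ≤
      L * Real.sqrt lam * (H * Real.sqrt lam - 1 / 32) / (4 * Real.pi)

/-- (Low) low energies. -/
def SLow : Prop :=
  ∀ s L H lam : ℝ, 0 < L → 0 < H → 0 < lam → H * Real.sqrt lam ≤ Real.pi →
    ∀ W : ℝ → ℝ → ℝ, C1 W → (∀ x ∈ Icc 0 L, W x (s * x) = 0 ∧ W x (s * x + H) = 0) →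
    lam * (∫ x in (0:ℝ)..L, ∫ y in (s * x)..(s * x + H), W x y ^ 2) ≤
      ∫ x in (0:ℝ)..L, ∫ y in (s * x)..(s * x + H), gr W x y

/-- (Cell) the counting function of a parallelogram. -/
def SCell : Prop :=
  ∀ s L H lam : ℝ, 0 < L → 0 ≤ H → ((s = 0 ∧ 4 * H ≤ L) ∨ (|s| ≤ 1 / 2 ∧ 400 * H ≤ L)) →
    0 < lam → ∃ (K : ℕ) (ℓ : Fin K → (ℝ → ℝ → ℝ) → ℝ),
    (K : ℝ) ≤ L * Real.sqrt lam * max 0 (H * Real.sqrt lam - gap s) / (4 * Real.pi) ∧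
    (∀ j, IsLin (ℓ j)) ∧
    ∀ W : ℝ → ℝ → ℝ, C1 W → (∀ x ∈ Icc 0 L, W x (s * x) = 0 ∧ W x (s * x + H) = 0) →
    (∀ j, ℓ j W = 0) →
    lam * (∫ x in (0:ℝ)..L, ∫ y in (s * x)..(s * x + H), W x y ^ 2) ≤
      ∫ x in (0:ℝ)..L, ∫ y in (s * x)..(s * x + H), gr W x y

/-- (CellP) the same for positive slopes. -/
def SCellP : Prop :=
  ∀ s L H lam : ℝ, 0 < L → 0 < H → 0 < s → s ≤ 1 / 2 → 400 * H ≤ L →
    0 < lam → ∃ (K : ℕ) (ℓ : Fin K → (ℝ → ℝ → ℝ) → ℝ),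
    (K : ℝ) ≤ L * Real.sqrt lam * max 0 (H * Real.sqrt lam - 1 / 32) / (4 * Real.pi) ∧
    (∀ j, IsLin (ℓ j)) ∧
    ∀ W : ℝ → ℝ → ℝ, C1 W → (∀ x ∈ Icc 0 L, W x (s * x) = 0 ∧ W x (s * x + H) = 0) →
    (∀ j, ℓ j W = 0) →
    lam * (∫ x in (0:ℝ)..L, ∫ y in (s * x)..(s * x + H), W x y ^ 2) ≤
      ∫ x in (0:ℝ)..L, ∫ y in (s * x)..(s * x + H), gr W x y

/-! ### The cylinder -/

section W
variable {Ω : Set Cyl} (P : SkewPacking Ω)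

/-- the placement of the piece `(q, i)`. -/
noncomputable def SkewPacking.pl (q : Fin P.p) (i : ℕ) (x y : ℝ) : Cyl :=
  PK.place (P.t q i) (P.L (P.r q i)) (P.sx q i) (P.sy q i) (P.c q i) x y

/-- the superposition of the transplanted functions in the parallelogram `ρ`. -/
noncomputable def SkewPacking.W (u : Fin P.p → Cyl → ℝ) (ρ : Fin P.nR) (x y : ℝ) : ℝ :=
  ∑ q, ∑ i ∈ Finset.range (P.n q), if P.r q i = ρ then u q (P.pl q i x y) else 0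

end W

/-- (Wreg) regularity of the superposition. -/
def SWreg : Prop :=
  ∀ Ω : Set Cyl, IsOpen Ω → ∀ P : SkewPacking Ω, ∀ u : Fin P.p → Cyl → ℝ,
    (∀ q, IsTest Ω (u q)) → ∀ ρ : Fin P.nR, C1 (P.W u ρ) ∧
    (∀ x ∈ Icc 0 (P.L ρ), ∀ y : ℝ, ¬ (P.σ ρ * x < y ∧ y < P.σ ρ * x + P.H ρ) → P.W u ρ x y = 0)

/-- (Wpt) squares of the superposition at a point. -/
def SWpt : Prop :=
  ∀ Ω : Set Cyl, IsOpen Ω → ∀ P : SkewPacking Ω, ∀ u : Fin P.p → Cyl → ℝ,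
    (∀ q, IsTest Ω (u q)) → ∀ ρ : Fin P.nR, ∀ x ∈ Ioo 0 (P.L ρ), ∀ y : ℝ,
    (P.W u ρ x y ^ 2 =
      ∑ q, ∑ i ∈ Finset.range (P.n q), if P.r q i = ρ then u q (P.pl q i x y) ^ 2 else 0) ∧
    (gr (P.W u ρ) x y =
      ∑ q, ∑ i ∈ Finset.range (P.n q), if P.r q i = ρ then
        dX (u q) (P.pl q i x y) ^ 2 + dY (u q) (P.pl q i x y) ^ 2 else 0) ∧
    (¬ (P.σ ρ * x < y ∧ y < P.σ ρ * x + P.H ρ) → P.W u ρ x y = 0 ∧ gr (P.W u ρ) x y = 0)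

/-- (Wint) the masses and the energies. -/
def SWint : Prop :=
  ∀ Ω : Set Cyl, IsOpen Ω → ∀ P : SkewPacking Ω, ∀ u : Fin P.p → Cyl → ℝ,
    (∀ q, IsTest Ω (u q)) →
    (∑ q, mass (u q) = ∑ ρ, ∫ x in (0:ℝ)..(P.L ρ),
      ∫ y in (P.σ ρ * x)..(P.σ ρ * x + P.H ρ), P.W u ρ x y ^ 2) ∧
    ∑ q, energy (u q) = ∑ ρ, ∫ x in (0:ℝ)..(P.L ρ),
      ∫ y in (P.σ ρ * x)..(P.σ ρ * x + P.H ρ), gr (P.W u ρ) x y

/-- (Count) the count. -/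
def SCount : Prop :=
  ∀ Ω : Set Cyl, IsOpen Ω → ∀ P : SkewPacking Ω, ∀ V : Submodule ℝ (Cyl → ℝ),
    (∀ u ∈ V, IsTest Ω u) → ∀ k : ℕ, Module.finrank ℝ V = k → 1 ≤ k → ∀ lam lam' : ℝ,
    lam < lam' → 0 < lam' → (∀ u ∈ V, energy u ≤ lam * mass u) →
    (k : ℝ) ≤ P.bound lam'

/-- (SymP) the packing of a graph domain with symmetric pieces. -/
def SSymP : Prop :=
  ∀ f h : AddCircle (2 * Real.pi) → ℝ, Continuous f → Continuous h → (∀ θ, 0 ≤ h θ) →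
    ∀ (n : ℕ) (t s : ℕ → ℝ), t n = t 0 + 2 * Real.pi →
    (∀ i < n, t i < t (i + 1) ∧
      ((s i = 0 ∧
        4 * (h (t i : AddCircle (2 * Real.pi)) + h (t (i + 1) : AddCircle (2 * Real.pi))) ≤
          t (i + 1) - t i) ∨
        (|s i| ≤ 1 / 2 ∧
        400 * (h (t i : AddCircle (2 * Real.pi)) + h (t (i + 1) : AddCircle (2 * Real.pi))) ≤
          t (i + 1) - t i)) ∧
      ∀ x ∈ Icc (t i) (t (i + 1)),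
        f (x : AddCircle (2 * Real.pi)) = f (t i : AddCircle (2 * Real.pi)) + s i * (x - t i) ∧
        h (x : AddCircle (2 * Real.pi)) + h ((t i + t (i + 1) - x : ℝ) : AddCircle (2 * Real.pi)) =
        h (t i : AddCircle (2 * Real.pi)) + h (t (i + 1) : AddCircle (2 * Real.pi))) →
    ∃ P : SkewPacking (PK.graphDomain f h), P.p = 2 ∧ ∑ ρ, P.L ρ * P.H ρ =
      ∑ i ∈ Finset.range n, (t (i + 1) - t i) *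
        (h (t i : AddCircle (2 * Real.pi)) + h (t (i + 1) : AddCircle (2 * Real.pi)))

/-- (SmoothP) the packing of a smooth graph domain: two copies, `m` pieces of the same width `w`. -/
def SSmoothP : Prop :=
  ∀ (f h : AddCircle (2 * Real.pi) → ℝ) (f' h' : ℝ → ℝ) (κ w : ℝ) (m : ℕ), 0 < κ → 1 ≤ m →
    m * w = 2 * Real.pi →
    (∀ x : ℝ, HasDerivAt (fun τ : ℝ => f (τ : AddCircle (2 * Real.pi))) (f' x) x) →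
    (∀ x : ℝ, HasDerivAt (fun τ : ℝ => h (τ : AddCircle (2 * Real.pi))) (h' x) x) →
    (∀ x y : ℝ, |f' x - f' y| ≤ κ * |x - y|) → (∀ x y : ℝ, |h' x - h' y| ≤ κ * |x - y|) →
    (∀ x : ℝ, |f' x| ≤ 1 / 2) → (∀ θ, 0 ≤ h θ) →
    (∀ x : ℝ, 400 * (2 * h (x : AddCircle (2 * Real.pi)) + κ * w ^ 2) ≤ w) →
    ∃ P : SkewPacking (PK.graphDomain f h), P.p = 2 ∧ ∀ lam : ℝ, 0 ≤ lam →
      P.bound lam ≤ ∑ i ∈ Finset.range m, w * Real.sqrt lam *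
        max 0 ((2 * h (((i + 1 / 2) * w : ℝ) : AddCircle (2 * Real.pi)) + κ * w ^ 2) *
          Real.sqrt lam - 1 / 32) / (8 * Real.pi)

/-- (Mid) the midpoint rule from below. -/
def SMid : Prop :=
  ∀ (h h' : ℝ → ℝ) (κ w a : ℝ), 0 < κ → 0 < w → (∀ x : ℝ, HasDerivAt h (h' x) x) →
    (∀ x y : ℝ, |h' x - h' y| ≤ κ * |x - y|) →
    2 * (w * h (a + w / 2)) ≤ 2 * (∫ x in a..(a + w), h x) + κ * w ^ 3 / 12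

end Pool.Agent.Work.MP_33c50c_an.SK
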